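import Pool.Agent.MP_0c8446_ag.DL.FormA

namespace Pool.Agent.MP_0c8446_ag

open MvPolynomial Set

universe u v w

variable {k : Type u} [Field k] {ι κ : Type} {n : ι → ℕ} {m : κ → ℕ}
  {d e : ι →₀ ℕ} {F G : MvPolynomial (Vars n) k}
  {Ω Ω' : Type u} [Field Ω] [Algebra k Ω] [Field Ω'] [Algebra k Ω']

theorem IsForm.vanish_iff (hF : IsForm d F) {v : Vars n → k} {x : MP k n} (hv : IsRep v x) :
    Vanish F x ↔ eval v F = 0 := by
  refine ⟨fun h => h v hv, fun h u hu => ?_⟩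
  obtain ⟨t, -, rfl⟩ := hv.exists_smul hu
  exact (hF.aeval_sc t v).trans (mul_eq_zero_of_right _ h)

theorem vanish_iff_mem_pI [Infinite k] [Finite ι] {v : Vars n → k} {x : MP k n} (hv : IsRep v x)
    {f : MvPolynomial (Vars n) k} : Vanish f x ↔ f ∈ pI k v := vanish_iff_orb hv f

theorem cmp_mem_vI [Infinite k] [Finite ι] {S : Set (MP k n)} {f : MvPolynomial (Vars n) k}
    (hf : f ∈ vI S) (d : ι →₀ ℕ) : cmp d f ∈ vI S := mem_vI.2 fun x hx =>
  ((isForm_cmp d f).vanish_iff (isRep_rep x)).2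
    (mem_pI_iff.1 ((vanish_iff_mem_pI (isRep_rep x)).1 (mem_vI.1 hf x hx)) d)

theorem IsRep.nzb {v : Vars n → k} {x : MP k n} (hv : IsRep v x) : NZb v := fun i =>
  Function.ne_iff.1 (hv i).1

theorem ParOn.refl (I : Set ι) (v : Vars n → Ω) : ParOn I v v := fun _ _ =>
  ⟨1, one_ne_zero, fun _ => (one_mul _).symm⟩

theorem ParOn.symm {I : Set ι} {v v' : Vars n → Ω} (h : ParOn I v v') : ParOn I v' v := fun i hi =>
  let ⟨t, ht, e⟩ := h i hi
  ⟨t⁻¹, inv_ne_zero ht, fun s => by rw [e s, inv_mul_cancel_left₀ ht]⟩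

theorem ParOn.trans {I : Set ι} {v v' v'' : Vars n → Ω} (h : ParOn I v v') (h' : ParOn I v' v'') :
    ParOn I v v'' := fun i hi =>
  let ⟨t, ht, e⟩ := h i hi
  let ⟨t', ht', e'⟩ := h' i hi
  ⟨t' * t, mul_ne_zero ht' ht, fun s => by rw [e' s, e s, mul_assoc]⟩

theorem ParOn.mono {I I' : Set ι} {v v' : Vars n → Ω} (h : ParOn I v v') (hI : I' ⊆ I) :
    ParOn I' v v' := fun i hi => h i (hI hi)

theorem ParOn.map {I : Set ι} {v v' : Vars n → Ω} (h : ParOn I v v') (φ : Ω →ₐ[k] Ω') :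
    ParOn I (fun a => φ (v a)) fun a => φ (v' a) := fun i hi =>
  let ⟨t, ht, e⟩ := h i hi
  ⟨φ t, (map_ne_zero φ).2 ht, fun s => (congrArg φ (e s)).trans (map_mul φ _ _)⟩

theorem parOn_sc (I : Set ι) {t : ι → Ω} (ht : ∀ i, t i ≠ 0) (v : Vars n → Ω) :
    ParOn I v (sc t v) := fun i _ => ⟨t i, ht i, fun _ => rfl⟩

theorem ParOn.exists_sc {v v' : Vars n → Ω} (h : ParOn univ v v') :
    ∃ t : ι → Ω, (∀ i, t i ≠ 0) ∧ v' = sc t v := by
  choose t ht e using fun i => h i (mem_univ i)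
  exact ⟨t, ht, funext fun a => e a.1 a.2⟩

theorem ParOn.nzb {v v' : Vars n → Ω} (h : ParOn univ v v') (hv : NZb v) : NZb v' := fun i =>
  let ⟨_, ht, e⟩ := h i (mem_univ i)
  let ⟨s, hs⟩ := hv i
  ⟨s, e s ▸ mul_ne_zero ht hs⟩

theorem ParOn.isRep {v v' : Vars n → k} (h : ParOn univ v v') {x : MP k n} (hv : IsRep v x) :
    IsRep v' x := by
  obtain ⟨t, ht, rfl⟩ := h.exists_sc
  exact hv.smul t ht

theorem IsRep.parOn {v v' : Vars n → k} {x : MP k n} (hv : IsRep v x) (hv' : IsRep v' x) :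
    ParOn univ v v' := by
  obtain ⟨t, ht, rfl⟩ := hv.exists_smul hv'
  exact parOn_sc _ ht v

theorem ParOn.blin {I : Set ι} {v v' : Vars n → Ω} (h : ParOn I v v')
    (M : ∀ i, Matrix (Fin (n i + 1)) (Fin (n i + 1)) k) : ParOn I (blin M v) (blin M v') := fun i hi =>
  let ⟨t, ht, e⟩ := h i hi
  ⟨t, ht, fun s => by
    simp only [MP_0c8446_ag.blin, e, Finset.mul_sum, mul_smul_comm]⟩

theorem NZb.map {v : Vars n → Ω} (hv : NZb v) (φ : Ω →ₐ[k] Ω') : NZb fun a => φ (v a) := fun i =>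
  let ⟨s, hs⟩ := hv i
  ⟨s, (map_ne_zero φ).2 hs⟩

theorem Form_le {v v' : Vars n → Ω} (h : ParOn univ v v') : pI k v ≤ pI k v' := by
  obtain ⟨t, -, rfl⟩ := h.exists_sc
  exact pI_le_iff.2 fun d F hF h0 => by rw [hF.aeval_sc, h0, mul_zero]

theorem ParOn.pI_eq {v v' : Vars n → Ω} (h : ParOn univ v v') : pI k v' = pI k v := (Form_le h.symm).antisymm (Form_le h)

/-- Forms of a degree supported in `I` are all multiplied by the same scalar. -/
theorem ParOn.exists_aeval {I : Set ι} {v v' : Vars n → Ω} (h : ParOn I v v')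
    (hd : ∀ i ∉ I, d i = 0) :
    ∃ c : Ω, c ≠ 0 ∧ ∀ F : MvPolynomial (Vars n) k, IsForm d F → aeval v' F = c * aeval v F := by
  classical
  choose t ht e using h
  have key : ∀ (u : ι → Ω), (∀ i ∈ I, u i = 1) → (d.prod fun i r => u i ^ r) = 1 := fun u hu =>
    Finset.prod_eq_one fun i hi => by
      simp only [hu i (by_contra fun h => Finsupp.mem_support_iff.1 hi (hd i h)), one_pow]
  refine ⟨d.prod fun i r => (if hi : i ∈ I then t i hi else 0) ^ r,
    Finset.prod_ne_zero_iff.2 fun i hi => ?_, fun F hF => ?_⟩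
  · have hi' : i ∈ I := by_contra fun h => Finsupp.mem_support_iff.1 hi (hd i h)
    exact pow_ne_zero _ (by rw [dif_pos hi']; exact ht i hi')
  · have h1 := hF.aeval_sc (fun i => if i ∈ I then (1 : Ω) else 0) v'
    rw [key _ fun i hi => if_pos hi, one_mul] at h1
    rw [← h1, ← hF.aeval_sc]
    congr 2
    funext ⟨i, s⟩
    by_cases hi : i ∈ I <;> simp [sc, hi]
    exact e i hi s

/-- Clearing denominators in a polynomial in ratios of forms. -/
theorem exists_form_frac {τ : Type} [Fintype τ] {d : τ → ι →₀ ℕ}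
    {F G : τ → MvPolynomial (Vars n) k} (hF : ∀ s, IsForm (d s) (F s))
    (hG : ∀ s, IsForm (d s) (G s)) (f : MvPolynomial τ k) :
    ∃ (D : ℕ) (H : MvPolynomial (Vars n) k), IsForm (D • ∑ s, d s) H ∧
      ∀ (Ω : Type u) [Field Ω] [Algebra k Ω] (v : Vars n → Ω), (∀ s, aeval v (G s) ≠ 0) →
        aeval v H = (∏ s, aeval v (G s)) ^ D * aeval (fun s => aeval v (F s) / aeval v (G s)) f :=
  by
  classical
  have hP := IsForm.prod Finset.univ fun s _ => hG s
  induction f using MvPolynomial.induction_on with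
  | C a => exact ⟨0, C a, by simpa using isForm_C a, fun Ω _ _ v _ => by simp⟩
  | add p q hp hq =>
    obtain ⟨D, H, h1, h2⟩ := hp
    obtain ⟨D', H', h1', h2'⟩ := hq
    refine ⟨D + D', H * (∏ s, G s) ^ D' + (∏ s, G s) ^ D * H', ?_, fun Ω _ _ v hv => ?_⟩
    · rw [add_nsmul]
      exact (h1.mul (hP.pow D')).add ((hP.pow D).mul h1')
    · simp only [map_add, map_mul, map_pow, map_prod, h2 Ω v hv, h2' Ω v hv]
      ring
  | mul_X p s hp =>
    obtain ⟨D, H, h1, h2⟩ := hp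
    refine ⟨D + 1, H * (F s * ∏ s' ∈ Finset.univ.erase s, G s'), ?_, fun Ω _ _ v hv => ?_⟩
    · rw [succ_nsmul]
      refine h1.mul ?_
      rw [← Finset.add_sum_erase _ _ (Finset.mem_univ s)]
      exact (hF s).mul (IsForm.prod _ fun s _ => hG s)
    · simp only [map_mul, map_prod, h2 Ω v hv, aeval_X, pow_succ]
      rw [← Finset.mul_prod_erase _ _ (Finset.mem_univ s)]
      have := hv s
      field_simp

end Pool.Agent.MP_0c8446_ag
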