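import Pool.Agent.MP_0c8446_ag.DL.PlB
import Pool.Agent.MP_0c8446_ag.DL.Form

namespace Pool.Agent.MP_0c8446_ag

open MvPolynomial Set Matrix

universe u v w

variable {k : Type u} [Field k] {n : ℕ} {b : Fin n → ℕ} {g g' g'' : Matrix (Fin n) (Fin n) k}

theorem RlA0_det (hg : IsUnit g) : IsUnit g.det := (Matrix.isUnit_iff_isUnit_det g).1 hg

theorem RlA0_inv (hg : IsUnit g) : IsUnit g⁻¹ := Matrix.isUnit_nonsing_inv_iff.2 hg

theorem RlA0_tri {m : Matrix (Fin n) (Fin n) k} (hm : IsUnit m) (h : m.BlockTriangular b) :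
    m⁻¹.BlockTriangular b := by
  let := hm.invertible
  exact blockTriangular_inv_of_blockTriangular h

theorem RlA0_map {Ω : Type u} [Field Ω] (φ : k →+* Ω) (hg : IsUnit g) : IsUnit (g.map φ) :=
  hg.map φ.mapMatrix

theorem RlA0_invD (g : Matrix (Fin n) (Fin n) k) : (dualM g)⁻¹ = g⁻¹⁻¹ᵀ.submatrix Fin.rev id := by
  rw [transpose_nonsing_inv]
  exact inv_submatrix_equiv g⁻¹ᵀ (Equiv.refl _) Fin.revPerm

theorem RlA0_frob {uni : Bool} {q : ℕ} [PQ k q] (g : Matrix (Fin n) (Fin n) k) :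
    frobFlag uni q g = if uni then dualM (g.map (frobHom k q)) else g.map (frobHom k q) := by
  cases uni <;> rfl

theorem Rl.refl (b : Fin n → ℕ) (hg : IsUnit g) : Rl b g g := by
  rw [Rl, nonsing_inv_mul _ (RlA0_det hg)]
  exact blockTriangular_one

theorem Rl.symm (h : Rl b g g') (hg : IsUnit g) (hg' : IsUnit g') : Rl b g' g := by
  have h1 := RlA0_tri ((RlA0_inv hg).mul hg') h
  rwa [Matrix.mul_inv_rev, nonsing_inv_nonsing_inv _ (RlA0_det hg)] at h1

theorem Rl.trans (h : Rl b g g') (h' : Rl b g' g'') (hg' : IsUnit g') : Rl b g g'' := by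
  have h1 := BlockTriangular.mul h h'
  rwa [Matrix.mul_assoc, mul_nonsing_inv_cancel_left _ _ (RlA0_det hg')] at h1

theorem Rl.toBlk (h : Rl Fin.val g g') (s : ℕ) : Rl (blk n s) g g' := by
  refine fun i j hij => h (?_ : (j : ℕ) < i)
  simp only [blk] at hij
  split_ifs at hij <;> omega

theorem rl_mul_left {γ : Matrix (Fin n) (Fin n) k} (hγ : IsUnit γ) :
    Rl b (γ * g) (γ * g') ↔ Rl b g g' := by
  rw [Rl, Rl, Matrix.mul_inv_rev, Matrix.mul_assoc,
    nonsing_inv_mul_cancel_left _ _ (RlA0_det hγ)]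

theorem rl_mul_right (hg : IsUnit g) {m : Matrix (Fin n) (Fin n) k} :
    Rl b g (g * m) ↔ m.BlockTriangular b := by
  rw [Rl, nonsing_inv_mul_cancel_left _ _ (RlA0_det hg)]

theorem Rl.map {Ω : Type u} [Field Ω] (φ : k →+* Ω) (h : Rl b g g') (hg : IsUnit g) :
    Rl b (g.map φ) (g'.map φ) := by
  rw [Rl, map_inv_of_isUnit φ hg, ← Matrix.map_mul]
  intro i j hij
  rw [map_apply, h hij, map_zero]

theorem isUnit_submatrix (hg : IsUnit g) (y : Equiv.Perm (Fin n)) :
    IsUnit (g.submatrix id y) :=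
  (isUnit_submatrix_equiv (Equiv.refl _) y).2 hg

theorem isUnit_dualM (hg : IsUnit g) : IsUnit (dualM g) :=
  isUnit_submatrix (y := Fin.revPerm) ((isUnit_transpose _).2 (RlA0_inv hg))

theorem dualM_dualM (hg : IsUnit g) : dualM (dualM g) = g := by
  rw [dualM, RlA0_invD, nonsing_inv_nonsing_inv _ (RlA0_det hg)]
  ext i j
  simp

theorem dualM_map {Ω : Type u} [Field Ω] (φ : k →+* Ω) (hg : IsUnit g) :
    (dualM g).map φ = dualM (g.map φ) := by
  rw [dualM, dualM, map_inv_of_isUnit φ hg]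
  rfl

theorem dualM_mul (γ g : Matrix (Fin n) (Fin n) k) : dualM (γ * g) = γ⁻¹ᵀ * dualM g := by
  rw [dualM, dualM, Matrix.mul_inv_rev, transpose_mul]
  rfl

theorem dualM_submatrix (hg : IsUnit g) (y : Equiv.Perm (Fin n)) :
    dualM (g.submatrix id y) = g⁻¹ᵀ.submatrix id fun b => y b.rev := by
  have h : (g.submatrix id y)⁻¹ = g⁻¹.submatrix y id := inv_submatrix_equiv g (Equiv.refl _) y
  rw [dualM, h]
  rfl

theorem Rl.dual (h : Rl Fin.val g g') (hg : IsUnit g) (hg' : IsUnit g') :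
    Rl Fin.val (dualM g) (dualM g') := by
  have h1 := h.symm hg hg'
  have h2 : (dualM g)⁻¹ * dualM g' = (g'⁻¹ * g)ᵀ.submatrix Fin.rev Fin.rev := by
    rw [RlA0_invD, nonsing_inv_nonsing_inv _ (RlA0_det hg), transpose_mul]
    rfl
  rw [Rl, h2]
  intro i j hij
  refine h1 (?_ : (i.rev : ℕ) < j.rev)
  have := i.2
  simp only [Fin.val_rev]
  omega

variable {uni : Bool} {q : ℕ}

theorem isUnit_frH [PQ k q] (hg : IsUnit g) : IsUnit (frH k n uni q g) := hg.map _

theorem frobFlag_eq [PQ k q] (g : Matrix (Fin n) (Fin n) k) :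
    frobFlag uni q g = (frH k n uni q g).submatrix id
      ⇑(if uni then (Fin.revPerm : Equiv.Perm (Fin n)) else 1) := by
  cases uni <;> rfl

theorem isUnit_frobFlag [PQ k q] (hg : IsUnit g) : IsUnit (frobFlag uni q g) := by
  rw [frobFlag_eq]
  exact isUnit_submatrix (isUnit_frH hg) _

theorem frobFlag_mul [PQ k q] (γ g : Matrix (Fin n) (Fin n) k) :
    frobFlag uni q (γ * g) = frH k n uni q γ * frobFlag uni q g := by
  rw [frobFlag_eq, frobFlag_eq, map_mul]
  rfl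

theorem Rl.frob [PQ k q] (h : Rl Fin.val g g') (hg : IsUnit g) (hg' : IsUnit g') :
    Rl Fin.val (frobFlag uni q g) (frobFlag uni q g') := by
  rw [RlA0_frob, RlA0_frob]
  cases uni
  · exact h.map _ hg
  · exact (h.map _ hg).dual (RlA0_map _ hg) (RlA0_map _ hg')

end Pool.Agent.MP_0c8446_ag
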