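import Pool.Agent.MP_0c8446_ag.DL.GFrA

namespace Pool.Agent.MP_0c8446_ag

open MvPolynomial Set Matrix

universe u v w

variable {k : Type u} [Field k] {Ω : Type u} [Field Ω] [Algebra k Ω] {n r : ℕ} {uni : Bool} {q : ℕ}
  [PQ k q] {w : Fin r → ℕ} {y : Fin (r + 1) → Equiv.Perm (Fin n)} {h h' : GS r n → Ω}
  {N : Fin n → ℕ} (c : ∀ a : Fin n, Fin (N a + 1) ≃ (Fin (a + 1) → Fin n))

theorem GFr_sub {g g' : Matrix (Fin n) (Fin n) Ω} (y : Equiv.Perm (Fin n)) :
    Rl Fin.val (g.submatrix id y) (g'.submatrix id y) ↔ (g⁻¹ * g').BlockTriangular y.symm := by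
  have e : (g.submatrix id y)⁻¹ * g'.submatrix id y = (g⁻¹ * g').submatrix y y := by
    rw [show g.submatrix id y = g.submatrix (Equiv.refl _) y from rfl, inv_submatrix_equiv]
    rfl
  rw [Rl, e]
  exact ⟨fun H a b l => by simpa using @H (y.symm a) (y.symm b) l,
    fun H a b l => H (by simpa using l)⟩

theorem parOn_pvJoin {ι κ : Type} {n : ι → ℕ} {m : κ → ℕ} {v v' : Vars n → Ω} {u u' : Vars m → Ω} :
    ParOn univ (pvJoin v u) (pvJoin v' u') ↔ ParOn univ v v' ∧ ParOn univ u u' :=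
  ⟨fun h => ⟨fun i _ => h (.inl i) trivial, fun i _ => h (.inr i) trivial⟩,
    fun h i _ => match i with
      | .inl i => h.1 i trivial
      | .inr i => h.2 i trivial⟩

theorem parOn_ptY (h1 : ∀ j, mM h j * mI h j = 1) (h2 : ∀ j, mM h' j * mI h' j = 1) :
    ParOn univ (ptY c y h) (ptY c y h') ↔ ∀ j, ((mM h j)⁻¹ * mM h' j).BlockTriangular Fin.val ∧
      ((mM h j)⁻¹ * mM h' j).BlockTriangular (y j).symm := by
  rw [ptY, ptY, parOn_pvJoin, parOn_plV c (fun j => (mI_eq h1 j).1) (fun j => (mI_eq h2 j).1),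
    parOn_plV c (fun j => (secM_eq h1 j).1) (fun j => (secM_eq h2 j).1), ← forall_and]
  refine forall_congr' fun j => and_congr_right fun _ => ?_
  have u := isUnit_submatrix (mI_eq h1 j).1 (y j)
  have u' := isUnit_submatrix (mI_eq h2 j).1 (y j)
  rw [← GFr_sub, (secM_eq h1 j).2.2, (secM_eq h2 j).2.2]
  refine ⟨fun H => ?_, fun H => H.dual u u'⟩
  simpa only [dualM_dualM u, dualM_dualM u'] using H.dual (isUnit_dualM u) (isUnit_dualM u')

/-- The frame given by common bases of two chains. -/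
theorem frY_mk {g g' H : Fin (r + 1) → Matrix (Fin n) (Fin n) Ω} (hg : IsChain' uni q w g)
    (hg' : IsChain' uni q w g') (hH : ∀ j, IsUnit (H j)) (h1 : ∀ j, Rl Fin.val (g j) (H j))
    (h2 : ∀ j, Rl Fin.val (dualM (g' j)) ((H j).submatrix id (y j))) :
    (glFr k uni q (zY uni w y)).Fr (mkF H fun j => (H j)⁻¹) ∧
      ParOn univ (ptY c y (mkF H fun j => (H j)⁻¹)) (pvJoin (plV c g) (plV c g')) := by
  have := PQ.ext k q Ω
  have e : ∀ j, mM (mkF H fun j => (H j)⁻¹) j * mI (mkF H fun j => (H j)⁻¹) j = 1 := fun j =>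
    mul_nonsing_inv _ ((Matrix.isUnit_iff_isUnit_det _).1 (hH j))
  have s : ∀ j, Rl Fin.val (g' j) (secM y (mkF H fun j => (H j)⁻¹) j) := fun j => by
    have := (h2 j).dual (isUnit_dualM (hg'.1 j)) (isUnit_submatrix (hH j) _)
    rwa [dualM_dualM (hg'.1 j), ← mM_mkF H (fun j => (H j)⁻¹), ← (secM_eq e j).2.2] at this
  refine ⟨frY_iff.2 ⟨e, hg.congr hH h1, hg'.congr (fun j => (secM_eq e j).1) s⟩,
    parOn_pvJoin.2 ⟨(parOn_plV c hH hg.1).2 fun j => (h1 j).symm (hg.1 j) (hH j),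
      (parOn_plV c (fun j => (secM_eq e j).1) hg'.1).2 fun j =>
        (s j).symm (hg'.1 j) (secM_eq e j).1⟩⟩

/-- Changing a frame by matrices that fix both flags. -/
theorem frY_move (hh : (glFr k uni q (zY uni w y)).Fr h)
    {m m' : Fin (r + 1) → Matrix (Fin n) (Fin n) Ω} (hm : ∀ j, m j * m' j = 1)
    (h1 : ∀ j, (m j).BlockTriangular Fin.val) (h2 : ∀ j, (m j).BlockTriangular (y j).symm) :
    (glFr k uni q (zY uni w y)).Fr (mkF (fun j => mM h j * m j) fun j => m' j * mI h j) ∧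
      ParOn univ (ptY c y h) (ptY c y (mkF (fun j => mM h j * m j) fun j => m' j * mI h j)) := by
  have := PQ.ext k q Ω
  obtain ⟨e, c1, c2⟩ := frY_iff.1 hh
  have e' : ∀ j, mM (mkF (fun j => mM h j * m j) fun j => m' j * mI h j) j *
      mI (mkF (fun j => mM h j * m j) fun j => m' j * mI h j) j = 1 := fun j => by
    rw [mM_mkF, mI_mkF, mul_assoc, ← mul_assoc (m j), hm, one_mul, e]
  have p := (parOn_ptY c (y := y) e e').2 fun j => by
    rw [mM_mkF, nonsing_inv_mul_cancel_left _ _ ((Matrix.isUnit_iff_isUnit_det _).1 (c1.1 j))]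
    exact ⟨h1 j, h2 j⟩
  obtain ⟨p1, p2⟩ := parOn_pvJoin.1 p
  have u := fun j => (mI_eq e' j).1
  have u' := fun j => (secM_eq (y := y) e' j).1
  exact ⟨frY_iff.2 ⟨e', c1.congr u ((parOn_plV c c1.1 u).1 p1),
    c2.congr u' ((parOn_plV c c2.1 u').1 p2)⟩, p⟩

end Pool.Agent.MP_0c8446_ag
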