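import Pool.Agent.MP_0c8446_ag.DL.IwaA

namespace Pool.Agent.MP_0c8446_ag

open MvPolynomial Set Matrix

universe u v w

variable {k : Type u} [Field k] {Ω Ω' : Type u} [Field Ω] [Algebra k Ω] [Field Ω'] [Algebra k Ω']
  (Pl : Place k Ω Ω') {n : ℕ}

/-- Extending a family of integral vectors with independent reductions. -/
theorem Place.exists_snoc {c : ℕ} {u : Fin c → Fin n → Ω} (hu : ∀ m i, u m i ∈ Pl.O)
    (hi : LinearIndependent Ω' fun m i => Pl.red (u m i)) {x : Fin n → Ω}
    (hx : x ∉ Submodule.span Ω (range u)) :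
    ∃ (x' : Fin n → Ω) (t : Ω), t ≠ 0 ∧ x' - t • x ∈ Submodule.span Ω (range u) ∧
      (∀ i, x' i ∈ Pl.O) ∧ (fun i => Pl.red (x' i)) ∉
        Submodule.span Ω' (range fun m i => Pl.red (u m i)) := by
  obtain ⟨α, hα⟩ := pl_ne_zero_iff.2 hi
  set A : Matrix (Fin c) (Fin c) Ω := Matrix.of fun l m => u m (α l) with hA
  have hA' : IsUnit (A.map Pl.red) := by
    rw [Matrix.isUnit_iff_isUnit_det, isUnit_iff_ne_zero]
    exact hα
  have hAu : IsUnit A := (Pl.inv_mem_matrix (A := A) (fun a b => hu _ _) hA').1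
  set a : Fin c → Ω := A⁻¹ *ᵥ fun l => x (α l) with ha
  have hy : (∑ m, a m • u m) ∈ Submodule.span Ω (range u) :=
    Submodule.sum_mem _ fun m _ => Submodule.smul_mem _ _ (Submodule.subset_span ⟨m, rfl⟩)
  set y : Fin n → Ω := ∑ m, a m • u m with hyd
  have hz : ∀ l, (x - y) (α l) = 0 := by
    intro l
    have h1 : A *ᵥ a = fun l => x (α l) := by
      rw [ha, Matrix.mulVec_mulVec,
        Matrix.mul_nonsing_inv _ ((Matrix.isUnit_iff_isUnit_det A).1 hAu), Matrix.one_mulVec]
    have h2 := congrFun h1 l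
    rw [Pi.sub_apply, ← h2, hyd]
    simp [Matrix.mulVec, dotProduct, hA, mul_comm]
  have hne : ∃ s, (x - y) s ≠ 0 := by
    by_contra h
    push Not at h
    have : x = y := sub_eq_zero.1 (funext h)
    exact hx (this ▸ hy)
  obtain ⟨s, hs, hmax⟩ := Pl.exists_max hne
  refine ⟨fun i => (x - y) i / (x - y) s, ((x - y) s)⁻¹, inv_ne_zero hs, ?_, hmax, fun h => ?_⟩
  · have : (fun i => (x - y) i / (x - y) s) - ((x - y) s)⁻¹ • x = (-((x - y) s)⁻¹) • y := by
      funext i
      simp only [Pi.sub_apply, Pi.smul_apply, smul_eq_mul, div_eq_mul_inv]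
      ring
    rw [this]
    exact Submodule.smul_mem _ _ hy
  · obtain ⟨b, hb⟩ := (Submodule.mem_span_range_iff_exists_fun Ω').1 h
    have h1 : (A.map Pl.red) *ᵥ b = 0 := by
      funext l
      have h2 := congrFun hb (α l)
      simp only [hz l, zero_div, Pl.red_zero] at h2
      rw [Pi.zero_apply, ← h2]
      simp [Matrix.mulVec, dotProduct, hA, mul_comm]
    have h2 : b = 0 := by
      have h3 := congrArg ((A.map Pl.red)⁻¹ *ᵥ ·) h1
      simpa only [Matrix.mulVec_mulVec,
        Matrix.nonsing_inv_mul _ ((Matrix.isUnit_iff_isUnit_det _).1 hA'), Matrix.one_mulVec,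
        Matrix.mulVec_zero] using h3
    have h3 := congrFun hb s
    simp only [div_self hs, Pl.red_one, h2] at h3
    simp at h3

theorem Place.iwa_snoc {c : ℕ} {u : Fin c → Fin n → Ω} {x : Fin n → Ω}
    (hi : LinearIndependent Ω' fun m i => Pl.red (u m i))
    (hx : (fun i => Pl.red (x i)) ∉ Submodule.span Ω' (range fun m i => Pl.red (u m i))) :
    LinearIndependent Ω' fun m i => Pl.red ((Fin.snoc u x : Fin (c + 1) → Fin n → Ω) m i) := by
  have e : (fun m i => Pl.red ((Fin.snoc u x : Fin (c + 1) → Fin n → Ω) m i)) =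
      (Fin.snoc (fun m i => Pl.red (u m i)) (fun i => Pl.red (x i)) :
        Fin (c + 1) → Fin n → Ω') := by
    funext m
    refine Fin.lastCases ?_ (fun m => ?_) m <;> simp
  rw [e, linearIndependent_finSnoc]
  exact ⟨hi, hx⟩

/-- Every subspace has an integral basis with independent reduction. -/
theorem Place.exists_basis (U : Submodule Ω (Fin n → Ω)) :
    ∃ u : Fin (Module.finrank Ω U) → Fin n → Ω, (∀ m, u m ∈ U) ∧ (∀ m i, u m i ∈ Pl.O) ∧
      LinearIndependent Ω' fun m i => Pl.red (u m i) := by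
  have key : ∀ c, c ≤ Module.finrank Ω U → ∃ u : Fin c → Fin n → Ω, (∀ m, u m ∈ U) ∧
      (∀ m i, u m i ∈ Pl.O) ∧ LinearIndependent Ω' fun m i => Pl.red (u m i) := by
    intro c
    induction c with
    | zero => exact fun _ => ⟨Fin.elim0, fun m => m.elim0, fun m => m.elim0,
        linearIndependent_empty_type⟩
    | succ c ih =>
      intro hc
      obtain ⟨u, hU, hO, hi⟩ := ih (by omega)
      have hle : Submodule.span Ω (range u) ≤ U := Submodule.span_le.2 (range_subset_iff.2 hU)
      have hex : ∃ x ∈ U, x ∉ Submodule.span Ω (range u) := by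
        by_contra h
        push Not at h
        have h1 : Module.finrank Ω U ≤ Module.finrank Ω (Submodule.span Ω (range u)) :=
          Submodule.finrank_mono h
        have h2 := finrank_range_le_card (R := Ω) u
        rw [Fintype.card_fin, Set.finrank] at h2
        omega
      obtain ⟨x, hxU, hx⟩ := hex
      obtain ⟨x', t, -, h1, h2, h3⟩ := Pl.exists_snoc hO hi hx
      refine ⟨Fin.snoc u x', fun m => ?_, fun m => ?_, Pl.iwa_snoc hi h3⟩
      · refine Fin.lastCases ?_ (fun m => ?_) m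
        · rw [Fin.snoc_last]
          have := U.add_mem (hle h1) (U.smul_mem t hxU)
          rwa [sub_add_cancel] at this
        · rw [Fin.snoc_castSucc]; exact hU m
      · refine Fin.lastCases ?_ (fun m => ?_) m
        · rw [Fin.snoc_last]; exact h2
        · rw [Fin.snoc_castSucc]; exact hO m
  exact key _ le_rfl

/-- The Iwasawa decomposition. -/
theorem Place.exists_iwasawa {g : Matrix (Fin n) (Fin n) Ω} (hg : IsUnit g) :
    ∃ G, Pl.IG G ∧ Rl Fin.val g G := by
  have key : ∀ c, c ≤ n → ∃ u : Fin c → Fin n → Ω, (∀ m : Fin c, u m ∈ flg g (m + 1)) ∧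
      (∀ m i, u m i ∈ Pl.O) ∧ LinearIndependent Ω' fun m i => Pl.red (u m i) := by
    intro c
    induction c with
    | zero => exact fun _ => ⟨Fin.elim0, fun m => m.elim0, fun m => m.elim0,
        linearIndependent_empty_type⟩
    | succ c ih =>
      intro hc
      obtain ⟨u, hU, hO, hi⟩ := ih (by omega)
      have hle : Submodule.span Ω (range u) ≤ flg g c :=
        Submodule.span_le.2 (range_subset_iff.2 fun m => flg_mono g m.2 (hU m))
      have hx : (fun i => g i ⟨c, hc⟩) ∉ Submodule.span Ω (range u) := by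
        intro h
        have h1 := (mem_flg_iff hg).1 (hle h) ⟨c, hc⟩ le_rfl
        have h2 : (g⁻¹ * g) ⟨c, hc⟩ ⟨c, hc⟩ = 0 := h1
        rw [Matrix.nonsing_inv_mul _ ((Matrix.isUnit_iff_isUnit_det _).1 hg),
          Matrix.one_apply_eq] at h2
        exact one_ne_zero h2
      obtain ⟨x', t, -, h1, h2, h3⟩ := Pl.exists_snoc hO hi hx
      refine ⟨Fin.snoc u x', fun m => ?_, fun m => ?_, Pl.iwa_snoc hi h3⟩
      · refine Fin.lastCases ?_ (fun m => ?_) m
        · rw [Fin.snoc_last, Fin.val_last]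
          have := (flg g (c + 1)).add_mem (flg_mono g (Nat.le_succ c) (hle h1))
            ((flg g (c + 1)).smul_mem t (col_mem_flg g (l := ⟨c, hc⟩) (Nat.lt_succ_self c)))
          rwa [sub_add_cancel] at this
        · rw [Fin.snoc_castSucc]; exact hU m
      · refine Fin.lastCases ?_ (fun m => ?_) m
        · rw [Fin.snoc_last]; exact h2
        · rw [Fin.snoc_castSucc]; exact hO m
  obtain ⟨u, hU, hO, hi⟩ := key n le_rfl
  refine ⟨Matrix.of fun i m => u m i, ⟨fun a b => hO b a, ?_⟩, (rl_iff_col hg).2 hU⟩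
  exact Matrix.linearIndependent_cols_iff_isUnit.1 hi

end Pool.Agent.MP_0c8446_ag
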