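import Pool.Agent.MP_0c8446_ag.DL.Rk2B

namespace Pool.Agent.MP_0c8446_ag

open MvPolynomial Set

universe u v w

variable {k : Type u} [Field k] {Ω Ω' : Type u} [Field Ω] [Algebra k Ω] [Field Ω'] [Algebra k Ω']
  {σ τ : Type} {x : σ → Ω} {y : σ → Ω'}

variable {ι : Type} {n : ι → ℕ} {v : Vars n → Ω} {u : Vars n → Ω'} {d : τ → ι →₀ ℕ}
  {F G : τ → MvPolynomial (Vars n) k}

theorem kr_frac_le [Fintype τ] (hF : ∀ s, IsForm (d s) (F s)) (hG : ∀ s, IsForm (d s) (G s))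
    (h : pI k v ≤ pI k u) (hu : ∀ s, aeval u (G s) ≠ 0) :
    kr k (fun s => aeval v (F s) / aeval v (G s)) ≤
      kr k fun s => aeval u (F s) / aeval u (G s) := by
  intro f hf
  obtain ⟨D, H, hH, e⟩ := exists_form_frac hF hG f
  have hv : ∀ s, aeval v (G s) ≠ 0 := fun s h0 => hu s (pI_le_iff.1 h _ _ (hG s) h0)
  have h1 : aeval v H = 0 := by rw [e Ω v hv, mem_kr.1 hf, mul_zero]
  have h2 := pI_le_iff.1 h _ _ hH h1
  rw [e Ω' u hu] at h2
  exact mem_kr.2 ((mul_eq_zero.1 h2).resolve_left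
    (pow_ne_zero _ (Finset.prod_ne_zero_iff.2 fun s _ => hu s)))

/-- The ratios with fixed denominators. -/
noncomputable def rk2Nr (I : Set ι) (s₀ : ∀ i, Fin (n i + 1)) (v : Vars n → Ω) :
    {a : Vars n // a.1 ∈ I} → Ω :=
  fun a => v a.1 / v ⟨a.1.1, s₀ a.1.1⟩

theorem rk2_ne {s₀ : ∀ i, Fin (n i + 1)} (h : pI k v ≤ pI k u) (hs : ∀ i, u ⟨i, s₀ i⟩ ≠ 0)
    (i : ι) : v ⟨i, s₀ i⟩ ≠ 0 := fun h0 => hs i (by
  have := pI_le_iff.1 h _ _ (isForm_X (k := k) (n := n) ⟨i, s₀ i⟩) (by rw [aeval_X]; exact h0)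
  rwa [aeval_X] at this)

theorem rk2_kr [Finite ι] [Fintype τ] (I : Set ι) {s₀ : ∀ i, Fin (n i + 1)}
    (hF : ∀ s, IsForm (d s) (F s)) (hG : ∀ s, IsForm (d s) (G s)) (h : pI k v ≤ pI k u)
    (hs : ∀ i, u ⟨i, s₀ i⟩ ≠ 0) (hu : ∀ s, aeval u (G s) ≠ 0) :
    kr k (Sum.elim (rk2Nr I s₀ v) fun s => aeval v (F s) / aeval v (G s)) ≤
      kr k (Sum.elim (rk2Nr I s₀ u) fun s => aeval u (F s) / aeval u (G s)) := by
  have := Fintype.ofFinite ({a : Vars n // a.1 ∈ I} ⊕ τ)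
  have key := kr_frac_le (k := k) (τ := {a : Vars n // a.1 ∈ I} ⊕ τ) (v := v) (u := u)
    (d := Sum.elim (fun a => Finsupp.single a.1.1 1) d)
    (F := Sum.elim (fun a => X a.1) F) (G := Sum.elim (fun a => X ⟨a.1.1, s₀ a.1.1⟩) G)
    (by rintro (a | s); exacts [isForm_X a.1, hF s])
    (by rintro (a | s); exacts [isForm_X ⟨a.1.1, s₀ a.1.1⟩, hG s]) h
    (by
      rintro (a | s)
      · rw [Sum.elim_inl, aeval_X]; exact hs _
      · exact hu s)
  convert key using 2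
  · funext s
    rcases s with a | s <;> simp [rk2Nr]
  · funext s
    rcases s with a | s <;> simp [rk2Nr]

theorem rk2_rk [Finite ι] [Finite τ] (I : Set ι) {s₀ : ∀ i, Fin (n i + 1)}
    (hs : ∀ i, v ⟨i, s₀ i⟩ ≠ 0) (z : τ → Ω) :
    rk k (range (Sum.elim (rk2Nr I s₀ v) z)) = rk k (rat I v ∪ range z) := by
  rw [Sum.elim_range]
  refine le_antisymm (rk_mono ((finite_rat I v).union (finite_range z))
    (union_subset_union_left _ ?_)) (rk_le_of_acl ((finite_range _).union (finite_range z))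
      (union_subset ((rat_subset_acl_norm s₀ fun i _ => hs i).trans (acl_mono subset_union_left))
        (subset_union_right.trans (subset_acl _))))
  rintro _ ⟨a, rfl⟩
  exact ⟨a.1.1, a.2, a.1.2, s₀ a.1.1, rfl⟩

theorem rk2_poly (I : Set ι) (s₀ : ∀ i, Fin (n i + 1)) (τ : Type) {e : ι →₀ ℕ}
    {H : MvPolynomial (Vars n) k} (hH : IsForm e H) (he : ∀ i ∉ I, e i = 0) :
    ∃ P : MvPolynomial ({a : Vars n // a.1 ∈ I} ⊕ τ) k,
      ∀ (Ω : Type u) [Field Ω] [Algebra k Ω] (v : Vars n → Ω) (z : τ → Ω),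
        (∀ i, v ⟨i, s₀ i⟩ ≠ 0) → (aeval (Sum.elim (rk2Nr I s₀ v) z) P = 0 ↔ aeval v H = 0) := by
  classical
  refine ⟨aeval (fun a : Vars n => if h : a.1 ∈ I then X (Sum.inl ⟨a, h⟩) else 0) H,
    fun Ω _ _ v z hs => ?_⟩
  have hp : ParOn I v fun a => if a.1 ∈ I then v a / v ⟨a.1, s₀ a.1⟩ else 0 := fun i hi =>
    ⟨(v ⟨i, s₀ i⟩)⁻¹, inv_ne_zero (hs i), fun s => by simp only [if_pos hi, div_eq_inv_mul]⟩
  obtain ⟨c, hc, e1⟩ := hp.exists_aeval (k := k) he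
  have e2 : (fun a : Vars n => aeval (R := k) (Sum.elim (rk2Nr I s₀ v) z)
      (if h : a.1 ∈ I then (X (Sum.inl ⟨a, h⟩) : MvPolynomial ({a : Vars n // a.1 ∈ I} ⊕ τ) k)
        else 0)) = fun a => if a.1 ∈ I then v a / v ⟨a.1, s₀ a.1⟩ else 0 := by
    funext a
    split_ifs with h
    · rw [aeval_X]; rfl
    · exact map_zero _
  rw [← AlgHom.comp_apply, comp_aeval, e2, e1 H hH, mul_eq_zero, or_iff_right hc]

theorem rk_sp_le [Finite ι] [Fintype τ] (I : Set ι) (hF : ∀ s, IsForm (d s) (F s))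
    (hG : ∀ s, IsForm (d s) (G s)) (h : pI k v ≤ pI k u) (hn : NZb u)
    (hu : ∀ s, aeval u (G s) ≠ 0) :
    rk k (rat I u ∪ range fun s => aeval u (F s) / aeval u (G s)) ≤
      rk k (rat I v ∪ range fun s => aeval v (F s) / aeval v (G s)) := by
  choose s₀ hs using hn
  rw [← rk2_rk I hs, ← rk2_rk I (rk2_ne h hs)]
  exact rk_le_of_kr (rk2_kr I hF hG h hs hu)

theorem rk_sp_lt [Finite ι] [Fintype τ] {I : Set ι} (hF : ∀ s, IsForm (d s) (F s))
    (hG : ∀ s, IsForm (d s) (G s)) (h : pI k v ≤ pI k u) (hn : NZb u)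
    (hu : ∀ s, aeval u (G s) ≠ 0) {e : ι →₀ ℕ} {H : MvPolynomial (Vars n) k} (hH : IsForm e H)
    (he : ∀ i ∉ I, e i = 0) (h1 : aeval u H = 0) (h2 : aeval v H ≠ 0) :
    rk k (rat I u ∪ range fun s => aeval u (F s) / aeval u (G s)) <
      rk k (rat I v ∪ range fun s => aeval v (F s) / aeval v (G s)) := by
  choose s₀ hs using hn
  rw [← rk2_rk I hs, ← rk2_rk I (rk2_ne h hs)]
  by_contra hlt
  have e1 := kr_eq_of_rk (rk2_kr I hF hG h hs hu) (not_lt.1 hlt)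
  obtain ⟨P, hP⟩ := rk2_poly I s₀ τ hH he
  have h3 := mem_kr.2 ((hP Ω' u (fun s => aeval u (F s) / aeval u (G s)) hs).2 h1)
  rw [← e1] at h3
  exact h2 ((hP Ω v _ (rk2_ne h hs)).1 (mem_kr.1 h3))

theorem rk_rat_le [Finite ι] (I : Set ι) (h : pI k v ≤ pI k u) (hn : NZb u) :
    rk k (rat I u) ≤ rk k (rat I v) := by
  have := rk_sp_le (τ := Empty) (d := Empty.elim) (F := Empty.elim) (G := Empty.elim) I
    (fun s => s.elim) (fun s => s.elim) h hn (fun s => s.elim)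
  simpa only [range_eq_empty, union_empty] using this

theorem rk_rat_lt [Finite ι] {I : Set ι} (h : pI k v ≤ pI k u) (hn : NZb u)
    {e : ι →₀ ℕ} {H : MvPolynomial (Vars n) k} (hH : IsForm e H) (he : ∀ i ∉ I, e i = 0)
    (h1 : aeval u H = 0) (h2 : aeval v H ≠ 0) : rk k (rat I u) < rk k (rat I v) := by
  have := rk_sp_lt (τ := Empty) (d := Empty.elim) (F := Empty.elim) (G := Empty.elim)
    (fun s => s.elim) (fun s => s.elim) h hn (fun s => s.elim) hH he h1 h2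
  simpa only [range_eq_empty, union_empty] using this

end Pool.Agent.MP_0c8446_ag
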