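import Pool.Agent.MP_0c8446_ag.DL.Locus
import Pool.Agent.MP_0c8446_ag.DL.Rk2

namespace Pool.Agent.MP_0c8446_ag

open MvPolynomial Set

universe u v w

variable {k : Type u} [Field k] [IsAlgClosed k] {Ω : Type u} [Field Ω] [Algebra k Ω]

lemma DimRk_lt {Ω' : Type u} [Field Ω'] [Algebra k Ω'] {X : Var k} {v : Vars X.n → Ω}
    {u : Vars X.n → Ω'} (hu : X.On u) (h : X.loc u ⊂ X.loc v) :
    rk k (rat univ u) < rk k (rat univ v) := by
  have h1 : ¬ pI k u ≤ pI k v := fun e => h.2 (Var.loc_subset e)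
  rw [pI_le_iff] at h1
  push Not at h1
  obtain ⟨d, F, hF, h2, h3⟩ := h1
  exact rk_rat_lt (hu.pI_le h.1) hu.1 hF (fun i hi => absurd (mem_univ i) hi) h2 h3

lemma DimRk_le {X : Var k} (r : ℕ) : ∀ (Ω : Type u) [Field Ω] [Algebra k Ω] (v : Vars X.n → Ω),
    HasChain (X.loc v) r → r ≤ rk k (rat univ v) := by
  induction r with
  | zero => exact fun _ _ _ _ _ => Nat.zero_le _
  | succ r ih =>
    rintro Ω _ _ v ⟨C, h1, h2⟩
    obtain ⟨Ω', _, _, -, u, hu, e⟩ := X.exists_generic (h2 (Fin.last r).castSucc).1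
    have h3 := ih Ω' u ⟨fun i => C i.castSucc, h1.comp Fin.strictMono_castSucc, fun i =>
      ⟨(h2 _).1, e ▸ h1.monotone (Fin.castSucc_le_castSucc_iff.2 (Fin.le_last i))⟩⟩
    exact h3.trans_lt (DimRk_lt hu (e ▸ (h1 (Fin.castSucc_lt_last _)).trans_le (h2 _).2))

omit [IsAlgClosed k] in
lemma DimRk_sub {T : Set Ω} (hT : T.Finite) {d : ℕ} (h : d ≤ rk k T) : ∃ S ⊆ T, rk k S = d := by
  induction T, hT using Set.Finite.induction_on with
  | empty => exact ⟨∅, subset_rfl, h.antisymm' (by rw [rk_empty]; exact Nat.zero_le _)⟩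
  | @insert x T _ hT ih =>
    by_cases h1 : d ≤ rk k T
    · obtain ⟨S, h2, h3⟩ := ih h1
      exact ⟨S, h2.trans (subset_insert _ _), h3⟩
    · have := rk_insert_le (k := k) hT x
      exact ⟨_, subset_rfl, by omega⟩

lemma DimRk_ge [IsAlgClosed Ω] {X : Var k} (d : ℕ) : ∀ v : Vars X.n → Ω, X.On v →
    d ≤ rk k (rat univ v) → HasChain (X.loc v) d := by
  induction d with
  | zero => exact fun v hv _ => hv.isSub.hasChain_zero subset_rfl
  | succ d ih =>
    intro v₀ hv₀ hd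
    obtain ⟨t, ht, -, h1⟩ := hv₀.1.exists_norm
    have hp := parOn_sc univ ht v₀
    have hv := hv₀.par hp
    rw [← hp.rat_eq] at hd
    rw [← Var.loc_par hp]
    generalize sc t v₀ = v at h1 hv hd
    have h2 : rk k (rat univ v) ≤ rk k (range v) := rk_le_of_acl (finite_range v) (by
      rintro _ ⟨i, -, s, s', rfl⟩
      exact div_mem_acl (subset_acl _ ⟨_, rfl⟩) (subset_acl _ ⟨_, rfl⟩))
    obtain ⟨S, hS, hr⟩ := DimRk_sub (k := k) (finite_range v) (d := d) (by omega)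
    obtain ⟨F, hF, hc⟩ := exists_aclF (k := k) S
    have := hc inferInstance
    obtain ⟨u, hu, hk⟩ := exists_retract F v (c := fun a : {a // v a ∈ F} => v a.1) fun a => a.2
    have h3 : ∀ a, v a ∈ F → u a = v a := fun a ha => by
      have := hk (x := MvPolynomial.X (.inl a) - MvPolynomial.X (.inr ⟨a, ha⟩)) (by simp [mem_kr])
      simpa [mem_kr, sub_eq_zero] using this
    have h4 : ∀ i, ∃ s, u ⟨i, s⟩ = 1 := fun i =>
      (h1 i).imp fun s hs => (h3 _ (hs ▸ F.one_mem)).trans hs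
    have h5 : NZb u := fun i => (h4 i).elim fun s hs => ⟨s, hs.trans_ne one_ne_zero⟩
    have h6 : pI k v ≤ pI k u := pI_le_of_kr_le (kr_comp_le hk Sum.inl)
    have h7 : rk k (rat univ u) ≤ d := hr ▸ rk_le_of_acl ((finite_range v).subset hS) (by
      rintro _ ⟨i, -, s, s', rfl⟩
      exact hF ▸ F.div_mem (hu _) (hu _))
    have h8 : d ≤ rk k (rat univ u) := hr ▸ rk_mono (finite_rat _ _) fun x hx => by
      obtain ⟨⟨i, s⟩, rfl⟩ := hS hx
      obtain ⟨s', e⟩ := h4 i
      refine ⟨i, mem_univ i, s, s', ?_⟩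
      rw [e, div_one, h3 _ (by rw [← SetLike.mem_coe, hF]; exact subset_acl _ hx)]
    refine (ih u (hv.of_le h5 h6) h8).succ ⟨Var.loc_subset h6, fun e => ?_⟩ hv.isSub
    have := rk_rat_le univ (hv.pI_le e) hv.1
    omega

/-- The dimension of a locus is the transcendence degree of its generic point. -/
theorem Var.On.dim_loc {X : Var k} {v : Vars X.n → Ω} (hv : X.On v) :
    dim (X.loc v) = rk k (rat univ v) := by
  refine (dim_le_of fun r => DimRk_le r Ω v).antisymm ?_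
  let φ := IsScalarTower.toAlgHom k Ω (AlgebraicClosure Ω)
  rw [← Var.loc_map φ]
  exact (DimRk_ge _ _ (hv.map φ) (by rw [rat_map, rk_image])).le_dim

end Pool.Agent.MP_0c8446_ag
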