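import Pool.Agent.MP_0c8446_ag.DL.Plc2A

namespace Pool.Agent.MP_0c8446_ag

open MvPolynomial Set

universe u v w

variable {k : Type u} [Field k] {Ω Ω' : Type u} [Field Ω] [Algebra k Ω] [Field Ω'] [Algebra k Ω']

theorem Plc2_ext [IsAlgClosed Ω'] (A : Subalgebra k Ω) {y : Ω} (hy : Transcendental A y)
    (ψ : A →ₐ[k] Ω') (a : Ω') : ∃ Pl : Place k Ω Ω',
      (∀ b : A, (b : Ω) ∈ Pl.O ∧ Pl.red b = ψ b) ∧ y ∈ Pl.O ∧ Pl.red y = a := by
  let ev : Polynomial A →ₐ[k] Ω := (Polynomial.aeval (R := A) y).restrictScalars k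
  have hev : Function.Injective ev := transcendental_iff_injective.1 hy
  let χ : Polynomial A →ₐ[k] Ω' := Polynomial.eval₂AlgHom ψ a fun _ => Commute.all _ _
  obtain ⟨Pl, hPl⟩ := exists_place' ev.range (χ.comp (AlgEquiv.ofInjective ev hev).symm.toAlgHom)
  have key : ∀ f : Polynomial A, ev f ∈ Pl.O ∧ Pl.red (ev f) = χ f := fun f => by
    have := hPl (AlgEquiv.ofInjective ev hev f)
    simpa using this
  refine ⟨Pl, fun b => ?_, ?_⟩
  · simpa [ev, χ] using key (Polynomial.C b)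
  · simpa [ev, χ] using key Polynomial.X

/-- A transcendental element that specialises to a given value. -/
theorem exists_generic_place [IsAlgClosed Ω] (a : Ω) :
    ∃ (Ω' : Type u) (_ : Field Ω') (_ : Algebra k Ω') (_ : IsAlgClosed Ω') (φ : Ω →ₐ[k] Ω') (s : Ω')
      (Pl : Place k Ω' Ω), s ∉ acl k (range φ) ∧ s ∈ Pl.O ∧ Pl.red s = a ∧
        ∀ x, φ x ∈ Pl.O ∧ Pl.red (φ x) = x := by
  let E := AlgebraicClosure (RatFunc Ω)
  let φ : Ω →ₐ[k] E := IsScalarTower.toAlgHom k Ω E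
  let s : E := algebraMap (RatFunc Ω) E RatFunc.X
  let e : Ω ≃ₐ[k] φ.range := AlgEquiv.ofInjectiveField φ
  have hs : Transcendental Ω s :=
    (transcendental_algebraMap_iff (algebraMap (RatFunc Ω) E).injective).2 RatFunc.transcendental_X
  have hs' : Transcendental φ.range s := by
    rintro ⟨p, hp, hps⟩
    refine hs ⟨p.map (e.symm : φ.range →+* Ω),
      (Polynomial.map_ne_zero_iff e.symm.injective).2 hp, ?_⟩
    rw [Polynomial.aeval_def, Polynomial.eval₂_map, ← hps, Polynomial.aeval_def]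
    congr 1
    ext b
    obtain ⟨c, rfl⟩ := e.surjective b
    simp only [RingHom.coe_comp, RingHom.coe_coe, Function.comp_apply, AlgEquiv.symm_apply_apply]
    rfl
  obtain ⟨Pl, h1, h2, h3⟩ := Plc2_ext φ.range hs' e.symm.toAlgHom a
  refine ⟨E, inferInstance, inferInstance, inferInstance, φ, s, Pl, ?_, h2, h3, fun x => ?_⟩
  · rw [mem_acl, ← AlgHom.coe_range, Algebra.adjoin_eq]
    exact hs'
  · exact ⟨(h1 (e x)).1, (h1 (e x)).2.trans (e.symm_apply_apply x)⟩

/-- An element contained in all places that fix `S` is algebraic over `S`. -/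
theorem mem_acl_of_place [IsAlgClosed Ω] {S : Set Ω} {x : Ω}
    (h : ∀ Pl : Place k Ω Ω, (∀ y ∈ S, y ∈ Pl.O ∧ Pl.red y = y) → x ∈ Pl.O) : x ∈ acl k S := by
  rw [mem_acl]
  by_contra hx
  have h0 : x ≠ 0 := by
    rintro rfl
    exact hx isAlgebraic_zero
  obtain ⟨Pl, h1, h2, h3⟩ := Plc2_ext (Algebra.adjoin k S) (y := x⁻¹)
    (fun h => hx (IsAlgebraic.inv_iff.1 h)) (Algebra.adjoin k S).val 0
  have hO := h Pl fun y hy => h1 ⟨y, Algebra.subset_adjoin hy⟩
  have := Pl.red_mul hO h2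
  rw [mul_inv_cancel₀ h0, Pl.red_one, h3, mul_zero] at this
  exact one_ne_zero this

end Pool.Agent.MP_0c8446_ag
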