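import Pool.Agent.MP_0c8446_ag.DL.PolyM
import Pool.Agent.MP_0c8446_ag.DL.Plc2
import Pool.Agent.MP_0c8446_ag.DL.DimRk

namespace Pool.Agent.MP_0c8446_ag

open MvPolynomial Set

universe u v w

variable {k : Type u} [Field k] {Γ : Type u} [Group Γ] {D : FrD k Γ}
  {Ω Ω' : Type u} [Field Ω] [Algebra k Ω] [Field Ω'] [Algebra k Ω']

theorem evs_map {σ α : Type*} (φ : Ω →ₐ[k] Ω') (h : σ → Ω) (F : α → MvPolynomial σ k) :
    evs (fun s => φ (h s)) F = fun a => φ (evs h F a) := by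
  funext a
  unfold evs
  rw [← AlgHom.comp_apply, comp_aeval]

theorem evs_jn {σ ι : Type} {n : ι → ℕ} {N : ℕ} (h : σ → Ω) (pt : Vars n → MvPolynomial σ k)
    (z : Fin (N + 1) → MvPolynomial σ k) : evs h (jn pt z) = jn (evs h pt) (evs h z) := by
  funext a
  rcases a with ⟨i | i, s⟩ <;> rfl

theorem Place.evs_mem (Pl : Place k Ω Ω') {σ α : Type*} {h : σ → Ω} (hO : ∀ s, h s ∈ Pl.O)
    (F : α → MvPolynomial σ k) :
    (∀ a, evs h F a ∈ Pl.O) ∧ evs (fun s => Pl.red (h s)) F = fun a => Pl.red (evs h F a) :=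
  ⟨fun a => Pl.aeval_mem hO (F a), funext fun a => (Pl.red_aeval hO (F a)).symm⟩

theorem FrD.Fr.map {h : D.σ → Ω} (hh : D.Fr h) (φ : Ω →ₐ[k] Ω') : D.Fr fun s => φ (h s) :=
  fun e he => by
    have := congrFun (evs_map φ h fun _ : Unit => e) ()
    unfold evs at this
    rw [this, hh e he, map_zero]

theorem FrD.Fr.red {h : D.σ → Ω} (hh : D.Fr h) (Pl : Place k Ω Ω') (hO : ∀ s, h s ∈ Pl.O) :
    D.Fr fun s => Pl.red (h s) :=
  fun e he => by rw [← Pl.red_aeval hO, hh e he, Pl.red_zero]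

theorem FrD.Fr.act {h : D.σ → Ω} (hh : D.Fr h) (γ : Γ) : D.Fr (evs h (D.act γ)) := D.stab γ Ω h hh

theorem FrD.nv_cons {N : ℕ} (b : Fin N → MvPolynomial D.σ k) :
    D.NV (Fin.cons 1 b : Fin (N + 1) → MvPolynomial D.σ k) :=
  fun _ _ _ _ _ => ⟨0, by simp⟩

theorem FrD.Equi.cons {N : ℕ} {r : Γ →* Matrix (Fin N) (Fin N) k} {b : Fin N → MvPolynomial D.σ k}
    (he : D.Equi r b) : D.Equi (plus r) (Fin.cons 1 b : Fin (N + 1) → MvPolynomial D.σ k) := by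
  intro γ Ω _ _ h hh s
  refine Fin.cases ?_ (fun s => ?_) s
  · simp [plus, Fin.sum_univ_succ]
  · simp [plus, Fin.sum_univ_succ, he γ Ω h hh s]

theorem FrD.Equi.reindex {ε ε' : Type} [Fintype ε] [DecidableEq ε] [Fintype ε'] [DecidableEq ε']
    (e : ε' ≃ ε) {r : Γ →* Matrix ε ε k} {b : ε → MvPolynomial D.σ k} (he : D.Equi r b) :
    D.Equi ((Matrix.reindexAlgEquiv k k e.symm).toMonoidHom.comp r) fun s => b (e s) := by
  intro γ Ω _ _ h hh s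
  rw [he γ Ω h hh (e s), ← e.sum_comp]
  rfl

/-- A point that comes from a frame comes from a frame that is algebraic over it. -/
theorem FrD.exists_alg [IsAlgClosed Ω] {S : Stage k Γ} {pt : Vars S.P.n → MvPolynomial D.σ k}
    {v : Vars S.P.n → Ω} (hv : D.famR S pt Ω v) :
    ∃ h, D.Fr h ∧ ParOn S.Jᶜ (evs h pt) v ∧ ∀ s, h s ∈ acl k (rat univ v) := by
  obtain ⟨hon, h, hh, hp⟩ := hv
  obtain ⟨t, ht, hrat, hone⟩ := hon.1.exists_norm
  obtain ⟨F, hF, hac⟩ := exists_aclF (k := k) (rat univ v)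
  have := hac inferInstance
  have hp' := hp.trans (parOn_sc _ ht v)
  have hc : ∀ i, ∃ c : Ω, i ∈ S.Jᶜ → ∀ s, sc t v ⟨i, s⟩ = c * evs h pt ⟨i, s⟩ := fun i => by
    by_cases hi : i ∈ S.Jᶜ
    · obtain ⟨c, -, e⟩ := hp' i hi
      exact ⟨c, fun _ => e⟩
    · exact ⟨0, fun h => absurd h hi⟩
  choose c hc using hc
  obtain ⟨x, hx, hle⟩ := exists_retract F (Sum.elim h c) (c := sc t v) fun a => by
    rw [← SetLike.mem_coe, hF]
    exact subset_acl _ (rat_mono (subset_univ _) v (hrat a))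
  refine ⟨fun s => x (Sum.inl s), fun e he => ?_,
    ParOn.trans (fun i hi => ?_) (parOn_sc _ ht v).symm, fun s => hF ▸ hx _⟩
  · have h1 : rename (fun s => Sum.inl (Sum.inl s)) e ∈
        kr k (Sum.elim (Sum.elim h c) (sc t v)) := by
      rw [mem_kr, aeval_rename]
      exact hh e he
    have h2 := hle h1
    rwa [mem_kr, aeval_rename] at h2
  · have key : ∀ s, sc t v ⟨i, s⟩ = x (Sum.inr i) * evs (fun s => x (Sum.inl s)) pt ⟨i, s⟩ := by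
      intro s
      have h1 : X (Sum.inr ⟨i, s⟩) - X (Sum.inl (Sum.inr i)) *
          rename (fun s => Sum.inl (Sum.inl s)) (pt ⟨i, s⟩) ∈
          kr k (Sum.elim (Sum.elim h c) (sc t v)) := by
        rw [mem_kr, map_sub, map_mul, aeval_X, aeval_X, aeval_rename, sub_eq_zero]
        exact hc i hi s
      have h2 := hle h1
      rwa [mem_kr, map_sub, map_mul, aeval_X, aeval_X, aeval_rename, sub_eq_zero] at h2
    refine ⟨x (Sum.inr i), fun h0 => ?_, key⟩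
    obtain ⟨s, hs⟩ := hone i
    rw [key s, h0, zero_mul] at hs
    exact zero_ne_one hs

namespace Level

variable (L : Level D)

theorem famR_par [IsAlgClosed Ω] {v v' : Vars L.S.P.n → Ω} (hv : D.famR L.S L.pt Ω v)
    (h : ParOn univ v v') : D.famR L.S L.pt Ω v' := by
  obtain ⟨hon, g, hg, hp⟩ := hv
  exact ⟨hon.par h, g, hg, hp.trans (h.mono (subset_univ _))⟩

theorem famR_map [IsAlgClosed Ω] [IsAlgClosed Ω'] {v : Vars L.S.P.n → Ω}
    (hv : D.famR L.S L.pt Ω v) (φ : Ω →ₐ[k] Ω') : D.famR L.S L.pt Ω' fun a => φ (v a) := by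
  obtain ⟨hon, g, hg, hp⟩ := hv
  refine ⟨hon.map φ, fun s => φ (g s), hg.map φ, ?_⟩
  rw [evs_map]
  exact hp.map φ

/-- The reduction of an integral point that comes from an integral frame. -/
theorem par_red (Pl : Place k Ω Ω') {v : Vars L.S.P.n → Ω} {h : D.σ → Ω} (hh : D.Fr h)
    (hp : ParOn L.S.Jᶜ (evs h L.pt) v) (hO : ∀ s, h s ∈ Pl.O) (hv : ∀ a, v a ∈ Pl.O)
    (hn : NZb fun a => Pl.red (v a)) :
    ParOn L.S.Jᶜ (evs (fun s => Pl.red (h s)) L.pt) fun a => Pl.red (v a) := by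
  obtain ⟨h1, h2⟩ := Pl.evs_mem hO L.pt
  rw [h2]
  refine Pl.par_red hp (fun a _ => h1 a) (fun a _ => hv a) (fun i hi => ?_) fun i _ => hn i
  obtain ⟨s, hs⟩ := L.nz i hi Ω' _ (hh.red Pl hO)
  exact ⟨s, by rwa [← congrFun h2 ⟨i, s⟩]⟩

theorem famR_red [IsAlgClosed Ω'] (Pl : Place k Ω Ω') {v : Vars L.S.P.n → Ω} {h : D.σ → Ω}
    (ho : L.S.P.On v) (hh : D.Fr h) (hp : ParOn L.S.Jᶜ (evs h L.pt) v) (hO : ∀ s, h s ∈ Pl.O)
    (hv : ∀ a, v a ∈ Pl.O) (hn : NZb fun a => Pl.red (v a)) :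
    D.famR L.S L.pt Ω' fun a => Pl.red (v a) :=
  ⟨ho.of_le hn (Pl.pI_le hv), _, hh.red Pl hO, L.par_red Pl hh hp hO hv hn⟩

theorem sp_pt [IsAlgClosed Ω] [IsAlgClosed Ω'] {v : Vars L.S.P.n → Ω} {u : Vars L.S.P.n → Ω'}
    (hv : D.famR L.S L.pt Ω v) (hu : NZb u) (h : pI k v ≤ pI k u) :
    D.famR L.S L.pt Ω' u ∨ L.S.P.loc u ∈ L.bd := by
  obtain ⟨Pl, v', h1, h2, h3⟩ := exists_place_pI hu h
  obtain ⟨hon, g, hg, hp⟩ := L.famR_par hv h1
  have hn := h3.nzb hu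
  rcases L.il Ω Ω' Pl v' g hon hg hp h2 hn with hb | ⟨g', hg', hp', hO⟩
  · right
    rwa [Var.loc_par h3] at hb
  · exact Or.inl (L.famR_par (L.famR_red Pl hon hg' hp' hO h2 hn) h3.symm)

theorem isSub_R [IsAlgClosed k] {C : Set L.S.P.pts} (hC : C ∈ L.R) : IsSub C := by
  obtain ⟨Ω, _, _, _, v, hv, rfl⟩ := hC
  exact hv.1.isSub

theorem sp [IsAlgClosed k] {C C' : Set L.S.P.pts} (hC : C ∈ L.R) (hC' : IsSub C') (h : C' ⊆ C) :
    C' ∈ L.R ∨ C' ∈ L.bd := by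
  obtain ⟨Ω, _, _, _, v, hv, rfl⟩ := hC
  obtain ⟨Ω', i1, i2, i3, u, hu, rfl⟩ := L.S.P.exists_generic hC'
  exact (L.sp_pt hv hu.1 (hu.pI_le h)).imp_left fun h1 => ⟨Ω', i1, i2, i3, u, h1, rfl⟩

end Level

end Pool.Agent.MP_0c8446_ag
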