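import Pool.Agent.MP_0c8446_ag.DL.GLDefs

namespace Pool.Agent.MP_0c8446_ag

open MvPolynomial Set Matrix

universe u v w

/-- There is a nondegenerate bilinear form for which the variable acts by a self-adjoint map. -/
def TranspP (k : Type u) [Field k] (M : Type v) [AddCommGroup M] [Module k M]
    [Module (Polynomial k) M] : Prop :=
  ∃ B : M →ₗ[k] M →ₗ[k] k, (∀ m, (∀ m', B m m' = 0) → m = 0) ∧
    ∀ m m', B ((Polynomial.X : Polynomial k) • m) m' = B m ((Polynomial.X : Polynomial k) • m')

theorem TranspP_equiv {k : Type u} [Field k] {M : Type v} {N : Type w} [AddCommGroup M]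
    [Module k M] [Module (Polynomial k) M] [IsScalarTower k (Polynomial k) M] [AddCommGroup N]
    [Module k N] [Module (Polynomial k) N] [IsScalarTower k (Polynomial k) N]
    (e : M ≃ₗ[Polynomial k] N) (h : TranspP k N) : TranspP k M := by
  obtain ⟨B, h1, h2⟩ := h
  refine ⟨B.compl₁₂ (e.restrictScalars k).toLinearMap (e.restrictScalars k).toLinearMap,
    fun m hm => ?_, fun m m' => ?_⟩
  · refine e.injective ((h1 (e m) fun y => ?_).trans (map_zero e).symm)
    have := hm (e.symm y)
    simpa using this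
  · simpa using h2 (e m) (e m')

theorem TranspP_pi {k : Type u} [Field k] {ι : Type v} [Fintype ι] {M : ι → Type w}
    [∀ i, AddCommGroup (M i)] [∀ i, Module k (M i)] [∀ i, Module (Polynomial k) (M i)]
    (h : ∀ i, TranspP k (M i)) : TranspP k (∀ i, M i) := by
  classical
  choose B h1 h2 using h
  refine ⟨∑ i, (B i).compl₁₂ (LinearMap.proj i) (LinearMap.proj i), fun m hm => ?_,
    fun m m' => ?_⟩
  · funext i
    refine h1 i (m i) fun y => ?_
    have := hm (Pi.single i y)
    simp only [LinearMap.sum_apply, LinearMap.compl₁₂_apply, LinearMap.proj_apply] at this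
    rw [Finset.sum_eq_single i (fun j _ hj => by rw [Pi.single_eq_of_ne hj, map_zero])
      (fun hi => absurd (Finset.mem_univ i) hi), Pi.single_eq_same] at this
    exact this
  · simp only [LinearMap.sum_apply, LinearMap.compl₁₂_apply, LinearMap.proj_apply, Pi.smul_apply,
      h2]

theorem TranspP_monic {k : Type u} [Field k] {g : Polynomial k} (hg : g.Monic) :
    TranspP k (Polynomial k ⧸ Ideal.span {g}) := by
  let lam : (Polynomial k ⧸ Ideal.span {g}) →ₗ[k] k :=
    ((Ideal.span {g}).restrictScalars k).liftQ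
      ((Polynomial.lcoeff k (g.natDegree - 1)).comp (Polynomial.modByMonicHom g)) fun f hf => by
        have h1 : g ∣ f := Ideal.mem_span_singleton.1 hf
        simp [(Polynomial.modByMonic_eq_zero_iff_dvd hg).2 h1]
  have hl : ∀ f : Polynomial k,
      lam (Ideal.Quotient.mk _ f) = (f %ₘ g).coeff (g.natDegree - 1) := fun f => rfl
  refine ⟨(LinearMap.mul k _).compr₂ lam, fun m hm => ?_, fun m m' => ?_⟩
  · obtain ⟨f, rfl⟩ := Ideal.Quotient.mk_surjective m
    have e : Ideal.Quotient.mk (Ideal.span {g}) f = Ideal.Quotient.mk _ (f %ₘ g) := by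
      rw [Ideal.Quotient.eq, Ideal.mem_span_singleton]
      exact ⟨f /ₘ g, by rw [sub_eq_iff_eq_add', Polynomial.modByMonic_add_div]⟩
    by_cases h0 : f %ₘ g = 0
    · rw [e, h0, map_zero]
    exfalso
    have hd : (f %ₘ g).degree < g.degree := Polynomial.degree_modByMonic_lt f hg
    have hd' : (f %ₘ g).natDegree < g.natDegree := Polynomial.natDegree_lt_natDegree h0 hd
    have h1 := hm (Ideal.Quotient.mk _ (Polynomial.X ^ (g.natDegree - 1 - (f %ₘ g).natDegree)))
    rw [LinearMap.compr₂_apply, LinearMap.mul_apply', e, ← map_mul, hl] at h1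
    have h2 : ((f %ₘ g) * Polynomial.X ^ (g.natDegree - 1 - (f %ₘ g).natDegree)).degree <
        g.degree := by
      refine Polynomial.degree_lt_degree ?_
      rw [Polynomial.natDegree_mul_X_pow _ h0]
      omega
    rw [(Polynomial.modByMonic_eq_self_iff hg).2 h2] at h1
    have h3 := Polynomial.coeff_mul_X_pow (f %ₘ g) (g.natDegree - 1 - (f %ₘ g).natDegree)
      (f %ₘ g).natDegree
    rw [show (f %ₘ g).natDegree + (g.natDegree - 1 - (f %ₘ g).natDegree) = g.natDegree - 1 by
      omega, h1] at h3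
    exact h0 (Polynomial.leadingCoeff_eq_zero.1 h3.symm)
  · simp only [LinearMap.compr₂_apply, LinearMap.mul_apply', smul_mul_assoc, mul_smul_comm]

theorem TranspP_quot {k : Type u} [Field k] {g : Polynomial k} (hg : g ≠ 0) :
    TranspP k (Polynomial k ⧸ (Polynomial k ∙ g)) := by
  classical
  refine TranspP_equiv (Submodule.quotEquivOfEq _ (Ideal.span {normalize g}) ?_)
    (TranspP_monic (Polynomial.monic_normalize hg))
  exact (Ideal.span_singleton_eq_span_singleton.2 (associated_normalize g))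

/-- A matrix is conjugate to its transpose. -/
theorem exists_conj_transpose {k : Type u} [Field k] {n : ℕ} (g : Matrix (Fin n) (Fin n) k) :
    ∃ u : Matrix (Fin n) (Fin n) k, IsUnit u ∧ u * g = gᵀ * u := by
  classical
  obtain ⟨ι, _, p, hp, e, ⟨φ⟩⟩ := Module.equiv_directSum_of_isTorsion
    (Module.AEval.isTorsion_of_finiteDimensional k (Fin n → k) (Matrix.toLin' g))
  obtain ⟨B, h1, h2⟩ := TranspP_equiv (φ.trans (DirectSum.linearEquivFunOnFintype _ _ _))
    (TranspP_pi fun i => TranspP_quot (pow_ne_zero (e i) (hp i).ne_zero))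
  let o := Module.AEval'.of (Matrix.toLin' g)
  obtain ⟨U, hU⟩ := (Matrix.toLinearMap₂' k).surjective (B.compl₁₂ o.toLinearMap o.toLinearMap)
  have hB : ∀ x y, B (o x) (o y) = x ⬝ᵥ U *ᵥ y := fun x y => by
    rw [← Matrix.toLinearMap₂'_apply', hU]
    rfl
  refine ⟨U, Matrix.vecMul_injective_iff_isUnit.1 fun x x' hx => ?_, ?_⟩
  · refine sub_eq_zero.1 (o.injective ((h1 _ fun y => ?_).trans (map_zero o).symm))
    obtain ⟨y, rfl⟩ := o.surjective y
    have hx' : x ᵥ* U = x' ᵥ* U := hx
    rw [hB, Matrix.dotProduct_mulVec, Matrix.sub_vecMul, hx', sub_self, zero_dotProduct]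
  · refine (Matrix.toLinearMap₂' k :
      _ ≃ₗ[k] (Fin n → k) →ₗ[k] (Fin n → k) →ₗ[k] k).injective (LinearMap.ext₂ fun x y => ?_)
    have h3 := h2 (o x) (o y)
    rw [Module.AEval'.X_smul_of, Module.AEval'.X_smul_of, hB, hB] at h3
    rw [Matrix.toLinearMap₂'_apply', Matrix.toLinearMap₂'_apply', ← Matrix.mulVec_mulVec,
      ← Matrix.mulVec_mulVec, Matrix.dotProduct_mulVec x gᵀ, Matrix.vecMul_transpose]
    exact h3.symm

end Pool.Agent.MP_0c8446_ag
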