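import Pool.Agent.MP_0c8446_ag.DL.LangG
import Pool.Agent.MP_0c8446_ag.DL.Transp

namespace Pool.Agent.MP_0c8446_ag

open MvPolynomial Set Matrix

universe u v w

variable {k : Type u} [Field k] {n : ℕ} {uni : Bool} {q : ℕ} [PQ k q]

lemma FixG_root {Ω : Type u} [Field Ω] [PQ Ω q] {g : Matrix (Fin n) (Fin n) Ω} (hg : IsUnit g)
    (h : frH Ω n uni q g = g) (a b : Fin n) : g a b ^ q ^ 2 = g a b := by
  have h1 := frH_frH (uni := uni) (q := q) hg
  rw [h, h] at h1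
  exact (congrFun (congrFun h1 a) b).symm

lemma FixG_ne (k : Type u) [Field k] (q : ℕ) [PQ k q] :
    (Polynomial.X ^ q ^ 2 - Polynomial.X : Polynomial k) ≠ 0 :=
  FiniteField.X_pow_card_pow_sub_X_ne_zero k two_ne_zero (IsQ.one_lt (k := k))

lemma FixG_grp {G : Type*} [Group G] (Φ : G →* G) {g t u a : G} (h1 : u * g = t * u)
    (h2 : a * g = g * a) (h3 : Φ a = a * (u⁻¹ * Φ u)) :
    Φ (u * a⁻¹) = u * a⁻¹ ∧ u * a⁻¹ * g⁻¹ * (u * a⁻¹)⁻¹ = t⁻¹ := by
  refine ⟨by rw [map_mul, map_inv, h3]; group, ?_⟩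
  have h4 : t = u * g * u⁻¹ := by rw [h1]; group
  have h5 : a⁻¹ * g⁻¹ * a = g⁻¹ := by rw [← _root_.mul_inv_rev, ← h2]; group
  rw [h4]
  calc u * a⁻¹ * g⁻¹ * (u * a⁻¹)⁻¹ = u * (a⁻¹ * g⁻¹ * a) * u⁻¹ := by group
    _ = _ := by rw [h5]; group

theorem finite_fixG (k : Type u) [Field k] (n : ℕ) (uni : Bool) (q : ℕ) [PQ k q] :
    Finite (fixG k n uni q) := by
  have h1 : {x : k | (Polynomial.X ^ q ^ 2 - Polynomial.X : Polynomial k).IsRoot x}.Finite :=
    Polynomial.finite_setOfPred_isRoot (FixG_ne k q)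
  have := h1.to_subtype
  refine Finite.of_injective (fun (g : fixG k n uni q) (a b : Fin n) =>
    (⟨g.1.1 a b, by
      simp [Polynomial.IsRoot, FixG_root g.1.isUnit (mem_fixG.1 g.2)]⟩ :
      {x : k | (Polynomial.X ^ q ^ 2 - Polynomial.X : Polynomial k).IsRoot x})) fun g g' h => ?_
  refine Subtype.ext (Units.ext (Matrix.ext fun a b => ?_))
  exact congrArg Subtype.val (congrFun (congrFun h a) b)

/-- The finite group does not depend on the algebraically closed field. -/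
theorem exists_fixG [IsAlgClosed k] {Ω : Type u} [Field Ω] [Algebra k Ω] [PQ Ω q]
    {g : Matrix (Fin n) (Fin n) Ω} (hg : IsUnit g) (h : frH Ω n uni q g = g) :
    ∃ γ : fixG k n uni q, γ.1.1.map (algebraMap k Ω) = g := by
  have h1 : ∀ a b, ∃ x, algebraMap k Ω x = g a b := fun a b =>
    (IsAlgClosed.splits _).mem_range_of_isRoot (FixG_ne k q) (i := algebraMap k Ω) (by
      simp [Polynomial.IsRoot, FixG_root hg h])
  choose g₀ hg₀ using h1
  have h2 : (Matrix.of g₀).map (algebraMap k Ω) = g := Matrix.ext hg₀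
  have h3 : IsUnit (Matrix.of g₀) := by
    rw [Matrix.isUnit_iff_isUnit_det, isUnit_iff_ne_zero] at hg ⊢
    intro h4
    apply hg
    rw [← h2, ← RingHom.mapMatrix_apply, ← RingHom.map_det, h4, map_zero]
  refine ⟨⟨h3.unit, mem_fixG.2 ?_⟩, h2⟩
  refine Matrix.map_injective (algebraMap k Ω).injective ?_
  change (frH k n uni q (Matrix.of g₀)).map (algebraMap k Ω) = (Matrix.of g₀).map _
  rw [frH_map _ h3, h2, h]

theorem isConj_thG [IsAlgClosed k] (g : fixG k n uni q) : IsConj (thG k n uni q g) g⁻¹ := by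
  obtain ⟨u, hu, h1⟩ := exists_conj_transpose g.1.1
  obtain ⟨u, rfl⟩ := hu
  have hg := mem_fixG.1 g.2
  obtain ⟨t, ht⟩ := (Matrix.isUnit_transpose g.1.1).2 g.1.isUnit
  have h2 : u * g.1 = t * u := Units.ext (by rw [Units.val_mul, Units.val_mul, ht, h1])
  have h3 : Units.map (frH k n uni q) g.1 = g.1 := g.2
  have h4 : Units.map (frH k n uni q) t = t := Units.ext (by
    rw [Units.coe_map, ht, frH_transpose, hg])
  have h5 := congrArg (Units.map (frH k n uni q)) h2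
  rw [map_mul, map_mul, h3, h4] at h5
  have h6 : u⁻¹ * Units.map (frH k n uni q) u * g.1 =
      g.1 * (u⁻¹ * Units.map (frH k n uni q) u) := by
    rw [mul_assoc, h5, ← mul_assoc, ← mul_assoc, show u⁻¹ * t = g.1 * u⁻¹ by
      rw [inv_mul_eq_iff_eq_mul, ← mul_assoc, h2, mul_inv_cancel_right]]
  obtain ⟨a, ha, h7, h8⟩ := exists_lang g.1.isUnit hg
    (u⁻¹ * Units.map (frH k n uni q) u).isUnit (congrArg Units.val h6)
  obtain ⟨a, rfl⟩ := ha
  obtain ⟨h9, h10⟩ := FixG_grp (Units.map (frH k n uni q)) (a := a) h2 (Units.ext h7)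
    (Units.ext h8)
  refine IsConj.symm (isConj_iff.2 ⟨⟨u * a⁻¹, h9⟩, Subtype.ext (h10.trans (Units.ext ?_))⟩)
  change _ = (g.1.1)⁻¹ᵀ
  rw [Matrix.coe_units_inv, ht, Matrix.transpose_nonsing_inv]

end Pool.Agent.MP_0c8446_ag
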