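import Pool.Agent.MP_0c8446_ag.DL.FinalQ
import Pool.Agent.MP_0c8446_ag.DL.FixG
import Pool.Agent.MP_0c8446_ag.DL.GFr

namespace Pool.Agent.MP_0c8446_ag

open MvPolynomial Set Matrix

universe u v w

variable {k : Type u} [Field k] [IsAlgClosed k] {n r : ℕ}

open Classical in
/-- The product of the determinants of the generic matrices that vanish at the positions `Z`. -/
noncomputable def glDp (k : Type u) [Field k] (Z : Fin (r + 1) → Fin n → Fin n → Prop) :
    MvPolynomial {s : Fin (r + 1) × Fin n × Fin n // ¬ Z s.1 s.2.1 s.2.2} k :=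
  ∏ j, (Matrix.of fun a b => if h : Z j a b then 0 else X ⟨(j, a, b), h⟩).det

section

variable {Ω : Type u} [Field Ω] [Algebra k Ω] {uni : Bool} {q : ℕ}
  {Z : Fin (r + 1) → Fin n → Fin n → Prop} {h : GS r n → Ω}

open Classical in
/-- The matrices with given entries outside `Z`. -/
noncomputable def GFin_dd (x : {s : Fin (r + 1) × Fin n × Fin n // ¬ Z s.1 s.2.1 s.2.2} → Ω)
    (j : Fin (r + 1)) : Matrix (Fin n) (Fin n) Ω :=
  Matrix.of fun a b => if h : Z j a b then 0 else x ⟨(j, a, b), h⟩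

omit [IsAlgClosed k] in
theorem GFin_unit {x : {s : Fin (r + 1) × Fin n × Fin n // ¬ Z s.1 s.2.1 s.2.2} → Ω} :
    aeval x (glDp k Z) ≠ 0 ↔ ∀ j, IsUnit (GFin_dd x j) := by
  have e : aeval x (glDp k Z) = ∏ j, (GFin_dd x j).det := by
    rw [glDp, map_prod]
    refine Finset.prod_congr rfl fun j _ => ?_
    rw [AlgHom.map_det]
    congr 1
    ext a b
    by_cases hz : Z j a b <;> simp [GFin_dd, hz]
  simp [e, Finset.prod_ne_zero_iff, Matrix.isUnit_iff_isUnit_det]

omit [IsAlgClosed k] in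
theorem GFin_evs (h : GS r n → Ω) (s : {s : Fin (r + 1) × Fin n × Fin n // ¬ Z s.1 s.2.1 s.2.2}) :
    evs h (fun s : {s : Fin (r + 1) × Fin n × Fin n // ¬ Z s.1 s.2.1 s.2.2} =>
      ddM uni q (X : GS r n → MvPolynomial (GS r n) k) s.1.1 s.1.2.1 s.1.2.2) s =
      ddM uni q h s.1.1 s.1.2.1 s.1.2.2 := by
  have := congrFun (congrFun (ddM_map (aeval (R := k) h) uni q X s.1.1) s.1.2.1) s.1.2.2
  simpa [evs] using this

omit [IsAlgClosed k] in
theorem GFin_fr [PQ k q] (hh : (glFr k uni q Z).Fr h) :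
    GFin_dd (evs h fun s : {s : Fin (r + 1) × Fin n × Fin n // ¬ Z s.1 s.2.1 s.2.2} =>
      ddM uni q (X : GS r n → MvPolynomial (GS r n) k) s.1.1 s.1.2.1 s.1.2.2) = ddM uni q h := by
  ext j a b
  by_cases hz : Z j a b
  · simp [GFin_dd, hz, (glFr_iff.1 hh).2 j a b hz]
  · simp only [GFin_dd, of_apply, dif_neg hz, GFin_evs]

theorem GFin_nx (h1 : ∀ j, mM h j * mI h j = 1) (j : Fin (r + 1)) :
    nxM uni q h j = mM h j * ddM uni q h j := by
  rw [ddM, ← mul_assoc, h1, one_mul]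

theorem GFin_ch (h1 : ∀ j, mM h j * mI h j = 1) (j : Fin (r + 1)) :
    mM h j = mM h 0 * Fin.partialProd (ddM uni q h) j.castSucc := by
  induction j using Fin.induction with
  | zero => simp
  | succ j ih =>
    rw [← Fin.succ_castSucc, Fin.partialProd_succ, ← mul_assoc, ← ih, ← GFin_nx h1, nxM_castSucc]

theorem GFin_flag [PQ Ω q] (g : Matrix (Fin n) (Fin n) Ω) :
    frH Ω n uni q g = frobFlag uni q g * (frobFlag uni q 1)⁻¹ := by
  have := frobFlag_mul (uni := uni) (q := q) g 1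
  rw [mul_one] at this
  rw [this, mul_nonsing_inv_cancel_right _ _
    ((Matrix.isUnit_iff_isUnit_det _).1 (isUnit_frobFlag isUnit_one))]

theorem GFin_lang [PQ Ω q] (h1 : ∀ j, mM h j * mI h j = 1) : frH Ω n uni q (mM h 0) =
    mM h 0 * (Fin.partialProd (ddM uni q h) (Fin.last _) * (frobFlag uni q 1)⁻¹) := by
  rw [GFin_flag, ← nxM_last h1, GFin_nx h1, GFin_ch (uni := uni) (q := q) h1 (Fin.last r),
    ← Fin.succ_last, Fin.partialProd_succ]
  simp only [mul_assoc]

theorem GFin_prod {M : Type*} [Monoid M] {P : M → Prop} (h1 : P 1)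
    (hm : ∀ a b, P a → P b → P (a * b)) {m : ℕ} {d : Fin m → M} (hd : ∀ j, P (d j))
    (j : Fin (m + 1)) : P (Fin.partialProd d j) := by
  induction j using Fin.induction with
  | zero => simpa
  | succ j ih => exact Fin.partialProd_succ d j ▸ hm _ _ ih (hd j)

omit [IsAlgClosed k] in
theorem GFin_one {Ω' : Type u} [Field Ω'] [Algebra k Ω'] (Pl : Place k Ω Ω')
    (y : Equiv.Perm (Fin n)) : Pl.IG ((1 : Matrix (Fin n) (Fin n) Ω).submatrix id y) := by
  refine ⟨fun a b => ?_, ?_⟩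
  · simp only [submatrix_apply, Matrix.one_apply]
    split_ifs
    exacts [one_mem _, zero_mem _]
  · rw [← submatrix_map, Matrix.map_one _ Pl.red_zero Pl.red_one]
    exact isUnit_submatrix isUnit_one y

end

theorem glFr_quot (uni : Bool) (q : ℕ) [PQ k q] (Z : Fin (r + 1) → Fin n → Fin n → Prop) :
    (glFr k uni q Z).Quot (fun s : {s : Fin (r + 1) × Fin n × Fin n // ¬ Z s.1 s.2.1 s.2.2} =>
      ddM uni q (X : GS r n → MvPolynomial (GS r n) k) s.1.1 s.1.2.1 s.1.2.2) (glDp k Z) := by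
  refine ⟨fun Ω _ _ _ h hh => ?_, fun Ω _ _ _ h h' hh hh' e => ?_, fun Ω _ _ _ x hx => ?_,
    fun Ω Ω' _ _ _ _ _ _ Pl h hh hO hD => ?_⟩ <;> have := PQ.ext k q Ω
  · have h1 := (glFr_iff.1 hh).1
    refine GFin_unit.2 fun j => ?_
    refine (congrFun (GFin_fr hh) j).symm ▸ (IsUnit.of_mul_eq_one_right _ (h1 j)).mul ?_
    refine Fin.lastCases ?_ (fun j => ?_) j
    · exact nxM_last (uni := uni) (q := q) h1 ▸ isUnit_frobFlag (mI_eq h1 0).1
    · exact nxM_castSucc (uni := uni) (q := q) h j ▸ (mI_eq h1 _).1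
  · have h1 := (glFr_iff.1 hh).1
    have h2 := (glFr_iff.1 hh').1
    have ed : ddM uni q h' = ddM uni q h := by rw [← GFin_fr hh, ← GFin_fr hh']; exact congrArg _ e.symm
    have e0 : mM h' 0 * mI h 0 * mM h 0 = mM h' 0 := by
      rw [mul_assoc, mul_eq_one_comm.1 (h1 0), mul_one]
    obtain ⟨γ, hγ⟩ := exists_fixG (k := k) (uni := uni) (q := q)
      ((mI_eq h2 0).1.mul (IsUnit.of_mul_eq_one_right _ (h1 0))) (by
        refine (isUnit_frH (uni := uni) (q := q) (mI_eq h1 0).1).mul_right_cancel ?_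
        rw [← map_mul, e0, GFin_lang h1, GFin_lang h2, ed, ← mul_assoc _ (mM h 0), e0])
    have e1 : ∀ j, mM h' j = γ.1.1.map (algebraMap k Ω) * mM h j := fun j => by
      rw [hγ, GFin_ch (uni := uni) (q := q) h1 j, GFin_ch (uni := uni) (q := q) h2 j, ed,
        ← mul_assoc, e0]
    refine ⟨γ, ((evs_glAct γ.1 h).trans ?_).symm⟩
    refine (congrArg₂ mkF (funext fun j => (e1 j).symm) (funext fun j => ?_)).trans (mkF_eta h')
    rw [(mI_eq h2 j).2, e1, Matrix.mul_inv_rev, (mI_eq h1 j).2,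
      map_inv_of_isUnit _ γ.1.isUnit, coe_units_inv]
  · have hp := GFin_prod isUnit_one (fun _ _ => IsUnit.mul) (GFin_unit.1 hx)
    have hP := (Matrix.isUnit_iff_isUnit_det _).1
      (isUnit_frobFlag (k := Ω) (n := n) (uni := uni) (q := q) isUnit_one)
    obtain ⟨a, ha, -, e⟩ := exists_lang (uni := uni) (q := q) isUnit_one (map_one _)
      ((hp (Fin.last _)).mul (isUnit_nonsing_inv_iff.2 (isUnit_frobFlag (uni := uni) (q := q)
        isUnit_one))) (by simp)
    set g := fun j : Fin (r + 1) => a * Fin.partialProd (GFin_dd x) j.castSucc with hg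
    have hu : ∀ j, IsUnit (g j).det := fun j => (Matrix.isUnit_iff_isUnit_det _).1 (ha.mul (hp _))
    have h1 : ∀ j, mM (mkF g fun j => (g j)⁻¹) j * mI (mkF g fun j => (g j)⁻¹) j = 1 := fun j =>
      mul_nonsing_inv _ (hu j)
    have ed : ddM uni q (mkF g fun j => (g j)⁻¹) = GFin_dd x := by
      funext j
      have : nxM uni q (mkF g fun j => (g j)⁻¹) j = g j * GFin_dd x j := by
        rw [hg, mul_assoc, ← Fin.partialProd_succ, ← hg]
        refine Fin.lastCases ?_ (fun j => ?_) j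
        · rw [nxM_last h1, mM_mkF, hg]
          simp only [Fin.castSucc_zero, Fin.partialProd_zero]
          rw [frobFlag_mul, e, mul_assoc, nonsing_inv_mul_cancel_right _ _ hP, Fin.succ_last]
        · rw [nxM_castSucc, mM_mkF, hg, Fin.succ_castSucc]
      rw [ddM, this, mI_mkF, nonsing_inv_mul_cancel_left _ _ (hu j)]
    refine ⟨mkF g fun j => (g j)⁻¹, glFr_iff.2 ⟨h1, fun j a b hz => ?_⟩, funext fun s => ?_⟩
    · simp [ed, GFin_dd, hz]
    · exact (GFin_evs _ s).trans (by simp [ed, GFin_dd, s.2])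
  · have := PQ.ext k q Ω'
    have h1 := (glFr_iff.1 hh).1
    have o : Pl.IG (1 : Matrix (Fin n) (Fin n) Ω) := GFin_one Pl 1
    have hd : ∀ j, Pl.IG (ddM uni q h j) := fun j => by
      rw [← GFin_fr hh]
      refine ⟨fun a b => ?_, ?_⟩
      · by_cases hz : Z j a b
        · simp [GFin_dd, hz]
        · simp only [GFin_dd, of_apply, dif_neg hz]
          exact hO _
      · convert GFin_unit.1 hD j using 1
        ext a b
        by_cases hz : Z j a b <;> simp [GFin_dd, hz, Pl.red_zero]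
        rfl
    have hp := GFin_prod o (fun _ _ a b => (a.mul b).1) hd
    have hP : Pl.IG (frobFlag uni q (1 : Matrix (Fin n) (Fin n) Ω)) := by
      rw [frobFlag_eq, map_one]
      exact GFin_one Pl _
    have h0 := Place.IG.of_lang (mI_eq h1 0).1 (GFin_lang h1) ((hp _).mul hP.inv.1).1
    have hj : ∀ j, Pl.IG (mM h j) := fun j =>
      GFin_ch (uni := uni) (q := q) h1 j ▸ (h0.mul (hp _)).1
    rintro ⟨j, b, a, c⟩
    cases b
    · exact (hj j).1 a c
    · exact ((mI_eq h1 j).2 ▸ (hj j).inv.1 : Pl.IG (mI h j)).1 a c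

end Pool.Agent.MP_0c8446_ag
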