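import Pool.Agent.MP_0c8446_ag.DL.Rk2

namespace Pool.Agent.MP_0c8446_ag

open MvPolynomial Set

universe u v w

variable {k : Type u} [Field k] {Ω Ω' : Type u} [Field Ω] [Algebra k Ω] [Field Ω'] [Algebra k Ω']

namespace Place

variable (Pl : Place k Ω Ω') {x y : Ω}

theorem red_of_mem (hx : x ∈ Pl.O) : Pl.red x = Pl.π ⟨x, hx⟩ := dif_pos hx

theorem Plc_coe (a : Pl.O) : Pl.red a = Pl.π a := Pl.red_of_mem a.2

theorem red_zero : Pl.red 0 = 0 := (Pl.Plc_coe 0).trans (map_zero _)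

theorem red_one : Pl.red 1 = 1 := (Pl.Plc_coe 1).trans (map_one _)

theorem red_algebraMap (c : k) : Pl.red (algebraMap k Ω c) = algebraMap k Ω' c :=
  (Pl.Plc_coe (algebraMap k _ c)).trans (Pl.π.commutes c)

theorem red_add (hx : x ∈ Pl.O) (hy : y ∈ Pl.O) : Pl.red (x + y) = Pl.red x + Pl.red y := by
  rw [Pl.red_of_mem hx, Pl.red_of_mem hy, ← map_add]
  exact Pl.red_of_mem (add_mem hx hy)

theorem red_sub (hx : x ∈ Pl.O) (hy : y ∈ Pl.O) : Pl.red (x - y) = Pl.red x - Pl.red y := by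
  rw [Pl.red_of_mem hx, Pl.red_of_mem hy, ← map_sub]
  exact Pl.red_of_mem (sub_mem hx hy)

theorem red_mul (hx : x ∈ Pl.O) (hy : y ∈ Pl.O) : Pl.red (x * y) = Pl.red x * Pl.red y := by
  rw [Pl.red_of_mem hx, Pl.red_of_mem hy, ← map_mul]
  exact Pl.red_of_mem (mul_mem hx hy)

theorem red_pow (hx : x ∈ Pl.O) (r : ℕ) : Pl.red (x ^ r) = Pl.red x ^ r := by
  rw [Pl.red_of_mem hx, ← map_pow]
  exact Pl.red_of_mem (pow_mem hx r)

theorem red_sum {α : Type*} (s : Finset α) {f : α → Ω} (h : ∀ a ∈ s, f a ∈ Pl.O) :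
    Pl.red (∑ a ∈ s, f a) = ∑ a ∈ s, Pl.red (f a) := by
  classical
  induction s using Finset.induction_on with
  | empty => simpa using Pl.red_zero
  | insert a s ha ih =>
    have h1 : ∀ b ∈ s, f b ∈ Pl.O := fun b hb => h b (Finset.mem_insert_of_mem hb)
    rw [Finset.sum_insert ha, Finset.sum_insert ha,
      Pl.red_add (h a (Finset.mem_insert_self a s)) (sum_mem h1), ih h1]

theorem aeval_mem {σ : Type*} {z : σ → Ω} (h : ∀ s, z s ∈ Pl.O) (f : MvPolynomial σ k) :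
    aeval z f ∈ Pl.O := by
  induction f using MvPolynomial.induction_on with
  | C c => rw [aeval_C]; exact Pl.O.algebraMap_mem c
  | add f g hf hg => rw [map_add]; exact add_mem hf hg
  | mul_X f s hf => rw [map_mul, aeval_X]; exact mul_mem hf (h s)

theorem red_aeval {σ : Type*} {z : σ → Ω} (h : ∀ s, z s ∈ Pl.O) (f : MvPolynomial σ k) :
    Pl.red (aeval z f) = aeval (fun s => Pl.red (z s)) f := by
  induction f using MvPolynomial.induction_on with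
  | C c => rw [aeval_C, aeval_C, red_algebraMap]
  | add f g hf hg => rw [map_add, map_add, Pl.red_add (Pl.aeval_mem h f) (Pl.aeval_mem h g), hf, hg]
  | mul_X f s hf => rw [map_mul, map_mul, aeval_X, aeval_X, Pl.red_mul (Pl.aeval_mem h f) (h s), hf]

theorem inv_mem (hx : x ∈ Pl.O) (h : Pl.red x ≠ 0) : x⁻¹ ∈ Pl.O :=
  Pl.inv ⟨x, hx⟩ (Pl.red_of_mem hx ▸ h)

theorem red_inv (hx : x ∈ Pl.O) (h : Pl.red x ≠ 0) : Pl.red x⁻¹ = (Pl.red x)⁻¹ := by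
  have h0 : x ≠ 0 := fun e => h (e ▸ Pl.red_zero)
  refine eq_inv_of_mul_eq_one_right ?_
  rw [← Pl.red_mul hx (Pl.inv_mem hx h), mul_inv_cancel₀ h0, red_one]

theorem red_div (hx : x ∈ Pl.O) (hy : y ∈ Pl.O) (h : Pl.red y ≠ 0) :
    x / y ∈ Pl.O ∧ Pl.red (x / y) = Pl.red x / Pl.red y := by
  rw [div_eq_mul_inv, div_eq_mul_inv, Pl.red_mul hx (Pl.inv_mem hy h), Pl.red_inv hy h]
  exact ⟨mul_mem hx (Pl.inv_mem hy h), rfl⟩

theorem red_ne_zero (hx : x ∈ Pl.O) (hx' : x⁻¹ ∈ Pl.O) (h : x ≠ 0) : Pl.red x ≠ 0 :=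
  left_ne_zero_of_mul_eq_one (b := Pl.red x⁻¹)
    (by rw [← Pl.red_mul hx hx', mul_inv_cancel₀ h, red_one])

theorem inv_of_notMem (hx : x ∉ Pl.O) : x ≠ 0 ∧ x⁻¹ ∈ Pl.O ∧ Pl.red x⁻¹ = 0 :=
  have h := (Pl.tot x).resolve_left hx
  ⟨fun e => hx (e ▸ zero_mem _), h, by_contra fun h1 => hx (inv_inv x ▸ Pl.inv_mem h h1)⟩

theorem mem_of_pow {r : ℕ} (hr : 0 < r) (h : x ^ r ∈ Pl.O) : x ∈ Pl.O := by
  by_contra hx
  obtain ⟨h0, h1, h2⟩ := Pl.inv_of_notMem hx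
  have h3 := Pl.red_mul h (pow_mem h1 r)
  rw [← mul_pow, mul_inv_cancel₀ h0, one_pow, red_one, Pl.red_pow h1, h2, zero_pow hr.ne',
    mul_zero] at h3
  exact one_ne_zero h3

theorem exists_max {ε : Type*} [Finite ε] {z : ε → Ω} (h : ∃ s, z s ≠ 0) :
    ∃ s₀, z s₀ ≠ 0 ∧ ∀ s, z s / z s₀ ∈ Pl.O := by
  classical
  have := Fintype.ofFinite ε
  have key : ∀ T : Finset ε, ∃ s₀, z s₀ ≠ 0 ∧ ∀ s ∈ T, z s / z s₀ ∈ Pl.O := fun T => by
    induction T using Finset.induction_on with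
    | empty => exact h.imp fun s hs => ⟨hs, by simp⟩
    | insert a T _ ih =>
      obtain ⟨s₀, h0, h1⟩ := ih
      by_cases ha : z a / z s₀ ∈ Pl.O
      · exact ⟨s₀, h0, Finset.forall_mem_insert _ _ _ |>.2 ⟨ha, h1⟩⟩
      · obtain ⟨h2, h3, -⟩ := Pl.inv_of_notMem ha
        have h4 : z a ≠ 0 := fun e => h2 (by rw [e, zero_div])
        refine ⟨a, h4, Finset.forall_mem_insert _ _ _ |>.2 ⟨?_, fun s hs => ?_⟩⟩
        · rw [div_self h4]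
          exact one_mem _
        · have h5 := mul_mem (h1 s hs) h3
          rwa [inv_div, div_mul_div_cancel₀ h0] at h5
  exact (key Finset.univ).imp fun s₀ hs => ⟨hs.1, fun s => hs.2 s (Finset.mem_univ s)⟩

theorem par_unit {ε : Type*} {z z' : ε → Ω} {t : Ω} (hz : ∀ s, z s ∈ Pl.O)
    (hz' : ∀ s, z' s ∈ Pl.O) (e : ∀ s, z' s = t * z s) (h : ∃ s, Pl.red (z s) ≠ 0)
    (h' : ∃ s, Pl.red (z' s) ≠ 0) : t ∈ Pl.O ∧ Pl.red t ≠ 0 := by
  have ht : t ∈ Pl.O := by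
    by_contra ht
    obtain ⟨h0, h1, h2⟩ := Pl.inv_of_notMem ht
    obtain ⟨s, hs⟩ := h
    have h3 := Pl.red_mul h1 (hz' s)
    rw [e, inv_mul_cancel_left₀ h0, h2, zero_mul] at h3
    exact hs h3
  obtain ⟨s, hs⟩ := h'
  rw [e, Pl.red_mul ht (hz s)] at hs
  exact ⟨ht, left_ne_zero_of_mul hs⟩

theorem kr_le {σ : Type} {z : σ → Ω} (h : ∀ s, z s ∈ Pl.O) :
    kr k z ≤ kr k fun s => Pl.red (z s) := fun f hf => by
  rw [kr, RingHom.mem_ker] at hf ⊢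
  rw [← Pl.red_aeval h, hf, red_zero]

/-- Reduction of matrices is multiplicative. -/
theorem map_red_mul {l m n : Type*} [Fintype m] {A : Matrix l m Ω} {B : Matrix m n Ω}
    (hA : ∀ a b, A a b ∈ Pl.O) (hB : ∀ a b, B a b ∈ Pl.O) :
    (∀ a b, (A * B) a b ∈ Pl.O) ∧ (A * B).map Pl.red = A.map Pl.red * B.map Pl.red := by
  refine ⟨fun a b => sum_mem fun c _ => mul_mem (hA a c) (hB c b), Matrix.ext fun a b => ?_⟩
  simp only [Matrix.map_apply, Matrix.mul_apply]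
  rw [Pl.red_sum _ fun c _ => mul_mem (hA a c) (hB c b)]
  exact Finset.sum_congr rfl fun c _ => Pl.red_mul (hA a c) (hB c b)

theorem Plc_lift {l m : Type*} {A : Matrix l m Ω} (hA : ∀ a b, A a b ∈ Pl.O) :
    ∃ A₀ : Matrix l m Pl.O, A = A₀.map Pl.O.val :=
  ⟨fun a b => ⟨A a b, hA a b⟩, rfl⟩

theorem Plc_map {l m : Type*} (A₀ : Matrix l m Pl.O) :
    (A₀.map Pl.O.val).map Pl.red = A₀.map Pl.π :=
  Matrix.ext fun a b => Pl.Plc_coe (A₀ a b)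

theorem Plc_one {n : Type*} [DecidableEq n] : (1 : Matrix n n Ω).map Pl.red = 1 :=
  Matrix.map_one _ Pl.red_zero Pl.red_one

theorem red_det {n : Type*} [Fintype n] [DecidableEq n] {A : Matrix n n Ω}
    (hA : ∀ a b, A a b ∈ Pl.O) : A.det ∈ Pl.O ∧ Pl.red A.det = (A.map Pl.red).det := by
  obtain ⟨A₀, rfl⟩ := Pl.Plc_lift hA
  have e : (A₀.map Pl.O.val).det = (A₀.det : Ω) := (Pl.O.val.map_det A₀).symm
  rw [Plc_map, e, Plc_coe]
  exact ⟨A₀.det.2, Pl.π.map_det A₀⟩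

/-- An integral matrix with invertible reduction has an integral inverse. -/
theorem inv_mem_matrix {n : Type*} [Fintype n] [DecidableEq n] {A : Matrix n n Ω}
    (hA : ∀ a b, A a b ∈ Pl.O) (h : IsUnit (A.map Pl.red)) :
    IsUnit A ∧ (∀ a b, A⁻¹ a b ∈ Pl.O) ∧ A⁻¹.map Pl.red = (A.map Pl.red)⁻¹ := by
  obtain ⟨h1, h2⟩ := Pl.red_det hA
  have h3 : Pl.red A.det ≠ 0 := h2 ▸ ((Matrix.isUnit_iff_isUnit_det _).1 h).ne_zero
  have h4 : IsUnit A.det := Ne.isUnit fun e => h3 (e ▸ Pl.red_zero)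
  have h5 : ∀ a b, A⁻¹ a b ∈ Pl.O := fun a b => by
    rw [Matrix.inv_def, Matrix.smul_apply, smul_eq_mul, Ring.inverse_eq_inv']
    refine mul_mem (Pl.inv_mem h1 h3) ?_
    obtain ⟨A₀, rfl⟩ := Pl.Plc_lift hA
    have e : (A₀.map Pl.O.val).adjugate = A₀.adjugate.map Pl.O.val :=
      (Pl.O.val.map_adjugate A₀).symm
    rw [e]
    exact (A₀.adjugate a b).2
  refine ⟨(Matrix.isUnit_iff_isUnit_det _).2 h4, h5, (Matrix.inv_eq_right_inv ?_).symm⟩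
  rw [← (Pl.map_red_mul hA h5).2, Matrix.mul_nonsing_inv _ h4, Plc_one]

theorem isUnit_map_red {n : Type*} [Fintype n] [DecidableEq n] {A : Matrix n n Ω}
    (hA : ∀ a b, A a b ∈ Pl.O) (hA' : ∀ a b, A⁻¹ a b ∈ Pl.O) (h : IsUnit A) :
    IsUnit (A.map Pl.red) := by
  refine IsUnit.of_mul_eq_one (A⁻¹.map Pl.red) ?_
  rw [← (Pl.map_red_mul hA hA').2, Matrix.mul_nonsing_inv _ ((Matrix.isUnit_iff_isUnit_det _).1 h),
    Plc_one]

variable {ι : Type} {n : ι → ℕ} {v v' : Vars n → Ω}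

theorem pI_le (h : ∀ a, v a ∈ Pl.O) : pI k v ≤ pI k fun a => Pl.red (v a) :=
  pI_le_of_kr_le (Pl.kr_le h)

theorem exists_sc (hv : NZb v) :
    ∃ t : ι → Ω, (∀ i, t i ≠ 0) ∧ (∀ a, sc t v a ∈ Pl.O) ∧ NZb fun a => Pl.red (sc t v a) := by
  choose s hs hs' using fun i => Pl.exists_max (z := fun s => v ⟨i, s⟩) (hv i)
  refine ⟨fun i => (v ⟨i, s i⟩)⁻¹, fun i => inv_ne_zero (hs i), fun a => ?_, fun i => ⟨s i, ?_⟩⟩
  · have := hs' a.1 a.2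
    rwa [div_eq_inv_mul] at this
  · show Pl.red ((v ⟨i, s i⟩)⁻¹ * v ⟨i, s i⟩) ≠ 0
    rw [inv_mul_cancel₀ (hs i), red_one]
    exact one_ne_zero

theorem par_red {I : Set ι} (h : ParOn I v v') (hv : ∀ a, a.1 ∈ I → v a ∈ Pl.O)
    (hv' : ∀ a, a.1 ∈ I → v' a ∈ Pl.O) (h1 : ∀ i ∈ I, ∃ s, Pl.red (v ⟨i, s⟩) ≠ 0)
    (h2 : ∀ i ∈ I, ∃ s, Pl.red (v' ⟨i, s⟩) ≠ 0) :
    ParOn I (fun a => Pl.red (v a)) fun a => Pl.red (v' a) := fun i hi => by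
  obtain ⟨t, -, ht⟩ := h i hi
  obtain ⟨a1, a2⟩ := Pl.par_unit (fun s => hv ⟨i, s⟩ hi) (fun s => hv' ⟨i, s⟩ hi) ht (h1 i hi)
    (h2 i hi)
  exact ⟨Pl.red t, a2, fun s => (congrArg Pl.red (ht s)).trans (Pl.red_mul a1 (hv ⟨i, s⟩ hi))⟩

end Place

end Pool.Agent.MP_0c8446_ag
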