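import Pool.Agent.MP_0c8446_ag.DL.RlA
import Pool.Agent.MP_0c8446_ag.DL.Plc

namespace Pool.Agent.MP_0c8446_ag

open MvPolynomial Set Matrix

universe u v w

variable {k : Type u} [Field k] {Ω Ω' : Type u} [Field Ω] [Algebra k Ω] [Field Ω'] [Algebra k Ω']
  (Pl : Place k Ω Ω') {n : ℕ}

/-- Integral matrices with invertible reduction. -/
def Place.IG (g : Matrix (Fin n) (Fin n) Ω) : Prop :=
  (∀ a b, g a b ∈ Pl.O) ∧ IsUnit (g.map Pl.red)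

variable {Pl} {g g' : Matrix (Fin n) (Fin n) Ω}

theorem Place.IG.isUnit (hg : Pl.IG g) : IsUnit g := (Pl.inv_mem_matrix hg.1 hg.2).1

theorem Place.IG.inv (hg : Pl.IG g) : Pl.IG g⁻¹ ∧ g⁻¹.map Pl.red = (g.map Pl.red)⁻¹ := by
  obtain ⟨-, h2, h3⟩ := Pl.inv_mem_matrix hg.1 hg.2
  exact ⟨⟨h2, h3 ▸ Matrix.isUnit_nonsing_inv_iff.2 hg.2⟩, h3⟩

theorem Place.IG.mul (hg : Pl.IG g) (hg' : Pl.IG g') :
    Pl.IG (g * g') ∧ (g * g').map Pl.red = g.map Pl.red * g'.map Pl.red := by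
  obtain ⟨h1, h2⟩ := Pl.map_red_mul hg.1 hg'.1
  exact ⟨⟨h1, h2 ▸ hg.2.mul hg'.2⟩, h2⟩

theorem Place.IG.dual (hg : Pl.IG g) :
    Pl.IG (dualM g) ∧ (dualM g).map Pl.red = dualM (g.map Pl.red) := by
  have e : (dualM g).map Pl.red = dualM (g.map Pl.red) := by
    rw [dualM, dualM, ← hg.inv.2]
    rfl
  exact ⟨⟨fun a b => hg.inv.1.1 _ _, e ▸ isUnit_dualM hg.2⟩, e⟩

theorem Place.IG.frob {uni : Bool} {q : ℕ} [PQ Ω q] [PQ Ω' q] (hg : Pl.IG g) :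
    Pl.IG (frH Ω n uni q g) ∧ (frH Ω n uni q g).map Pl.red = frH Ω' n uni q (g.map Pl.red) := by
  have e : (g.map (· ^ q)).map Pl.red = (g.map Pl.red).map (· ^ q) :=
    Matrix.ext fun a b => Pl.red_pow (hg.1 a b) q
  have h1 : Pl.IG (g.map (· ^ q)) :=
    ⟨fun a b => pow_mem (hg.1 a b) q, e ▸ isUnit_frH (uni := false) (q := q) hg.2⟩
  cases uni
  · exact ⟨h1, e⟩
  · have e' : (frH Ω n true q g).map Pl.red = frH Ω' n true q (g.map Pl.red) := by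
      rw [frH_apply, frH_apply, if_pos rfl, if_pos rfl, ← e, ← h1.inv.2]
      rfl
    exact ⟨⟨fun a b => h1.inv.1.1 b a, e' ▸ isUnit_frH hg.2⟩, e'⟩

theorem Place.IG.rl {b : Fin n → ℕ} (hg : Pl.IG g) (hg' : Pl.IG g') (h : Rl b g g') :
    Rl b (g.map Pl.red) (g'.map Pl.red) := by
  intro i j hij
  rw [← hg.inv.2, ← (hg.inv.1.mul hg').2, Matrix.map_apply, h hij, Pl.red_zero]

theorem Place.IG.red_mem_flg (hg : Pl.IG g) {a : ℕ} {x : Fin n → Ω} (hx : x ∈ flg g a)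
    (hO : ∀ i, x i ∈ Pl.O) : (fun i => Pl.red (x i)) ∈ flg (g.map Pl.red) a := by
  rw [mem_flg_iff hg.2, ← hg.inv.2]
  intro l hl
  have h1 : ∑ j, g⁻¹ l j * x j = 0 := (mem_flg_iff hg.isUnit).1 hx l hl
  have h2 := Pl.red_sum Finset.univ (f := fun j => g⁻¹ l j * x j)
    fun j _ => mul_mem (hg.inv.1.1 l j) (hO j)
  rw [h1, Pl.red_zero] at h2
  change ∑ j, Pl.red (g⁻¹ l j) * Pl.red (x j) = 0
  rw [h2]
  exact Finset.sum_congr rfl fun j _ => (Pl.red_mul (hg.inv.1.1 l j) (hO j)).symm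

variable {r : ℕ} {G : Fin (r + 1) → Matrix (Fin n) (Fin n) Ω}

theorem IsChain'.red {uni : Bool} {q : ℕ} [PQ k q] {w : Fin r → ℕ} (h : IsChain' uni q w G)
    (hG : ∀ j, Pl.IG (G j)) : IsChain' uni q w fun j => (G j).map Pl.red := by
  have := PQ.ext k q Ω
  have := PQ.ext k q Ω'
  have h1 := (hG 0).frob (uni := uni) (q := q)
  have e : (frobFlag uni q (G 0)).map Pl.red = frobFlag uni q ((G 0).map Pl.red) := by
    rw [frobFlag_eq, frobFlag_eq, ← h1.2]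
    rfl
  have h2 : Pl.IG (frobFlag uni q (G 0)) :=
    ⟨fun a b => by rw [frobFlag_eq]; exact h1.1.1 _ _, e ▸ isUnit_frobFlag (hG 0).2⟩
  exact ⟨fun j => (hG j).2, fun j => (hG _).rl (hG _) (h.2.1 j), e ▸ (hG _).rl h2 h.2.2⟩

theorem Place.plV_red {N : Fin n → ℕ} (c : ∀ a : Fin n, Fin (N a + 1) ≃ (Fin (a + 1) → Fin n))
    (hG : ∀ j a b, G j a b ∈ Pl.O) : (∀ s, plV c G s ∈ Pl.O) ∧
      (fun s => Pl.red (plV c G s)) = plV c fun j => (G j).map Pl.red :=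
  ⟨fun _ => (Pl.red_det fun _ _ => hG _ _ _).1,
    funext fun _ => (Pl.red_det fun _ _ => hG _ _ _).2⟩

end Pool.Agent.MP_0c8446_ag
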