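import Pool.Agent.MP_0c8446_ag.DL.PolyM
import Pool.Agent.MP_0c8446_ag.DL.Rk2

namespace Pool.Agent.MP_0c8446_ag

open MvPolynomial Set

universe u v w

theorem Lift_point {K A : Type*} [Field K] [IsAlgClosed K] [CommRing A] [Algebra K A]
    [Algebra.FiniteType K A] {I : Ideal A} (hI : I ≠ ⊤) : ∃ π : A →ₐ[K] K, ∀ a ∈ I, π a = 0 := by
  obtain ⟨m, hm, hle⟩ := Ideal.exists_le_maximal I hI
  let _ := Ideal.Quotient.field m
  have : Module.Finite K (A ⧸ m) := finite_of_finite_type_of_isJacobsonRing K (A ⧸ m)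
  refine ⟨(IsAlgClosed.lift : (A ⧸ m) →ₐ[K] K).comp (Ideal.Quotient.mkₐ K m), fun a ha => ?_⟩
  rw [AlgHom.comp_apply, Ideal.Quotient.mkₐ_eq_mk, Ideal.Quotient.eq_zero_iff_mem.2 (hle ha),
    map_zero]

/-- Substitute values for the first group of variables. -/
noncomputable def LiftSub (k : Type*) [CommRing k] {A : Type*} [CommRing A] [Algebra k A]
    {σ τ : Type*} (x : τ → A) : MvPolynomial (τ ⊕ σ) k →ₐ[k] MvPolynomial σ A :=
  aeval (Sum.elim (fun t => C (x t)) X)

theorem Lift_comp {k A B σ τ : Type*} [CommRing k] [CommRing A] [Algebra k A] [CommRing B]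
    [Algebra k B] (x : τ → A) (Ψ : MvPolynomial σ A →ₐ[k] B) (e : MvPolynomial (τ ⊕ σ) k) :
    Ψ (LiftSub k x e) = aeval (Sum.elim (fun t => Ψ (C (x t))) fun s => Ψ (X s)) e := by
  rw [LiftSub, ← AlgHom.comp_apply, comp_aeval]
  congr 2
  funext a
  cases a <;> rfl

variable {k : Type u} [Field k] [IsAlgClosed k] {Ω : Type u} [Field Ω] [Algebra k Ω]

/-- A system that is solvable at every `k`-rational specialisation of `x` is solvable at `x`. -/
theorem exists_sol_of_k [IsAlgClosed Ω] {σ τ : Type} [Finite σ] [Finite τ]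
    (E : Set (MvPolynomial (τ ⊕ σ) k)) (x : τ → Ω)
    (H : ∀ x₀ : τ → k, kr k x ≤ kr k x₀ → ∃ h₀ : σ → k, ∀ e ∈ E, aeval (Sum.elim x₀ h₀) e = 0) :
    ∃ h : σ → Ω, ∀ e ∈ E, aeval (Sum.elim x h) e = 0 := by
  classical
  by_cases hJ : Ideal.span (LiftSub k x '' E) = ⊤
  · exfalso
    obtain ⟨n, f, g, hs⟩ := Submodule.mem_span_set'.1 ((Ideal.eq_top_iff_one _).1 hJ)
    choose e he hg using fun i => (g i).2
    let S : Set Ω := range x ∪ ⋃ i, ((f i).coeffs : Set Ω)
    have hS : S.Finite := (finite_range x).union (finite_iUnion fun i => Finset.finite_toSet _)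
    let A := Algebra.adjoin k S
    have : Algebra.FiniteType k A := Algebra.FiniteType.adjoin_of_finite hS
    obtain ⟨π, -⟩ := Lift_point (K := k) (A := A) bot_ne_top
    let x' : τ → A := fun t => ⟨x t, Algebra.subset_adjoin (Or.inl ⟨t, rfl⟩)⟩
    have hf : ∀ i, ∃ p : MvPolynomial σ A, map (A.val : A →+* Ω) p = f i := fun i =>
      mem_range_map_iff_coeffs_subset.2 fun c hc =>
        ⟨⟨c, Algebra.subset_adjoin (Or.inr (mem_iUnion.2 ⟨i, hc⟩))⟩, rfl⟩
    choose f' hf using hf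
    have h1 : ∀ p, map (A.val : A →+* Ω) (LiftSub k x' p) = LiftSub (σ := σ) k x p := by
      intro p
      have := Lift_comp x' (mapAlgHom (σ := σ) A.val) p
      simpa [LiftSub, x'] using this
    have h2 : ∑ i, f' i * LiftSub k x' (e i) = 1 := by
      apply map_injective (A.val : A →+* Ω) Subtype.val_injective
      rw [map_one, ← hs, map_sum]
      exact Finset.sum_congr rfl fun i _ => by rw [map_mul, hf, h1, hg, smul_eq_mul]
    obtain ⟨h₀, h3⟩ := H (fun t => π (x' t)) fun p hp => by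
      have h4 : aeval x' p = 0 := Subtype.val_injective (by
        have := congrArg (fun φ => φ p) (comp_aeval x' A.val)
        exact this.trans hp)
      have := congrArg (fun φ => φ p) (comp_aeval x' π)
      rw [mem_kr, ← this, AlgHom.comp_apply, h4, map_zero]
    have h5 := congrArg (aevalTower π h₀) h2
    rw [map_one, map_sum, Finset.sum_eq_zero] at h5
    · exact zero_ne_one h5
    intro i _
    rw [map_mul, Lift_comp]
    simp only [aevalTower_C, aevalTower_X]
    rw [h3 _ (he i), mul_zero]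
  · obtain ⟨π, hπ⟩ := Lift_point (K := Ω) hJ
    refine ⟨fun s => π (X s), fun e he => ?_⟩
    have := Lift_comp x (π.restrictScalars k) e
    simp only [AlgHom.restrictScalars_apply, algHom_C, Algebra.algebraMap_self, RingHom.id_apply]
      at this
    rw [← this]
    exact hπ _ (Ideal.subset_span ⟨e, he, rfl⟩)

/-- A polynomial map from a closed set that is onto on `k`-points is onto on geometric points. -/
theorem Var.lift_of_k [IsAlgClosed Ω] {X : Var k} {σ : Type} [Finite σ]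
    (E : Set (MvPolynomial σ k)) (pt : Vars X.n → MvPolynomial σ k)
    (H : ∀ x : X.pts, ∃ h : σ → k, (∀ e ∈ E, aeval h e = 0) ∧ IsRep (evs h pt) x.1)
    {v : Vars X.n → Ω} (hv : X.On v) :
    ∃ h : σ → Ω, (∀ e ∈ E, aeval h e = 0) ∧ ParOn univ (evs h pt) v := by
  obtain ⟨t, ht, -, h1⟩ := hv.1.exists_norm
  have hp := parOn_sc univ ht v
  let r : MvPolynomial σ k →ₐ[k] MvPolynomial (Vars X.n ⊕ (σ ⊕ X.ι)) k :=
    rename fun s => Sum.inr (Sum.inl s)
  obtain ⟨h, hh⟩ := exists_sol_of_k (r '' E ∪ range fun a : Vars X.n =>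
    MvPolynomial.X (Sum.inl a) - MvPolynomial.X (Sum.inr (Sum.inr a.1)) * r (pt a)) (sc t v)
    fun x₀ hx => by
      have h2 : NZb x₀ := fun i => by
        obtain ⟨s, hs⟩ := h1 i
        have h3 : MvPolynomial.X ⟨i, s⟩ - 1 ∈ kr k x₀ := hx (by simp [mem_kr, hs])
        rw [mem_kr, map_sub, aeval_X, map_one, sub_eq_zero] at h3
        exact ⟨s, h3 ▸ one_ne_zero⟩
      obtain ⟨y, hy⟩ := ((hv.par hp).of_le h2 (pI_le_of_kr_le hx)).exists_isRep
      obtain ⟨h₀, h3, h4⟩ := H y
      obtain ⟨t₀, -, h5⟩ := (h4.parOn hy).exists_sc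
      refine ⟨Sum.elim h₀ t₀, ?_⟩
      rintro e (⟨e, he, rfl⟩ | ⟨a, rfl⟩)
      · rw [aeval_rename]
        exact h3 e he
      · simp only [map_sub, map_mul, aeval_X, r, aeval_rename, Sum.elim_inl, Sum.elim_inr]
        rw [sub_eq_zero]
        exact congrFun h5 a
  have h2 : ∀ a, sc t v a = h (Sum.inr a.1) * evs (fun s => h (Sum.inl s)) pt a := fun a => by
    have := hh _ (Or.inr ⟨a, rfl⟩)
    simp only [map_sub, map_mul, aeval_X, r, aeval_rename, Sum.elim_inl, Sum.elim_inr] at this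
    exact sub_eq_zero.1 this
  refine ⟨fun s => h (Sum.inl s), fun e he => ?_, ParOn.trans (fun i _ => ?_) hp.symm⟩
  · have := hh _ (Or.inl ⟨e, he, rfl⟩)
    rwa [aeval_rename] at this
  · refine ⟨h (Sum.inr i), fun h0 => ?_, fun s => h2 ⟨i, s⟩⟩
    obtain ⟨s, hs⟩ := h1 i
    rw [h2, h0, zero_mul] at hs
    exact zero_ne_one hs

end Pool.Agent.MP_0c8446_ag
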