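import Pool.Agent.MP_0c8446_ag.DL.GFr
import Pool.Agent.MP_0c8446_ag.DL.Lift

namespace Pool.Agent.MP_0c8446_ag

open MvPolynomial Set Matrix

universe u v w

variable {k : Type u} [Field k] {n r : ℕ} (uni : Bool) (q : ℕ) [PQ k q] (w : Fin r → ℕ)
  {N : Fin n → ℕ} (c : ∀ a : Fin n, Fin (N a + 1) ≃ (Fin (a + 1) → Fin n))

lemma GSt_ne {ι : Type} {m : ι → ℕ} {v : Vars m → k} (h : NZb v) (i : ι) :
    (fun s => v ⟨i, s⟩) ≠ 0 := fun e => (h i).elim fun s hs => hs (congrFun e s)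

lemma GSt_fr {Ω : Type u} [Field Ω] [Algebra k Ω] {g : Fin (r + 1) → Matrix (Fin n) (Fin n) Ω}
    (hg : IsChain' uni q w g) :
    (glFr k uni q fun j a b => blJ n w j b < blJ n w j a).Fr (mkF g fun j => (g j)⁻¹) :=
  fr_chain_iff.2 ⟨fun j => mul_nonsing_inv _ ((isUnit_iff_isUnit_det _).1 (hg.1 j)), hg⟩

theorem dl_stab (γ : fixG k n uni q) (x : dl k uni q w c) : ∃ y : dl k uni q w c, ∀ v, IsRep v x.1 →
    IsRep (blin (fun i : Fin (r + 1) × Fin n => plR k c i.2 (stdR k n uni q γ)) v) y.1 := by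
  obtain ⟨G, hG, hx⟩ := (mem_dl c).1 x.2
  have h1 := hG.mul γ.1.isUnit (mem_fixG.1 γ.2)
  have h2 := amb_isRep _ (GSt_ne (nzb_plV c h1.1))
  refine ⟨⟨_, (mem_dl c).2 ⟨_, h1, h2⟩⟩, fun v hv => ((hx.parOn hv).blin _).isRep ?_⟩
  rw [← plV_mul, Algebra.algebraMap_self, RingHom.coe_id, Matrix.map_id]
  exact h2

/-- The Deligne-Lusztig variety with the action of the finite group. -/
noncomputable def dlStage (h₁ : IsSub (dl k uni q w c))
    (h₂ : ∀ x ∈ dl k uni q w c, ∀ v, IsRep v x → Module.finrank k (tangent (dl k uni q w c) v) ≤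
      dim (univ : Set (dl k uni q w c)) + Fintype.card (Fin (r + 1) × Fin n)) :
    Stage k (fixG k n uni q) where
  P := ⟨_, _, dl k uni q w c, h₁, h₂⟩
  J := ∅
  ρ i := (plR k c i.2).comp (stdR k n uni q)
  triv _ h := h.elim
  stab := dl_stab uni q w c

variable {uni q w c} [IsAlgClosed k] {h₁ h₂} {Ω : Type u} [Field Ω] [Algebra k Ω]

theorem dl_on {g : Fin (r + 1) → Matrix (Fin n) (Fin n) Ω} (hg : IsChain' uni q w g) :
    (dlStage (k := k) uni q w c h₁ h₂).P.On (plV c g) := by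
  have := Var.on_of_k (X := (dlStage (k := k) uni q w c h₁ h₂).P)
    (glFr k uni q fun j a b => blJ n w j b < blJ n w j a).E (plV c (mM X)) (fun h hh => ?_)
    (GSt_fr uni q w hg)
  · exact (evs_plV_mM (k := k) c (mkF g fun j => (g j)⁻¹)) ▸ this
  · have h1 := (fr_chain_iff.1 hh).2
    have h2 := amb_isRep _ (GSt_ne (nzb_plV c h1.1))
    exact ⟨⟨_, (mem_dl c).2 ⟨_, h1, h2⟩⟩, (evs_plV_mM (k := k) c h).symm ▸ h2⟩

theorem dl_lift [IsAlgClosed Ω] {v : Vars (dlStage (k := k) uni q w c h₁ h₂).P.n → Ω}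
    (hv : (dlStage uni q w c h₁ h₂).P.On v) :
    ∃ g : Fin (r + 1) → Matrix (Fin n) (Fin n) Ω, IsChain' uni q w g ∧ ParOn univ (plV c g) v := by
  obtain ⟨h, h1, h2⟩ := Var.lift_of_k (X := (dlStage (k := k) uni q w c h₁ h₂).P)
    (glFr k uni q fun j a b => blJ n w j b < blJ n w j a).E (plV c (mM X)) (fun x => by
      obtain ⟨G, hG, hx⟩ := (mem_dl c).1 x.2
      exact ⟨mkF G fun j => (G j)⁻¹, GSt_fr uni q w hG,
        (evs_plV_mM (k := k) c (mkF G fun j => (G j)⁻¹)).symm ▸ hx⟩) hv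
  exact ⟨mM h, (fr_chain_iff.1 h1).2, (evs_plV_mM (k := k) c h) ▸ h2⟩

end Pool.Agent.MP_0c8446_ag
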