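import Pool.Agent.MP_0c8446_ag.DL.RlA

namespace Pool.Agent.MP_0c8446_ag

open MvPolynomial Set Matrix

universe u v w

variable {k : Type u} [Field k] {n : ℕ} {g g' h : Matrix (Fin n) (Fin n) k}

theorem Bru_col_notMem (hg : IsUnit g) (l : Fin n) : (fun i => g i l) ∉ flg g l := by
  intro hx
  have h0 := (mem_flg_iff hg).1 hx l le_rfl
  have e : (g⁻¹ *ᵥ fun i => g i l) l = (g⁻¹ * g) l l := rfl
  rw [e, Matrix.nonsing_inv_mul _ ((Matrix.isUnit_iff_isUnit_det g).1 hg), one_apply_eq] at h0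
  exact one_ne_zero h0

theorem Bru_exists (hg : IsUnit g) (hg' : IsUnit g') (l : Fin n) :
    ∃ (b : Fin n) (x : Fin n → k), x ∈ flg g (l + 1) ∧ x ∉ flg g l ∧ x ∈ flg g' (b + 1) ∧
      ∀ x' ∈ flg g (l + 1), x' ∈ flg g' b → x' ∈ flg g l := by
  classical
  have hex : ∃ m : ℕ, ∃ x, x ∈ flg g (l + 1) ∧ x ∉ flg g l ∧ x ∈ flg g' m :=
    ⟨n, fun i => g i l, col_mem_flg g (Nat.lt_succ_self _), Bru_col_notMem hg l,
      (mem_flg_iff hg').2 fun j hj => absurd j.2 (not_lt.2 hj)⟩
  have hle : Nat.find hex ≤ n := Nat.find_min' hex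
    ⟨fun i => g i l, col_mem_flg g (Nat.lt_succ_self _), Bru_col_notMem hg l,
      (mem_flg_iff hg').2 fun j hj => absurd j.2 (not_lt.2 hj)⟩
  obtain ⟨x, hx1, hx2, hx3⟩ := Nat.find_spec hex
  have h0 : Nat.find hex ≠ 0 := by
    intro e
    rw [e] at hx3
    apply hx2
    have : x = 0 := by simpa [flg] using hx3
    rw [this]
    exact zero_mem _
  refine ⟨⟨Nat.find hex - 1, by omega⟩, x, hx1, hx2, ?_, fun x' h1 h2 => ?_⟩
  · have e : Nat.find hex - 1 + 1 = Nat.find hex := by omega
    simpa only [e] using hx3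
  · by_contra h3
    exact Nat.find_min hex (show Nat.find hex - 1 < Nat.find hex by omega) ⟨x', h1, h3, h2⟩

/-- The Bruhat decomposition: two flags have a common frame. -/
theorem exists_bruhat (hg : IsUnit g) (hg' : IsUnit g') :
    ∃ (y : Equiv.Perm (Fin n)) (h : Matrix (Fin n) (Fin n) k), IsUnit h ∧ Rl Fin.val g h ∧
      Rl Fin.val g' (h.submatrix id y) := by
  choose z x hx1 hx2 hx3 hmin using Bru_exists hg hg'
  have key : ∀ l l' : Fin n, l < l' → z l ≠ z l' := by
    intro l l' hl e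
    have hne : (g'⁻¹ *ᵥ x l) (z l) ≠ 0 := by
      intro h0
      refine hx2 l (hmin l _ (hx1 l) ((mem_flg_iff hg').2 fun j hj => ?_))
      rcases hj.eq_or_lt with hj | hj
      · rw [← Fin.ext hj]; exact h0
      · exact (mem_flg_iff hg').1 (hx3 l) j hj
    have hl1 : x l ∈ flg g l' := flg_mono g (show (l : ℕ) + 1 ≤ l' from hl) (hx1 l)
    set t := (g'⁻¹ *ᵥ x l') (z l) / (g'⁻¹ *ᵥ x l) (z l) with ht
    have hm : x l' - t • x l ∈ flg g l' := by
      refine hmin l' _ (sub_mem (hx1 l') (Submodule.smul_mem _ _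
        (flg_mono g (Nat.le_succ _) hl1))) ((mem_flg_iff hg').2 fun j hj => ?_)
      rw [Matrix.mulVec_sub, Matrix.mulVec_smul, Pi.sub_apply, Pi.smul_apply, smul_eq_mul]
      rcases hj.eq_or_lt with hj | hj
      · rw [← Fin.ext hj, ← e, ht, div_mul_cancel₀ _ hne, sub_self]
      · rw [(mem_flg_iff hg').1 (hx3 l') j hj, (mem_flg_iff hg').1 (hx3 l) j (by rw [e]; exact hj),
          mul_zero, sub_self]
    apply hx2 l'
    simpa using add_mem hm (Submodule.smul_mem _ t hl1)
  have inj : Function.Injective z := fun l l' e => by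
    rcases lt_trichotomy l l' with hl | hl | hl
    · exact absurd e (key l l' hl)
    · exact hl
    · exact absurd e.symm (key l' l hl)
  let E := Equiv.ofBijective z (Finite.injective_iff_bijective.1 inj)
  refine ⟨E.symm, Matrix.of fun i l => x l i, isUnit_of_col hg fun l => ⟨hx1 l, hx2 l⟩,
    (rl_iff_col hg).2 fun l => hx1 l, (rl_iff_col hg').2 fun b => ?_⟩
  have e : z (E.symm b) = b := E.apply_symm_apply b
  have := hx3 (E.symm b)
  rw [e] at this
  exact this

theorem finrank_flg_inf {y : Equiv.Perm (Fin n)} (hg : IsUnit g) (hg' : IsUnit g') (hh : IsUnit h)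
    (h1 : Rl Fin.val g h) (h2 : Rl Fin.val g' (h.submatrix id y)) (a b : ℕ) :
    Module.finrank k ↥(flg g a ⊓ flg g' b) = dy y a b := by
  have hy := isUnit_submatrix hh y
  have hd := (Matrix.isUnit_iff_isUnit_det h).1 hh
  rw [← h1.flg_eq hg hh a, ← h2.flg_eq hg' hy b, dy]
  set S := Finset.univ.filter fun l : Fin n => (l : ℕ) < a ∧ (y.symm l : ℕ) < b with hS
  have hinv : (h.submatrix id y)⁻¹ = h⁻¹.submatrix y id := by
    apply Matrix.inv_eq_left_inv
    have e : h⁻¹.submatrix y id * h.submatrix id y = (h⁻¹ * h).submatrix y y := rfl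
    rw [e, Matrix.nonsing_inv_mul _ hd, Matrix.submatrix_one _ y.injective]
  have li : LinearIndependent k fun l : S => h.col l.1 :=
    (Matrix.linearIndependent_cols_iff_isUnit.2 hh).comp _ Subtype.val_injective
  have e : flg h a ⊓ flg (h.submatrix id y) b = Submodule.span k (range fun l : S => h.col l.1) := by
    apply le_antisymm
    · rintro x ⟨hx1, hx2⟩
      have ex : x = ∑ l, (h⁻¹ *ᵥ x) l • h.col l := by
        conv_lhs => rw [← Matrix.one_mulVec x, ← Matrix.mul_nonsing_inv _ hd,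
          ← Matrix.mulVec_mulVec]
        funext i
        rw [Finset.sum_apply]
        change ∑ l, h i l * (h⁻¹ *ᵥ x) l = ∑ l, (h⁻¹ *ᵥ x) l * h i l
        exact Finset.sum_congr rfl fun l _ => mul_comm _ _
      rw [ex]
      refine Submodule.sum_mem _ fun l _ => ?_
      by_cases hl : l ∈ S
      · exact Submodule.smul_mem _ _ (Submodule.subset_span ⟨⟨l, hl⟩, rfl⟩)
      · have h0 : (h⁻¹ *ᵥ x) l = 0 := by
          by_cases ha : (l : ℕ) < a
          · have hb : b ≤ (y.symm l : ℕ) := by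
              by_contra hb
              exact hl (Finset.mem_filter.2 ⟨Finset.mem_univ _, ha, not_le.1 hb⟩)
            have := (mem_flg_iff hy).1 hx2 (y.symm l) hb
            rw [hinv] at this
            have e2 : (h⁻¹.submatrix y id *ᵥ x) (y.symm l) = (h⁻¹ *ᵥ x) (y (y.symm l)) := rfl
            rwa [e2, Equiv.apply_symm_apply] at this
          · exact (mem_flg_iff hh).1 hx1 l (not_lt.1 ha)
        rw [h0, zero_smul]
        exact zero_mem _
    · rw [Submodule.span_le]
      rintro _ ⟨⟨l, hl⟩, rfl⟩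
      obtain ⟨ha, hb⟩ := (Finset.mem_filter.1 hl).2
      refine ⟨col_mem_flg h ha, ?_⟩
      have := col_mem_flg (h.submatrix id y) hb
      simp only [submatrix_apply, id, Equiv.apply_symm_apply] at this
      exact this
  rw [e, finrank_span_eq_card li, Fintype.card_coe]

theorem dy_succ (y : Equiv.Perm (Fin n)) (l : Fin n) :
    dy y (l + 1) (y.symm l + 1) = dy y l (y.symm l + 1) + 1 := by
  rw [dy, dy, ← Finset.card_insert_of_notMem (a := l) (by simp)]
  congr 1
  ext j
  simp only [Finset.mem_filter, Finset.mem_univ, true_and, Finset.mem_insert]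
  constructor
  · rintro ⟨h1, h2⟩
    rcases (Nat.lt_succ_iff.1 h1).eq_or_lt with e | e
    · exact Or.inl (Fin.ext e)
    · exact Or.inr ⟨e, h2⟩
  · rintro (rfl | ⟨h1, h2⟩)
    · exact ⟨Nat.lt_succ_self _, Nat.lt_succ_self _⟩
    · exact ⟨Nat.lt_succ_of_lt h1, h2⟩

end Pool.Agent.MP_0c8446_ag
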