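import Pool.Agent.MP_0c8446_ag.DL.Iwa
import Pool.Agent.MP_0c8446_ag.DL.Bru

namespace Pool.Agent.MP_0c8446_ag

open MvPolynomial Set Matrix

universe u v w

variable {k : Type u} [Field k] {Ω Ω' : Type u} [Field Ω] [Algebra k Ω] [Field Ω'] [Algebra k Ω']
  {Pl : Place k Ω Ω'} {n : ℕ} {g g' : Matrix (Fin n) (Fin n) Ω}

theorem BruO_le {U : Submodule Ω (Fin n → Ω)} {W : Submodule Ω' (Fin n → Ω')}
    (h : ∀ x ∈ U, (∀ i, x i ∈ Pl.O) → (fun i => Pl.red (x i)) ∈ W) :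
    Module.finrank Ω U ≤ Module.finrank Ω' W := by
  obtain ⟨u, h1, h2, h3⟩ := Pl.exists_basis U
  simpa using (LinearIndependent.of_comp (v := fun m => (⟨_, h _ (h1 m) (h2 m)⟩ : W)) W.subtype
    h3).fintype_card_le_finrank

/-- The dimensions of the intersections can only go up under reduction. -/
theorem Place.finrank_flg_le (hg : Pl.IG g) (hg' : Pl.IG g') (a b : ℕ) :
    Module.finrank Ω ↥(flg g a ⊓ flg g' b) ≤
      Module.finrank Ω' ↥(flg (g.map Pl.red) a ⊓ flg (g'.map Pl.red) b) :=   BruO_le fun _ hx hO => ⟨hg.red_mem_flg hx.1 hO, hg'.red_mem_flg hx.2 hO⟩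

/-- If the relative position does not change, there is an integral common frame. -/
theorem Place.exists_bruhat (hg : Pl.IG g) (hg' : Pl.IG g') {y : Equiv.Perm (Fin n)}
    (h1 : ∀ a ≤ n, ∀ b ≤ n, Module.finrank Ω ↥(flg g a ⊓ flg g' b) = dy y a b)
    (h2 : ∀ a ≤ n, ∀ b ≤ n,
      Module.finrank Ω' ↥(flg (g.map Pl.red) a ⊓ flg (g'.map Pl.red) b) = dy y a b) :
    ∃ h, Pl.IG h ∧ Rl Fin.val g h ∧ Rl Fin.val g' (h.submatrix id y) := by
  have key : ∀ l : Fin n, ∃ x ∈ flg g (l + 1) ⊓ flg g' (y.symm l + 1), (∀ i, x i ∈ Pl.O) ∧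
      (fun i => Pl.red (x i)) ∉ flg (g.map Pl.red) l := fun l => by
    by_contra hc
    push Not at hc
    have := BruO_le (W := flg (g.map Pl.red) l ⊓ flg (g'.map Pl.red) (y.symm l + 1))
      fun x hx hO => ⟨hc x hx hO, hg'.red_mem_flg hx.2 hO⟩
    rw [h1 (l + 1) l.2 (y.symm l + 1) (y.symm l).2, h2 l l.2.le (y.symm l + 1) (y.symm l).2,
      dy_succ] at this
    omega
  choose x hx hO hn using key
  refine ⟨Matrix.of fun i l => x l i, ⟨fun a b => hO b a, isUnit_of_col hg.2 fun l =>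
    ⟨hg.red_mem_flg (hx l).1 (hO l), hn l⟩⟩, (rl_iff_col hg.isUnit).2 fun l => (hx l).1,
    (rl_iff_col hg'.isUnit).2 fun l => ?_⟩
  have := (hx (y l)).2
  rwa [y.symm_apply_apply] at this

end Pool.Agent.MP_0c8446_ag
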