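import Pool.Agent.MP_0c8446_ag.DL.Lev

namespace Pool.Agent.MP_0c8446_ag

open MvPolynomial Set

universe u v w

variable {k : Type u} [Field k] {Γ : Type u} [Group Γ]

/-- A stratification of a stage by images of frames. -/
structure Stage.Strat (S : Stage k Γ) {Y : Type} (N : Y → ℕ) (D : Y → FrD k Γ)
    (pt : ∀ y, Vars S.P.n → MvPolynomial (D y).σ k) : Prop where
  on : ∀ y (Ω : Type u) [Field Ω] [Algebra k Ω] (h : (D y).σ → Ω), (D y).Fr h →
    S.P.On (evs h (pt y))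
  equi : ∀ y i, (D y).Equi (S.ρ i) fun s => pt y ⟨i, s⟩
  cover : ∀ (Ω : Type u) [Field Ω] [Algebra k Ω] [IsAlgClosed Ω] (v : Vars S.P.n → Ω), S.P.On v →
    ∃ y h, (D y).Fr h ∧ ParOn univ (evs h (pt y)) v
  il : ∀ y (Ω Ω' : Type u) [Field Ω] [Algebra k Ω] [IsAlgClosed Ω] [Field Ω'] [Algebra k Ω']
    [IsAlgClosed Ω'] (Pl : Place k Ω Ω') (v : Vars S.P.n → Ω) (h : (D y).σ → Ω), (D y).Fr h →
    ParOn univ (evs h (pt y)) v → (∀ a, v a ∈ Pl.O) → NZb (fun a => Pl.red (v a)) →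
    (∃ y' h', N y < N y' ∧ (D y').Fr h' ∧ ParOn univ (evs h' (pt y')) fun a => Pl.red (v a)) ∨
      ∃ h', (D y).Fr h' ∧ ParOn univ (evs h' (pt y)) v ∧ ∀ s, h' s ∈ Pl.O

section aux

variable [IsAlgClosed k] {S : Stage k Γ} {Y : Type} {N : Y → ℕ} {D : Y → FrD k Γ}
  {pt : ∀ y, Vars S.P.n → MvPolynomial (D y).σ k} {T : Var k}
  {Ω Ω' : Type u} [Field Ω] [Algebra k Ω] [Field Ω'] [Algebra k Ω']

/-- The coordinates of a stratum in the product. -/
noncomputable def Strata_pt (pt : ∀ y, Vars S.P.n → MvPolynomial (D y).σ k) (T : Var k) (y : Y) :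
    Vars (S.prod (trivStage Γ T)).P.n → MvPolynomial (D y).σ k :=
  pvJoin (pt y) 0

theorem Strata_inl (hJ : S.J = ∅) (i : S.P.ι) : Sum.inl i ∉ (S.prod (trivStage Γ T)).J :=
  fun h => (hJ ▸ h : i ∈ (∅ : Set S.P.ι))

theorem Strata_inr (i : T.ι) : Sum.inr i ∈ (S.prod (trivStage Γ T)).J := trivial

theorem Strata_par (hJ : S.J = ∅) {y : Y} {g : (D y).σ → Ω}
    {v : Vars (S.prod (trivStage Γ T)).P.n → Ω} :
    ParOn (S.prod (trivStage Γ T)).Jᶜ (evs g (Strata_pt pt T y)) v ↔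
      ParOn univ (evs g (pt y)) fun s => v (pvL T.n s) := by
  refine ⟨fun h i _ => h (Sum.inl i) (Strata_inl hJ i), fun h i hi => ?_⟩
  cases i with
  | inl i => exact h i trivial
  | inr i => exact (hi (Strata_inr i)).elim

/-- A stratum as a level. -/
noncomputable def Strata_lev (hJ : S.J = ∅) (h : S.Strat N D pt) (y : Y)
    (bd : Set (Set (S.prod (trivStage Γ T)).P.pts)) (hc : SubCl bd)
    (hil : (D y).IL (S.prod (trivStage Γ T)) (Strata_pt pt T y) bd) : Level (D y) where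
  S := S.prod (trivStage Γ T)
  pt := Strata_pt pt T y
  bd := bd
  nz
    | Sum.inl i, _ => fun Ω _ _ g hg => (h.on y Ω g hg).1 i
    | Sum.inr i, hi => (hi (Strata_inr i)).elim
  equi
    | Sum.inl i, _ => h.equi y i
    | Sum.inr i, hi => (hi (Strata_inr i)).elim
  prod Ω _ _ v g hv hg := by
    have e : mix (S.prod (trivStage Γ T)).J v (evs g (Strata_pt pt T y)) =
        pvJoin (evs g (pt y)) fun s => v (pvR S.P.n s) := by
      funext ⟨i, s⟩
      cases i with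
      | inl i => exact if_neg (Strata_inl hJ i)
      | inr i => exact if_pos (Strata_inr i)
    rw [e]
    exact on_pvJoin (h.on y Ω g hg) (on_pv_iff.1 hv).2
  closed := hc
  il := hil

/-- A stratum with the largest boundary. -/
noncomputable def Strata_top (hJ : S.J = ∅) (h : S.Strat N D pt) (T : Var k) (y : Y) :
    Level (D y) :=
  Strata_lev (T := T) hJ h y {C | IsSub C} (fun _ hC => ⟨hC, fun _ hC' _ => hC'⟩)
    fun _ _ _ _ _ _ _ _ Pl _ _ hv _ _ hO hn => Or.inl (hv.of_le hn (Pl.pI_le hO)).isSub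

theorem Strata_il [IsAlgClosed Ω] [IsAlgClosed Ω'] (hJ : S.J = ∅) (h : S.Strat N D pt) {y : Y}
    (Pl : Place k Ω Ω') {v : Vars (S.prod (trivStage Γ T)).P.n → Ω} {g : (D y).σ → Ω}
    (hv : (S.prod (trivStage Γ T)).P.On v) (hg : (D y).Fr g)
    (hp : ParOn (S.prod (trivStage Γ T)).Jᶜ (evs g (Strata_pt pt T y)) v) (hO : ∀ a, v a ∈ Pl.O)
    (hn : NZb fun a => Pl.red (v a)) :
    (∃ y', N y < N y' ∧
      (D y').famR (S.prod (trivStage Γ T)) (Strata_pt pt T y') Ω' fun a => Pl.red (v a)) ∨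
    ∃ g', (D y).Fr g' ∧ ParOn (S.prod (trivStage Γ T)).Jᶜ (evs g' (Strata_pt pt T y)) v ∧
      ∀ s, g' s ∈ Pl.O := by
  rcases h.il y Ω Ω' Pl (fun s => v (pvL T.n s)) g hg ((Strata_par hJ).1 hp) (fun _ => hO _)
    (fun i => hn (Sum.inl i)) with ⟨y', g', h1, h2, h3⟩ | ⟨g', h1, h2, h3⟩
  · exact Or.inl ⟨y', h1, hv.of_le hn (Pl.pI_le hO), g', h2, (Strata_par hJ).2 h3⟩
  · exact Or.inr ⟨g', h1, (Strata_par hJ).2 h2, h3⟩

theorem Strata_sp [IsAlgClosed Ω] [IsAlgClosed Ω'] (hJ : S.J = ∅) (h : S.Strat N D pt) {y : Y}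
    {v : Vars (S.prod (trivStage Γ T)).P.n → Ω} {u : Vars (S.prod (trivStage Γ T)).P.n → Ω'}
    (hv : (D y).famR (S.prod (trivStage Γ T)) (Strata_pt pt T y) Ω v) (hu : NZb u)
    (hle : pI k v ≤ pI k u) :
    ∃ y', N y ≤ N y' ∧ (D y').famR (S.prod (trivStage Γ T)) (Strata_pt pt T y') Ω' u := by
  obtain ⟨Pl, v', h1, h2, h3⟩ := exists_place_pI hu hle
  obtain ⟨h4, g, hg, h5⟩ := (Strata_top hJ h T y).famR_par hv h1
  rcases Strata_il hJ h Pl h4 hg h5 h2 (h3.nzb hu) with ⟨y', h6, h7⟩ | ⟨g', h6, h7, h8⟩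
  · exact ⟨y', h6.le, (Strata_top hJ h T y').famR_par h7 h3.symm⟩
  · exact ⟨y, le_rfl, (Strata_top hJ h T y).famR_par
      ((Strata_top hJ h T y).famR_red Pl h4 h6 h7 h8 h2 (h3.nzb hu)) h3.symm⟩

/-- The union of the strata of index at least `m`. -/
def Strata_B (N : Y → ℕ) (pt : ∀ y, Vars S.P.n → MvPolynomial (D y).σ k) (T : Var k) (m : ℕ) :
    Set (Set (S.prod (trivStage Γ T)).P.pts) :=
  {C | ∃ y, m ≤ N y ∧ C ∈ (S.prod (trivStage Γ T)).P.fam
    ((D y).famR (S.prod (trivStage Γ T)) (Strata_pt pt T y))}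

theorem Strata_closed (hJ : S.J = ∅) (h : S.Strat N D pt) (m : ℕ) : SubCl (Strata_B N pt T m) := by
  rintro C ⟨y, hy, Ω, _, _, _, v, hv, rfl⟩
  refine ⟨hv.1.isSub, fun C' hC' hs => ?_⟩
  obtain ⟨Ω', _, _, _, u, hu, rfl⟩ := Var.exists_generic _ hC'
  obtain ⟨y', h1, h2⟩ := Strata_sp hJ h hv hu.1 (hu.pI_le hs)
  exact ⟨y', hy.trans h1, Ω', _, _, inferInstance, u, h2, rfl⟩

theorem Strata_all (hJ : S.J = ∅) (h : S.Strat N D pt) {C : Set (S.prod (trivStage Γ T)).P.pts}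
    (hC : IsSub C) : C ∈ Strata_B N pt T 0 := by
  obtain ⟨Ω, _, _, _, u, hu, rfl⟩ := Var.exists_generic _ hC
  obtain ⟨y, g, h1, h2⟩ := h.cover Ω _ (on_pv_iff.1 hu).1
  exact ⟨y, Nat.zero_le _, Ω, _, _, inferInstance, u, ⟨hu, g, h1, (Strata_par hJ).2 h2⟩, rfl⟩

/-- A stratum with the later strata as boundary. -/
noncomputable def Strata_L (hJ : S.J = ∅) (h : S.Strat N D pt) (T : Var k) (y : Y) : Level (D y) :=
  Strata_lev (T := T) hJ h y (Strata_B N pt T (N y + 1)) (Strata_closed hJ h _)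
    fun _ Ω' _ _ _ _ _ _ Pl _ _ hv hg hp hO hn => (Strata_il hJ h Pl hv hg hp hO hn).imp_left
      fun ⟨y', h1, h2⟩ => ⟨y', h1, Ω', _, _, inferInstance, _, h2, rfl⟩

end aux

variable [IsAlgClosed k] {K : Type v} [Field K] (W : Weil.{u, v, w} k K)

theorem Weil.dec_strata {S : Stage k Γ} (hJ : S.J = ∅) {Y : Type} [Finite Y] {N : Y → ℕ}
    {D : Y → FrD k Γ} {pt : ∀ y, Vars S.P.n → MvPolynomial (D y).σ k} (h : S.Strat N D pt)
    (good : ∀ y, W.Good (D y)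
      (fun _ _ _ _ h h' => ParOn univ (evs h (pt y)) (evs h' (pt y))) ∅) (T : Var k) :
    W.Dec (S.prod (trivStage Γ T)) {C | IsSub C} ∅ := by
  intro m β hβ hI hK _ C hC
  have step (y : Y) := good y (Strata_L hJ h T y) (fun _ _ _ _ _ _ _ _ => Strata_par hJ)
    (fun _ hf => hf.elim) m β hβ hI hK
  obtain ⟨M, hM⟩ := (finite_range N).bddAbove
  have key (i : ℕ) : ∀ j, M < j + i → ∀ C ∈ Strata_B N pt T j, W.ph β C = 0 := by
    induction i with
    | zero =>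
      rintro j hj C ⟨y, hy, -⟩
      have := hM (mem_range_self y)
      omega
    | succ i ih =>
      rintro j hj C ⟨y, hy, hC⟩
      exact step y (ih (N y + 1) (by omega)) C hC
  exact key (M + 1) 0 (by omega) C (Strata_all hJ h hC)

end Pool.Agent.MP_0c8446_ag
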