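import Pool.Agent.MP_0c8446_ag.DL.GSt
import Pool.Agent.MP_0c8446_ag.DL.BruO
import Pool.Agent.MP_0c8446_ag.DL.Strata

namespace Pool.Agent.MP_0c8446_ag

open MvPolynomial Set Matrix

universe u v w

variable {k : Type u} [Field k] [IsAlgClosed k] {n r : ℕ} (uni : Bool) (q : ℕ) [PQ k q]
  (w : Fin r → ℕ) {N : Fin n → ℕ} (c : ∀ a : Fin n, Fin (N a + 1) ≃ (Fin (a + 1) → Fin n)) (h₁ h₂)

omit [IsAlgClosed k] in
theorem GStr_eta {ι κ : Type} {n : ι → ℕ} {m : κ → ℕ} {α : Type*} (v : Vars (Sum.elim n m) → α) :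
    pvJoin (fun s => v (pvL m s)) (fun s => v (pvR n s)) = v := by
  funext ⟨i, s⟩
  cases i <;> rfl

omit [IsAlgClosed k] in
theorem GStr_join {ι κ : Type} {n : ι → ℕ} {m : κ → ℕ} {α β : Type*} (φ : α → β) (v : Vars n → α)
    (u : Vars m → α) :
    (fun a => φ (pvJoin v u a)) = pvJoin (fun s => φ (v s)) fun s => φ (u s) := by
  funext ⟨i, s⟩
  cases i <;> rfl

omit [IsAlgClosed k] in
theorem GStr_il (y : Fin (r + 1) → Equiv.Perm (Fin n)) {Ω Ω' : Type u} [Field Ω] [Algebra k Ω]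
    [Field Ω'] [Algebra k Ω'] (Pl : Place k Ω Ω')
    (v : Vars (Sum.elim (fun i : Fin (r + 1) × Fin n => N i.2)
      fun i : Fin (r + 1) × Fin n => N i.2) → Ω) (h : GS r n → Ω)
    (hh : (glFr k uni q (zY uni w y)).Fr h) (hp : ParOn univ (ptY c y h) v)
    (hO : ∀ a, v a ∈ Pl.O) (hz : NZb fun a => Pl.red (v a)) :
    (∃ (y' : Fin (r + 1) → Equiv.Perm (Fin n)) (h' : GS r n → Ω'),
      ∑ j, ∑ a ∈ Finset.range (n + 1), ∑ b ∈ Finset.range (n + 1), dy (y j) a b <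
        ∑ j, ∑ a ∈ Finset.range (n + 1), ∑ b ∈ Finset.range (n + 1), dy (y' j) a b ∧
      (glFr k uni q (zY uni w y')).Fr h' ∧ ParOn univ (ptY c y' h') fun a => Pl.red (v a)) ∨
      ∃ h' : GS r n → Ω, (glFr k uni q (zY uni w y)).Fr h' ∧ ParOn univ (ptY c y h') v ∧
        ∀ s, h' s ∈ Pl.O := by
  have := PQ.ext k q Ω
  obtain ⟨h1, c1, c2⟩ := frY_iff.1 hh
  choose G hG rG using fun j => Pl.exists_iwasawa (c1.1 j)
  choose G' hG' rG' using fun j => Pl.exists_iwasawa (c2.1 j)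
  have d1 := c1.congr (fun j => (hG j).isUnit) rG
  have d2 := c2.congr (fun j => (hG' j).isUnit) rG'
  have p1 : ParOn univ (pvJoin (plV c G) (plV c G')) v :=
    (parOn_pvJoin.2 ⟨(parOn_plV c c1.1 d1.1).2 rG, (parOn_plV c c2.1 d2.1).2 rG'⟩).symm.trans hp
  obtain ⟨o1, e1⟩ := Place.plV_red (Pl := Pl) c fun j => (hG j).1
  obtain ⟨o2, e2⟩ := Place.plV_red (Pl := Pl) c fun j => (hG' j).1
  have p2 : ParOn univ (pvJoin (plV c fun j => (G j).map Pl.red) (plV c fun j => (G' j).map Pl.red))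
      fun a => Pl.red (v a) := by
    rw [← e1, ← e2, ← GStr_join]
    refine Pl.par_red p1 ?_ (fun a _ => hO a) ?_ fun i _ => hz i
    · rintro ⟨i | i, s⟩ -
      exacts [o1 ⟨i, s⟩, o2 ⟨i, s⟩]
    · rintro (i | i) -
      · exact (e1 ▸ nzb_plV c (fun j => (hG j).2) :) i
      · exact (e2 ▸ nzb_plV c (fun j => (hG' j).2) :) i
  have f1 : ∀ j a b, Module.finrank Ω ↥(flg (G j) a ⊓ flg (dualM (G' j)) b) = dy (y j) a b :=
    fun j => finrank_flg_inf (d1.1 j) (isUnit_dualM (d2.1 j)) (c1.1 j)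
      ((rG j).symm (c1.1 j) (d1.1 j))
      ((secM_eq (y := y) h1 j).2.1 ▸ ((rG' j).symm (c2.1 j) (d2.1 j)).dual (d2.1 j) (c2.1 j))
  choose y' H hH rH rH' using fun j => exists_bruhat (hG j).2 (hG' j).dual.1.2
  have f2 := fun j => finrank_flg_inf (hG j).2 (hG' j).dual.1.2 (hH j) (rH j) (rH' j)
  have le : ∀ j a b, dy (y j) a b ≤ dy (y' j) a b := fun j a b =>
    f1 j a b ▸ f2 j a b ▸ Place.finrank_flg_le (hG j) (hG' j).dual.1 a b
  have le2 : ∀ j a, ∑ b ∈ Finset.range (n + 1), dy (y j) a b ≤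
      ∑ b ∈ Finset.range (n + 1), dy (y' j) a b := fun j a => Finset.sum_le_sum fun b _ => le j a b
  have le3 : ∀ j, ∑ a ∈ Finset.range (n + 1), ∑ b ∈ Finset.range (n + 1), dy (y j) a b ≤
      ∑ a ∈ Finset.range (n + 1), ∑ b ∈ Finset.range (n + 1), dy (y' j) a b :=
    fun j => Finset.sum_le_sum fun a _ => le2 j a
  rcases (Finset.sum_le_sum (s := Finset.univ) fun j _ => le3 j).eq_or_lt with e | e
  · right
    have eq : ∀ j, ∀ a ≤ n, ∀ b ≤ n, dy (y j) a b = dy (y' j) a b := fun j a ha b hb =>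
      (Finset.sum_eq_sum_iff_of_le fun b _ => le j a b).1
        ((Finset.sum_eq_sum_iff_of_le fun a _ => le2 j a).1
          ((Finset.sum_eq_sum_iff_of_le fun j _ => le3 j).1 e j (Finset.mem_univ j)) a
          (Finset.mem_range.2 (Nat.lt_succ_of_le ha))) b (Finset.mem_range.2 (Nat.lt_succ_of_le hb))
    choose M hM rM rM' using fun j => Place.exists_bruhat (hG j) (hG' j).dual.1
      (fun a _ b _ => f1 j a b) fun a ha b hb => (f2 j a b).trans (eq j a ha b hb).symm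
    obtain ⟨g1, g2⟩ := frY_mk (k := k) c d1 d2 (fun j => (hM j).isUnit) rM rM'
    refine ⟨_, g1, g2.trans p1, ?_⟩
    rintro ⟨j, _ | _, a, b⟩
    exacts [(hM j).1 a b, (hM j).inv.1.1 a b]
  · obtain ⟨g1, g2⟩ := frY_mk (k := k) c (IsChain'.red (k := k) d1 hG) (IsChain'.red (k := k) d2 hG')
      hH rH fun j => (hG' j).dual.2 ▸ rH' j
    exact Or.inl ⟨y', _, e, g1, g2.trans p2⟩

/-- Pairs of chains are stratified by their relative positions. -/
theorem dl_strat : ((dlStage (k := k) uni q w c h₁ h₂).prod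
      ((dlStage uni q w c h₁ h₂).comap (thG k n uni q))).Strat
    (fun y : Fin (r + 1) → Equiv.Perm (Fin n) =>
      ∑ j, ∑ a ∈ Finset.range (n + 1), ∑ b ∈ Finset.range (n + 1), dy (y j) a b)
    (fun y => glFr k uni q (zY uni w y)) fun y => ptY c y X := by
  refine ⟨fun y Ω _ _ h hh => ?_, fun y i γ Ω _ _ h _ s => ?_, fun Ω _ _ _ v hv => ?_,
    fun y Ω Ω' _ _ _ _ _ _ Pl v h hh hp hO hz => ?_⟩
  · exact (evs_ptY (k := k) c y h).symm ▸
      on_pvJoin (dl_on (frY_iff.1 hh).2.1) (dl_on (frY_iff.1 hh).2.2)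
  · have e1 : ∀ (h : GS r n → Ω) a, aeval h (ptY c y (X : GS r n → MvPolynomial (GS r n) k) a) =
        ptY c y h a := fun h a => congrFun (evs_ptY c y h) a
    refine (e1 _ _).trans (Eq.trans ?_ (Finset.sum_congr rfl fun s' _ => congrArg _ (e1 h _).symm))
    refine (congrArg (fun h => ptY c y h ⟨i, s⟩) (evs_glAct γ.1 h)).trans ?_
    rcases i with i | i
    · exact congrFun (plV_mul c γ.1.1 (mM h)) ⟨i, s⟩
    · exact (congrArg (fun g => plV c g ⟨i, s⟩) (funext (secM_glAct γ.1 h))).trans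
        (congrFun (plV_mul c γ.1.1⁻¹ᵀ (secM y h)) ⟨i, s⟩)
  · obtain ⟨a, b⟩ := on_pv_iff.1 hv
    obtain ⟨g, hg, pg⟩ := dl_lift a
    obtain ⟨g', hg', pg'⟩ := dl_lift b
    choose y H hH rH rH' using fun j => exists_bruhat (hg.1 j) (isUnit_dualM (hg'.1 j))
    obtain ⟨g1, g2⟩ := frY_mk (k := k) c hg hg' hH rH rH'
    refine ⟨y, _, g1, ?_⟩
    have := g2.trans (parOn_pvJoin.2 ⟨pg, pg'⟩)
    rw [← evs_ptY (k := k)] at this
    exact (GStr_eta v) ▸ this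
  · rcases GStr_il uni q w c y Pl v h hh ((evs_ptY (k := k) c y h) ▸ hp) hO hz with
      ⟨y', h', a, b, d⟩ | ⟨h', a, b, d⟩
    · exact Or.inl ⟨y', h', a, b, (evs_ptY (k := k) c y' h').symm ▸ d⟩
    · exact Or.inr ⟨h', a, (evs_ptY (k := k) c y h').symm ▸ b, d⟩

end Pool.Agent.MP_0c8446_ag
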