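import Pool.Agent.MP_0c8446_ag.DL.Tower
import Pool.Agent.MP_0c8446_ag.DL.GFin

namespace Pool.Agent.MP_0c8446_ag

open MvPolynomial Set Matrix

universe u v w

variable {k : Type u} [Field k] [IsAlgClosed k] {K : Type v} [Field K] [CharZero K]
  (W : Weil.{u, v, w} k K) {Γ : Type u} [Group Γ]

variable {n r : ℕ} (uni : Bool) (q : ℕ) [PQ k q] (w : Fin r → ℕ)
  (y : Fin (r + 1) → Equiv.Perm (Fin n))
  {N : Fin n → ℕ} (c : ∀ a : Fin n, Fin (N a + 1) ≃ (Fin (a + 1) → Fin n))

omit [IsAlgClosed k] in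
theorem GTow_col {Ω : Type u} [Field Ω] [Algebra k Ω] (h : GS r n → Ω)
    (a : Fin (r + 1) × Fin n) :
    evs (k := k) h (fun i => X (a.1, false, i, a.2)) = fun i => mM h a.1 i a.2 := by
  funext i
  simp [evs, mM]

omit [IsAlgClosed k] in
theorem GTow_move {Ω : Type u} [Field Ω] [Algebra k Ω] {h : GS r n → Ω}
    (hh : (glFr k uni q (zY uni w y)).Fr h) (j : Fin (r + 1)) {E E' : Matrix (Fin n) (Fin n) Ω}
    (hE : E * E' = 1) (h1 : E.BlockTriangular Fin.val) (h2 : E.BlockTriangular (y j).symm) :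
    ∃ h' : GS r n → Ω, (glFr k uni q (zY uni w y)).Fr h' ∧ ParOn univ (ptY c y h) (ptY c y h') ∧
      mM h' j = mM h j * E ∧ (∀ j', j' ≠ j → mM h' j' = mM h j') ∧
      ∀ O : Subalgebra k Ω, (∀ s, h s ∈ O) → (∀ a b, E a b ∈ O) → (∀ a b, E' a b ∈ O) →
        ∀ s, h' s ∈ O := by
  have H := frY_move c hh (m := fun j' => if j' = j then E else 1)
    (m' := fun j' => if j' = j then E' else 1)
    (fun j' => by split_ifs; exacts [hE, mul_one _])
    (fun j' => by split_ifs; exacts [h1, blockTriangular_one])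
    (fun j' => by
      split_ifs with e
      · rw [e]; exact h2
      · exact blockTriangular_one)
  refine ⟨_, H.1, H.2, by simp, fun j' hj => by simp [hj], fun O hO o1 o2 => ?_⟩
  have o3 : ∀ a b, (1 : Matrix (Fin n) (Fin n) Ω) a b ∈ O := fun a b => by
    rw [Matrix.one_apply]
    split_ifs
    exacts [O.one_mem, O.zero_mem]
  rintro ⟨j', _ | _, a, b⟩
  · change (mM h j' * if j' = j then E else 1) a b ∈ O
    rw [Matrix.mul_apply]
    refine O.sum_mem fun l _ => O.mul_mem (hO _) ?_
    split_ifs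
    exacts [o1 _ _, o3 _ _]
  · change ((if j' = j then E' else 1) * mI h j') a b ∈ O
    rw [Matrix.mul_apply]
    refine O.sum_mem fun l _ => O.mul_mem ?_ (hO _)
    split_ifs
    exacts [o2 _ _, o3 _ _]

theorem GTow_dir {Ω : Type u} [Field Ω] {g g' : Matrix (Fin n) (Fin n) Ω} (hg : IsUnit g)
    (hg' : IsUnit g') {z : Fin n → Fin n} (hz : Function.Injective z)
    (h1 : (g⁻¹ * g').BlockTriangular Fin.val) (h2 : (g⁻¹ * g').BlockTriangular z) (a : Fin n) :
    ∃ t : Ω, t ≠ 0 ∧ (fun i => g' i a) - t • (fun i => g i a) ∈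
      Submodule.span Ω ((fun b i => g i b) '' {b | b < a ∧ z b < z a}) := by
  have hd := (Matrix.isUnit_iff_isUnit_det g).1 hg
  have hm : IsUnit (g⁻¹ * g').det := by
    rw [det_mul]
    exact (isUnit_nonsing_inv_det g hd).mul ((Matrix.isUnit_iff_isUnit_det g').1 hg')
  have e : g' = g * (g⁻¹ * g') := by rw [← mul_assoc, mul_nonsing_inv g hd, one_mul]
  generalize g⁻¹ * g' = m at h1 h2 hm e
  rw [det_of_isUpperTriangular (M := m) fun i j hij => h1 hij] at hm
  refine ⟨m a a, Finset.prod_ne_zero_iff.1 hm.ne_zero a (Finset.mem_univ a), ?_⟩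
  have e2 : (fun i => g' i a) - m a a • (fun i => g i a) =
      ∑ b ∈ Finset.univ.erase a, m b a • fun i => g i b := by
    funext i
    rw [e, Pi.sub_apply, Matrix.mul_apply, ← Finset.add_sum_erase _ _ (Finset.mem_univ a),
      Finset.sum_apply]
    simp [mul_comm]
  rw [e2]
  refine Submodule.sum_mem _ fun b hb => ?_
  have hne : b ≠ a := Finset.ne_of_mem_erase hb
  by_cases h0 : m b a = 0
  · rw [h0, zero_smul]
    exact Submodule.zero_mem _
  refine Submodule.smul_mem _ _ (Submodule.subset_span ⟨b, ⟨?_, ?_⟩, rfl⟩)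
  · exact lt_of_le_of_ne (not_lt.1 fun hl => h0 (h1 hl)) hne
  · exact lt_of_le_of_ne (not_lt.1 fun hl => h0 (h2 hl)) (hz.ne hne)

omit [IsAlgClosed k] in
theorem glFr_tow : (glFr k uni q (zY uni w y)).Tow
    (fun Ω _ _ _ (h h' : GS r n → Ω) => ParOn univ (ptY c y h) (ptY c y h')) (stdR k n uni q)
    (fun (a : Fin (r + 1) × Fin n) i => X (a.1, false, i, a.2))
    (fun a => Finset.univ.filter fun b =>
      b.1 = a.1 ∧ b.2 < a.2 ∧ (y a.1).symm b.2 < (y a.1).symm a.2)
    fun a => a.2 where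
  hpre a b hb := (Finset.mem_filter.1 hb).2.2.1
  equi a γ Ω _ _ h _ s := by
    have e : ∀ h : GS r n → Ω, aeval (evs h (glAct γ.1 (X : GS r n → MvPolynomial (GS r n) k)))
        (X (a.1, false, s, a.2) : MvPolynomial (GS r n) k) = ∑ s', stdR k n uni q γ s s' •
          aeval h (X (a.1, false, s', a.2) : MvPolynomial (GS r n) k) := fun h => by
      rw [evs_glAct, aeval_X]
      simp [glAct, mkF, Matrix.mul_apply, mM, stdR, Algebra.smul_def]
    exact e h
  indep a Ω _ _ h hh := by
    have hu := (mI_eq (glFr_iff.1 hh).1 a.1).1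
    have hf : ∀ b : (insert a (Finset.univ.filter fun b : Fin (r + 1) × Fin n =>
        b.1 = a.1 ∧ b.2 < a.2 ∧ (y a.1).symm b.2 < (y a.1).symm a.2) : Finset _),
        b.1.1 = a.1 := fun b => by
      rcases Finset.mem_insert.1 b.2 with e | e
      · rw [e]
      · exact (Finset.mem_filter.1 e).2.1
    have hi := (linearIndependent_cols_iff_isUnit.2 hu).comp (fun b => b.1.2) fun b b' e =>
      Subtype.ext (Prod.ext ((hf b).trans (hf b').symm) e)
    convert hi using 1
    funext b
    refine (GTow_col h b.1).trans ?_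
    rw [hf b]
    rfl
  dir a Ω _ _ _ h h' hh hh' e := by
    have h1 := (glFr_iff.1 hh).1
    have h2 := (glFr_iff.1 hh').1
    have h3 := (parOn_ptY c h1 h2).1 e a.1
    obtain ⟨t, ht, hs⟩ := GTow_dir (mI_eq h1 a.1).1 (mI_eq h2 a.1).1 (y a.1).symm.injective h3.1
      h3.2 a.2
    refine ⟨t, ht, ?_⟩
    erw [GTow_col h a, GTow_col h' a]
    refine Submodule.span_mono ?_ hs
    rintro _ ⟨b, hb, rfl⟩
    exact ⟨(a.1, b), Finset.mem_coe.2 (Finset.mem_filter.2 ⟨Finset.mem_univ _, rfl, hb⟩),
      GTow_col h (a.1, b)⟩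
  mvA a b hb Ω _ _ _ h t hh := by
    obtain ⟨e, l1, l2⟩ := (Finset.mem_filter.1 hb).2
    have o : ∀ (O : Subalgebra k Ω) (t : Ω), t ∈ O → ∀ i l, transvection b.2 a.2 t i l ∈ O := by
      intro O t ht i l
      rw [transvection, Matrix.add_apply, Matrix.one_apply, Matrix.single_apply]
      refine O.add_mem ?_ ?_ <;> split_ifs
      exacts [O.one_mem, O.zero_mem, ht, O.zero_mem]
    obtain ⟨h', f1, f2, f3, f4, f5⟩ := GTow_move uni q w y c hh a.1
      (E := transvection b.2 a.2 t) (E' := transvection b.2 a.2 (-t))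
      (by rw [transvection_mul_transvection_same _ _ l1.ne, add_neg_cancel, transvection_zero])
      (blockTriangular_transvection (b := Fin.val) l1.le t)
      (blockTriangular_transvection (b := (y a.1).symm) l2.le t)
    refine ⟨h', f1, f2, ?_, fun a' ha => ?_, fun O hO ht => f5 O hO (o O t ht)
      (o O _ (O.neg_mem ht))⟩
    · erw [GTow_col h a, GTow_col h' a, GTow_col h b]
      rw [f3, e]
      funext i
      exact mul_transvection_apply_same _ _ _ _ _
    · erw [GTow_col h a', GTow_col h' a']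
      by_cases c1 : a'.1 = a.1
      · rw [c1, f3]
        funext i
        exact mul_transvection_apply_of_ne _ _ _ _ (fun c2 => ha (Prod.ext c1 c2)) _ _
      · rw [f4 _ c1]
  mvG a Ω _ _ _ h t hh ht := by
    have o : ∀ (O : Subalgebra k Ω) (t : Ω), t ∈ O → ∀ i l,
        diagonal (fun i => if i = a.2 then t else 1) i l ∈ O := by
      intro O t ht i l
      rw [diagonal_apply]
      split_ifs
      exacts [ht, O.one_mem, O.zero_mem]
    obtain ⟨h', f1, f2, f3, f4, f5⟩ := GTow_move uni q w y c hh a.1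
      (E := diagonal fun i => if i = a.2 then t else 1)
      (E' := diagonal fun i => if i = a.2 then t⁻¹ else 1)
      (by
        rw [diagonal_mul_diagonal, ← diagonal_one]
        congr 1
        funext i
        split_ifs
        exacts [mul_inv_cancel₀ ht, mul_one _])
      (blockTriangular_diagonal _) (blockTriangular_diagonal _)
    refine ⟨h', f1, f2, ?_, fun a' ha => ?_, fun O hO h1 h2 => f5 O hO (o O t h1) (o O _ h2)⟩
    · erw [GTow_col h a, GTow_col h' a]
      rw [f3]
      funext i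
      simp [mul_comm]
    · erw [GTow_col h a', GTow_col h' a']
      by_cases c1 : a'.1 = a.1
      · rw [c1, f3]
        funext i
        have c2 : a'.2 ≠ a.2 := fun c2 => ha (Prod.ext c1 c2)
        simp [c2]
      · rw [f4 _ c1]

omit [IsAlgClosed k] in
theorem GTow_map {Ω : Type u} [Field Ω] [Algebra k Ω] (g : GS r n → Ω) (j : Fin (r + 1)) :
    ((aeval (R := k) g).comp (aeval fun p : Fin n × Fin n =>
      (X (j, false, p.1, p.2) : MvPolynomial (GS r n) k))).mapMatrix
        (mvPolynomialX (Fin n) (Fin n) k) = mM g j := by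
  ext a b
  simp [mM]

omit [IsAlgClosed k] in
theorem GTow_detI {Ω : Type u} [Field Ω] [Algebra k Ω] (g : GS r n → Ω) (j : Fin (r + 1)) :
    aeval (R := k) g (mI (X : GS r n → MvPolynomial (GS r n) k) j).det = (mI g j).det := by
  rw [AlgHom.map_det]
  congr 1
  ext a b
  simp [mI]

omit [IsAlgClosed k] in
theorem GTow_inv {Ω : Type u} [Field Ω] [Algebra k Ω] (g : GS r n → Ω) (j : Fin (r + 1))
    (h2 : mM g j * mI g j = 1) :
    aeval (R := k) g (aeval (fun p : Fin n × Fin n =>
      (X (j, false, p.1, p.2) : MvPolynomial (GS r n) k)) (mvPolynomialX (Fin n) (Fin n) k).det) *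
      aeval (R := k) g (mI (X : GS r n → MvPolynomial (GS r n) k) j).det = 1 := by
  have e1 := AlgHom.map_det ((aeval (R := k) g).comp (aeval fun p : Fin n × Fin n =>
      (X (j, false, p.1, p.2) : MvPolynomial (GS r n) k))) (mvPolynomialX (Fin n) (Fin n) k)
  rw [GTow_map, AlgHom.comp_apply] at e1
  rw [e1, GTow_detI, ← det_mul, h2, det_one]

omit [IsAlgClosed k] in
theorem GTow_adj {Ω : Type u} [Field Ω] [Algebra k Ω] (g : GS r n → Ω) (j : Fin (r + 1))
    (h2 : mM g j * mI g j = 1) (a b : Fin n) :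
    aeval (R := k) g (X (j, true, a, b) : MvPolynomial (GS r n) k) =
      aeval (R := k) g ((mI (X : GS r n → MvPolynomial (GS r n) k) j).det *
        aeval (fun p : Fin n × Fin n => (X (j, false, p.1, p.2) : MvPolynomial (GS r n) k))
          ((mvPolynomialX (Fin n) (Fin n) k).adjugate a b)) := by
  have e1 := congrFun (congrFun (AlgHom.map_adjugate ((aeval (R := k) g).comp
    (aeval fun p : Fin n × Fin n => (X (j, false, p.1, p.2) : MvPolynomial (GS r n) k)))
      (mvPolynomialX (Fin n) (Fin n) k)) a) b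
  rw [GTow_map, AlgHom.mapMatrix_apply, Matrix.map_apply, AlgHom.comp_apply] at e1
  rw [map_mul, e1, GTow_detI, aeval_X]
  have h3 : mI g j = (mI g j).det • (mM g j).adjugate := by
    calc mI g j = ((mI g j).det * (mM g j).det) • mI g j := by
          rw [mul_comm, ← det_mul, h2, det_one, one_smul]
      _ = (mI g j).det • ((mM g j).adjugate * mM g j * mI g j) := by
          rw [adjugate_mul, mul_smul, Matrix.smul_mul, one_mul]
      _ = _ := by rw [mul_assoc, h2, mul_one]
  exact congrFun (congrFun h3 a) b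

omit [IsAlgClosed k] in
theorem glFr_reg {Z : Fin (r + 1) → Fin n → Fin n → Prop} (L : Level (glFr k uni q Z))
    (h : ∀ j a b, L.Reg (X (j, false, a, b))) (s : GS r n) : L.Reg (X s) := by
  obtain ⟨j, _ | _, a, b⟩ := s
  · exact h j a b
  have h0 := Level.Reg.subst (L := L) (t := fun p : Fin n × Fin n => X (j, false, p.1, p.2))
    fun p => h j p.1 p.2
  have h1 : L.Reg (mI (X : GS r n → MvPolynomial (GS r n) k) j).det :=
    (h0 (mvPolynomialX (Fin n) (Fin n) k).det).of_inv fun Ω _ _ g hg =>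
      GTow_inv g j ((glFr_iff.1 hg).1 j)
  exact (h1.mul (h0 ((mvPolynomialX (Fin n) (Fin n) k).adjugate a b))).congr
    fun Ω _ _ g hg => GTow_adj g j ((glFr_iff.1 hg).1 j) a b

theorem Weil.good_Y (hn : 0 < n) : W.Good (glFr k uni q (zY uni w y))
    (fun Ω _ _ _ (h h' : GS r n → Ω) => ParOn univ (ptY c y h) (ptY c y h')) ∅ :=
  have := finite_fixG k n uni q
  W.good_tower hn (glFr_tow uni q w y c) fun e' =>
    (W.good_quot (glFr_quot uni q _) e').of_reg fun L hL => by
      rintro _ ⟨s, rfl⟩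
      exact glFr_reg uni q L (fun j a b => hL _ (mem_iUnion.2 ⟨(j, b), a, rfl⟩)) s

end Pool.Agent.MP_0c8446_ag
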