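import Pool.Agent.MP_0c8446_ag.DL.StW

namespace Pool.Agent.MP_0c8446_ag

open MvPolynomial Set

universe u v w

variable {k : Type u} [Field k] [IsAlgClosed k] {K : Type v} [Field K] [CharZero K]
  (W : Weil.{u, v, w} k K) {Γ : Type u} [Group Γ]

include W in
/-- A free point of a product with a parameter variety is a generic point of a product. -/
theorem Weil.loc_of_free {S : Stage k Γ} (hJ : S.J = ∅) (T : Var k) {Ω : Type u} [Field Ω]
    [Algebra k Ω] {v : Vars (S.prod (trivStage Γ T)).P.n → Ω}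
    (hv : (S.prod (trivStage Γ T)).P.On v) (hf : (S.prod (trivStage Γ T)).Free v) :
    ∃ Z Z', IsSub Z ∧ IsSub Z' ∧ (S.prod (trivStage Γ T)).P.loc v =
      (pvF S.P T).1 ⁻¹' Z ∩ (pvS S.P T).1 ⁻¹' Z' := by
  have hp := isProd_pv S.P T
  have hw : (pvVar S.P T).On v := hv
  obtain ⟨h1, h2⟩ := on_pv_iff.1 hw
  refine ⟨_, _, h1.isSub, h2.isSub, ?_⟩
  change (pvVar S.P T).loc v = _
  have : FinDim (pvVar S.P T).pts := inferInstanceAs (FinDim ((pvVar S.P T).pts :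
    Set (MP k (pvVar S.P T).n)))
  refine eq_of_dim_le hw.isSub (hp.isSub h1.isSub h2.isSub) (fun x hx => ⟨?_, ?_⟩) ?_
  · rw [mem_preimage, ← loc_pvF hw]
    exact subset_closure ⟨x, hx, rfl⟩
  · rw [mem_preimage, ← loc_pvS hw]
    exact subset_closure ⟨x, hx, rfl⟩
  · have e3 : rat (S.prod (trivStage Γ T)).J v = rat S.J (fun s => v (pvL T.n s)) ∪
        rat univ fun s => v (pvR S.P.n s) := rat_pv (n := S.P.n) (m := T.n) _ v
    have e4 : rat (S.prod (trivStage Γ T)).Jᶜ v = rat S.Jᶜ (fun s => v (pvL T.n s)) ∪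
        rat univᶜ fun s => v (pvR S.P.n s) := rat_pv (n := S.P.n) (m := T.n) _ v
    have e5 : ∀ {ι : Type} {n : ι → ℕ} (u : Vars n → Ω), rat ∅ u = ∅ := fun u => by simp [rat]
    rw [hJ, e5, empty_union] at e3
    rw [hJ, compl_empty, compl_univ, e5, union_empty] at e4
    rw [W.dim_isProd hp h1.isSub h2.isSub, hw.dim_loc, h1.dim_loc, h2.dim_loc, add_comm]
    exact ((congrArg₂ (· + ·) (congrArg (rk k) e3) (congrArg (rk k) e4)).symm.trans hf.symm).le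

theorem Weil.InvAlg_key {S : Stage k Γ} (hJ : S.J = ∅)
    (H : W.Dec (S.prod (trivStage Γ S.P)) {C | IsSub C} ∅) {m i j : ℕ} (hij : i + j = 2 * m)
    {a b : W.H S.P} (hi : a ∈ W.gr S.P i) (hj : b ∈ W.gr S.P j) (ha : W.Inv S a)
    (h : ∀ Z, IsSub Z → W.ph a Z = 0) : W.tr _ (a * b) = 0 := by
  have hp := isProd_pv S.P S.P
  have hr : ∀ x, (pvF S.P S.P).1 ((hp.lift (Mor.id _) (Mor.id _)).1 x) = x := fun _ => by simp
  have hr' : ∀ x, (pvS S.P S.P).1 ((hp.lift (Mor.id _) (Mor.id _)).1 x) = x := fun _ => by simp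
  have hs := (Mor.retr _ _ hr).isSub S.P.isSub_univ
  rw [image_univ] at hs
  have h1 := W.tr_pull_retr _ _ hr (W.pull (pvF S.P S.P) a * W.pull (pvS S.P S.P) b)
  rw [map_mul (W.pull _), W.pull_pull, W.pull_pull, W.pull_id _ (funext hr),
    W.pull_id _ (funext hr')] at h1
  have hb : W.Inv (trivStage Γ S.P) b := fun γ => W.pull_id _ (funext (trivStage_act S.P γ)) b
  refine h1.trans (H m _ (hij ▸ SetLike.mul_mem_graded (W.pull_gr _ i a hi) (W.pull_gr _ j b hj))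
    (Weil.Inv.mul W (W.inv_fst _ ha) (W.inv_snd S hb)) (fun Ω _ _ v hv hf => ?_)
    (fun _ hC => hC.elim) _ hs)
  obtain ⟨Z, Z', hZ, hZ', e⟩ := W.loc_of_free hJ S.P hv hf
  rw [e]
  change W.tr (pvVar S.P S.P) (W.cl (pvVar S.P S.P) _ *
    (W.pull (pvF S.P S.P) a * W.pull (pvS S.P S.P) b)) = 0
  rw [W.cl_prod _ _ hp Z Z' hZ hZ', mul_assoc, ← mul_assoc (W.pull (pvS S.P S.P) _),
    W.Alg_comm (W.pull_mem_Alg (pvS S.P S.P) (W.cl_mem_Alg hZ')), mul_assoc, ← mul_assoc,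
    ← map_mul (W.pull _), ← map_mul (W.pull _), W.tr_prod hp]
  exact mul_eq_zero_of_left (h Z hZ) _

theorem Weil.eq_zero_of_inv {S : Stage k Γ} (hJ : S.J = ∅)
    (H : W.Dec (S.prod (trivStage Γ S.P)) {C | IsSub C} ∅) {a : W.H S.P} (ha : W.Inv S a)
    (h : ∀ Z, IsSub Z → W.ph a Z = 0) : a = 0 := by
  refine W.eq_zero_of_gr fun j b hb => ?_
  have h1 := W.genB_proj (W.tr S.P ∘ₗ LinearMap.mulRight K b) (2 * S.P.d - j)
    (fun l hl x hx => W.tr_mul_gr hx hb (by omega)) a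
  refine h1.symm.trans ?_
  have h2 := (DirectSum.decompose (W.gr S.P) a (2 * S.P.d - j)).2
  by_cases hj : 2 * S.P.d - j + j = 2 * S.P.d
  swap
  · exact W.tr_mul_gr h2 hb hj
  refine W.InvAlg_key hJ H hj h2 hb (fun γ => ?_) fun Z hZ => ?_
  · rw [W.genB_pull_dec, ha γ]
  · by_cases hd : 2 * S.P.d - j = 2 * dim Z
    · exact (W.genB_proj (W.tr S.P ∘ₗ LinearMap.mulLeft K (W.cl S.P Z)) _
        (fun l hl x hx => W.tr_cl_mul_gr hZ hx (hd ▸ hl)) a).trans (h Z hZ)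
    · exact W.tr_cl_mul_gr hZ h2 hd

/-- Invariant classes are algebraic. -/
theorem Weil.inv_alg [Finite Γ] {S : Stage k Γ} (hJ : S.J = ∅)
    (H : W.Dec (S.prod (trivStage Γ S.P)) {C | IsSub C} ∅) {a : W.H S.P} (ha : W.Inv S a) :
    a ∈ W.Alg S.P := by
  by_contra hn
  have := Fintype.ofFinite Γ
  obtain ⟨φ, h1, h2⟩ := Submodule.exists_dual_map_eq_bot_of_notMem hn inferInstance
  have h3 : Function.Injective ((LinearMap.mul K (W.H S.P)).compr₂ (W.tr S.P)) :=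
    (injective_iff_map_eq_zero _).2 fun c hc => W.poincare _ c fun b => LinearMap.congr_fun hc b
  obtain ⟨b, rfl⟩ := LinearMap.flip_surjective_iff₁.2 h3 φ
  have h4 : ∀ c ∈ W.Alg S.P, W.tr S.P (c * b) = 0 := fun c hc =>
    (Submodule.mem_bot K).1 (h2 ▸ Submodule.mem_map_of_mem hc)
  have h5 : ∀ (γ : Γ) x, (S.act γ⁻¹).1 ((S.act γ).1 x) = x := fun γ x => by
    rw [← S.act_mul, inv_mul_cancel, S.act_one]
  have h6 : ∀ c, W.tr S.P (c * ∑ γ, W.pull (S.act γ) b) =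
      ∑ γ, W.tr S.P (W.pull (S.act γ⁻¹) c * b) := fun c => by
    rw [Finset.mul_sum, map_sum]
    refine Finset.sum_congr rfl fun γ _ => ?_
    rw [← W.tr_pull_aut (S.act γ) (S.act γ⁻¹) (h5 γ) (by simpa using h5 γ⁻¹)
      (W.pull (S.act γ⁻¹) c * b), map_mul (W.pull _),
      W.pull_pull, W.pull_id ((S.act γ⁻¹).comp (S.act γ)) (funext (h5 γ))]
  have h7 : ∑ γ, W.pull (S.act γ) b = 0 := by
    refine W.eq_zero_of_inv hJ H (fun δ => ?_) fun Z hZ => (h6 _).trans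
      (Finset.sum_eq_zero fun γ _ => h4 _ (W.pull_mem_Alg _ (W.cl_mem_Alg hZ)))
    rw [map_sum]
    refine Fintype.sum_equiv (Equiv.mulRight δ) _ _ fun γ => ?_
    rw [W.pull_pull]
    exact W.pull_congr (fun x => (S.act_mul γ δ x).symm) b
  have h8 := h6 a
  rw [h7, mul_zero, map_zero, Finset.sum_congr rfl fun γ _ => by rw [ha γ⁻¹], Finset.sum_const,
    nsmul_eq_mul] at h8
  exact mul_ne_zero (Nat.cast_ne_zero.2 Finset.univ_nonempty.card_ne_zero) h1 h8.symm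

end Pool.Agent.MP_0c8446_ag
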