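import Pool.Agent.MP_0c8446_ag.DL.SqW
import Pool.Agent.MP_0c8446_ag.DL.InvAlg
import Pool.Agent.MP_0c8446_ag.DL.GStr
import Pool.Agent.MP_0c8446_ag.DL.GTow
import Pool.Agent.MP_0c8446_ag.BaseChange
import Pool.Agent.MP_0c8446_ag.Main

namespace Pool.Agent.MP_0c8446_ag

open MvPolynomial Set

universe u v w

variable {k : Type u} [Field k] [IsAlgClosed k] {K : Type v} [Field K] [CharZero K]
  (W : Weil.{u, v, w} k K) {Γ : Type u} [Group Γ]

theorem Weil.sqT_of_dlType [IsAlgClosed K] {p : ℕ} [hp : Fact p.Prime] [CharP k p] {X : Var k}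
    (h : DLType k p X) : W.SqT X := by
  induction h with
  | @ofDL uni f n r w N c h₁ h₂ hf hn =>
    have : PQ k (p ^ f) := ⟨p, f, hp.out, inferInstance, hf, rfl⟩
    have := finite_fixG k n uni (p ^ f)
    have hJ : ((dlStage uni (p ^ f) w c h₁ h₂).prod
        ((dlStage uni (p ^ f) w c h₁ h₂).comap (thG k n uni (p ^ f)))).J = ∅ :=
      eq_empty_of_forall_notMem fun i hi => by cases i <;> exact hi
    exact W.sqT_of_inv (dlStage uni (p ^ f) w c h₁ h₂) (thG k n uni (p ^ f)) isConj_thG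
      fun a ha => W.inv_alg hJ (W.dec_strata hJ (dl_strat uni (p ^ f) w c h₁ h₂)
        (fun y => (W.good_Y uni (p ^ f) w y c hn).congr fun Ω _ _ _ h h' _ _ => by
          rw [← evs_ptY (k := k) c y h, ← evs_ptY (k := k) c y h']; rfl) _) ha
  | prod a b h _ _ h1 h2 => exact W.sqT_prod h h1 h2

theorem dl_D {p : ℕ} [Fact p.Prime] [CharP k p] {X : Var k} (hX : DLType k p X) {a : W.H X}
    (ha : a ∈ W.Alg X) (h : ∀ Z, IsSub Z → W.tr X (W.cl X Z * a) = 0) : a = 0 := by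
  obtain ⟨W', j, hj, h1, h2, h3⟩ := W.baseChange (AlgebraicClosure K)
  refine hj _ ((W'.eq_zero_of_sqT (W'.sqT_of_dlType hX) ?_ fun Z hZ => ?_).trans
    (map_zero _).symm)
  · clear h
    induction ha using Submodule.span_induction with
    | mem x hx => obtain ⟨Z, hZ, rfl⟩ := hx; exact h1 _ Z ▸ W'.cl_mem_Alg hZ
    | zero => simp
    | add x y _ _ hx hy => rw [map_add]; exact add_mem hx hy
    | smul c x _ hx => rw [h3]; exact Submodule.smul_mem _ _ hx
  · rw [h1, ← map_mul, h2, h Z hZ, map_zero]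

theorem dl_D' {p : ℕ} [Fact p.Prime] [CharP k p] {X : Var k} (hX : W.MotivatedBy (DLType k p) X)
    {a : W.H X} (ha : a ∈ W.Alg X) (h : ∀ Z, IsSub Z → W.tr X (W.cl X Z * a) = 0) : a = 0 := by
  by_contra h0
  obtain ⟨Y, T, f, g, Z, b, hY, hZ, hne⟩ := hX a h0
  have hZ' := W.cl_mem_Alg hZ
  obtain ⟨a', ha', h1⟩ := W.exists_push g (W.mul_mem_Alg hZ' (W.pull_mem_Alg f ha))
  have h2 : a' = 0 := dl_D W hY ha' fun C hC => by
    have hC' := W.pull_mem_Alg g (W.cl_mem_Alg hC)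
    obtain ⟨z, hz, h3⟩ := W.exists_push f (W.mul_mem_Alg hZ' hC')
    rw [W.cl_comm hC, ← h1, mul_assoc, ← W.Alg_comm hC', ← mul_assoc, h3]
    by_contra h4
    obtain ⟨D, hD, h5⟩ := W.exists_cl_of_Alg hz h4
    exact h5 (h D hD)
  rw [← mul_assoc, h1, h2, zero_mul, map_zero] at hne
  exact hne rfl

end Pool.Agent.MP_0c8446_ag
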