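import Pool.Agent.MP_0c8446_ag.DL.IwaA
import Pool.Agent.MP_0c8446_ag.DL.Plc2

namespace Pool.Agent.MP_0c8446_ag

open MvPolynomial Set Matrix

universe u v w

variable {k : Type u} [Field k] {Ω Ω' : Type u} [Field Ω] [Algebra k Ω] [Field Ω'] [Algebra k Ω']
  {n : ℕ} {uni : Bool} {q : ℕ}

/-- Coordinates on a space of matrices. -/
lemma LangG_coord (V : Submodule k (Matrix (Fin n) (Fin n) k)) :
    ∃ (d : ℕ) (c ρ : Fin d → Matrix (Fin n) (Fin n) k), (∀ i, c i ∈ V) ∧
      (∀ i j, ∑ a, ∑ b, ρ i a b * c j a b = if i = j then 1 else 0) ∧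
      ∀ x ∈ V, ∀ a' b', x a' b' = ∑ i, (∑ a, ∑ b, ρ i a b * x a b) * c i a' b' := by
  classical
  let B := Module.finBasis k V
  have h : ∀ i, ∃ f : Matrix (Fin n) (Fin n) k →ₗ[k] k, f.comp V.subtype = B.coord i :=
    fun i => LinearMap.exists_extend _
  choose f hf using h
  have e : ∀ i (x : Matrix (Fin n) (Fin n) k),
      ∑ a, ∑ b, f i (Matrix.single a b 1) * x a b = f i x := by
    intro i x
    conv_rhs => rw [Matrix.matrix_eq_sum_single x]
    simp only [map_sum]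
    refine Finset.sum_congr rfl fun a _ => Finset.sum_congr rfl fun b _ => ?_
    have : Matrix.single a b (x a b) = x a b • Matrix.single a b (1 : k) := by simp
    rw [this, map_smul, smul_eq_mul, mul_comm]
  have e' : ∀ i (x : V), f i x = B.repr x i := fun i x => LinearMap.congr_fun (hf i) x
  refine ⟨_, fun i => B i, fun i => Matrix.of fun a b => f i (Matrix.single a b 1),
    fun i => (B i).2, fun i j => ?_, fun x hx a' b' => ?_⟩
  · simp only [of_apply]
    rw [e, e', B.repr_self, Finsupp.single_apply]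
    simp only [eq_comm]
  · simp only [of_apply, e]
    have h1 := congrArg (fun y : V => (y : Matrix (Fin n) (Fin n) k) a' b') (B.sum_repr ⟨x, hx⟩)
    simp only [Submodule.coe_sum, Submodule.coe_smul, Matrix.sum_apply, Matrix.smul_apply,
      smul_eq_mul] at h1
    rw [← h1]
    exact Finset.sum_congr rfl fun i _ => by rw [← e' i ⟨x, hx⟩]

/-- The matrix with given coordinates. -/
def LangG_S {d : ℕ} (c : Fin d → Matrix (Fin n) (Fin n) k) (t : Fin d → Ω) :
    Matrix (Fin n) (Fin n) Ω :=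
  Matrix.of fun a b => ∑ i, t i * algebraMap k Ω (c i a b)

/-- The coordinates of a matrix. -/
def LangG_T {d : ℕ} (ρ : Fin d → Matrix (Fin n) (Fin n) k) (M : Matrix (Fin n) (Fin n) Ω)
    (i : Fin d) : Ω :=
  ∑ a, ∑ b, algebraMap k Ω (ρ i a b) * M a b

lemma LangG_T_S {d : ℕ} {c ρ : Fin d → Matrix (Fin n) (Fin n) k}
    (h : ∀ i j, ∑ a, ∑ b, ρ i a b * c j a b = if i = j then 1 else 0) (t : Fin d → Ω) (i : Fin d) :
    LangG_T ρ (LangG_S c t) i = t i := by
  have h' : ∀ j, ∑ a, ∑ b, algebraMap k Ω (ρ i a b) * (t j * algebraMap k Ω (c j a b)) =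
      if i = j then t j else 0 := fun j => by
    have := congrArg (fun x => t j * algebraMap k Ω x) (h i j)
    simp only [map_sum, map_mul, Finset.mul_sum] at this
    simp only [mul_left_comm (algebraMap k Ω (ρ i _ _)) (t j)]
    rw [this]
    split_ifs <;> simp
  simp only [LangG_T, LangG_S, of_apply, Finset.mul_sum]
  calc _ = ∑ a, ∑ j, ∑ b, algebraMap k Ω (ρ i a b) * (t j * algebraMap k Ω (c j a b)) :=
        Finset.sum_congr rfl fun a _ => Finset.sum_comm
    _ = ∑ j, ∑ a, ∑ b, algebraMap k Ω (ρ i a b) * (t j * algebraMap k Ω (c j a b)) :=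
        Finset.sum_comm
    _ = t i := by simp [h']

lemma LangG_S_comm {d : ℕ} {c : Fin d → Matrix (Fin n) (Fin n) k} {g : Matrix (Fin n) (Fin n) k}
    (h : ∀ i, c i * g = g * c i) (t : Fin d → Ω) :
    LangG_S c t * g.map (algebraMap k Ω) = g.map (algebraMap k Ω) * LangG_S c t := by
  have e : LangG_S c t = ∑ i, t i • (c i).map (algebraMap k Ω) := by
    ext a b
    simp [LangG_S, Matrix.sum_apply]
  rw [e, Finset.sum_mul, Finset.mul_sum]
  refine Finset.sum_congr rfl fun i _ => ?_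
  rw [smul_mul_assoc, mul_smul_comm, ← Matrix.map_mul, ← Matrix.map_mul, h]

lemma LangG_S_T {d : ℕ} {c ρ : Fin d → Matrix (Fin n) (Fin n) k} {g : Matrix (Fin n) (Fin n) k}
    (h : ∀ x : Matrix (Fin n) (Fin n) k, x * g = g * x →
      ∀ a' b', x a' b' = ∑ i, (∑ a, ∑ b, ρ i a b * x a b) * c i a' b')
    {M : Matrix (Fin n) (Fin n) Ω} (hM : M * g.map (algebraMap k Ω) = g.map (algebraMap k Ω) * M) :
    LangG_S c (LangG_T ρ M) = M := by
  ext a' b'
  rw [← sub_eq_zero, ← Module.forall_dual_apply_eq_zero_iff k]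
  intro φ
  have e1 : ∀ (x : Ω) (y : k), φ (x * algebraMap k Ω y) = φ x * y := fun x y => by
    rw [mul_comm x, ← Algebra.smul_def, map_smul, smul_eq_mul, mul_comm]
  have e2 : ∀ (x : Ω) (y : k), φ (algebraMap k Ω y * x) = y * φ x := fun x y => by
    rw [mul_comm, e1, mul_comm]
  have h1 : M.map φ * g = g * M.map φ := by
    ext a b
    have := congrArg φ (congrFun (congrFun hM a) b)
    simpa only [Matrix.mul_apply, map_apply, map_sum, e1, e2] using this
  have h2 := h _ h1 a' b'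
  simp only [map_apply] at h2
  rw [map_sub, h2, sub_eq_zero]
  simp only [LangG_S, LangG_T, of_apply, map_sum, e1, e2]

lemma LangG_S_red (Pl : Place k Ω Ω') {d : ℕ} (c : Fin d → Matrix (Fin n) (Fin n) k)
    {t : Fin d → Ω} (ht : ∀ i, t i ∈ Pl.O) :
    (∀ a b, LangG_S c t a b ∈ Pl.O) ∧
      (LangG_S c t).map Pl.red = LangG_S c fun i => Pl.red (t i) := by
  have h : ∀ a b i, t i * algebraMap k Ω (c i a b) ∈ Pl.O := fun a b i =>
    Pl.O.mul_mem (ht i) (Pl.O.algebraMap_mem _)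
  refine ⟨fun a b => Pl.O.sum_mem (t := Finset.univ) fun i _ => h a b i, ?_⟩
  ext a b
  simp only [LangG_S, map_apply, of_apply]
  rw [Pl.red_sum _ fun i _ => h a b i]
  exact Finset.sum_congr rfl fun i _ => by
    rw [Pl.red_mul (ht i) (Pl.O.algebraMap_mem _), Pl.red_algebraMap]

lemma LangG_kr {σ : Type} {x : σ → Ω} (hx : AlgebraicIndependent k x) (y : σ → Ω') :
    kr k x ≤ kr k y := fun f hf => by
  have : f = 0 := (algebraicIndependent_iff.1 hx) f hf
  rw [this]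
  exact zero_mem _

theorem Place.mem_of_pow_eq (Pl : Place k Ω Ω') {Q : ℕ} (hQ : 1 < Q)
    {g m : Matrix (Fin n) (Fin n) Ω} (h : g.map (· ^ Q) = g * m) (hm : ∀ a b, m a b ∈ Pl.O) :
    ∀ a b, g a b ∈ Pl.O := by
  intro a b
  by_cases h0 : g a b = 0
  · rw [h0]; exact zero_mem _
  obtain ⟨⟨a₀, b₀⟩, hx, hs⟩ := Pl.exists_max (z := fun s : Fin n × Fin n => g s.1 s.2)
    ⟨(a, b), h0⟩
  simp only at hx hs
  have h1 : g a₀ b₀ ^ Q = ∑ c, g a₀ c * m c b₀ := congrFun (congrFun h a₀) b₀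
  have h2 : g a₀ b₀ ^ (Q - 1) = ∑ c, g a₀ c / g a₀ b₀ * m c b₀ := by
    apply mul_left_cancel₀ hx
    rw [← pow_succ', Nat.sub_add_cancel hQ.le, h1, Finset.mul_sum]
    exact Finset.sum_congr rfl fun c _ => by field_simp
  have h3 : g a₀ b₀ ∈ Pl.O := Pl.mem_of_pow (r := Q - 1) (by omega) (by
    rw [h2]
    exact Pl.O.sum_mem fun c _ => Pl.O.mul_mem (hs (a₀, c)) (hm c b₀))
  have h4 := Pl.O.mul_mem (hs (a, b)) h3
  rwa [div_mul_cancel₀ _ hx] at h4

theorem frH_frH [PQ Ω q] {g : Matrix (Fin n) (Fin n) Ω} (hg : IsUnit g) :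
    frH Ω n uni q (frH Ω n uni q g) = g.map (· ^ q ^ 2) := by
  have e : frH Ω n false q (frH Ω n false q g) = g.map (· ^ q ^ 2) := by
    ext a b
    simp only [frH_apply, Bool.false_eq_true, if_false, map_apply, ← pow_mul, sq]
  cases uni
  · exact e
  · have h1 := hg.map (frH Ω n false q)
    have h2 := h1.map (frH Ω n false q)
    change thH Ω n (frH Ω n false q (thH Ω n (frH Ω n false q g))) = _
    rw [frH_thH false q h1, ← e]
    change _⁻¹ᵀ⁻¹ᵀ = _
    rw [← transpose_nonsing_inv, transpose_transpose,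
      nonsing_inv_nonsing_inv _ ((Matrix.isUnit_iff_isUnit_det _).1 h2)]

theorem frH_transpose [PQ Ω q] (g : Matrix (Fin n) (Fin n) Ω) :
    frH Ω n uni q gᵀ = (frH Ω n uni q g)ᵀ := by
  rw [frH_apply, frH_apply, transpose_map]
  cases uni
  · rfl
  · simp only [if_true, ← transpose_nonsing_inv]

theorem frH_map [PQ Ω q] [PQ Ω' q] (φ : Ω →+* Ω') {g : Matrix (Fin n) (Fin n) Ω} (hg : IsUnit g) :
    (frH Ω n uni q g).map φ = frH Ω' n uni q (g.map φ) := by
  have e : (g.map φ).map (· ^ q) = (g.map (· ^ q)).map φ := by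
    ext a b
    simp
  have h1 : IsUnit (g.map (· ^ q)) := hg.map (frH Ω n false q)
  rw [frH_apply, frH_apply, e]
  cases uni
  · rfl
  · simp only [if_true]
    rw [map_inv_of_isUnit φ h1, transpose_map]

/-- The Lang map is finite. -/
theorem Place.IG.of_lang {Pl : Place k Ω Ω'} [PQ Ω q] [PQ Ω' q] {g m : Matrix (Fin n) (Fin n) Ω}
    (hg : IsUnit g) (h : frH Ω n uni q g = g * m) (hm : Pl.IG m) : Pl.IG g := by
  have hQ : IsQ Ω (q ^ 2) := isQ_pow Ω q two_pos
  have hm' := (hm.mul (hm.frob (uni := uni) (q := q)).1).1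
  have e : g.map (· ^ q ^ 2) = g * (m * frH Ω n uni q m) := by
    rw [← frH_frH (uni := uni) hg, h, map_mul, h, mul_assoc]
  have h1 := Pl.mem_of_pow_eq hQ.one_lt e hm'.1
  have e' : g⁻¹ᵀ.map (· ^ q ^ 2) = g⁻¹ᵀ * (m * frH Ω n uni q m)⁻¹ᵀ := by
    rw [← transpose_mul, ← Matrix.mul_inv_rev, ← e, transpose_map]
    exact congrArg transpose (map_inv_of_isUnit (frobHom Ω (q ^ 2)) hg).symm
  have h2 := Pl.mem_of_pow_eq hQ.one_lt e' fun a b => hm'.inv.1.1 b a
  exact ⟨h1, Pl.isUnit_map_red h1 (fun a b => h2 b a) hg⟩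

lemma LangG_main [IsAlgClosed k] [IsAlgClosed Ω] [PQ k q] {g m : Matrix (Fin n) (Fin n) k}
    (hg : IsUnit g) (hF : frH k n uni q g = g) (hm : IsUnit m) (hc : m * g = g * m) {d : ℕ}
    {c ρ : Fin d → Matrix (Fin n) (Fin n) k} (h1 : ∀ i, c i * g = g * c i)
    (h2 : ∀ i j, ∑ a, ∑ b, ρ i a b * c j a b = if i = j then 1 else 0)
    (h3 : ∀ x : Matrix (Fin n) (Fin n) k, x * g = g * x →
      ∀ a' b', x a' b' = ∑ i, (∑ a, ∑ b, ρ i a b * x a b) * c i a' b')
    {s : Fin d → Ω} (hs : AlgebraicIndependent k s) :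
    ∃ a, IsUnit a ∧ a * g = g * a ∧ frH k n uni q a = a * m := by
  have := PQ.ext k q Ω
  have hk : g.map (algebraMap k k) = g := by ext; simp
  have hS : ∀ x : Matrix (Fin n) (Fin n) k, x * g = g * x → LangG_S c (LangG_T ρ x) = x :=
    fun x hx => LangG_S_T h3 (by rwa [hk])
  obtain ⟨A, hA⟩ : ∃ A, A = LangG_S c s := ⟨_, rfl⟩
  obtain ⟨G, hG⟩ : ∃ G, G = g.map (algebraMap k Ω) := ⟨_, rfl⟩
  have hAu : IsUnit A := by
    obtain ⟨Pl, hP⟩ := exists_place (LangG_kr hs (LangG_T ρ (1 : Matrix (Fin n) (Fin n) k)))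
    obtain ⟨p1, p2⟩ := LangG_S_red Pl c fun i => (hP i).1
    refine Place.IG.isUnit (Pl := Pl) ⟨hA ▸ p1, ?_⟩
    rw [hA, p2, funext fun i => (hP i).2, hS 1 (by rw [one_mul, mul_one])]
    exact isUnit_one
  have hAG : A * G = G * A := by rw [hA, hG]; exact LangG_S_comm h1 s
  have hFG : frH Ω n uni q G = G := by rw [hG, ← frH_map _ hg, hF]
  have hd := (Matrix.isUnit_iff_isUnit_det A).1 hAu
  obtain ⟨M, hM⟩ : ∃ M, M = A⁻¹ * frH Ω n uni q A := ⟨_, rfl⟩
  have hL : frH Ω n uni q A = A * M := by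
    rw [hM, ← mul_assoc, mul_nonsing_inv _ hd, one_mul]
  have hMu : IsUnit M := hM ▸ (Matrix.isUnit_nonsing_inv_iff.2 hAu).mul (hAu.map _)
  have hMG : M * G = G * M := by
    have e := congrArg (frH Ω n uni q) hAG
    rw [map_mul, map_mul, hFG, hL, ← mul_assoc, ← hAG, mul_assoc, mul_assoc] at e
    exact hAu.mul_left_cancel e
  have hMS : LangG_S c (LangG_T ρ M) = M := LangG_S_T h3 (hG ▸ hMG)
  have hacl : range s ⊆ acl k (range (LangG_T ρ M)) := by
    rintro _ ⟨i, rfl⟩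
    refine mem_acl_of_place fun Pl hP => ?_
    obtain ⟨p1, p2⟩ := LangG_S_red Pl c fun i => (hP _ ⟨i, rfl⟩).1
    rw [funext fun i => (hP _ ⟨i, rfl⟩).2, hMS] at p2
    rw [hMS] at p1
    have hI : Pl.IG A := Place.IG.of_lang hAu hL ⟨p1, p2.symm ▸ hMu⟩
    rw [← LangG_T_S h2 s i, ← hA]
    exact Pl.O.sum_mem fun a _ => Pl.O.sum_mem fun b _ =>
      Pl.O.mul_mem (Pl.O.algebraMap_mem _) (hI.1 a b)
  have ht : AlgebraicIndependent k (LangG_T ρ M) :=
    (rk_range_eq_iff _).1 (le_antisymm (rk_range_le _)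
      (((rk_range_eq_iff s).2 hs).symm.le.trans (rk_le_of_acl (finite_range _) hacl)))
  obtain ⟨Pl, hP⟩ := exists_place (LangG_kr ht (LangG_T ρ m))
  obtain ⟨p1, p2⟩ := LangG_S_red Pl c fun i => (hP i).1
  rw [funext fun i => (hP i).2, hMS, hS m hc] at p2
  rw [hMS] at p1
  have hIM : Pl.IG M := ⟨p1, p2.symm ▸ hm⟩
  have hI : Pl.IG A := Place.IG.of_lang hAu hL hIM
  have hGO : ∀ a b, G a b ∈ Pl.O := fun a b => hG ▸ Pl.O.algebraMap_mem _
  have hGr : G.map Pl.red = g := by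
    ext a b
    rw [hG, map_apply, map_apply, Pl.red_algebraMap]
    rfl
  refine ⟨A.map Pl.red, hI.2, ?_, ?_⟩
  · rw [← hGr, ← (Pl.map_red_mul hI.1 hGO).2, ← (Pl.map_red_mul hGO hI.1).2, hAG]
  · rw [← (hI.frob (uni := uni) (q := q)).2, hL, (hI.mul hIM).2, p2]

/-- Lang's theorem for the centraliser of a rational element. -/
theorem exists_lang [IsAlgClosed k] [PQ k q] {g m : Matrix (Fin n) (Fin n) k} (hg : IsUnit g)
    (hF : frH k n uni q g = g) (hm : IsUnit m) (hc : m * g = g * m) :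
    ∃ a, IsUnit a ∧ a * g = g * a ∧ frH k n uni q a = a * m := by
  let V : Submodule k (Matrix (Fin n) (Fin n) k) :=
    LinearMap.eqLocus (LinearMap.mulRight k g) (LinearMap.mulLeft k g)
  obtain ⟨d, c, ρ, h1, h2, h3⟩ := LangG_coord V
  let R := MvPolynomial (Fin d) k
  let Ω := AlgebraicClosure (FractionRing R)
  have hs : AlgebraicIndependent k fun i : Fin d => algebraMap R Ω (X i) := by
    rw [algebraicIndependent_iff_injective_aeval]
    have e : aeval (fun i : Fin d => algebraMap R Ω (X i)) = IsScalarTower.toAlgHom k R Ω := by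
      ext i
      rw [aeval_X]
      rfl
    rw [e]
    change Function.Injective (algebraMap R Ω)
    rw [IsScalarTower.algebraMap_eq R (FractionRing R) Ω]
    exact (algebraMap (FractionRing R) Ω).injective.comp (IsFractionRing.injective R _)
  exact LangG_main hg hF hm hc h1 h2 h3 hs

end Pool.Agent.MP_0c8446_ag
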