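import Pool.Agent.MP_0c8446_ag.Defs

namespace Pool.Agent.MP_0c8446_ag

open Matrix

universe u v w

/-- The Plücker coordinates of `c` vectors: the `c × c` minors. -/
def pl {R : Type u} [CommRing R] {n c : ℕ} (x : Fin c → Fin n → R) (α : Fin c → Fin n) : R :=
  (Matrix.of fun l m => x m (α l)).det

/-- The first `a + 1` columns of a matrix. -/
def cols {R : Type u} {n : ℕ} (g : Matrix (Fin n) (Fin n) R) (a : Fin n) :
    Fin (a + 1) → Fin n → R :=
  fun m i => g i (Fin.castLE a.2 m)

/-- The blocks of the minimal parabolic subgroup `P_s`: positions `s` and `s + 1` are merged. -/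
def blk (n s : ℕ) (a : Fin n) : ℕ := if (a : ℕ) ≤ s then a else a - 1

/-- The Frobenius map on frames of flags: raise the entries to the power `q`, and in the unitary
case pass to the dual basis in reverse order (the flag of orthogonal complements). -/
noncomputable def frobFlag {k : Type u} [Field k] {n : ℕ} (uni : Bool) (q : ℕ)
    (g : Matrix (Fin n) (Fin n) k) : Matrix (Fin n) (Fin n) k :=
  if uni then (g.map (· ^ q))⁻¹ᵀ.submatrix id Fin.rev else g.map (· ^ q)

/-- The Demazure compactification of the Deligne-Lusztig variety of the word `w` for `GL_n(q)`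
or `U_n(q)`: chains of flags `g_0 B, …, g_r B = F(g_0 B)` with `g_j⁻¹ g_{j+1} ∈ P_{w j}`, in
Plücker coordinates (numbered by `c`). -/
def dl (k : Type u) [Field k] (uni : Bool) (q : ℕ) {n r : ℕ} (w : Fin r → ℕ) {N : Fin n → ℕ}
    (c : ∀ a : Fin n, Fin (N a + 1) ≃ (Fin (a + 1) → Fin n)) :
    Set (MP k fun i : Fin (r + 1) × Fin n => N i.2) :=
  {x | ∃ g : Fin (r + 1) → Matrix (Fin n) (Fin n) k, (∀ j, IsUnit (g j)) ∧
    (∀ j : Fin r, ((g j.castSucc)⁻¹ * g j.succ).BlockTriangular (blk n (w j))) ∧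
    ((g (Fin.last r))⁻¹ * frobFlag uni q (g 0)).BlockTriangular Fin.val ∧
    IsRep (fun s => pl (cols (g s.1.1) s.1.2) (c s.1.2 s.2)) x}

/-- Products of compactified Deligne-Lusztig varieties of general linear and unitary groups. -/
inductive DLType (k : Type u) [Field k] (p : ℕ) : Var k → Prop
  | ofDL (uni : Bool) (f : ℕ) {n r : ℕ} (w : Fin r → ℕ) {N : Fin n → ℕ}
      (c : ∀ a : Fin n, Fin (N a + 1) ≃ (Fin (a + 1) → Fin n)) (h₁ h₂) :
      0 < f → 0 < n → DLType k p ⟨_, _, dl k uni (p ^ f) w c, h₁, h₂⟩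
  | prod {P X Y : Var k} (a : Mor P X) (b : Mor P Y) :
      IsProd a b → DLType k p X → DLType k p Y → DLType k p P

/-- `X` is motivated by the class `𝒞`: no nonzero cohomology class of `X` is killed by all
algebraic correspondences from `X` to members of `𝒞`. -/
def Weil.MotivatedBy {k : Type u} [Field k] {K : Type v} [Field K] (W : Weil.{u, v, w} k K)
    (𝒞 : Var k → Prop) (X : Var k) : Prop :=
  ∀ a : W.H X, a ≠ 0 → ∃ (Y T : Var k) (f : Mor T X) (g : Mor T Y) (Z : Set T.pts) (b : W.H Y),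
    𝒞 Y ∧ IsSub Z ∧ W.tr T (W.cl T Z * (W.pull f a * W.pull g b)) ≠ 0

end Pool.Agent.MP_0c8446_ag
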