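import Pool.Agent.MP_0c8446_ag.DL.RelW

namespace Pool.Agent.MP_0c8446_ag

open MvPolynomial Set

universe u v w

variable {k : Type u} [Field k] [IsAlgClosed k] {K : Type v} [Field K] [CharZero K]
  (W : Weil.{u, v, w} k K) {Γ : Type u} [Group Γ]

theorem StW_free {S : Stage k Γ} {N : ℕ} (r : Γ →* Matrix (Fin (N + 1)) (Fin (N + 1)) k)
    {Ω : Type u} [Field Ω] [Algebra k Ω] {v : Vars (S.ext r).P.n → Ω} (hf : (S.ext r).Free v) :
    S.Free fun s => v (pvL (PN k N).n s) := by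
  set u : Vars S.P.n → Ω := fun s => v (pvL (PN k N).n s) with hu
  have e1 : rat (S.ext r).J v = rat S.J u := by
    refine (rat_pv (n := S.P.n) (m := (PN k N).n) (S.ext r).J v).trans ?_
    refine union_eq_left.2 ?_
    rintro x ⟨i, hi, -⟩
    exact hi.elim
  have e2 : rat S.Jᶜ u ⊆ rat (S.ext r).Jᶜ v := by
    exact subset_union_left.trans (rat_pv (n := S.P.n) (m := (PN k N).n) (S.ext r).Jᶜ v).ge
  have e3 : rat univ u = rat S.J u ∪ rat S.Jᶜ u := by rw [← rat_union, union_compl_self]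
  have e4 : rat univ v = rat S.J u ∪ rat (S.ext r).Jᶜ v := by
    rw [← e1, ← rat_union, union_compl_self]
  have h1 := rk_submod (k := k) (finite_rat univ u) (finite_rat (S.ext r).Jᶜ v)
  have e5 : rat univ u ∪ rat (S.ext r).Jᶜ v = rat univ v := by
    rw [e3, e4, union_assoc, union_eq_right.2 e2]
  have h2 : rk k (rat S.Jᶜ u) ≤ rk k (rat univ u ∩ rat (S.ext r).Jᶜ v) :=
    rk_mono ((finite_rat univ u).inter_of_left _) (subset_inter (rat_mono (subset_univ _) u) e2)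
  have h3 := rk_union_le (k := k) (finite_rat S.J u) (finite_rat S.Jᶜ u)
  unfold Stage.Free at hf ⊢
  rw [e5] at h1
  rw [← e3] at h3
  rw [e1] at hf
  omega

theorem Weil.ph_act {S : Stage k Γ} {β : W.H S.P} (hβ : W.Inv S β) (γ : Γ) {C : Set S.P.pts}
    (hC : IsSub C) : W.ph β ((S.act γ).1 '' C) = W.ph β C := by
  have h := W.push_retr (S.act γ) (S.act γ⁻¹)
    (fun x => by rw [← S.act_mul, inv_mul_cancel, S.act_one]) hC β
  rw [hβ γ] at h
  exact h.symm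

omit [IsAlgClosed k] [CharZero K] in
theorem Weil.Inv.mul {S : Stage k Γ} {a b : W.H S.P} (ha : W.Inv S a) (hb : W.Inv S b) :
    W.Inv S (a * b) := fun γ => by rw [map_mul, ha γ, hb γ]

omit [CharZero K] in
theorem Weil.inv_fst {S : Stage k Γ} (S' : Stage k Γ) {β : W.H S.P} (hβ : W.Inv S β) :
    W.Inv (S.prod S') (W.pull (pvF S.P S'.P) β) := fun γ => by
  have h := W.pull_congr (f := (pvF S.P S'.P).comp ((S.prod S').act γ))
    (g := (S.act γ).comp (pvF S.P S'.P)) (fun x => S.pvF_act S' γ x) β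
  rw [← W.pull_pull, ← W.pull_pull, hβ γ] at h
  exact h

omit [CharZero K] in
theorem Weil.inv_snd (S : Stage k Γ) {S' : Stage k Γ} {β : W.H S'.P} (hβ : W.Inv S' β) :
    W.Inv (S.prod S') (W.pull (pvS S.P S'.P) β) := fun γ => by
  have h := W.pull_congr (f := (pvS S.P S'.P).comp ((S.prod S').act γ))
    (g := (S'.act γ).comp (pvS S.P S'.P)) (fun x => S.pvS_act S' γ x) β
  rw [← W.pull_pull, ← W.pull_pull, hβ γ] at h
  exact h

omit [CharZero K] in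
theorem Weil.inv_inf {S : Stage k Γ} (i : S.P.ι) {β : W.H (S.lb i).P} (hβ : W.Inv (S.lb i) β) :
    W.Inv S (W.pull (S.P.inf i) β) := fun γ => by
  have h := W.pull_congr (f := (S.P.inf i).comp (S.act γ))
    (g := ((S.lb i).act γ).comp (S.P.inf i)) (fun x => (S.inf_act i γ x).symm) β
  exact ((W.pull_pull _ _ _).trans (h.trans (W.pull_pull _ _ _).symm)).trans
    (congrArg (W.pull (S.P.inf i)) (hβ γ))

omit [CharZero K] in
theorem Weil.kill_fst {S : Stage k Γ} {N : ℕ} (r : Γ →* Matrix (Fin (N + 1)) (Fin (N + 1)) k)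
    {β : W.H S.P} (hβ : W.Kill S β) : W.Kill (S.ext r) (W.pull (pvF S.P (PN k N)) β) := by
  intro Ω _ _ v hv hf
  obtain ⟨a, -, h1⟩ := W.ph_pull (pvF S.P (PN k N)) (Var.On.isSub hv)
  have h2 := h1 β
  have h3 := hβ Ω _ (on_pv_iff (X := S.P) (Y := PN k N).1 hv).1 (StW_free r hf)
  rw [loc_pvF (X := S.P) (Y := PN k N) hv, h3, mul_zero] at h2
  exact h2

theorem Weil.ph_cut {X : Var k} {η β : W.H X} {V H : Set X.pts} (h : W.CutAt η V H)
    (h0 : ∀ C, IsComp C (V ∩ H) → dim C + 1 = dim V → W.ph β C = 0) : W.ph (η * β) V = 0 := by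
  obtain ⟨a, s, μ, ha, h1, h2, h3⟩ := h
  have h4 := congrArg (fun z => W.tr X (z * β)) h3
  simp only [smul_mul_assoc, Finset.sum_mul, map_sum, map_nsmul] at h4
  rw [Finset.sum_eq_zero fun C hC => by
    rw [show W.tr X (W.cl X C * β) = 0 from h0 C ((h1 C).1 hC) (h2 C hC).2, smul_zero],
    nsmul_eq_mul, mul_assoc] at h4
  exact (mul_eq_zero.1 h4).resolve_left (Nat.cast_ne_zero.2 ha.ne')

theorem Weil.kill_cut {S : Stage k Γ} {i : S.P.ι} (hi : i ∉ S.J) {η β : W.H S.P}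
    (hc : ∀ V, IsSub V → ∃ c, ¬ V ⊆ Subtype.val ⁻¹' hyp i c ∧
      W.CutAt η V (Subtype.val ⁻¹' hyp i c)) (hβ : W.Kill S β) : W.Kill S (η * β) := by
  intro Ω _ _ v hv hf
  obtain ⟨c, h1, h2⟩ := hc _ hv.isSub
  refine W.ph_cut h2 fun C hC hd => ?_
  obtain ⟨Ω', _, _, _, u, hu, rfl⟩ := S.P.exists_generic hC.prop.1
  refine hβ Ω' u hu ?_
  have hF : IsForm (Finsupp.single i 1)
      (∑ s, c s • (MvPolynomial.X ⟨i, s⟩ : MvPolynomial (Vars S.P.n) k)) :=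
    IsForm.sum _ fun s _ => (isForm_X (⟨i, s⟩ : Vars S.P.n)).smul _
  have hp : pI k v ≤ pI k u := hu.pI_le fun x hx => (hC.prop.2 hx).1
  have h3 := (hu.vanish_iff hF).1 fun x hx => (mem_hyp_iff i c x.1).1 (hC.prop.2 hx).2
  have h4 := fun h => h1 fun x hx => (mem_hyp_iff i c x.1).2 ((hv.vanish_iff hF).2 h x hx)
  have h5 := rk_rat_le S.J hp hu.1
  have h6 := rk_rat_lt (I := S.Jᶜ) hp hu.1 hF
    (fun j hj => Finsupp.single_eq_of_ne fun e => hj (e ▸ hi)) h3 h4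
  have h7 := rk_union_le (k := k) (finite_rat S.J u) (finite_rat S.Jᶜ u)
  rw [← rat_union, union_compl_self] at h7
  rw [hu.dim_loc, hv.dim_loc] at hd
  unfold Stage.Free at hf ⊢
  omega

theorem Weil.subCl_cut {X : Var k} {η β : W.H X} {𝓓 : Set (Set X.pts)} (hD : SubCl 𝓓)
    (hc : ∀ V, IsSub V → ∃ H, W.CutAt η V H) (hβ : ∀ C ∈ 𝓓, W.ph β C = 0) :
    ∀ C ∈ 𝓓, W.ph (η * β) C = 0 := fun C hC => by
  obtain ⟨H, h⟩ := hc C (hD C hC).1
  exact W.ph_cut h fun D h1 _ =>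
    hβ D ((hD C hC).2 D h1.prop.1 fun x hx => (h1.prop.2 hx).1)

/-- Adding a block that is generically finite over the given family. -/
theorem Weil.dec_proper {S : Stage k Γ} {N : ℕ} (r : Γ →* Matrix (Fin (N + 1)) (Fin (N + 1)) k)
    {𝓡 𝓓 : Set (Set S.P.pts)} {𝓡' 𝓓' : Set (Set (S.ext r).P.pts)}
    (h1 : ∀ C ∈ 𝓡, ∃ C' ∈ 𝓡', IsSub C' ∧ dim C' = dim C ∧ closure ((pvF S.P (PN k N)).1 '' C') = C)
    (h2 : ∀ D ∈ 𝓓', IsSub D ∧ closure ((pvF S.P (PN k N)).1 '' D) ∈ 𝓓)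
    (H : W.Dec (S.ext r) 𝓡' 𝓓') : W.Dec S 𝓡 𝓓 := by
  intro m β hm hI hK hD C hC
  obtain ⟨C', c1, c2, c3, c4⟩ := h1 C hC
  have h3 := H m _ (W.pull_gr (pvF S.P (PN k N)) _ _ hm) (W.inv_fst (projStage r) hI)
    (W.kill_fst r hK) (fun D hD' => by
      obtain ⟨d1, d2⟩ := h2 D hD'
      obtain ⟨a, -, h4⟩ := W.ph_pull (pvF S.P (PN k N)) d1
      have h5 := h4 β
      rw [hD _ d2, mul_zero] at h5
      exact h5) C' c1
  obtain ⟨a, ha, h4⟩ := W.ph_pull (pvF S.P (PN k N)) c2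
  have h5 := h4 β
  rw [c4] at ha h5
  exact (mul_eq_zero.1 (h5.symm.trans h3)).resolve_left (Nat.cast_ne_zero.2 (ha c3.symm).ne')

end Pool.Agent.MP_0c8446_ag
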