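import Pool.Agent.MP_0c8446_ag.DL.QB
import Pool.Agent.MP_0c8446_ag.DL.StW

namespace Pool.Agent.MP_0c8446_ag

open MvPolynomial Set

universe u v w

variable {k : Type u} [Field k] [IsAlgClosed k] {K : Type v} [Field K] [CharZero K]
  (W : Weil.{u, v, w} k K) {Γ : Type u} [Group Γ]

theorem Weil.dec_affine {S : Stage k Γ} {R : Fam k (Vars S.P.n)} {𝓓 : Set (Set S.P.pts)} {N : ℕ}
    {d : Fin N → S.P.ι →₀ ℕ} {F G : Fin N → MvPolynomial (Vars S.P.n) k}
    {Dp : MvPolynomial (Fin N) k} (h : AffQ S R 𝓓 d F G Dp) : W.Dec S (S.P.fam R) 𝓓 := by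
  intro m β hβ hinv hkill hD
  have key : ∀ i, i ≤ N → ∀ (Ω : Type u) [Field Ω] [Algebra k Ω] [IsAlgClosed Ω]
      (v : Vars S.P.n → Ω), R Ω v → S.Cyl F G i v → W.ph β (S.P.loc v) = 0 := by
    intro i
    induction i with
    | zero => exact fun _ Ω _ _ _ v hv hc => hkill Ω v (h.on Ω v hv).1 (h.free hv hc)
    | succ i ih =>
      intro hi Ω _ _ _ v hv h1
      by_cases h2 : S.Cyl F G i v
      · exact ih (by omega) Ω v hv h2
      by_contra hc
      have hon := (h.on Ω v hv).1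
      have hdim : dim (S.P.loc v) = m := by
        by_contra hne
        exact hc (W.ph_of_dim_ne hβ hon.isSub hne)
      have hrk : rk k (rat univ v) = m := hon.dim_loc.symm.trans hdim
      obtain ⟨Ω', _, _, _, φ, v', w, hv', e1, e2, e3, hr, hw, hle, ht, hp, γ, hγ⟩ :=
        h.exists_gen hv (i := ⟨i, hi⟩) h1 h2
      obtain ⟨e, F₀, G₀, hF, hG, hF', hG', hw0, hlast⟩ :=
        h.exists_forms hv (i := ⟨i, hi⟩) h1 h2 φ hv' e1 e2 e3
      have act : ∀ δ, W.ph β (S.P.loc (blin (fun i => S.ρ i δ) v)) = W.ph β (S.P.loc v) :=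
        fun δ => by rw [(S.loc_act δ hon).2, W.ph_act hinv δ hon.isSub]
      have hwc : W.ph β (S.P.loc w) = W.ph β (S.P.loc v) := by rw [Var.loc_par hγ, act]
      have hon' := (h.on Ω' v' hv').1
      have honw := (h.on Ω w hw).1
      have hdw : dim (S.P.loc w) = m := by
        by_contra hne
        exact hc (hwc.symm.trans (W.ph_of_dim_ne hβ honw.isSub hne))
      have sub : ∀ C, IsSub C → C ⊆ S.P.loc v' → dim C = m → W.ph β C = 0 ∨
          ((¬ ∀ x ∈ C, Vanish G₀ x.1) ∧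
            ((∀ x ∈ C, Vanish F₀ x.1) → W.ph β C = W.ph β (S.P.loc v))) := by
        intro C hC hsub hd
        obtain ⟨Ω'', _, _, _, u, hu, rfl⟩ := S.P.exists_generic hC
        have hle' := hu.pI_le hsub
        rcases h.sp _ _ v' u hv' hu.1 hle' with hR | hD'
        · rcases hlast Ω'' u hR hle' (by rw [← hu.dim_loc, hd, hrk]) with hc' | ⟨hg, hf⟩
          · exact Or.inl (ih (by omega) Ω'' u hR hc')
          · refine Or.inr ⟨fun hv => hg ((hu.vanish_iff hG).1 hv), fun hv => ?_⟩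
            obtain ⟨δ, e'⟩ := hf ((hu.vanish_iff hF).1 hv)
            rw [Var.loc_congr e', act]
        · exact Or.inl (hD _ hD')
      refine hc (W.rel hon' hF hG hF' hG' (m := m) (by rw [hon'.dim_loc, hr, hrk]) β _
        (fun C hC hsub hd hv => (sub C hC hsub hd).resolve_right fun h' => h'.1 hv)
        (fun C hC hsub hd hv => (sub C hC hsub hd).imp_right fun h' => h'.2 hv)
        honw.isSub (Var.loc_subset hle) hdw ((honw.vanish_iff hF).2 (hw0 w hw ht hp)) hwc)
  rintro _ ⟨Ω, _, _, _, v, hv, rfl⟩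
  exact key N le_rfl Ω v hv (h.cyl_top hv)

end Pool.Agent.MP_0c8446_ag
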