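import Pool.Agent.MP_0c8446_ag.DL.Lev
import Pool.Agent.MP_0c8446_ag.DL.QW

namespace Pool.Agent.MP_0c8446_ag

open MvPolynomial Set

universe u v w

variable {k : Type u} [Field k] [IsAlgClosed k] {K : Type v} [Field K] [CharZero K]
  (W : Weil.{u, v, w} k K) {Γ : Type u} [Group Γ]

/-- The quotient of the frames by `Γ` is an open subset of an affine space. -/
structure FrD.Quot (D : FrD k Γ) {τ : Type} (t : τ → MvPolynomial D.σ k) (Dp : MvPolynomial τ k) :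
    Prop where
  nv : ∀ (Ω : Type u) [Field Ω] [Algebra k Ω] [IsAlgClosed Ω] (h : D.σ → Ω), D.Fr h →
    aeval (evs h t) Dp ≠ 0
  fib : ∀ (Ω : Type u) [Field Ω] [Algebra k Ω] [IsAlgClosed Ω] (h h' : D.σ → Ω), D.Fr h →
    D.Fr h' → evs h t = evs h' t → ∃ γ, h' = evs h (D.act γ)
  surj : ∀ (Ω : Type u) [Field Ω] [Algebra k Ω] [IsAlgClosed Ω] (x : τ → Ω), aeval x Dp ≠ 0 →
    ∃ h, D.Fr h ∧ evs h t = x
  val : ∀ (Ω Ω' : Type u) [Field Ω] [Algebra k Ω] [IsAlgClosed Ω] [Field Ω'] [Algebra k Ω']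
    [IsAlgClosed Ω'] (Pl : Place k Ω Ω') (h : D.σ → Ω), D.Fr h → (∀ s, evs h t s ∈ Pl.O) →
    aeval (fun s => Pl.red (evs h t s)) Dp ≠ 0 → ∀ s, h s ∈ Pl.O

theorem Weil.good_quot {D : FrD k Γ} {τ : Type} [Finite τ] {t : τ → MvPolynomial D.σ k}
    {Dp : MvPolynomial τ k} (h : D.Quot t Dp) (e : FRel k D.σ) : W.Good D e (range X) := by
  intro L _ hV
  obtain ⟨N, ⟨ε⟩⟩ := Finite.exists_equiv_fin τ
  have hr : ∀ s : Fin N, L.Reg (t (ε.symm s)) := fun s => by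
    have := Level.Reg.subst (t := X) (fun s => hV _ ⟨s, rfl⟩) (t (ε.symm s))
    rwa [aeval_X_left_apply] at this
  choose d F G hF hG hd hFG using hr
  have key : ∀ {Ω : Type u} [Field Ω] [Algebra k Ω] {v : Vars L.S.P.n → Ω} {x : D.σ → Ω},
      D.Fr x → ParOn L.S.Jᶜ (evs x L.pt) v →
      (∀ s, aeval v (G s) ≠ 0) ∧ tv F G v = fun s => evs x t (ε.symm s) := by
    intro Ω _ _ v x hx hp
    have h1 : ∀ s, aeval v (G s) ≠ 0 ∧ tv F G v s = evs x t (ε.symm s) := fun s => by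
      obtain ⟨c, hc, h2⟩ := hp.exists_aeval (k := k) (d := d s) fun i hi => hd s i (not_not.1 hi)
      obtain ⟨h3, h4⟩ := hFG s Ω x hx
      refine ⟨by rw [h2 _ (hG s)]; exact mul_ne_zero hc h3, ?_⟩
      rw [tv, h2 _ (hG s), h2 _ (hF s), h4, mul_div_mul_left _ _ hc, mul_div_cancel_right₀ _ h3]
      rfl
    exact ⟨fun s => (h1 s).1, funext fun s => (h1 s).2⟩
  have hD : ∀ {Ω : Type u} [Field Ω] [Algebra k Ω] (y : τ → Ω),
      aeval (fun s => y (ε.symm s)) (rename ε Dp) = aeval y Dp := by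
    intro Ω _ _ y
    rw [aeval_rename]
    congr 2
    funext s
    simp
  refine W.dec_affine (d := d) (F := F) (G := G) (Dp := rename ε Dp)
    ⟨hF, hG, ?_, fun _ _ _ _ _ _ _ _ φ v hv => L.famR_map hv φ,
      fun _ _ _ _ _ _ _ _ v u hv hu hle => L.sp_pt hv hu hle, ?_, ?_, ?_, ?_⟩
  · rintro Ω _ _ _ v ⟨ho, x, hx, hp⟩
    refine ⟨ho, (key hx hp).1, ?_⟩
    rw [(key hx hp).2, hD]
    exact h.nv Ω x hx
  · rintro Ω _ _ _ v ⟨-, x, hx, hp⟩
    have h1 : ∀ s, x s ∈ acl k (range (tv F G v)) := fun s => by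
      refine mem_acl_of_place fun Pl hP => ?_
      have h2 : ∀ s, evs x t s ∈ Pl.O ∧ Pl.red (evs x t s) = evs x t s := fun s =>
        hP _ ⟨ε s, by rw [(key hx hp).2]; simp⟩
      refine h.val Ω Ω Pl x hx (fun s => (h2 s).1) ?_ s
      rw [funext fun s => (h2 s).2]
      exact h.nv Ω x hx
    rw [hp.rat_eq]
    rintro _ ⟨i, -, s, s', rfl⟩
    exact div_mem_acl (aeval_mem_acl h1 _) (aeval_mem_acl h1 _)
  · rintro Ω _ _ _ v v' ⟨-, x, hx, hp⟩ ⟨-, x', hx', hp'⟩ e1 e2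
    rw [(key hx hp).2, (key hx' hp').2] at e1
    obtain ⟨γ, rfl⟩ := h.fib Ω x x' hx hx' (funext fun s => by simpa using congrFun e1 (ε s))
    refine ⟨γ, fun i _ => ?_⟩
    by_cases hi : i ∈ L.S.J
    · obtain ⟨c, hc, h1⟩ := e2 i hi
      refine ⟨c, hc, fun s => ?_⟩
      rw [h1]
      simp [blin, L.S.triv i hi, Matrix.one_apply]
    · have h1 : ParOn {i} (blin (fun i => L.S.ρ i γ) (evs x L.pt))
          (evs (evs x (D.act γ)) L.pt) := by
        rintro _ rfl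
        exact ⟨1, one_ne_zero, fun s => by rw [one_mul]; exact L.equi _ hi γ Ω x hx s⟩
      have hs : ({i} : Set L.S.P.ι) ⊆ L.S.Jᶜ := singleton_subset_iff.2 hi
      exact (((hp.mono hs).blin _).symm.trans (h1.trans (hp'.mono hs))) i rfl
  · rintro Ω _ _ _ v y ⟨ho, -⟩ hy
    obtain ⟨x, hx, e1⟩ := h.surj Ω (fun s => y (ε s)) (by
      rw [← hD]
      simpa using hy)
    have hp : ParOn L.S.Jᶜ (evs x L.pt) (mix L.S.J v (evs x L.pt)) := fun i hi =>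
      ⟨1, one_ne_zero, fun s => by rw [one_mul]; exact if_neg hi⟩
    refine ⟨mix L.S.J v (evs x L.pt), ⟨L.prod Ω v x ho hx, x, hx, hp⟩, ?_, fun a ha => if_pos ha⟩
    rw [(key hx hp).2, e1]
    simp
  · rintro Ω Ω' _ _ _ _ _ _ Pl v ⟨ho, x, hx, hp⟩ h1 h2 c hc h3 h4
    rw [(key hx hp).2] at h1 h2
    rw [hD fun s => Pl.red (evs x t s)] at h2
    exact L.famR_red Pl (ho.par (parOn_sc _ hc v)) hx (hp.trans (parOn_sc _ hc v))
      (h.val Ω Ω' Pl x hx (fun s => by simpa using h1 (ε s)) h2) h3 h4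

end Pool.Agent.MP_0c8446_ag
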