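import Pool.Agent.MP_0c8446_ag.DL.PDefs

namespace Pool.Agent.MP_0c8446_ag

open MvPolynomial Set

universe u v w

variable {k : Type u} [Field k] {ι κ : Type} {n : ι → ℕ} {m : κ → ℕ}
  {d e : ι →₀ ℕ} {F G : MvPolynomial (Vars n) k}
  {Ω Ω' : Type u} [Field Ω] [Algebra k Ω] [Field Ω'] [Algebra k Ω']

theorem isForm_zero (d : ι →₀ ℕ) : IsForm d (0 : MvPolynomial (Vars n) k) := by
  rw [IsForm, map_zero, map_zero]

theorem isForm_C (c : k) : IsForm 0 (C c : MvPolynomial (Vars n) k) :=
  gorb.commutes c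

theorem isForm_one : IsForm 0 (1 : MvPolynomial (Vars n) k) := map_one gorb

theorem isForm_X (a : Vars n) :
    IsForm (Finsupp.single a.1 1) (X a : MvPolynomial (Vars n) k) := by
  rw [IsForm, gorb, aeval_X, mul_comm, C_mul_X_eq_monomial]

theorem IsForm.add (hF : IsForm d F) (hG : IsForm d G) : IsForm d (F + G) := by
  rw [IsForm, map_add, map_add, hF, hG]

theorem IsForm.sub (hF : IsForm d F) (hG : IsForm d G) : IsForm d (F - G) := by
  rw [IsForm, map_sub, map_sub, hF, hG]

theorem IsForm.smul (c : k) (hF : IsForm d F) : IsForm d (c • F) := by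
  rw [IsForm, map_smul, hF, smul_monomial]

theorem IsForm.mul (hF : IsForm d F) (hG : IsForm e G) : IsForm (d + e) (F * G) := by
  rw [IsForm, map_mul, hF, hG, monomial_mul]

theorem IsForm.pow (hF : IsForm d F) (r : ℕ) : IsForm (r • d) (F ^ r) := by
  rw [IsForm, map_pow, hF, monomial_pow]

theorem IsForm.sum {α : Type*} (s : Finset α) {F : α → MvPolynomial (Vars n) k}
    (h : ∀ a ∈ s, IsForm d (F a)) : IsForm d (∑ a ∈ s, F a) := by
  rw [IsForm, map_sum, map_sum]
  exact Finset.sum_congr rfl h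

theorem IsForm.prod {α : Type*} (s : Finset α) {d : α → ι →₀ ℕ} {F : α → MvPolynomial (Vars n) k}
    (h : ∀ a ∈ s, IsForm (d a) (F a)) : IsForm (∑ a ∈ s, d a) (∏ a ∈ s, F a) := by
  classical
  induction s using Finset.induction_on with
  | empty => exact isForm_one
  | insert a s ha ih =>
    rw [Finset.sum_insert ha, Finset.prod_insert ha]
    exact (h a (Finset.mem_insert_self a s)).mul (ih fun b hb => h b (Finset.mem_insert_of_mem hb))

theorem isForm_blin (M : ∀ i, Matrix (Fin (n i + 1)) (Fin (n i + 1)) k) (a : Vars n) :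
    IsForm (Finsupp.single a.1 1) (blin M (X : Vars n → MvPolynomial (Vars n) k) a) :=
  IsForm.sum _ fun s _ => (isForm_X ⟨a.1, s⟩).smul _

theorem FormA_tower {R : Type*} [CommRing R] [Algebra k R] (t : ι → R) (v : Vars n → R)
    (f : MvPolynomial (Vars n) k) : aevalTower (aeval v) t (gorb f) = aeval (sc t v) f := by
  have h : (aevalTower (aeval v) t).comp gorb = aeval (R := k) (sc t v) :=
    algHom_ext fun a => by simp [gorb, sc]
  exact DFunLike.congr_fun h f

theorem IsForm.aeval_sc {R : Type*} [CommRing R] [Algebra k R] (hF : IsForm d F) (t : ι → R)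
    (v : Vars n → R) : aeval (sc t v) F = (d.prod fun i r => t i ^ r) * aeval v F := by
  rw [← FormA_tower, hF, monomial_eq, map_mul, aevalTower_C, mul_comm, Finsupp.prod, Finsupp.prod,
    map_prod]
  simp only [map_pow, aevalTower_X]

/-- Substituting forms into a form. -/
theorem IsForm.comp {H : MvPolynomial (Vars m) k} {c : κ →₀ ℕ} (hH : IsForm c H)
    {F : Vars m → MvPolynomial (Vars n) k} {d : κ → ι →₀ ℕ} (hF : ∀ j s, IsForm (d j) (F ⟨j, s⟩)) :
    IsForm (c.sum fun j r => r • d j) (aeval F H) := by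
  have e : (fun s => gorb (F s)) = sc (fun j => monomial (d j) 1) fun s => C (F s) := by
    funext ⟨j, s⟩
    rw [hF j s, sc, mul_comm, C_mul_monomial, mul_one]
  have e' : aeval (fun s => (C (F s) : MvPolynomial ι (MvPolynomial (Vars n) k))) H =
      C (aeval F H) :=
    (comp_aeval_apply F (IsScalarTower.toAlgHom k _ (MvPolynomial ι (MvPolynomial (Vars n) k)))
      H).symm
  rw [IsForm, comp_aeval_apply, e, hH.aeval_sc, e', Finsupp.prod, Finsupp.sum]
  simp only [monomial_pow, one_pow]
  rw [← monomial_sum_one, mul_comm, C_mul_monomial, mul_one]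

theorem FormA_map {α β : Type} (f : α → β) (d : α →₀ ℕ) :
    (d.sum fun j r => r • Finsupp.single (f j) 1) = d.mapDomain f := by
  simp only [Finsupp.smul_single, smul_eq_mul, mul_one]
  rfl

theorem IsForm.rename_L (m : κ → ℕ) (hF : IsForm d F) :
    IsForm (d.mapDomain Sum.inl) (rename (pvL m) F) := by
  rw [← FormA_map, rename_eq_aeval]
  exact hF.comp fun j s => isForm_X (pvL m ⟨j, s⟩)

theorem IsForm.rename_R (m : κ → ℕ) (hF : IsForm d F) :
    IsForm (d.mapDomain Sum.inr) (rename (pvR m) F) := by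
  rw [← FormA_map, rename_eq_aeval]
  exact hF.comp fun j s => isForm_X (pvR m ⟨j, s⟩)

/-- The multihomogeneous component of multidegree `d`. -/
noncomputable def cmp (d : ι →₀ ℕ) (f : MvPolynomial (Vars n) k) : MvPolynomial (Vars n) k :=
  coeff d (gorb f)

theorem isForm_cmp (d : ι →₀ ℕ) (f : MvPolynomial (Vars n) k) : IsForm d (cmp d f) := by
  classical
  induction f using MvPolynomial.induction_on' with
  | monomial u c =>
    have h : IsForm (0 + ∑ a ∈ u.support, u a • Finsupp.single a.1 1)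
        (monomial u c : MvPolynomial (Vars n) k) := by
      rw [monomial_eq]
      exact (isForm_C c).mul (IsForm.prod _ fun a _ => (isForm_X a).pow (u a))
    rw [cmp, h, coeff_monomial]
    split_ifs with e
    · exact e ▸ h
    · exact isForm_zero d
  | add f g hf hg =>
    rw [cmp, map_add, coeff_add]
    exact hf.add hg

theorem sum_cmp (f : MvPolynomial (Vars n) k) : ∑ d ∈ (gorb f).support, cmp d f = f := by
  have h : (aevalTower (AlgHom.id k _) fun _ => 1).comp gorb =
      AlgHom.id k (MvPolynomial (Vars n) k) := algHom_ext fun a => by simp [gorb]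
  have h1 : aevalTower (AlgHom.id k _) (fun _ => 1) (gorb f) = f := DFunLike.congr_fun h f
  rw [(gorb f).as_sum, map_sum] at h1
  refine Eq.trans (Finset.sum_congr rfl fun d _ => ?_) h1
  rw [monomial_eq, map_mul, aevalTower_C, Finsupp.prod, map_prod]
  simp only [map_pow, aevalTower_X, one_pow, Finset.prod_const_one, mul_one]
  rfl

theorem FormA_map_gorb (v : Vars n → Ω) (f : MvPolynomial (Vars n) k) :
    aeval (fun a : Vars n => (X a.1 * C (v a) : MvPolynomial ι Ω)) f =
      map (aeval v : MvPolynomial (Vars n) k →ₐ[k] Ω) (gorb f) := by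
  induction f using MvPolynomial.induction_on with
  | C c => simp [gorb]
  | add f g hf hg => simp only [map_add, hf, hg]
  | mul_X f a hf =>
    rw [map_mul, map_mul, map_mul, hf]
    simp [gorb]

theorem mem_pI_iff {v : Vars n → Ω} {f : MvPolynomial (Vars n) k} :
    f ∈ pI k v ↔ ∀ d, aeval v (cmp d f) = 0 := by
  rw [pI, RingHom.mem_ker, FormA_map_gorb, MvPolynomial.ext_iff]
  simp only [coeff_map, coeff_zero]
  rfl

theorem IsForm.mem_pI (hF : IsForm d F) {v : Vars n → Ω} : F ∈ pI k v ↔ aeval v F = 0 := by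
  rw [pI, RingHom.mem_ker, FormA_map_gorb, hF, map_monomial, monomial_eq_zero]
  rfl

theorem pI_isPrime (v : Vars n → Ω) : (pI k v).IsPrime := RingHom.ker_isPrime _

theorem pI_le_kr (v : Vars n → Ω) : pI k v ≤ kr k v := fun f hf => by
  rw [kr, RingHom.mem_ker, ← sum_cmp f, map_sum]
  exact Finset.sum_eq_zero fun d _ => mem_pI_iff.1 hf d

theorem pI_le_iff {v : Vars n → Ω} {u : Vars n → Ω'} :
    pI k v ≤ pI k u ↔ ∀ d F, IsForm d F → aeval (R := k) v F = 0 → aeval u F = 0 :=
  ⟨fun h _ _ hF h0 => hF.mem_pI.1 (h (hF.mem_pI.2 h0)),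
    fun h f hf => mem_pI_iff.2 fun d => h d _ (isForm_cmp d f) (mem_pI_iff.1 hf d)⟩

theorem pI_le_of_kr_le {v : Vars n → Ω} {u : Vars n → Ω'} (h : kr k v ≤ kr k u) :
    pI k v ≤ pI k u :=
  pI_le_iff.2 fun _ _ _ h0 => h h0

theorem pI_map (φ : Ω →ₐ[k] Ω') (v : Vars n → Ω) : pI k (fun a => φ (v a)) = pI k v := by
  ext f
  simp only [mem_pI_iff, ← comp_aeval_apply, map_eq_zero]

end Pool.Agent.MP_0c8446_ag
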