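import Pool.Agent.MP_0c8446_ag.DL.RlA

namespace Pool.Agent.MP_0c8446_ag

open MvPolynomial Set Matrix

universe u v w

variable {k : Type u} [Field k] {Ω : Type u} [Field Ω] [Algebra k Ω] {n r : ℕ} {uni : Bool} {q : ℕ}
  [PQ k q] {w : Fin r → ℕ} {y : Fin (r + 1) → Equiv.Perm (Fin n)} {h h' : GS r n → Ω}
  {N : Fin n → ℕ} (c : ∀ a : Fin n, Fin (N a + 1) ≃ (Fin (a + 1) → Fin n))

theorem GFrA_rl_dual {b : Fin n → ℕ} {g g' : Matrix (Fin n) (Fin n) Ω} (hg : IsUnit g)
    (hg' : IsUnit g') (z z' : Equiv.Perm (Fin n)) :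
    Rl b (dualM (g.submatrix id z)) (dualM (g'.submatrix id z')) ↔
      ∀ a a', b (z.symm a).rev < b (z'.symm a').rev → (g⁻¹ * g') a a' = 0 := by
  have hA := isUnit_dualM (isUnit_submatrix hg z)
  have hB := isUnit_dualM (isUnit_submatrix hg' z')
  have inj : Function.Injective fun l : Fin n => z' l.rev :=
    z'.injective.comp Fin.rev_injective
  have hinv : (g'⁻¹ᵀ.submatrix id fun l : Fin n => z' l.rev)⁻¹ =
      g'ᵀ.submatrix (fun l : Fin n => z' l.rev) id := by
    apply Matrix.inv_eq_left_inv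
    have e : g'ᵀ.submatrix (fun l : Fin n => z' l.rev) id *
        g'⁻¹ᵀ.submatrix id (fun l : Fin n => z' l.rev) =
        (g'ᵀ * g'⁻¹ᵀ).submatrix (fun l : Fin n => z' l.rev) (fun l : Fin n => z' l.rev) := rfl
    rw [e, ← transpose_mul, Matrix.nonsing_inv_mul _ ((Matrix.isUnit_iff_isUnit_det g').1 hg'),
      transpose_one, Matrix.submatrix_one _ inj]
  have key : ∀ i j, ((dualM (g'.submatrix id z'))⁻¹ * dualM (g.submatrix id z)) i j =
      (g⁻¹ * g') (z j.rev) (z' i.rev) := by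
    intro i j
    rw [dualM_submatrix hg', dualM_submatrix hg, hinv]
    simp [Matrix.mul_apply, mul_comm]
  refine (show _ ↔ Rl b (dualM (g'.submatrix id z')) (dualM (g.submatrix id z)) from
    ⟨fun H => H.symm hA hB, fun H => H.symm hB hA⟩).trans ?_
  constructor
  · intro H a a' hlt
    have := H hlt
    rwa [key, Fin.rev_rev, Fin.rev_rev, Equiv.apply_symm_apply, Equiv.apply_symm_apply] at this
  · intro H i j hlt
    rw [key]
    apply H
    simpa using hlt

theorem GFrA_frob_dual [PQ Ω q] {g : Matrix (Fin n) (Fin n) Ω} (hg : IsUnit g)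
    (z : Equiv.Perm (Fin n)) :
    frobFlag uni q (dualM (g.submatrix id z)) = dualM ((frobFlag uni q g).submatrix id
      ⇑(if uni then Fin.revPerm * z * Fin.revPerm else z : Equiv.Perm (Fin n))) := by
  have hz := isUnit_submatrix hg z
  have hG : IsUnit (g.map (frobHom Ω q)) := hg.map (frobHom Ω q).mapMatrix
  have e : (dualM (g.submatrix id z)).map (frobHom Ω q) =
      dualM ((g.map (frobHom Ω q)).submatrix id z) := dualM_map (frobHom Ω q) hz
  cases uni
  · exact e
  · change dualM ((dualM (g.submatrix id z)).map (frobHom Ω q)) =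
      dualM ((dualM (g.map (frobHom Ω q))).submatrix id
        ⇑(Fin.revPerm * z * Fin.revPerm : Equiv.Perm (Fin n)))
    rw [e, dualM_dualM (isUnit_submatrix hG z), dualM_submatrix (isUnit_dualM hG)]
    conv_lhs => rw [← dualM_dualM hG]
    ext a b
    simp [dualM]

theorem mI_eq (h1 : ∀ j, mM h j * mI h j = 1) (j : Fin (r + 1)) :
    IsUnit (mM h j) ∧ mI h j = (mM h j)⁻¹ :=
  ⟨(Matrix.isUnit_iff_isUnit_det _).2 (Matrix.isUnit_det_of_right_inverse (h1 j)),
    (Matrix.inv_eq_right_inv (h1 j)).symm⟩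

theorem nxM_castSucc {R : Type*} [CommRing R] (h : GS r n → R) (j : Fin r) :
    nxM uni q h j.castSucc = mM h j.succ := by
  simp only [nxM, Fin.lastCases_castSucc]

theorem nxM_last [PQ Ω q] (h1 : ∀ j, mM h j * mI h j = 1) :
    nxM uni q h (Fin.last r) = frobFlag uni q (mM h 0) := by
  simp only [nxM, Fin.lastCases_last, frobFlag]
  cases uni
  · rfl
  · have e : ((mM h 0).map (frobHom Ω q))⁻¹ = (mM h 0)⁻¹.map (frobHom Ω q) :=
      map_inv_of_isUnit _ (mI_eq h1 0).1
    change ((mI h 0).map (frobHom Ω q))ᵀ.submatrix id Fin.rev =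
      ((mM h 0).map (frobHom Ω q))⁻¹ᵀ.submatrix id Fin.rev
    rw [e, (mI_eq h1 0).2]

theorem secM_eq (h1 : ∀ j, mM h j * mI h j = 1) (j : Fin (r + 1)) :
    IsUnit (secM y h j) ∧ dualM (secM y h j) = (mM h j).submatrix id (y j) ∧
      secM y h j = dualM ((mM h j).submatrix id (y j)) := by
  have hu := (mI_eq h1 j).1
  have e : secM y h j = dualM ((mM h j).submatrix id (y j)) := by
    rw [dualM_submatrix hu, secM, (mI_eq h1 j).2]
  refine ⟨?_, ?_, e⟩
  · rw [e]; exact isUnit_dualM (isUnit_submatrix hu _)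
  · rw [e, dualM_dualM (isUnit_submatrix hu _)]

theorem secM_glAct {R : Type*} [CommRing R] [Algebra k R] (γ : GL (Fin n) k) (h : GS r n → R)
    (j : Fin (r + 1)) :
    secM y (glAct γ h) j = (γ.1⁻¹ᵀ).map (algebraMap k R) * secM y h j := by
  rw [secM, secM, glAct, mI_mkF, transpose_mul, coe_units_inv, transpose_map]
  rfl

theorem GFrA_chain_iff [PQ Ω q] (h1 : ∀ j, mM h j * mI h j = 1) :
    (∀ j a b, blJ n w j b < blJ n w j a → ddM uni q h j a b = 0) ↔ IsChain' uni q w (mM h) := by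
  rw [Fin.forall_fin_succ', IsChain', and_iff_right fun j => (mI_eq h1 j).1]
  refine and_congr (forall_congr' fun j => ?_) ?_
  · simp only [blJ, Fin.lastCases_castSucc, ddM, nxM_castSucc, (mI_eq h1 _).2]
    exact ⟨fun H _ _ hl => H _ _ hl, fun H _ _ hl => H hl⟩
  · simp only [blJ, Fin.lastCases_last, ddM, nxM_last h1, (mI_eq h1 _).2]
    exact ⟨fun H _ _ hl => H _ _ hl, fun H _ _ hl => H hl⟩

theorem GFrA_sec_iff [PQ Ω q] (h1 : ∀ j, mM h j * mI h j = 1) :
    (∀ j a b, blJ n w j ((y j).symm a).rev < blJ n w j ((nxY uni y j).symm b).rev →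
      ddM uni q h j a b = 0) ↔ IsChain' uni q w (secM y h) := by
  rw [Fin.forall_fin_succ', IsChain', and_iff_right fun j => (secM_eq h1 j).1]
  refine and_congr (forall_congr' fun j => ?_) ?_
  · rw [(secM_eq h1 _).2.2, (secM_eq h1 _).2.2, GFrA_rl_dual (mI_eq h1 _).1 (mI_eq h1 _).1]
    simp only [blJ, nxY, Fin.lastCases_castSucc, ddM, nxM_castSucc, (mI_eq h1 _).2]
  · rw [(secM_eq h1 _).2.2, (secM_eq h1 _).2.2, GFrA_frob_dual (mI_eq h1 _).1,
      GFrA_rl_dual (mI_eq h1 _).1 (isUnit_frobFlag (mI_eq h1 _).1)]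
    simp only [blJ, nxY, Fin.lastCases_last, ddM, nxM_last h1, (mI_eq h1 _).2]

/-- Frames of chains. -/
theorem fr_chain_iff : (glFr k uni q fun j a b => blJ n w j b < blJ n w j a).Fr h ↔
    (∀ j, mM h j * mI h j = 1) ∧ IsChain' uni q w (mM h) := by
  have := PQ.ext k q Ω
  rw [glFr_iff]
  exact and_congr_right fun h1 => GFrA_chain_iff h1

/-- Frames of pairs of chains in relative position `y`. -/
theorem frY_iff : (glFr k uni q (zY uni w y)).Fr h ↔
    (∀ j, mM h j * mI h j = 1) ∧ IsChain' uni q w (mM h) ∧ IsChain' uni q w (secM y h) := by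
  have := PQ.ext k q Ω
  rw [glFr_iff]
  refine and_congr_right fun h1 => ?_
  rw [← GFrA_chain_iff h1, ← GFrA_sec_iff h1]
  simp only [zY, or_imp, forall_and]

end Pool.Agent.MP_0c8446_ag
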