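import Pool.Agent.MP_0c8446_ag.DL.PDefs

namespace Pool.Agent.MP_0c8446_ag

open MvPolynomial Set Matrix

universe u v w

/-- `q` is a power `p ^ f`, `f > 0`, of the characteristic. -/
class PQ (k : Type u) [Field k] (q : ℕ) : Prop where
  ex : ∃ p f : ℕ, p.Prime ∧ CharP k p ∧ 0 < f ∧ q = p ^ f

lemma PQ.ext (k : Type u) [Field k] (q : ℕ) [h : PQ k q] (Ω : Type u) [Field Ω] [Algebra k Ω] :
    PQ Ω q := by
  obtain ⟨p, f, hp, hc, hf, e⟩ := h.ex
  exact ⟨p, f, hp, charP_of_injective_algebraMap (algebraMap k Ω).injective p, hf, e⟩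

instance PQ.isQ (k : Type u) [Field k] (q : ℕ) [h : PQ k q] : IsQ k q := by
  obtain ⟨p, f, hp, hc, hf, rfl⟩ := h.ex
  have : Fact p.Prime := ⟨hp⟩
  have := isQ_prime k p
  exact isQ_pow k p hf

variable {k : Type u} [Field k] {n : ℕ}

/-- The action of a matrix on the `c`-th tensor power. -/
def tpH (k : Type u) [Field k] (n c : ℕ) :
    Matrix (Fin n) (Fin n) k →* Matrix (Fin c → Fin n) (Fin c → Fin n) k where
  toFun g := Matrix.of fun α β => ∏ l, g (α l) (β l)
  map_one' := by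
    ext α β
    simp only [of_apply, Matrix.one_apply, Finset.prod_ite_zero, Finset.mem_univ, forall_const,
      Finset.prod_const_one, funext_iff]
  map_mul' g h := by
    ext α β
    simp only [of_apply, Matrix.mul_apply, Finset.prod_univ_sum, Fintype.piFinset_univ,
      Finset.prod_mul_distrib]

lemma tpH_apply {c : ℕ} (g : Matrix (Fin n) (Fin n) k) (α β : Fin c → Fin n) :
    tpH k n c g α β = ∏ l, g (α l) (β l) := rfl

/-- `g` and `g'` define the same flag of type `b`. -/
def Rl (b : Fin n → ℕ) (g g' : Matrix (Fin n) (Fin n) k) : Prop := (g⁻¹ * g').BlockTriangular b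

/-- The dual basis in reverse order. -/
noncomputable def dualM (g : Matrix (Fin n) (Fin n) k) : Matrix (Fin n) (Fin n) k :=
  g⁻¹ᵀ.submatrix id Fin.rev

/-- The span of the first `a` columns. -/
def flg (g : Matrix (Fin n) (Fin n) k) (a : ℕ) : Submodule k (Fin n → k) :=
  Submodule.span k ((fun b i => g i b) '' {b : Fin n | (b : ℕ) < a})

/-- The dimension of the intersection for two flags in relative position `y`. -/
def dy (y : Equiv.Perm (Fin n)) (a b : ℕ) : ℕ :=
  (Finset.univ.filter fun l : Fin n => (l : ℕ) < a ∧ (y.symm l : ℕ) < b).card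

/-- Inverse transpose. -/
noncomputable def thH (k : Type u) [Field k] (n : ℕ) :
    Matrix (Fin n) (Fin n) k →* Matrix (Fin n) (Fin n) k where
  toFun g := g⁻¹ᵀ
  map_one' := by simp
  map_mul' g h := by rw [Matrix.mul_inv_rev, transpose_mul]

/-- The Frobenius map of `GL_n(q)` or `U_n(q)`. -/
noncomputable def frH (k : Type u) [Field k] (n : ℕ) (uni : Bool) (q : ℕ) [PQ k q] :
    Matrix (Fin n) (Fin n) k →* Matrix (Fin n) (Fin n) k :=
  if uni then (thH k n).comp (frobHom k q).mapMatrix.toMonoidHom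
  else (frobHom k q).mapMatrix.toMonoidHom

lemma frH_apply (uni : Bool) (q : ℕ) [PQ k q] (g : Matrix (Fin n) (Fin n) k) :
    frH k n uni q g = if uni then (g.map (· ^ q))⁻¹ᵀ else g.map (· ^ q) := by
  cases uni <;> rfl

/-- The finite group `GL_n(q)` or `U_n(q)`. -/
noncomputable def fixG (k : Type u) [Field k] (n : ℕ) (uni : Bool) (q : ℕ) [PQ k q] :
    Subgroup (GL (Fin n) k) :=
  MonoidHom.eqLocus (Units.map (frH k n uni q)) (MonoidHom.id _)

lemma mem_fixG {uni : Bool} {q : ℕ} [PQ k q] {g : GL (Fin n) k} :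
    g ∈ fixG k n uni q ↔ frH k n uni q g.1 = g.1 := Units.ext_iff

/-- The standard representation. -/
noncomputable def stdR (k : Type u) [Field k] (n : ℕ) (uni : Bool) (q : ℕ) [PQ k q] :
    fixG k n uni q →* Matrix (Fin n) (Fin n) k :=
  (Units.coeHom _).comp (fixG k n uni q).subtype

lemma map_inv_of_isUnit {Ω : Type u} [Field Ω] (φ : k →+* Ω) {g : Matrix (Fin n) (Fin n) k}
    (hg : IsUnit g) : (g.map φ)⁻¹ = g⁻¹.map φ :=
  Matrix.inv_eq_left_inv (by
    rw [← Matrix.map_mul, Matrix.nonsing_inv_mul _ ((Matrix.isUnit_iff_isUnit_det g).1 hg),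
      Matrix.map_one _ (map_zero φ) (map_one φ)])

lemma frH_thH (uni : Bool) (q : ℕ) [PQ k q] {g : Matrix (Fin n) (Fin n) k} (hg : IsUnit g) :
    frH k n uni q (thH k n g) = thH k n (frH k n uni q g) := by
  have h : (frobHom k q).mapMatrix (thH k n g) = thH k n ((frobHom k q).mapMatrix g) := by
    change g⁻¹ᵀ.map (frobHom k q) = (g.map (frobHom k q))⁻¹ᵀ
    rw [map_inv_of_isUnit _ hg, transpose_map]
  cases uni
  · exact h
  · exact congrArg (thH k n) h

/-- Inverse transpose as an endomorphism of the finite group. -/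
noncomputable def thG (k : Type u) [Field k] (n : ℕ) (uni : Bool) (q : ℕ) [PQ k q] :
    fixG k n uni q →* fixG k n uni q :=
  ((Units.map (thH k n)).comp (fixG k n uni q).subtype).codRestrict _ fun g => mem_fixG.2 (by
    change frH k n uni q (thH k n g.1.1) = thH k n g.1.1
    rw [frH_thH uni q g.1.isUnit, mem_fixG.1 g.2])

lemma stdR_thG (uni : Bool) (q : ℕ) [PQ k q] (g : fixG k n uni q) :
    stdR k n uni q (thG k n uni q g) = (stdR k n uni q g)⁻¹ᵀ := rfl

section frames

variable {r : ℕ} {R : Type*}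

/-- The coordinates of `r + 1` matrices and their inverses. -/
abbrev GS (r n : ℕ) : Type := Fin (r + 1) × Bool × Fin n × Fin n

/-- The `j`-th matrix. -/
def mM (h : GS r n → R) (j : Fin (r + 1)) : Matrix (Fin n) (Fin n) R :=
  Matrix.of fun a b => h (j, false, a, b)

/-- The `j`-th inverse matrix. -/
def mI (h : GS r n → R) (j : Fin (r + 1)) : Matrix (Fin n) (Fin n) R :=
  Matrix.of fun a b => h (j, true, a, b)

/-- The tuple with given matrices. -/
def mkF (g g' : Fin (r + 1) → Matrix (Fin n) (Fin n) R) : GS r n → R :=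
  fun s => if s.2.1 then g' s.1 s.2.2.1 s.2.2.2 else g s.1 s.2.2.1 s.2.2.2

@[simp] lemma mM_mkF (g g' : Fin (r + 1) → Matrix (Fin n) (Fin n) R) (j : Fin (r + 1)) :
    mM (mkF g g') j = g j := rfl

@[simp] lemma mI_mkF (g g' : Fin (r + 1) → Matrix (Fin n) (Fin n) R) (j : Fin (r + 1)) :
    mI (mkF g g') j = g' j := rfl

lemma mkF_eta (h : GS r n → R) : mkF (mM h) (mI h) = h := by
  funext ⟨j, b, s⟩
  cases b <;> rfl

variable [CommRing R]

/-- The next matrix in the cyclic chain. -/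
def nxM (uni : Bool) (q : ℕ) (h : GS r n → R) (j : Fin (r + 1)) : Matrix (Fin n) (Fin n) R :=
  Fin.lastCases (motive := fun _ => Matrix (Fin n) (Fin n) R)
    (if uni then ((mI h 0).map (· ^ q))ᵀ.submatrix id Fin.rev else (mM h 0).map (· ^ q))
    (fun j => mM h j.succ) j

/-- The transition matrices. -/
def ddM (uni : Bool) (q : ℕ) (h : GS r n → R) (j : Fin (r + 1)) : Matrix (Fin n) (Fin n) R :=
  mI h j * nxM uni q h j

lemma nxM_map {R' F : Type*} [CommRing R'] [FunLike F R R'] [RingHomClass F R R'] (φ : F)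
    (uni : Bool) (q : ℕ) (h : GS r n → R) (j : Fin (r + 1)) :
    (nxM uni q h j).map φ = nxM uni q (fun s => φ (h s)) j := by
  refine Fin.lastCases ?_ (fun j => ?_) j
  · simp only [nxM, Fin.lastCases_last]
    cases uni <;> ext a b <;> simp [mM, mI]
  · simp only [nxM, Fin.lastCases_castSucc]
    rfl

lemma ddM_map {R' F : Type*} [CommRing R'] [FunLike F R R'] [RingHomClass F R R'] (φ : F)
    (uni : Bool) (q : ℕ) (h : GS r n → R) (j : Fin (r + 1)) :
    (ddM uni q h j).map φ = ddM uni q (fun s => φ (h s)) j := by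
  rw [ddM, ddM, ← nxM_map]
  ext a b
  simp [Matrix.mul_apply, mI]

/-- The equations of frames with transition matrices vanishing at the positions `Z`. -/
def glE (k : Type u) [Field k] (uni : Bool) (q : ℕ) (Z : Fin (r + 1) → Fin n → Fin n → Prop) :
    Set (MvPolynomial (GS r n) k) :=
  {e | ∃ j a b, e = (mM X j * mI X j - 1 : Matrix (Fin n) (Fin n) (MvPolynomial (GS r n) k)) a b} ∪
    {e | ∃ j a b, Z j a b ∧ e = ddM uni q X j a b}

lemma glE_iff {Ω : Type*} [CommRing Ω] [Algebra k Ω] (uni : Bool) (q : ℕ)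
    (Z : Fin (r + 1) → Fin n → Fin n → Prop) (h : GS r n → Ω) :
    (∀ e ∈ glE k uni q Z, aeval h e = 0) ↔
      (∀ j, mM h j * mI h j = 1) ∧ ∀ j a b, Z j a b → ddM uni q h j a b = 0 := by
  have h1 : ∀ j a b, aeval h ((mM X j * mI X j - 1 :
      Matrix (Fin n) (Fin n) (MvPolynomial (GS r n) k)) a b) = (mM h j * mI h j - 1) a b := by
    intro j a b
    by_cases e : a = b <;> simp [Matrix.mul_apply, mM, mI, Matrix.one_apply, e]
  have h2 : ∀ j a b, aeval (R := k) h (ddM uni q X j a b) = ddM uni q h j a b := fun j a b => by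
    have := congrFun (congrFun (ddM_map (aeval (R := k) h) uni q X j) a) b
    simpa using this
  constructor
  · refine fun H => ⟨fun j => sub_eq_zero.1 (Matrix.ext fun a b => ?_), fun j a b hz => ?_⟩
    · rw [← h1]; exact H _ (Or.inl ⟨j, a, b, rfl⟩)
    · rw [← h2]; exact H _ (Or.inr ⟨j, a, b, hz, rfl⟩)
  · rintro ⟨H1, H2⟩ e (⟨j, a, b, rfl⟩ | ⟨j, a, b, hz, rfl⟩)
    · rw [h1, H1]; simp
    · rw [h2, H2 j a b hz]

/-- Left multiplication of a tuple by an invertible matrix. -/
def glAct [Algebra k R] (γ : GL (Fin n) k) (h : GS r n → R) : GS r n → R :=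
  mkF (fun j => γ.1.map (algebraMap k R) * mM h j) fun j => mI h j * γ⁻¹.1.map (algebraMap k R)

lemma evs_glAct [Algebra k R] (γ : GL (Fin n) k) (h : GS r n → R) :
    evs h (glAct γ (X : GS r n → MvPolynomial (GS r n) k)) = glAct γ h := by
  funext ⟨j, b, s⟩
  cases b <;> simp [evs, glAct, mkF, Matrix.mul_apply, mM, mI]

lemma nxM_glAct {Ω : Type u} [Field Ω] [Algebra k Ω] {uni : Bool} {q : ℕ} [PQ k q]
    (γ : fixG k n uni q) (h : GS r n → Ω) (j : Fin (r + 1)) :
    nxM uni q (glAct γ.1 h) j = γ.1.1.map (algebraMap k Ω) * nxM uni q h j := by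
  have := PQ.ext k q Ω
  have hγ := mem_fixG.1 γ.2
  rw [frH_apply] at hγ
  have e : ∀ g : Matrix (Fin n) (Fin n) k, (g.map (algebraMap k Ω)).map (frobHom Ω q) =
      (g.map (· ^ q)).map (algebraMap k Ω) := fun g => by
    ext a b; simp
  refine Fin.lastCases ?_ (fun j => ?_) j
  · simp only [nxM, Fin.lastCases_last, glAct, mM_mkF, mI_mkF]
    cases uni
    · change (_ * _ : Matrix (Fin n) (Fin n) Ω).map (frobHom Ω q) = _
      rw [Matrix.map_mul, e]
      exact congrArg (fun g : Matrix (Fin n) (Fin n) k => g.map (algebraMap k Ω) * _) hγ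
    · change ((_ * _ : Matrix (Fin n) (Fin n) Ω).map (frobHom Ω q))ᵀ.submatrix id Fin.rev = _
      have h3 : ((γ.1⁻¹.1).map (· ^ q))ᵀ = γ.1.1 := by
        have h4 : (γ.1.1.map (frobHom k q))⁻¹ᵀ = γ.1.1 := hγ
        rw [map_inv_of_isUnit _ γ.1.isUnit] at h4
        rw [coe_units_inv]
        exact h4
      rw [Matrix.map_mul, e, transpose_mul, ← transpose_map, h3]
      rfl
  · simp only [nxM, Fin.lastCases_castSucc, glAct, mM_mkF]

lemma ddM_glAct {Ω : Type u} [Field Ω] [Algebra k Ω] {uni : Bool} {q : ℕ} [PQ k q]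
    (γ : fixG k n uni q) (h : GS r n → Ω) (j : Fin (r + 1)) :
    ddM uni q (glAct γ.1 h) j = ddM uni q h j := by
  rw [ddM, nxM_glAct, glAct, mI_mkF, mul_assoc, ← mul_assoc (Matrix.map _ _), ← Matrix.map_mul,
    Units.inv_mul, Matrix.map_one _ (map_zero _) (map_one _), one_mul, ddM]

/-- Frames with transition matrices vanishing at the positions `Z`. -/
noncomputable def glFr (k : Type u) [Field k] (uni : Bool) (q : ℕ) [PQ k q]
    (Z : Fin (r + 1) → Fin n → Fin n → Prop) : FrD k (fixG k n uni q) where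
  σ := GS r n
  E := glE k uni q Z
  act γ := glAct γ.1 X
  stab γ Ω _ _ h H := by
    rw [evs_glAct, glE_iff] at *
    refine ⟨fun j => ?_, fun j a b hz => by rw [ddM_glAct, H.2 j a b hz]⟩
    rw [glAct, mM_mkF, mI_mkF, mul_assoc, ← mul_assoc (mM h j), H.1, one_mul, ← Matrix.map_mul,
      Units.mul_inv, Matrix.map_one _ (map_zero _) (map_one _)]

lemma glFr_iff {Ω : Type u} [Field Ω] [Algebra k Ω] {uni : Bool} {q : ℕ} [PQ k q]
    {Z : Fin (r + 1) → Fin n → Fin n → Prop} {h : GS r n → Ω} :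
    (glFr k uni q Z).Fr h ↔
      (∀ j, mM h j * mI h j = 1) ∧ ∀ j a b, Z j a b → ddM uni q h j a b = 0 :=
  glE_iff uni q Z h

/-- The block structure of the `j`-th transition. -/
def blJ (n : ℕ) (w : Fin r → ℕ) (j : Fin (r + 1)) : Fin n → ℕ :=
  Fin.lastCases (motive := fun _ => Fin n → ℕ) Fin.val (fun j => blk n (w j)) j

/-- The relative position at the next step of the cyclic chain. -/
def nxY (uni : Bool) (y : Fin (r + 1) → Equiv.Perm (Fin n)) (j : Fin (r + 1)) :
    Equiv.Perm (Fin n) :=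
  Fin.lastCases (motive := fun _ => Equiv.Perm (Fin n))
    (if uni then Fin.revPerm * y 0 * Fin.revPerm else y 0) (fun j => y j.succ) j

/-- The positions at which the transition matrices vanish on the stratum `y`. -/
def zY (uni : Bool) (w : Fin r → ℕ) (y : Fin (r + 1) → Equiv.Perm (Fin n)) (j : Fin (r + 1))
    (a b : Fin n) : Prop :=
  blJ n w j b < blJ n w j a ∨
    blJ n w j ((y j).symm a).rev < blJ n w j ((nxY uni y j).symm b).rev

/-- The frame of the second flag. -/
def secM (y : Fin (r + 1) → Equiv.Perm (Fin n)) (h : GS r n → R) (j : Fin (r + 1)) :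
    Matrix (Fin n) (Fin n) R :=
  (mI h j)ᵀ.submatrix id fun b => y j b.rev

end frames

/-- A cyclic chain of flags. -/
def IsChain' (uni : Bool) (q : ℕ) {r : ℕ} (w : Fin r → ℕ)
    (g : Fin (r + 1) → Matrix (Fin n) (Fin n) k) : Prop :=
  (∀ j, IsUnit (g j)) ∧ (∀ j : Fin r, Rl (blk n (w j)) (g j.castSucc) (g j.succ)) ∧
    Rl Fin.val (g (Fin.last r)) (frobFlag uni q (g 0))

/-- The Plücker coordinates of a tuple of flags. -/
def plV {R : Type u} [CommRing R] {r : ℕ} {N : Fin n → ℕ}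
    (c : ∀ a : Fin n, Fin (N a + 1) ≃ (Fin (a + 1) → Fin n))
    (g : Fin (r + 1) → Matrix (Fin n) (Fin n) R) :
    (Vars fun i : Fin (r + 1) × Fin n => N i.2) → R :=
  fun s => pl (cols (g s.1.1) s.1.2) (c s.1.2 s.2)

/-- The Plücker coordinates of the pair of chains given by a frame on the stratum `y`. -/
def ptY {R : Type u} [CommRing R] {r : ℕ} {N : Fin n → ℕ}
    (c : ∀ a : Fin n, Fin (N a + 1) ≃ (Fin (a + 1) → Fin n))
    (y : Fin (r + 1) → Equiv.Perm (Fin n)) (h : GS r n → R) :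
    Vars (Sum.elim (fun i : Fin (r + 1) × Fin n => N i.2) fun i : Fin (r + 1) × Fin n => N i.2) →
      R :=
  pvJoin (plV c (mM h)) (plV c (secM y h))

/-- The action on the Plücker coordinates. -/
noncomputable def plR (k : Type u) [Field k] {N : Fin n → ℕ}
    (c : ∀ a : Fin n, Fin (N a + 1) ≃ (Fin (a + 1) → Fin n)) (a : Fin n) :
    Matrix (Fin n) (Fin n) k →* Matrix (Fin (N a + 1)) (Fin (N a + 1)) k :=
  (Matrix.reindexAlgEquiv k k (c a).symm).toMonoidHom.comp (tpH k n (a + 1))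

lemma plR_apply {N : Fin n → ℕ} (c : ∀ a : Fin n, Fin (N a + 1) ≃ (Fin (a + 1) → Fin n))
    (a : Fin n) (g : Matrix (Fin n) (Fin n) k) (s t : Fin (N a + 1)) :
    plR k c a g s t = tpH k n (a + 1) g (c a s) (c a t) := rfl

end Pool.Agent.MP_0c8446_ag
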