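import Pool.Agent.MP_0c8446_ag.DL.RelW

namespace Pool.Agent.MP_0c8446_ag

open MvPolynomial Set

universe u v w

section HypWtop

variable {A B : Type u} [TopologicalSpace A] [TopologicalSpace B] {f : A → B} {g : B → A}

lemma HypW_pre (h : Retr f g) {D : Set B} (hD : IsSub D) (hr : D ⊆ range f) :
    IsSub (f ⁻¹' D) := by
  refine ⟨?_, hD.2.preimage h.cf⟩
  have e : f ⁻¹' D = g '' D := by
    ext x
    constructor
    · exact fun hx => ⟨_, hx, h.inv x⟩
    · rintro ⟨y, hy, rfl⟩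
      obtain ⟨x, rfl⟩ := hr hy
      rw [h.inv x]
      exact hy
  rw [e]
  exact hD.1.image g h.cg.continuousOn

lemma HypW_comp_pre (h : Retr f g) {S : Set A} {D : Set B} (hD : IsComp D (f '' S)) :
    IsComp (f ⁻¹' D) S := by
  have hr : D ⊆ range f := hD.1.2.trans (image_subset_range _ _)
  refine ⟨⟨HypW_pre h hD.1.1 hr, fun x hx => ?_⟩, fun C hC hle => ?_⟩
  · obtain ⟨y, hy, e⟩ := hD.1.2 hx
    rwa [← h.inv.injective e]
  · have h1 : D ⊆ f '' C := by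
      rw [← image_preimage_eq_of_subset hr]
      exact image_mono hle
    have h2 := hD.2 (y := f '' C) ⟨h.isSub hC.1, image_mono hC.2⟩ h1
    exact fun x hx => h2 (mem_image_of_mem f hx)

lemma HypW_comp_img (h : Retr f g) {S C : Set A} (hC : IsComp C S) :
    IsComp (f '' C) (f '' S) := by
  refine ⟨⟨h.isSub hC.1.1, image_mono hC.1.2⟩, fun D hD hle => ?_⟩
  have hr : D ⊆ range f := hD.2.trans (image_subset_range _ _)
  have h1 := hC.2 (y := f ⁻¹' D) ⟨HypW_pre h hD.1 hr, fun x hx => by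
    obtain ⟨y, hy, e⟩ := hD.2 hx
    rwa [← h.inv.injective e]⟩ fun x hx => hle (mem_image_of_mem f hx)
  intro y hy
  obtain ⟨x, rfl⟩ := hr hy
  exact mem_image_of_mem f (h1 hy)

end HypWtop

variable {k : Type u} [Field k] [IsAlgClosed k] {K : Type v} [Field K] [CharZero K]
  (W : Weil.{u, v, w} k K) {Γ : Type u} [Group Γ]

/-- Pulling back a hypersurface that does not contain the image. -/
theorem Weil.cutAt_pull {X Y : Var k} (f : Mor X Y) {H : Set Y.pts} (hH : IsSub H)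
    (hd : dim H + 1 = Y.d) {V : Set X.pts} (hV : IsSub V) (h : ¬ V ⊆ f.1 ⁻¹' H) :
    W.CutAt (W.pull f (W.cl Y H)) V (f.1 ⁻¹' H) := by
  classical
  obtain ⟨P, p, q, hP⟩ := exists_prod X Y
  obtain ⟨g, hg1, hg2⟩ : ∃ g : Mor X P, (∀ x, p.1 (g.1 x) = x) ∧ ∀ x, q.1 (g.1 x) = f.1 x :=
    ⟨hP.lift (Mor.id X) f, fun x => by simp, fun x => by simp⟩
  have hr : Retr g.1 p.1 := Mor.retr _ p hg1
  have hG := hr.isSub hV
  have hGd := hr.dim_image V
  have hH' := hP.isSub X.isSub_univ hH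
  have hH'd := W.dim_isProd hP X.isSub_univ hH
  have hPd := W.d_prod hP
  have hXd : dim (univ : Set X.pts) = X.d := rfl
  have hcl := W.cl_prod p q hP _ _ X.isSub_univ hH
  rw [W.cl_univ, map_one, one_mul] at hcl
  have hint : g.1 '' V ∩ (p.1 ⁻¹' univ ∩ q.1 ⁻¹' H) = g.1 '' (V ∩ f.1 ⁻¹' H) := by
    ext y
    constructor
    · rintro ⟨⟨x, hx, rfl⟩, -, h2⟩
      exact ⟨x, ⟨hx, by rwa [mem_preimage, hg2] at h2⟩, rfl⟩
    · rintro ⟨x, ⟨hx, h2⟩, rfl⟩
      exact ⟨⟨x, hx, rfl⟩, mem_univ _, by rwa [mem_preimage, hg2]⟩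
  have hn : ¬ g.1 '' V ⊆ p.1 ⁻¹' univ ∩ q.1 ⁻¹' H := fun h1 => h fun x hx => by
    have := (h1 (mem_image_of_mem _ hx)).2
    rwa [mem_preimage, hg2] at this
  have hprop : ∀ C, IsSub C → C ⊆ g.1 '' V ∩ (p.1 ⁻¹' univ ∩ q.1 ⁻¹' H) →
      dim C + P.d ≤ dim (g.1 '' V) + dim (p.1 ⁻¹' univ ∩ q.1 ⁻¹' H) := fun C hC hs =>
    (geoGen_hyp (by omega) hG hn C hC hs).2
  obtain ⟨s, μ, h3, h4, -, h5⟩ := W.proper _ _ _ hG hH' hprop
  have h6 : ∀ D ∈ s, g.1 '' (g.1 ⁻¹' D) = D := fun D hD =>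
    image_preimage_eq_of_subset
      ((((h3 D).1 hD).1.2.trans inter_subset_left).trans (image_subset_range _ _))
  have h7 : ∀ D ∈ s, IsComp (g.1 ⁻¹' D) (V ∩ f.1 ⁻¹' H) := fun D hD =>
    HypW_comp_pre hr (hint ▸ (h3 D).1 hD)
  refine ⟨1, s.image fun D => g.1 ⁻¹' D, fun C => μ (g.1 '' C), one_pos, fun C => ?_,
    fun C hC => ?_, ?_⟩
  · rw [Finset.mem_image]
    constructor
    · rintro ⟨D, hD, rfl⟩
      exact h7 D hD
    · exact fun hC => ⟨g.1 '' C, (h3 _).2 (hint ▸ HypW_comp_img hr hC),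
        preimage_image_eq _ hr.inv.injective⟩
  · obtain ⟨D, hD, rfl⟩ := Finset.mem_image.1 hC
    have h8 := W.proper_dim' hG hH' hprop ((h3 D).1 hD)
    have h9 := hr.dim_image (g.1 ⁻¹' D)
    rw [h6 D hD] at h9
    refine ⟨?_, by omega⟩
    simp only [h6 D hD]
    exact h4 D hD
  · rw [Finset.sum_image fun D hD D' hD' e => by rw [← h6 D hD, ← h6 D' hD', e], one_smul]
    refine sub_eq_zero.1 (W.poincare X _ fun b => ?_)
    have hb : W.pull g (W.pull p b) = b := by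
      rw [W.pull_pull]
      exact W.pull_id _ (funext hg1) b
    have hq : W.pull g (W.pull q (W.cl Y H)) = W.pull f (W.cl Y H) := by
      rw [W.pull_pull]
      exact W.pull_congr hg2 _
    rw [sub_mul, map_sub, sub_eq_zero, mul_assoc, ← hq, ← hcl]
    conv_lhs => rw [← hb, ← map_mul, W.push_retr g p hg1 hV, ← mul_assoc, h5]
    rw [Finset.sum_mul, Finset.sum_mul, map_sum, map_sum]
    refine Finset.sum_congr rfl fun D hD => ?_
    beta_reduce
    rw [smul_mul_assoc, smul_mul_assoc, map_nsmul, map_nsmul, h6 D hD]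
    conv_rhs => rw [← hb, W.push_retr g p hg1 (h7 D hD).1.1, h6 D hD]

omit [IsAlgClosed k] [CharZero K] in
lemma HypW_scale {X : Var k} {η η' : W.H X} {a b : ℕ} (ha : 0 < a) (hb : 0 < b)
    (e : a • η' = b • η) {V H : Set X.pts} (h : W.CutAt η' V H) : W.CutAt η V H := by
  obtain ⟨c, s, μ, hc, h1, h2, h3⟩ := h
  refine ⟨c * b, s, fun C => a * μ C, Nat.mul_pos hc hb, h1,
    fun C hC => ⟨Nat.mul_pos ha (h2 C hC).1, (h2 C hC).2⟩, ?_⟩
  rw [mul_smul, ← mul_smul_comm b, ← e, mul_smul_comm a, smul_comm, h3, Finset.smul_sum]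
  simp only [mul_smul]

omit [IsAlgClosed k] in
lemma HypW_form {N : ℕ} (c : Fin (N + 1) → k) : IsForm (Finsupp.single () 1)
    (∑ s, c s • (X ⟨(), s⟩ : MvPolynomial (Vars fun _ : Unit => N) k)) :=
  IsForm.sum _ fun s _ => (isForm_X (⟨(), s⟩ : Vars fun _ : Unit => N)).smul _

lemma HypW_sub {N : ℕ} {c : Fin (N + 2) → k} (hc : c ≠ 0) :
    IsSub (Subtype.val ⁻¹' hyp () c : Set (PN k (N + 1)).pts) ∧
      dim (Subtype.val ⁻¹' hyp () c : Set (PN k (N + 1)).pts) = N := by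
  refine ⟨isSub_hyp (n := fun _ : Unit => N + 1) hc N.succ_pos, ?_⟩
  have := dim_hyp (n := fun _ : Unit => N + 1) (i := ()) hc N.succ_pos
  simpa using this

lemma HypW_d (N : ℕ) : (PN k N).d = N := by
  simpa using d_amb (k := k) fun _ : Unit => N

lemma HypW_rel {N : ℕ} {c c' : Fin (N + 2) → k} (hc : c ≠ 0) (hc' : c' ≠ 0) :
    ∃ a b : ℕ, 0 < a ∧ 0 < b ∧ a • W.cl (PN k (N + 1)) (Subtype.val ⁻¹' hyp () c) =
      b • W.cl (PN k (N + 1)) (Subtype.val ⁻¹' hyp () c') := by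
  by_cases e : (Subtype.val ⁻¹' hyp () c : Set (PN k (N + 1)).pts) = Subtype.val ⁻¹' hyp () c'
  · exact ⟨1, 1, one_pos, one_pos, congrArg (fun Z => 1 • W.cl (PN k (N + 1)) Z) e⟩
  obtain ⟨Ω, _, _, _, v, hv, hl⟩ := (PN k (N + 1)).exists_generic (PN k (N + 1)).isSub_univ
  have hu : dim (univ : Set (PN k (N + 1)).pts) = N + 1 := HypW_d (N + 1)
  have hz : ∀ {c : Fin (N + 2) → k} {C : Set (PN k (N + 1)).pts},
      (∀ x ∈ C, Vanish (∑ s, c s • (X ⟨(), s⟩ :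
        MvPolynomial (Vars fun _ : Unit => N + 1) k)) x.1) ↔ C ⊆ Subtype.val ⁻¹' hyp () c :=
    forall₂_congr fun x _ => (mem_hyp_iff (n := fun _ : Unit => N + 1) () _ x.1).symm
  have hne : ∀ {c : Fin (N + 2) → k}, c ≠ 0 → aeval v (∑ s, c s • (X ⟨(), s⟩ :
      MvPolynomial (Vars fun _ : Unit => N + 1) k)) ≠ 0 := fun {c} hc h0 => by
    have h1 := hz.1 ((hv.vanish_iff (HypW_form c)).2 h0)
    have h2 := dim_mono h1
    rw [hl, hu, (HypW_sub hc).2] at h2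
    omega
  obtain ⟨s, s', μ, μ', h1, h2, h3, h4, h5⟩ := W.rel_sum hv (HypW_form c) (HypW_form c')
    (hne hc) (hne hc') (m := N) (by rw [hl, hu])
  have hs := HypW_sub hc
  have hs' := HypW_sub hc'
  have h6 := h3 _ hs.1 (hl ▸ subset_univ _) hs.2 (hz.2 subset_rfl)
    fun h => e (eq_of_dim_le hs.1 hs'.1 (hz.1 h) (hs'.2.trans hs.2.symm).le)
  have h7 := h4 _ hs'.1 (hl ▸ subset_univ _) hs'.2 (hz.2 subset_rfl)
    fun h => e (eq_of_dim_le hs'.1 hs.1 (hz.1 h) (hs.2.trans hs'.2.symm).le).symm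
  rw [Finset.sum_eq_single_of_mem _ h6.1 fun C hC hn => absurd (eq_of_dim_le (h1 C hC).1 hs.1
      (hz.1 (h1 C hC).2.2.2) (hs.2.trans (h1 C hC).2.2.1.symm).le) hn,
    Finset.sum_eq_single_of_mem _ h7.1 fun C hC hn => absurd (eq_of_dim_le (h2 C hC).1 hs'.1
      (hz.1 (h2 C hC).2.2.2) (hs'.2.trans (h2 C hC).2.2.1.symm).le) hn] at h5
  exact ⟨_, _, h6.2, h7.2, h5⟩

omit [IsAlgClosed k] in
lemma HypW_pull_aut {X Y : Var k} (f : Mor X Y) (g : Mor Y X) (h : ∀ x, g.1 (f.1 x) = x)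
    (h' : ∀ y, f.1 (g.1 y) = y) {Z : Set Y.pts} (hZ : IsSub Z) :
    W.pull f (W.cl Y Z) = W.cl X (f.1 ⁻¹' Z) := by
  have e : g.1 '' Z = f.1 ⁻¹' Z := congrFun (image_eq_preimage_of_inverse h' h) Z
  refine sub_eq_zero.1 (W.poincare X _ fun b => ?_)
  have hb : W.pull f (W.pull g b) = b := by
    rw [W.pull_pull]
    exact W.pull_id _ (funext h) b
  rw [sub_mul, map_sub, sub_eq_zero, ← e, ← W.push_retr g f h' hZ, ← W.tr_pull_aut f g h h',
    map_mul (W.pull f), hb]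

lemma HypW_act {N : ℕ} (r : Γ →* Matrix (Fin (N + 1)) (Fin (N + 1)) k) (γ : Γ)
    (c : Fin (N + 1) → k) : ((projStage r).act γ).1 ⁻¹' (Subtype.val ⁻¹' hyp () c) =
      Subtype.val ⁻¹' hyp () (Matrix.vecMul c (r γ)) := by
  ext x
  have h1 := (projStage r).act_rep γ x (isRep_rep x.1)
  refine ((mem_hyp_iff (n := fun _ : Unit => N) () c _).trans
    ((HypW_form c).vanish_iff h1)).trans ?_
  change _ ↔ ∑ s, Matrix.vecMul c (r γ) s * (x.1 ()).rep s = 0
  refine Eq.congr_left ?_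
  simp only [map_sum, smul_eval, eval_X, Matrix.vecMul, dotProduct, Finset.sum_mul]
  rw [Finset.sum_comm]
  refine Finset.sum_congr rfl fun s _ => ?_
  change c s * ∑ t, r γ s t • (x.1 ()).rep t = _
  simp only [Finset.mul_sum, smul_eq_mul, mul_assoc]

omit [IsAlgClosed k] in
lemma HypW_inv [Finite Γ] (S : Stage k Γ) {η : W.H S.P} (h0 : η ≠ 0) (γ : Γ) {a b : ℕ}
    (ha : 0 < a) (e : a • W.pull (S.act γ) η = b • η) : W.pull (S.act γ) η = η := by
  have key : ∀ n : ℕ, a ^ n • W.pull (S.act (γ ^ n)) η = b ^ n • η := fun n => by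
    induction n with
    | zero => rw [pow_zero, pow_zero, pow_zero, W.pull_id _ (funext S.act_one)]
    | succ n ih =>
      rw [W.pull_comp (S.act (γ ^ n)) (S.act γ) _ (funext fun x => by
        rw [pow_succ']; exact S.act_mul _ _ x), pow_succ, mul_smul, ← map_nsmul _ a, e, map_nsmul,
        smul_comm, ih, pow_succ', mul_smul]
  have h1 := key (orderOf γ)
  rw [pow_orderOf_eq_one, W.pull_id _ (funext S.act_one), ← Nat.cast_smul_eq_nsmul K,
    ← Nat.cast_smul_eq_nsmul K] at h1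
  have h2 : a ^ orderOf γ = b ^ orderOf γ := by exact_mod_cast smul_left_injective K h0 h1
  obtain rfl := Nat.pow_left_injective (orderOf_pos γ).ne' h2
  rw [← Nat.cast_smul_eq_nsmul K, ← Nat.cast_smul_eq_nsmul K] at e
  exact smul_right_injective _ (by exact_mod_cast ha.ne') e

/-- The hyperplane class. -/
theorem Weil.exists_hyp (N : ℕ) : ∃ η ∈ W.gr (PN k (N + 1)) 2,
    (∀ (Γ : Type u) [Group Γ] [Finite Γ] (r : Γ →* Matrix (Fin (N + 2)) (Fin (N + 2)) k),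
      W.Inv (projStage r) η) ∧
    ∀ (X : Var k) (f : Mor X (PN k (N + 1))) (V : Set X.pts) (c : Fin (N + 2) → k), IsSub V →
      ¬ V ⊆ f.1 ⁻¹' (Subtype.val ⁻¹' hyp () c) →
        W.CutAt (W.pull f η) V (f.1 ⁻¹' (Subtype.val ⁻¹' hyp () c)) := by
  obtain ⟨c₀, h0⟩ := exists_ne (0 : Fin (N + 2) → k)
  have hs := HypW_sub h0
  refine ⟨W.cl (PN k (N + 1)) (Subtype.val ⁻¹' hyp () c₀), ?_, fun Γ _ _ r γ => ?_,
    fun X f V c hV h => ?_⟩
  · have := W.cl_gr _ _ hs.1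
    rwa [hs.2, HypW_d, Nat.add_sub_cancel_left] at this
  · have h1 : Matrix.vecMul c₀ (r γ) ≠ 0 := fun h => h0 (by
      have h2 := congrArg (fun z => Matrix.vecMul z (r γ⁻¹)) h
      simpa only [Matrix.vecMul_vecMul, ← map_mul, mul_inv_cancel, map_one, Matrix.vecMul_one,
        Matrix.zero_vecMul] using h2)
    obtain ⟨a, b, ha, -, e⟩ := HypW_rel W h1 h0
    have h3 := HypW_pull_aut W ((projStage r).act γ) ((projStage r).act γ⁻¹)
      (fun x => by rw [← Stage.act_mul, inv_mul_cancel, Stage.act_one])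
      (fun x => by rw [← Stage.act_mul, mul_inv_cancel, Stage.act_one]) hs.1
    replace h3 := h3.trans (congrArg (W.cl _) (HypW_act r γ c₀))
    refine HypW_inv W (projStage r) ?_ γ ha (b := b) ((congrArg (a • ·) h3).trans e)
    have h4 := W.eff_ne_zero' {(Subtype.val ⁻¹' hyp () c₀ : Set (PN k (N + 1)).pts)} (fun _ => 1)
      (by simpa using hs.1) (fun _ _ => one_pos) (Finset.singleton_nonempty _)
    rw [Finset.sum_singleton, one_smul] at h4
    exact h4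
  · have hc : c ≠ 0 := by
      rintro rfl
      exact h fun x _ => Finset.sum_eq_zero fun s _ => zero_mul _
    obtain ⟨a, b, ha, hb, e⟩ := HypW_rel W hc h0
    refine HypW_scale W ha hb ?_ (W.cutAt_pull f (HypW_sub hc).1 ?_ hV h)
    · rw [← map_nsmul, e, map_nsmul]
    · rw [(HypW_sub hc).2, HypW_d]

end Pool.Agent.MP_0c8446_ag
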