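import Pool.Agent.MP_0c8446_ag.DL.LevA

namespace Pool.Agent.MP_0c8446_ag

open MvPolynomial Set

universe u v w

variable {k : Type u} [Field k] {Γ : Type u} [Group Γ] {D : FrD k Γ}
  {Ω Ω' : Type u} [Field Ω] [Algebra k Ω] [Field Ω'] [Algebra k Ω']

namespace Level

variable {L : Level D} {f g : MvPolynomial D.σ k}

theorem Eqv.refl (L : Level D) (h : D.σ → Ω) : L.Eqv h h := ParOn.refl _ _

theorem Eqv.symm {h h' : D.σ → Ω} (e : L.Eqv h h') : L.Eqv h' h := ParOn.symm e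

theorem Eqv.trans {h h' h'' : D.σ → Ω} (e : L.Eqv h h') (e' : L.Eqv h' h'') : L.Eqv h h'' :=
  ParOn.trans e e'

theorem reg_C (L : Level D) (c : k) : L.Reg (C c) :=
  ⟨0, C c, 1, isForm_C c, isForm_one, fun _ _ => rfl, fun _ _ _ _ _ => by simp⟩

theorem Reg.add (hf : L.Reg f) (hg : L.Reg g) : L.Reg (f + g) := by
  obtain ⟨d, F, G, hF, hG, hd, h⟩ := hf
  obtain ⟨d', F', G', hF', hG', hd', h'⟩ := hg
  refine ⟨d + d', F * G' + G * F', G * G', (hF.mul hG').add (hG.mul hF'), hG.mul hG',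
    fun i hi => by rw [Finsupp.add_apply, hd i hi, hd' i hi], fun Ω _ _ x hx => ?_⟩
  obtain ⟨h1, h2⟩ := h Ω x hx
  obtain ⟨h3, h4⟩ := h' Ω x hx
  simp only [map_add, map_mul]
  refine ⟨mul_ne_zero h1 h3, ?_⟩
  rw [h2, h4]
  ring

theorem Reg.mul (hf : L.Reg f) (hg : L.Reg g) : L.Reg (f * g) := by
  obtain ⟨d, F, G, hF, hG, hd, h⟩ := hf
  obtain ⟨d', F', G', hF', hG', hd', h'⟩ := hg
  refine ⟨d + d', F * F', G * G', hF.mul hF', hG.mul hG',
    fun i hi => by rw [Finsupp.add_apply, hd i hi, hd' i hi], fun Ω _ _ x hx => ?_⟩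
  obtain ⟨h1, h2⟩ := h Ω x hx
  obtain ⟨h3, h4⟩ := h' Ω x hx
  simp only [map_mul]
  refine ⟨mul_ne_zero h1 h3, ?_⟩
  rw [h2, h4]
  ring

theorem Reg.subst {τ : Type} {t : τ → MvPolynomial D.σ k} (ht : ∀ s, L.Reg (t s))
    (P : MvPolynomial τ k) : L.Reg (aeval t P) := by
  induction P using MvPolynomial.induction_on with
  | C c =>
    rw [aeval_C]
    exact L.reg_C c
  | add P Q hP hQ =>
    rw [map_add]
    exact hP.add hQ
  | mul_X P s hP =>
    rw [map_mul, aeval_X]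
    exact hP.mul (ht s)

theorem Reg.congr (hf : L.Reg f) (h : ∀ (Ω : Type u) [Field Ω] [Algebra k Ω] (h : D.σ → Ω),
    D.Fr h → aeval h g = aeval h f) : L.Reg g := by
  obtain ⟨d, F, G, hF, hG, hd, h'⟩ := hf
  exact ⟨d, F, G, hF, hG, hd, fun Ω _ _ x hx => by
    rw [h Ω x hx]
    exact h' Ω x hx⟩

theorem Reg.of_inv (hf : L.Reg f) (h : ∀ (Ω : Type u) [Field Ω] [Algebra k Ω] (h : D.σ → Ω),
    D.Fr h → aeval h f * aeval h g = 1) : L.Reg g := by
  obtain ⟨d, F, G, hF, hG, hd, h'⟩ := hf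
  refine ⟨d, G, F, hG, hF, hd, fun Ω _ _ x hx => ?_⟩
  obtain ⟨h1, h2⟩ := h' Ω x hx
  have h3 := h Ω x hx
  rw [h2]
  exact ⟨mul_ne_zero (left_ne_zero_of_mul_eq_one h3) h1, by
    rw [← mul_assoc, mul_comm (aeval x g), h3, one_mul]⟩

end Level

variable {K : Type v} [Field K] {W : Weil.{u, v, w} k K} {e e' : FRel k D.σ}
  {V V' : Set (MvPolynomial D.σ k)}

theorem Weil.Good.congr (h : W.Good D e V)
    (he : ∀ (Ω : Type u) [Field Ω] [Algebra k Ω] [IsAlgClosed Ω] (h h' : D.σ → Ω), D.Fr h →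
      D.Fr h' → (e Ω h h' ↔ e' Ω h h')) : W.Good D e' V :=
  fun L hL hV => h L (fun Ω _ _ _ x x' hx hx' =>
    (hL Ω x x' hx hx').trans (he Ω x x' hx hx').symm) hV

theorem Weil.Good.of_reg (h : W.Good D e V)
    (hV : ∀ L : Level D, (∀ f ∈ V', L.Reg f) → ∀ f ∈ V, L.Reg f) : W.Good D e V' :=
  fun L hL hV' => h L hL (hV L hV')

theorem Weil.Good.mono (h : W.Good D e V) (hV : V ⊆ V') : W.Good D e V' :=
  h.of_reg fun _ hL f hf => hL f (hV hf)

variable [IsAlgClosed k] {N : ℕ}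

theorem Level.ext_nz (L : Level D) (r : Γ →* Matrix (Fin (N + 1)) (Fin (N + 1)) k)
    {z : Fin (N + 1) → MvPolynomial D.σ k} (hz : D.NV z) :
    ∀ i ∉ (L.S.ext r).J, D.NV fun s => (jn L.pt z : Vars (L.S.ext r).P.n → _) ⟨i, s⟩ := by
  rintro (i | i) hi
  · exact L.nz i hi
  · exact hz

theorem Level.ext_equi (L : Level D) {r : Γ →* Matrix (Fin (N + 1)) (Fin (N + 1)) k}
    {z : Fin (N + 1) → MvPolynomial D.σ k} (he : D.Equi r z) :
    ∀ i ∉ (L.S.ext r).J,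
      D.Equi ((L.S.ext r).ρ i) fun s => (jn L.pt z : Vars (L.S.ext r).P.n → _) ⟨i, s⟩ := by
  rintro (i | i) hi
  · exact L.equi i hi
  · exact he

theorem Level.ext_prod (L : Level D) (r : Γ →* Matrix (Fin (N + 1)) (Fin (N + 1)) k)
    {z : Fin (N + 1) → MvPolynomial D.σ k} (hz : D.NV z) (Ω : Type u) [Field Ω] [Algebra k Ω]
    (v : Vars (L.S.ext r).P.n → Ω) (h : D.σ → Ω) (hv : (L.S.ext r).P.On v) (hh : D.Fr h) :
    (L.S.ext r).P.On (mix (L.S.ext r).J v (evs h (jn L.pt z))) := by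
  have e : mix (L.S.ext r).J v (evs h (jn L.pt z)) =
      jn (mix L.S.J (fun s => v (pvL _ s)) (evs h L.pt)) (evs h z) := by
    funext ⟨i, s⟩
    cases i with
    | inl i =>
      by_cases hi : i ∈ L.S.J
      · exact (if_pos hi).trans (if_pos hi).symm
      · exact (if_neg hi).trans (if_neg hi).symm
    | inr i => exact if_neg fun h => h
  rw [e]
  exact on_jn (L.prod Ω _ h (on_pv_iff.1 hv).1 hh) (hz Ω h hh)

/-- Add one block to a level. -/
noncomputable def Level.ext (L : Level D) (r : Γ →* Matrix (Fin (N + 1)) (Fin (N + 1)) k)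
    (z : Fin (N + 1) → MvPolynomial D.σ k) (hz : D.NV z) (he : D.Equi r z)
    (bd : Set (Set (L.S.ext r).P.pts)) (hc : SubCl bd) (hil : D.IL (L.S.ext r) (jn L.pt z) bd) :
    Level D where
  S := L.S.ext r
  pt := jn L.pt z
  bd := bd
  nz := L.ext_nz r hz
  equi := L.ext_equi he
  prod := L.ext_prod r hz
  closed := hc
  il := hil

theorem Level.parOn_ext (L : Level D) (r : Γ →* Matrix (Fin (N + 1)) (Fin (N + 1)) k)
    {v v' : Vars L.S.P.n → Ω} {z z' : Fin (N + 1) → Ω} :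
    ParOn (L.S.ext r).Jᶜ (jn v z) (jn v' z') ↔
      ParOn L.S.Jᶜ v v' ∧ ∃ t : Ω, t ≠ 0 ∧ ∀ s, z' s = t * z s :=
  parOn_jn (I := (L.S.ext r).Jᶜ) fun h => h

theorem Level.ext_eqv (L : Level D) {r : Γ →* Matrix (Fin (N + 1)) (Fin (N + 1)) k}
    {z : Fin (N + 1) → MvPolynomial D.σ k} {hz : D.NV z} {he : D.Equi r z}
    {bd : Set (Set (L.S.ext r).P.pts)} {hc : SubCl bd} {hil : D.IL (L.S.ext r) (jn L.pt z) bd}
    {h h' : D.σ → Ω} : (L.ext r z hz he bd hc hil).Eqv h h' ↔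
      L.Eqv h h' ∧ ∃ t : Ω, t ≠ 0 ∧ ∀ s, aeval h' (z s) = t * aeval h (z s) := by
  have e := L.parOn_ext r (v := evs h L.pt) (v' := evs h' L.pt) (z := evs h z) (z' := evs h' z)
  rw [← evs_jn, ← evs_jn] at e
  exact e

theorem Level.Reg.ext {L : Level D} {r : Γ →* Matrix (Fin (N + 1)) (Fin (N + 1)) k}
    {z : Fin (N + 1) → MvPolynomial D.σ k} {hz : D.NV z} {he : D.Equi r z}
    {bd : Set (Set (L.S.ext r).P.pts)} {hc : SubCl bd} {hil : D.IL (L.S.ext r) (jn L.pt z) bd}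
    {f : MvPolynomial D.σ k} (hf : L.Reg f) : (L.ext r z hz he bd hc hil).Reg f := by
  obtain ⟨d, F, G, hF, hG, hd, h⟩ := hf
  refine ⟨d.mapDomain Sum.inl, rename (pvL fun _ : Unit => N) F, rename (pvL fun _ : Unit => N) G,
    hF.rename_L _, hG.rename_L _, ?_, fun Ω _ _ x hx => ?_⟩
  · rintro (i | i) hi
    · exact (Finsupp.mapDomain_apply Sum.inl_injective d i).trans (hd i hi)
    · exact hi.elim
  · have e : ∀ P : MvPolynomial (Vars L.S.P.n) k,
        aeval (evs x (jn L.pt z)) (rename (pvL fun _ : Unit => N) P) = aeval (evs x L.pt) P :=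
      fun P => aeval_rename _ _ _
    exact ⟨fun h0 => (h Ω x hx).1 ((e G).symm.trans h0),
      (e F).trans ((h Ω x hx).2.trans (congrArg _ (e G).symm))⟩

theorem Level.reg_ext (L : Level D) {r : Γ →* Matrix (Fin (N + 1)) (Fin (N + 1)) k}
    {z : Fin (N + 1) → MvPolynomial D.σ k} {hz : D.NV z} {he : D.Equi r z}
    {bd : Set (Set (L.S.ext r).P.pts)} {hc : SubCl bd} {hil : D.IL (L.S.ext r) (jn L.pt z) bd}
    (h0 : z 0 = 1) (s : Fin (N + 1)) : (L.ext r z hz he bd hc hil).Reg (z s) := by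
  refine ⟨Finsupp.single (Sum.inr ()) 1, X ⟨Sum.inr (), s⟩, X ⟨Sum.inr (), 0⟩,
    isForm_X _, isForm_X _, ?_, fun Ω _ _ x _ => ?_⟩
  · rintro (i | i) hi
    · exact Finsupp.single_eq_of_ne Sum.inl_ne_inr
    · exact hi.elim
  · rw [aeval_X, aeval_X]
    change aeval x (z 0) ≠ 0 ∧ aeval x (z s) = aeval x (z s) * aeval x (z 0)
    rw [h0, map_one, mul_one]
    exact ⟨one_ne_zero, rfl⟩

end Pool.Agent.MP_0c8446_ag
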