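import Pool.Agent.MP_0c8446_ag.DL.StW
import Pool.Agent.MP_0c8446_ag.DL.HypW

namespace Pool.Agent.MP_0c8446_ag

open MvPolynomial Set

universe u v w

variable {k : Type u} [Field k] [IsAlgClosed k] {K : Type v} [Field K] [CharZero K]
  (W : Weil.{u, v, w} k K) {Γ : Type u} [Group Γ]

omit [IsAlgClosed k] in
theorem LineW_retr {X Y : Var k} (s : Mor X Y) (p : Mor Y X) (h : ∀ x, p.1 (s.1 x) = x)
    {D : Set Y.pts} (hD : IsSub D) (hs : D ⊆ range s.1) :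
    IsSub (p.1 '' D) ∧ closure (p.1 '' D) = p.1 '' D ∧ s.1 '' (p.1 '' D) = D := by
  have h1 : p.1 '' D = s.1 ⁻¹' D := by
    ext x
    constructor
    · rintro ⟨y, hy, rfl⟩
      obtain ⟨x, rfl⟩ := hs hy
      rwa [mem_preimage, h]
    · exact fun hx => ⟨_, hx, h x⟩
  have h2 : closure (p.1 '' D) = p.1 '' D := by
    rw [h1]
    exact (hD.2.preimage s.continuous).closure_eq
  exact ⟨h2 ▸ hD.image_closure p.continuous, h2, by rw [h1, image_preimage_eq_of_subset hs]⟩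

omit [IsAlgClosed k] in
theorem LineW_ph {X Y : Var k} (s : Mor X Y) (p : Mor Y X) (h : ∀ x, p.1 (s.1 x) = x)
    {C : Set X.pts} (hC : IsSub C) (η : W.H Y) (β : W.H X) :
    W.ph (η * W.pull p β) (s.1 '' C) = W.ph (W.pull s η * β) C := by
  rw [Weil.ph, ← W.push_retr s p h hC, map_mul (W.pull s), W.pull_pull, W.pull_id (p.comp s) (funext h)]
  rfl

/-- The last step: the section is a component of the cut and the other components are killed. -/
theorem LineW_last {X Y : Var k} (s : Mor X Y) (p : Mor Y X) (h : ∀ x, p.1 (s.1 x) = x)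
    {C : Set X.pts} (hC : IsSub C) {C' H : Set Y.pts} {η : W.H Y} {β : W.H X}
    (hc : W.CutAt η C' H) (hd : dim C' = dim C + 1) (h1 : p.1 '' C' ⊆ C)
    (h2 : s.1 '' C ⊆ C' ∩ H)
    (h3 : ∀ D, IsSub D → D ⊆ C' ∩ H → W.ph (W.pull p β) D = 0 ∨ D ⊆ range s.1)
    (h0 : W.ph (η * W.pull p β) C' = 0) : W.ph β C = 0 := by
  obtain ⟨a, t, μ, -, ht, hμ, e⟩ := hc
  have hr := s.retr p h
  have hs := hr.isSub hC
  have hm : s.1 '' C ∈ t := by
    obtain ⟨D, hD, hD'⟩ := exists_isComp hs h2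
    have h4 := (hμ D ((ht D).2 hD)).2
    rw [eq_of_dim_le hs hD.1.1 hD' (by rw [hr.dim_image]; omega)]
    exact (ht D).2 hD
  have e1 := congrArg (fun z => W.tr Y (z * W.pull p β)) e
  simp only [smul_mul_assoc, Finset.sum_mul, map_sum, map_nsmul, mul_assoc] at e1
  rw [show W.tr Y (W.cl Y C' * (η * W.pull p β)) = 0 from h0, smul_zero,
    Finset.sum_eq_single_of_mem _ hm fun D hD hne => ?_] at e1
  · have e2 := LineW_ph W s p h hC 1 β
    rw [one_mul, map_one, one_mul] at e2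
    rw [← e2]
    rw [nsmul_eq_mul, eq_comm, mul_eq_zero] at e1
    exact e1.resolve_left (Nat.cast_ne_zero.2 (hμ _ hm).1.ne')
  · have hD' := (ht D).1 hD
    rcases h3 D hD'.1.1 hD'.1.2 with h4 | h4
    · rw [show W.tr Y (W.cl Y D * W.pull p β) = 0 from h4, smul_zero]
    · have h5 : D ⊆ s.1 '' C := by
        rw [← (LineW_retr s p h hD'.1.1 h4).2.2]
        exact image_mono ((image_mono (hD'.1.2.trans inter_subset_left)).trans h1)
      exact absurd (h5.antisymm (hD'.2 ⟨hs, h2⟩ h5)) hne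

/-- Adding a block whose fibres are lines through the point at infinity `[0 : x_i]`. -/
theorem Weil.dec_line [Finite Γ] {S : Stage k Γ} {i : S.P.ι} (hi : i ∉ S.J)
    {𝓡 𝓓 : Set (Set S.P.pts)} {𝓡' 𝓓' : Set (Set (S.lb i).P.pts)} (hD : SubCl 𝓓)
    (h1 : ∀ C ∈ 𝓡, IsSub C ∧ ∃ C' ∈ 𝓡', IsSub C' ∧ dim C' = dim C + 1 ∧
      (pvF S.P (PN k (S.P.n i + 1))).1 '' C' ⊆ C ∧ ¬ C' ⊆ hInf S.P (S.P.n i) ∧
      (S.P.inf i).1 '' C ⊆ C' ∧ ∀ D, IsSub D → D ⊆ C' ∩ hInf S.P (S.P.n i) →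
        closure ((pvF S.P (PN k (S.P.n i + 1))).1 '' D) ∈ 𝓓 ∨ D ⊆ range (S.P.inf i).1)
    (h2 : ∀ D ∈ 𝓓', IsSub D ∧ (closure ((pvF S.P (PN k (S.P.n i + 1))).1 '' D) ∈ 𝓓 ∨
      D ⊆ zSec S.P (S.P.n i) ∨
      (D ⊆ range (S.P.inf i).1 ∧ closure ((pvF S.P (PN k (S.P.n i + 1))).1 '' D) ∈ 𝓡)))
    (H : W.Dec (S.lb i) 𝓡' 𝓓') : W.Dec S 𝓡 𝓓 := by
  obtain ⟨η₀, hg, hinv, hcut⟩ := W.exists_hyp (S.P.n i)
  obtain ⟨η, hη⟩ : ∃ η, η = W.pull (pvS S.P (PN k (S.P.n i + 1))) η₀ := ⟨_, rfl⟩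
  have hη1 : W.pull (S.P.inf i) η = W.pull (S.P.infS i) η₀ := by
    rw [hη, W.pull_pull]
    rfl
  have hI : W.Inv (S.lb i) η := hη ▸ W.inv_snd S (hinv Γ (plus (S.ρ i)))
  have hgη : η ∈ W.gr (S.lb i).P 2 := hη ▸ W.pull_gr _ _ _ hg
  have c1 : ∀ V : Set (S.lb i).P.pts, IsSub V → ∃ c,
      ¬ V ⊆ Subtype.val ⁻¹' hyp (n := (S.lb i).P.n) (Sum.inr ()) c ∧
      W.CutAt η V (Subtype.val ⁻¹' hyp (n := (S.lb i).P.n) (Sum.inr ()) c) := fun V hV => by
    obtain ⟨c, hc⟩ := exists_not_subset_hyp (X := (S.lb i).P) (Sum.inr ()) hV.1.1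
    have e := pvS_preimage_hyp S.P (S.P.n i + 1) c
    exact ⟨c, hc, hη ▸ e ▸ hcut _ _ V c hV (e ▸ hc)⟩
  have c2 : ∀ V : Set S.P.pts, IsSub V → ∃ c, ¬ V ⊆ Subtype.val ⁻¹' hyp i c ∧
      W.CutAt (W.pull (S.P.inf i) η) V (Subtype.val ⁻¹' hyp i c) := fun V hV => by
    obtain ⟨c, hc⟩ := exists_not_subset_hyp i hV.1.1
    have e := infS_preimage_hyp i c
    exact ⟨c, hc, hη1 ▸ e ▸ hcut _ _ V _ hV (e ▸ hc)⟩
  have c3 : ∀ V : Set (S.lb i).P.pts, IsSub V → ¬ V ⊆ hInf S.P (S.P.n i) →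
      W.CutAt η V (hInf S.P (S.P.n i)) := fun V hV h => by
    rw [hInf_eq] at h ⊢
    exact hη ▸ hcut _ _ V _ hV h
  have key : ∀ n m, S.P.d < m + n → ∀ β ∈ W.gr S.P (2 * m), W.Inv S β → W.Kill S β →
      (∀ C ∈ 𝓓, W.ph β C = 0) → ∀ C ∈ 𝓡, W.ph β C = 0 := by
    intro n
    induction n with
    | zero =>
      intro m hm β hβ _ _ _ C _
      rw [W.gr_eq_zero hβ (by omega), Weil.ph, mul_zero, map_zero]
    | succ n ih =>
      intro m hm β hβ b1 b2 b3 C hC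
      have hdeg : 2 * (m + 1) = 2 + 2 * m := by ring
      have r1 := ih (m + 1) (by omega) (W.pull (S.P.inf i) η * β)
        (hdeg ▸ SetLike.mul_mem_graded (W.pull_gr _ _ _ hgη) hβ)
        (Weil.Inv.mul W (W.inv_inf i hI) b1) (W.kill_cut hi c2 b2)
        (W.subCl_cut hD (fun V hV => (c2 V hV).elim fun c hc => ⟨_, hc.2⟩) b3)
      have r2 : ∀ D, IsSub D → closure ((pvF S.P (PN k (S.P.n i + 1))).1 '' D) ∈ 𝓓 →
          W.ph (W.pull (pvF S.P (PN k (S.P.n i + 1))) β) D = 0 := fun D h h' => by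
        obtain ⟨r, -, hr⟩ := W.ph_pull (pvF S.P (PN k (S.P.n i + 1))) h
        rw [hr, b3 _ h', mul_zero]
      have r3 := H (m + 1) (η * W.pull (pvF S.P (PN k (S.P.n i + 1))) β)
        (hdeg ▸ SetLike.mul_mem_graded (A := W.gr (pvVar S.P (PN k (S.P.n i + 1)))) hgη
          (W.pull_gr _ _ _ hβ))
        (Weil.Inv.mul W hI (W.inv_fst _ b1))
        (W.kill_cut (S := S.lb i) (i := Sum.inr ()) (fun h => h) c1 (W.kill_fst _ b2))
        fun D hD' => by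
          obtain ⟨d1, d2 | d2 | ⟨d2, d3⟩⟩ := h2 D hD'
          · refine W.subCl_cut
              (𝓓 := {D | IsSub D ∧ closure ((pvF S.P (PN k (S.P.n i + 1))).1 '' D) ∈ 𝓓})
              (fun E hE => ⟨hE.1, fun E' h h' => ⟨h, (hD _ hE.2).2 _
                (h.image_closure (Mor.continuous _)) (closure_mono (image_mono h'))⟩⟩)
              (fun V hV => (c1 V hV).elim fun c hc => ⟨_, hc.2⟩) (fun E hE => r2 E hE.1 hE.2) D
              ⟨d1, d2⟩
          · have hne : ∀ x ∈ D, x ∉ hInf S.P (S.P.n i) := fun x hx h =>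
              (hInf_inter_zSec S.P (S.P.n i)).subset ⟨h, d2 hx⟩
            refine W.ph_cut (c3 D d1 fun h => d1.1.1.elim fun x hx => hne x hx (h hx))
              fun E hE _ => ?_
            obtain ⟨x, hx⟩ := hE.1.1.1.1
            exact absurd (hE.1.2 hx).2 (hne x (hE.1.2 hx).1)
          · obtain ⟨e1, e2, e3⟩ := LineW_retr (S.P.inf i) _ (pvF_inf i) d1 d2
            rw [e2] at d3
            have e4 := LineW_ph W (S.P.inf i) _ (pvF_inf i) e1 η β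
            rw [e3] at e4
            exact e4.trans (r1 _ d3)
      obtain ⟨a1, C', a2, a3, a4, a5, a6, a7, a8⟩ := h1 C hC
      exact LineW_last W (S.P.inf i) _ (pvF_inf i) a1 (c3 C' a3 a6) a4 a5
        (subset_inter a7 ((image_subset_range _ _).trans (Var.range_inf_subset i)))
        (fun D h h' => (a8 D h h').imp_left (r2 D h)) (r3 C' a2)
  exact fun m => key (S.P.d + 1) m (by omega)

end Pool.Agent.MP_0c8446_ag
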