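import Pool.Agent.MP_0c8446_ag.DL.Form

namespace Pool.Agent.MP_0c8446_ag

open MvPolynomial Set

universe u v w

variable {k : Type u} [Field k] [IsAlgClosed k]
  {Ω Ω' : Type u} [Field Ω] [Algebra k Ω] [Field Ω'] [Algebra k Ω']

theorem Locus_spec {σ : Type} [Finite σ] (x : σ → Ω) {f : MvPolynomial σ k} (hf : aeval x f ≠ 0) :
    ∃ x₀ : σ → k, kr k x ≤ kr k x₀ ∧ aeval x₀ f ≠ 0 := by
  have : (kr k x).IsPrime := RingHom.ker_isPrime _
  have h : f ∉ vanishingIdeal k (zeroLocus k (kr k x)) := by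
    rw [IsPrime.vanishingIdeal_zeroLocus]
    exact hf
  simp only [mem_vanishingIdeal_iff, not_forall] at h
  obtain ⟨x₀, h1, h2⟩ := h
  exact ⟨x₀, h1, h2⟩

theorem vI_loc {ι : Type} [Finite ι] {n : ι → ℕ} {v : Vars n → Ω} (hv : NZb v) :
    vI (loc k v) = pI k v := by
  refine le_antisymm (fun f hf => mem_pI_iff.2 fun d => ?_) fun f hf x hx => hx f hf
  by_contra hne
  have := Fintype.ofFinite ι
  choose s hs using hv
  obtain ⟨x, h1, h2⟩ := Locus_spec v (f := cmp d f * ∏ i, MvPolynomial.X ⟨i, s i⟩) (by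
    simp only [map_mul, map_prod, aeval_X]
    exact mul_ne_zero hne (Finset.prod_ne_zero_iff.2 fun i _ => hs i))
  simp only [map_mul, map_prod, aeval_X] at h2
  have h3 := amb_isRep x fun i h => Finset.prod_ne_zero_iff.1 (right_ne_zero_of_mul h2) i
    (Finset.mem_univ i) (congrFun h (s i))
  exact left_ne_zero_of_mul h2 (cmp_mem_vI hf d _
    (fun g hg => (vanish_iff_mem_pI h3).2 (pI_le_of_kr_le h1 hg)) x h3)

theorem isSub_loc {ι : Type} [Finite ι] {n : ι → ℕ} {v : Vars n → Ω} (hv : NZb v) :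
    IsSub (loc k v) := by
  refine ⟨isIrreducible_of_prime (vI_loc (k := k) hv ▸ pI_isPrime v), ?_⟩
  have : loc k v = ⋂ f ∈ pI k v, {x | Vanish f x} := by
    ext x
    simp only [mem_iInter]
    rfl
  rw [this]
  exact isClosed_biInter fun f _ => isClosed_vanish f

variable {X : Var k} {v v' : Vars X.n → Ω} {u : Vars X.n → Ω'}

theorem Locus_sub (hv : X.On v) : loc k v ⊆ range (Subtype.val : X.pts → _) := by
  rw [Subtype.range_coe]
  exact subset_of_vI_le X.sub.2 (hv.2.trans (vI_loc hv.1).ge)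

theorem Locus_eq {C : Set X.pts} (hC : IsClosed C) (h : pI k v = vI (Subtype.val '' C)) :
    X.loc v = C := by
  ext x
  rw [← Subtype.val_injective.mem_set_image (s := C),
    ← (X.sub.2.isClosedEmbedding_subtypeVal.isClosedMap _ hC).closure_eq, mem_closure_vI, ← h]
  rfl

theorem Var.On.image_loc (hv : X.On v) : Subtype.val '' X.loc v = MP_0c8446_ag.loc k v :=   image_preimage_eq_of_subset (Locus_sub hv)

theorem Var.On.vI_loc (hv : X.On v) : vI (Subtype.val '' X.loc v) = pI k v := by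
  rw [hv.image_loc, MP_0c8446_ag.vI_loc hv.1]

theorem Var.On.isSub (hv : X.On v) : IsSub (X.loc v) :=   geoGen2_preimage Topology.IsInducing.subtypeVal (isSub_loc hv.1) (Locus_sub hv)

omit [IsAlgClosed k] in
theorem Var.On.of_le (hv : X.On v) (hu : NZb u) (h : pI k v ≤ pI k u) : X.On u :=   ⟨hu, hv.2.trans h⟩

omit [IsAlgClosed k] in
theorem Var.On.par (hv : X.On v) (h : ParOn univ v v') : X.On v' :=   ⟨h.nzb hv.1, hv.2.trans h.pI_eq.ge⟩

omit [IsAlgClosed k] in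
theorem Var.On.map (hv : X.On v) (φ : Ω →ₐ[k] Ω') : X.On fun a => φ (v a) :=   ⟨hv.1.map φ, hv.2.trans (pI_map φ v).ge⟩

omit [IsAlgClosed k] in
theorem Var.loc_subset (h : pI k v ≤ pI k u) : X.loc u ⊆ X.loc v :=   fun _ hx f hf => hx f (h hf)

theorem Var.On.pI_le (hu : X.On u) (h : X.loc u ⊆ X.loc v) : pI k v ≤ pI k u := by
  rw [← hu.vI_loc]
  rintro f hf _ ⟨x, hx, rfl⟩
  exact h hx f hf

omit [IsAlgClosed k] in
theorem Var.loc_congr (h : pI k v = pI k u) : X.loc v = X.loc u :=   (Var.loc_subset h.ge).antisymm (Var.loc_subset h.le)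

omit [IsAlgClosed k] in
theorem Var.loc_par (h : ParOn univ v v') : X.loc v' = X.loc v :=   Var.loc_congr h.pI_eq

omit [IsAlgClosed k] in
theorem Var.loc_map (φ : Ω →ₐ[k] Ω') (v : Vars X.n → Ω) :
    X.loc (fun a => φ (v a)) = X.loc v :=   Var.loc_congr (pI_map φ v)

theorem Var.On.vanish_iff (hv : X.On v) {d : X.ι →₀ ℕ} {F : MvPolynomial (Vars X.n) k}
    (hF : IsForm d F) : (∀ x ∈ X.loc v, Vanish F x.1) ↔ aeval v F = 0 := by
  rw [← hF.mem_pI, ← hv.vI_loc, mem_vI, forall_mem_image]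

/-- Generic points. -/
theorem Var.exists_generic (X : Var k) {C : Set X.pts} (hC : IsSub C) :
    ∃ (Ω : Type u) (_ : Field Ω) (_ : Algebra k Ω) (_ : IsAlgClosed Ω) (v : Vars X.n → Ω),
      X.On v ∧ X.loc v = C := by
  have hP := vI_isPrime (hC.1.image Subtype.val continuous_subtype_val.continuousOn)
  let R := MvPolynomial (Vars X.n) k ⧸ vI (Subtype.val '' C)
  let Ω := AlgebraicClosure (FractionRing R)
  let φ : MvPolynomial (Vars X.n) k →ₐ[k] Ω :=
    (IsScalarTower.toAlgHom k R Ω).comp (Ideal.Quotient.mkₐ k _)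
  have h1 : ∀ f, aeval (fun a => φ (MvPolynomial.X a)) f = 0 ↔ f ∈ vI (Subtype.val '' C) := by
    intro f
    rw [← Ideal.Quotient.eq_zero_iff_mem, ← comp_aeval_apply, aeval_X_left_apply]
    exact map_eq_zero_iff (algebraMap R Ω) ((algebraMap (FractionRing R) Ω).injective.comp
      (IsFractionRing.injective R (FractionRing R)))
  have h2 : pI k (fun a => φ (MvPolynomial.X a)) = vI (Subtype.val '' C) := by
    ext f
    simp only [mem_pI_iff, h1]
    exact ⟨fun h => sum_cmp f ▸ Ideal.sum_mem _ fun d _ => h d, cmp_mem_vI⟩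
  refine ⟨Ω, inferInstance, inferInstance, inferInstance, _, ⟨fun i => ?_, h2.ge.trans' (vI_anti
    (Subtype.coe_image_subset _ _))⟩, Locus_eq hC.2 h2⟩
  obtain ⟨x, hx⟩ := hC.1.1
  obtain ⟨s, hs⟩ := (isRep_rep x.1).nzb i
  refine ⟨s, fun h => hs ?_⟩
  simpa using (h1 (MvPolynomial.X ⟨i, s⟩)).1 (by rwa [aeval_X]) _ ⟨x, hx, rfl⟩ _ (isRep_rep x.1)

theorem Var.on_of_isRep {v : Vars X.n → k} {x : X.pts} (hv : IsRep v x.1) :
    X.On v ∧ X.loc v = {x} := by
  refine ⟨⟨hv.nzb, fun f hf => (vanish_iff_mem_pI hv).1 (hf _ x.2)⟩,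
    Locus_eq isClosed_singleton ?_⟩
  ext f
  simp only [← vanish_iff_mem_pI hv, mem_vI, image_singleton, mem_singleton_iff, forall_eq]

theorem Var.On.exists_isRep {v : Vars X.n → k} (hv : X.On v) : ∃ x : X.pts, IsRep v x.1 := by
  have h := amb_isRep v fun i => Function.ne_iff.2 (hv.1 i)
  exact ⟨⟨_, X.sub.2.closure_subset (mem_closure_vI.2 fun f hf =>
    (vanish_iff_mem_pI h).2 (hv.2 hf))⟩, h⟩

theorem on_amb {ι : Type} [Fintype ι] {n : ι → ℕ} {v : Vars n → Ω} (hv : NZb v) :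
    (amb k n).On v :=   ⟨hv, (vI_anti (subset_univ _)).trans (vI_loc hv).le⟩

theorem mem_hyp_iff {ι : Type} {n : ι → ℕ} (i : ι) (c : Fin (n i + 1) → k) (x : MP k n) :
    x ∈ hyp i c ↔ Vanish (∑ s, c s • (MvPolynomial.X ⟨i, s⟩ : MvPolynomial (Vars n) k)) x := by
  simp only [amb_hyp_eq, smul_eq_C_mul, mem_ofPred_eq]

/-- A polynomial map that sends the `k`-points of a closed set into `X` does so over every
extension. -/
theorem Var.on_of_k {σ : Type} [Finite σ] (E : Set (MvPolynomial σ k))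
    (pt : Vars X.n → MvPolynomial σ k)
    (H : ∀ h : σ → k, (∀ e ∈ E, aeval h e = 0) → ∃ x : X.pts, IsRep (evs h pt) x.1)
    {h : σ → Ω} (hh : ∀ e ∈ E, aeval h e = 0) : X.On (evs h pt) := by
  have key : ∀ g : MvPolynomial σ k, aeval h g ≠ 0 → ∃ x₀ : σ → k, kr k h ≤ kr k x₀ ∧
      aeval x₀ g ≠ 0 ∧ ∃ x : X.pts, IsRep (evs x₀ pt) x.1 := fun g hg => by
    obtain ⟨x₀, h1, h2⟩ := Locus_spec h hg
    exact ⟨x₀, h1, h2, H x₀ fun e he => h1 (hh e he)⟩
  refine ⟨fun i => ?_, fun f hf => mem_pI_iff.2 fun d => ?_⟩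
  · obtain ⟨x₀, h1, -, x, hx⟩ := key 1 (by simp)
    obtain ⟨s, hs⟩ := hx.nzb i
    exact ⟨s, fun e => hs (h1 e)⟩
  · by_contra hne
    obtain ⟨x₀, -, h2, x, hx⟩ := key (aeval pt (cmp d f)) (by rwa [comp_aeval_apply])
    rw [comp_aeval_apply] at h2
    exact h2 (cmp_mem_vI hf d _ x.2 _ hx)

end Pool.Agent.MP_0c8446_ag
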