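import Pool.Agent.MP_0c8446_ag.Dom
import Pool.Agent.MP_0c8446_ag.GenBasic
import Pool.Agent.MP_0c8446_ag.DL.Defs

namespace Pool.Agent.MP_0c8446_ag

open MvPolynomial Set

universe u v w

section pts

variable {k : Type u} [Field k] {ι : Type} {n : ι → ℕ}

/-- Scale each block of variables by its own indeterminate. -/
noncomputable def gorb :
    MvPolynomial (Vars n) k →ₐ[k] MvPolynomial ι (MvPolynomial (Vars n) k) :=
  aeval fun a => X a.1 * C (X a)

/-- `F` is multihomogeneous of multidegree `d`. -/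
def IsForm (d : ι →₀ ℕ) (F : MvPolynomial (Vars n) k) : Prop := gorb F = monomial d F

/-- Scale each block of coordinates. -/
def sc {R : Type*} [Mul R] (t : ι → R) (v : Vars n → R) : Vars n → R := fun a => t a.1 * v a

/-- All blocks are nonzero. -/
def NZb {R : Type*} [Zero R] (v : Vars n → R) : Prop := ∀ i, ∃ s, v ⟨i, s⟩ ≠ 0

/-- The blocks indexed by `I` are proportional. -/
def ParOn {R : Type*} [MulZeroClass R] (I : Set ι) (v v' : Vars n → R) : Prop :=
  ∀ i ∈ I, ∃ t : R, t ≠ 0 ∧ ∀ s, v' ⟨i, s⟩ = t * v ⟨i, s⟩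

/-- Apply a matrix in each block. -/
def blin {R : Type*} [AddCommMonoid R] [Module k R]
    (M : ∀ i, Matrix (Fin (n i + 1)) (Fin (n i + 1)) k) (v : Vars n → R) : Vars n → R :=
  fun a => ∑ s, M a.1 a.2 s • v ⟨a.1, s⟩

open Classical in
/-- Take the blocks in `J` from `v` and the others from `x`. -/
noncomputable def mix {R : Type*} (J : Set ι) (v x : Vars n → R) : Vars n → R :=
  fun a => if a.1 ∈ J then v a else x a

/-- Add one block. -/
def jn {R : Type*} {N : ℕ} (v : Vars n → R) (z : Fin (N + 1) → R) :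
    Vars (Sum.elim n fun _ : Unit => N) → R :=
  pvJoin v fun a => z a.2

variable (k) {Ω : Type u} [Field Ω] [Algebra k Ω]

/-- The multihomogeneous prime ideal of a point with values in an extension field. -/
noncomputable def pI (v : Vars n → Ω) : Ideal (MvPolynomial (Vars n) k) :=
  RingHom.ker (aeval (R := k) fun a : Vars n => (X a.1 * C (v a) : MvPolynomial ι Ω))

/-- The locus of a point. -/
def loc (v : Vars n → Ω) : Set (MP k n) := {x | ∀ f ∈ pI k v, Vanish f x}

/-- The transcendence degree of the field generated by a finite set. -/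
noncomputable def rk (S : Set Ω) : ℕ := ((AlgebraicIndependent.matroid k Ω).eRk S).toNat

/-- The elements algebraic over the field generated by `S`. -/
def acl (S : Set Ω) : Set Ω := (AlgebraicIndependent.matroid k Ω).closure S

/-- The ideal of relations of a tuple. -/
noncomputable def kr {σ : Type} (x : σ → Ω) : Ideal (MvPolynomial σ k) :=
  RingHom.ker (aeval (R := k) x)

variable {k}

/-- The ratios of coordinates in the blocks indexed by `I`. -/
def rat (I : Set ι) (v : Vars n → Ω) : Set Ω :=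
  {x | ∃ i ∈ I, ∃ s s', x = v ⟨i, s⟩ / v ⟨i, s'⟩}

/-- `v` is a point of `X` with values in `Ω`. -/
def Var.On (X : Var k) (v : Vars X.n → Ω) : Prop := NZb v ∧ vI X.pts ≤ pI k v

/-- The locus of a point of `X`. -/
def Var.loc (X : Var k) (v : Vars X.n → Ω) : Set X.pts := Subtype.val ⁻¹' MP_0c8446_ag.loc k v

/-- A morphism given globally by forms. -/
structure Mor.Poly {X Y : Var k} (f : Mor X Y) (F : Vars Y.n → MvPolynomial (Vars X.n) k) :
    Prop where
  form : ∀ j, ∃ d, ∀ s, IsForm d (F ⟨j, s⟩)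
  rep : ∀ x v, IsRep v x.1 → IsRep (fun s => eval v (F s)) (f.1 x).1

end pts

/-- A place: a valuation ring `O` of `Ω` containing `k` with a local homomorphism to `Ω'`. -/
structure Place (k Ω Ω' : Type u) [Field k] [Field Ω] [Field Ω'] [Algebra k Ω] [Algebra k Ω'] where
  O : Subalgebra k Ω
  tot : ∀ x, x ∈ O ∨ x⁻¹ ∈ O
  π : O →ₐ[k] Ω'
  inv : ∀ a : O, π a ≠ 0 → (a : Ω)⁻¹ ∈ O

open Classical in
/-- The reduction map, extended by zero. -/
noncomputable def Place.red {k Ω Ω' : Type u} [Field k] [Field Ω] [Field Ω'] [Algebra k Ω]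
    [Algebra k Ω'] (Pl : Place k Ω Ω') (x : Ω) : Ω' :=
  if h : x ∈ Pl.O then Pl.π ⟨x, h⟩ else 0

/-- Sets of subvarieties that are closed under passing to subvarieties. -/
def SubCl {X : Type u} [TopologicalSpace X] (𝓓 : Set (Set X)) : Prop :=
  ∀ C ∈ 𝓓, IsSub C ∧ ∀ C', IsSub C' → C' ⊆ C → C' ∈ 𝓓

variable {k : Type u} [Field k] {Γ : Type u} [Group Γ]

/-- A variety with a block-linear action of `Γ` and a set `J` of parameter blocks. -/
structure Stage (k : Type u) [Field k] (Γ : Type u) [Group Γ] where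
  P : Var k
  J : Set P.ι
  ρ : ∀ i, Γ →* Matrix (Fin (P.n i + 1)) (Fin (P.n i + 1)) k
  triv : ∀ i ∈ J, ρ i = 1
  stab : ∀ γ (x : P.pts), ∃ y : P.pts, ∀ v, IsRep v x.1 → IsRep (blin (fun i => ρ i γ) v) y.1

lemma aeval_blin {ι : Type} {n : ι → ℕ} {R : Type*} [CommRing R] [Algebra k R]
    (M : ∀ i, Matrix (Fin (n i + 1)) (Fin (n i + 1)) k) (v : Vars n → R) (a : Vars n) :
    aeval v (blin M (X : Vars n → MvPolynomial (Vars n) k) a) = blin M v a := by
  simp [blin]

lemma eval_blin {ι : Type} {n : ι → ℕ}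
    (M : ∀ i, Matrix (Fin (n i + 1)) (Fin (n i + 1)) k) (v : Vars n → k) (a : Vars n) :
    eval v (blin M (X : Vars n → MvPolynomial (Vars n) k) a) = blin M v a :=
  aeval_blin M v a

/-- The action as morphisms. -/
noncomputable def Stage.act (S : Stage k Γ) (γ : Γ) : Mor S.P S.P :=
  ⟨fun x => (S.stab γ x).choose, isMor_of_global (blin (fun i => S.ρ i γ) X) fun y v hv => by
    simpa only [eval_blin] using (S.stab γ y).choose_spec v hv⟩

lemma Stage.act_rep (S : Stage k Γ) (γ : Γ) (x : S.P.pts) {v : Vars S.P.n → k}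
    (hv : IsRep v x.1) : IsRep (blin (fun i => S.ρ i γ) v) ((S.act γ).1 x).1 :=
  (S.stab γ x).choose_spec v hv

/-- Change the group along a homomorphism. -/
def Stage.comap {Γ' : Type u} [Group Γ'] (S : Stage k Γ) (θ : Γ' →* Γ) : Stage k Γ' where
  P := S.P
  J := S.J
  ρ i := (S.ρ i).comp θ
  triv i hi := by rw [S.triv i hi]; rfl
  stab γ := S.stab (θ γ)

/-- The trivial action, all blocks being parameters. -/
def trivStage (Γ : Type u) [Group Γ] (T : Var k) : Stage k Γ where
  P := T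
  J := univ
  ρ _ := 1
  triv _ _ := rfl
  stab γ x := ⟨x, fun v hv => by
    have : blin (fun i => (1 : Γ →* Matrix (Fin (T.n i + 1)) (Fin (T.n i + 1)) k) γ) v = v := by
      funext a
      simp [blin, Matrix.one_apply]
    rwa [this]⟩

/-- Add a trivial summand in position `0`. -/
def plus {N : ℕ} (r : Γ →* Matrix (Fin N) (Fin N) k) : Γ →* Matrix (Fin (N + 1)) (Fin (N + 1)) k where
  toFun γ := Matrix.of (Fin.cons (Fin.cons 1 0) fun s => Fin.cons 0 (r γ s))
  map_one' := by
    ext a b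
    refine Fin.cases ?_ (fun a => ?_) a <;> refine Fin.cases ?_ (fun b => ?_) b <;>
      simp [Matrix.one_apply, (Fin.succ_ne_zero _).symm]
  map_mul' γ δ := by
    ext a b
    refine Fin.cases ?_ (fun a => ?_) a <;> refine Fin.cases ?_ (fun b => ?_) b <;>
      simp [Matrix.mul_apply, Fin.sum_univ_succ]

variable [IsAlgClosed k]

/-- The product of two stages. -/
noncomputable def Stage.prod (S S' : Stage k Γ) : Stage k Γ where
  P := pvVar S.P S'.P
  J := {i | Sum.elim (· ∈ S.J) (· ∈ S'.J) i}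
  ρ
    | Sum.inl i => S.ρ i
    | Sum.inr i => S'.ρ i
  triv
    | Sum.inl i, hi => S.triv i hi
    | Sum.inr i, hi => S'.triv i hi
  stab γ x := ⟨pvM ((S.act γ).1 (pvP x)) ((S'.act γ).1 (pvQ x)), fun _ hv i => match i with
    | Sum.inl i => S.act_rep γ (pvP x) (pv_rep_fst hv) i
    | Sum.inr i => S'.act_rep γ (pvQ x) (pv_rep_snd hv) i⟩

/-- The first projection. -/
def pvF (X Y : Var k) : Mor (pvVar X Y) X := ⟨pvP, pv_isMor_P⟩

/-- The second projection. -/
def pvS (X Y : Var k) : Mor (pvVar X Y) Y := ⟨pvQ, pv_isMor_Q⟩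

lemma isProd_pv (X Y : Var k) : IsProd (pvF X Y) (pvS X Y) := isProd_of
  (fun _ f g => ⟨⟨fun x => pvM (f.1 x) (g.1 x), pv_isMor_M f.2 g.2⟩, fun _ => rfl, fun _ => rfl⟩)
  fun _ _ h1 h2 => pv_ext' h1 h2

/-- Projective space. -/
noncomputable abbrev PN (k : Type u) [Field k] [IsAlgClosed k] (N : ℕ) : Var k :=
  amb k fun _ : Unit => N

/-- Projective space with a linear action. -/
noncomputable def projStage {N : ℕ} (r : Γ →* Matrix (Fin (N + 1)) (Fin (N + 1)) k) :
    Stage k Γ where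
  P := PN k N
  J := ∅
  ρ _ := r
  triv _ h := h.elim
  stab γ x := by
    have key : ∀ v : Vars (fun _ : Unit => N) → k, (fun s => v ⟨(), s⟩) ≠ 0 →
        (fun s => blin (fun _ => r γ) v ⟨(), s⟩) ≠ 0 := fun v hv h => hv (by
      have h1 : (r γ).mulVec (fun s => v ⟨(), s⟩) = 0 := h
      have h2 := congrArg (r γ⁻¹).mulVec h1
      rwa [Matrix.mulVec_mulVec, ← map_mul, inv_mul_cancel, map_one, Matrix.one_mulVec,
        Matrix.mulVec_zero] at h2)
    refine ⟨⟨ambPt (blin (fun _ => r γ) x.1.rep) fun _ => key _ (isRep_rep x.1 ()).1, trivial⟩,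
      fun v hv => ?_⟩
    obtain ⟨t, ht, rfl⟩ := (isRep_rep x.1).exists_smul hv
    have e : blin (fun _ => r γ) (fun a : Vars fun _ : Unit => N => t a.1 * x.1.rep a) =
        fun a => t a.1 * blin (fun _ => r γ) x.1.rep a := by
      funext a
      simp only [blin, Finset.mul_sum, smul_eq_mul, mul_left_comm]
      rfl
    exact e ▸ (amb_isRep (blin (fun _ => r γ) x.1.rep)
      fun _ => key _ (isRep_rep x.1 ()).1).smul t ht

/-- Add a projective space with a linear action. -/
noncomputable abbrev Stage.ext (S : Stage k Γ) {N : ℕ}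
    (r : Γ →* Matrix (Fin (N + 1)) (Fin (N + 1)) k) : Stage k Γ := S.prod (projStage r)

/-- Add the projective closure of the line bundle given by the block `i`. -/
noncomputable abbrev Stage.lb (S : Stage k Γ) (i : S.P.ι) : Stage k Γ := S.ext (plus (S.ρ i))

/-- The morphism `x ↦ [0 : x_i]`. -/
noncomputable def Var.infS (X : Var k) (i : X.ι) : Mor X (PN k (X.n i + 1)) :=
  ⟨fun x => ⟨ambPt (fun a => Fin.cons (α := fun _ => k) 0 (x.1 i).rep a.2) fun _ h =>
      (x.1 i).rep_nonzero (funext fun s => congrFun h s.succ), trivial⟩,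
    isMor_of_global (fun a => Fin.cons (α := fun _ => MvPolynomial (Vars X.n) k) 0
      (fun s => MvPolynomial.X ⟨i, s⟩) a.2) fun y v hv => by
        obtain ⟨t, ht, rfl⟩ := (isRep_rep y.1).exists_smul hv
        have := (amb_isRep (n := fun _ : Unit => X.n i + 1)
          (fun a => Fin.cons (α := fun _ => k) 0 (y.1 i).rep a.2) fun _ h =>
            (y.1 i).rep_nonzero (funext fun s => congrFun h s.succ)).smul (fun _ => t i)
              (fun _ => ht i)
        have e : (fun s : Vars fun _ : Unit => X.n i + 1 => eval (fun a => t a.1 * y.1.rep a)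
            (Fin.cons (α := fun _ => MvPolynomial (Vars X.n) k) 0
              (fun s => MvPolynomial.X ⟨i, s⟩) s.2)) =
            fun a => t i * Fin.cons (α := fun _ => k) 0 (y.1 i).rep a.2 := by
          funext ⟨_, s⟩
          refine Fin.cases ?_ (fun s => ?_) s <;> simp [MP.rep]
        exact e ▸ this⟩

/-- The section at infinity `x ↦ (x, [0 : x_i])`. -/
noncomputable def Var.inf (X : Var k) (i : X.ι) : Mor X (pvVar X (PN k (X.n i + 1))) :=
  ⟨fun x => pvM x ((X.infS i).1 x), pv_isMor_M isMor_id (X.infS i).2⟩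

/-- The hyperplane at infinity of the last block. -/
def hInf (X : Var k) (N : ℕ) : Set (pvVar X (PN k (N + 1))).pts :=
  {x | Vanish (MvPolynomial.X ⟨Sum.inr (), 0⟩) x.1}

/-- The zero section of the last block. -/
def zSec (X : Var k) (N : ℕ) : Set (pvVar X (PN k (N + 1))).pts :=
  {x | ∀ s : Fin (N + 1), Vanish (MvPolynomial.X ⟨Sum.inr (), s.succ⟩) x.1}

omit [IsAlgClosed k]

/-- The non-parameter part and the parameter part of `v` are independent. -/
def Stage.Free (S : Stage k Γ) {Ω : Type u} [Field Ω] [Algebra k Ω] (v : Vars S.P.n → Ω) : Prop :=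
  rk k (rat univ v) = rk k (rat S.J v) + rk k (rat S.Jᶜ v)

variable {K : Type v} [Field K] (W : Weil.{u, v, w} k K)

/-- Integration of `β` over a subvariety. -/
def Weil.ph {X : Var k} (β : W.H X) (C : Set X.pts) : K := W.tr X (W.cl X C * β)

/-- Invariant classes. -/
def Weil.Inv (S : Stage k Γ) (β : W.H S.P) : Prop := ∀ γ, W.pull (S.act γ) β = β

/-- `β` kills the decomposable subvarieties. -/
def Weil.Kill (S : Stage k Γ) (β : W.H S.P) : Prop :=
  ∀ (Ω : Type u) [Field Ω] [Algebra k Ω] (v : Vars S.P.n → Ω), S.P.On v → S.Free v →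
    W.ph β (S.P.loc v) = 0

/-- Invariant classes that kill the decomposable subvarieties and `𝓓` kill `𝓡`. -/
def Weil.Dec (S : Stage k Γ) (𝓡 𝓓 : Set (Set S.P.pts)) : Prop :=
  ∀ m, ∀ β ∈ W.gr S.P (2 * m), W.Inv S β → W.Kill S β → (∀ C ∈ 𝓓, W.ph β C = 0) →
    ∀ C ∈ 𝓡, W.ph β C = 0

/-- A multiple of `cl V * η` is a positive combination of the components of `V ∩ H`. -/
def Weil.CutAt {X : Var k} (η : W.H X) (V H : Set X.pts) : Prop :=
  ∃ (a : ℕ) (s : Finset (Set X.pts)) (μ : Set X.pts → ℕ), 0 < a ∧ (∀ C, C ∈ s ↔ IsComp C (V ∩ H)) ∧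
    (∀ C ∈ s, 0 < μ C ∧ dim C + 1 = dim V) ∧ a • (W.cl X V * η) = ∑ C ∈ s, μ C • W.cl X C

/-- The cohomology is spanned by homogeneous classes with algebraic exterior square. -/
def Weil.SqT (X : Var k) : Prop :=
  Submodule.span K {z | (∃ i, z ∈ W.gr X i) ∧ ∀ (P : Var k) (p q : Mor P X), IsProd p q →
    W.pull p z * W.pull q z ∈ W.Alg P} = ⊤

/-- A family of points, one set for each algebraically closed extension. -/
abbrev Fam (k : Type u) [Field k] (σ : Type) : Type (u + 1) :=
  ∀ (Ω : Type u) [Field Ω] [Algebra k Ω] [IsAlgClosed Ω], (σ → Ω) → Prop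

/-- A family of relations, one for each algebraically closed extension. -/
abbrev FRel (k : Type u) [Field k] (σ : Type) : Type (u + 1) :=
  ∀ (Ω : Type u) [Field Ω] [Algebra k Ω] [IsAlgClosed Ω], (σ → Ω) → (σ → Ω) → Prop

/-- The loci of the points of a family. -/
def Var.fam (X : Var k) (R : Fam k (Vars X.n)) : Set (Set X.pts) :=
  {C | ∃ (Ω : Type u) (_ : Field Ω) (_ : Algebra k Ω) (_ : IsAlgClosed Ω) (v : Vars X.n → Ω),
    R Ω v ∧ C = X.loc v}

/-- Evaluate a family of polynomials. -/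
noncomputable def evs {σ α R : Type*} [CommRing R] [Algebra k R] (h : σ → R)
    (F : α → MvPolynomial σ k) : α → R := fun a => aeval h (F a)

/-- Frames: a closed subset of an affine space with an action of `Γ`. -/
structure FrD (k : Type u) [Field k] (Γ : Type u) [Group Γ] where
  σ : Type
  [fin : Fintype σ]
  E : Set (MvPolynomial σ k)
  act : Γ → σ → MvPolynomial σ k
  stab : ∀ γ (Ω : Type u) [Field Ω] [Algebra k Ω] (h : σ → Ω), (∀ e ∈ E, aeval h e = 0) →
    ∀ e ∈ E, aeval (evs h (act γ)) e = 0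

attribute [instance] FrD.fin

/-- `h` is a frame. -/
def FrD.Fr (D : FrD k Γ) {Ω : Type u} [Field Ω] [Algebra k Ω] (h : D.σ → Ω) : Prop :=
  ∀ e ∈ D.E, aeval h e = 0

/-- The family `F` of polynomials on frames is equivariant for the representation `r`. -/
def FrD.Equi (D : FrD k Γ) {ε : Type} [Fintype ε] [DecidableEq ε] (r : Γ →* Matrix ε ε k)
    (F : ε → MvPolynomial D.σ k) : Prop :=
  ∀ γ (Ω : Type u) [Field Ω] [Algebra k Ω] (h : D.σ → Ω), D.Fr h → ∀ s,
    aeval (evs h (D.act γ)) (F s) = ∑ s', r γ s s' • aeval h (F s')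

/-- The family `F` has no common zero on frames. -/
def FrD.NV (D : FrD k Γ) {ε : Type} (F : ε → MvPolynomial D.σ k) : Prop :=
  ∀ (Ω : Type u) [Field Ω] [Algebra k Ω] (h : D.σ → Ω), D.Fr h → ∃ s, aeval h (F s) ≠ 0

/-- The points of a stage that come from frames. -/
def FrD.famR (D : FrD k Γ) (S : Stage k Γ) (pt : Vars S.P.n → MvPolynomial D.σ k) :
    Fam k (Vars S.P.n) :=
  fun _ _ _ _ v => S.P.On v ∧ ∃ h, D.Fr h ∧ ParOn S.Jᶜ (evs h pt) v

/-- Integral lifting: an integral point that comes from a frame reduces into the boundary or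
comes from an integral frame. -/
def FrD.IL (D : FrD k Γ) (S : Stage k Γ) (pt : Vars S.P.n → MvPolynomial D.σ k)
    (bd : Set (Set S.P.pts)) : Prop :=
  ∀ (Ω Ω' : Type u) [Field Ω] [Algebra k Ω] [IsAlgClosed Ω] [Field Ω'] [Algebra k Ω']
    [IsAlgClosed Ω'] (Pl : Place k Ω Ω') (v : Vars S.P.n → Ω) (h : D.σ → Ω), S.P.On v → D.Fr h →
    ParOn S.Jᶜ (evs h pt) v → (∀ a, v a ∈ Pl.O) → NZb (fun a => Pl.red (v a)) →
    S.P.loc (fun a => Pl.red (v a)) ∈ bd ∨
      ∃ h', D.Fr h' ∧ ParOn S.Jᶜ (evs h' pt) v ∧ ∀ s, h' s ∈ Pl.O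

/-- A quotient of the frames presented inside a stage, with its boundary. -/
structure Level (D : FrD k Γ) where
  S : Stage k Γ
  pt : Vars S.P.n → MvPolynomial D.σ k
  bd : Set (Set S.P.pts)
  nz : ∀ i ∉ S.J, D.NV fun s => pt ⟨i, s⟩
  equi : ∀ i ∉ S.J, D.Equi (S.ρ i) fun s => pt ⟨i, s⟩
  prod : ∀ (Ω : Type u) [Field Ω] [Algebra k Ω] (v : Vars S.P.n → Ω) (h : D.σ → Ω), S.P.On v →
    D.Fr h → S.P.On (mix S.J v (evs h pt))
  closed : SubCl bd
  il : D.IL S pt bd

variable {D : FrD k Γ}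

/-- The loci of the points of a level. -/
def Level.R (L : Level D) : Set (Set L.S.P.pts) := L.S.P.fam (D.famR L.S L.pt)

/-- Two frames have the same image. -/
def Level.Eqv (L : Level D) {Ω : Type u} [Field Ω] [Algebra k Ω] (h h' : D.σ → Ω) : Prop :=
  ParOn L.S.Jᶜ (evs h L.pt) (evs h' L.pt)

/-- The function `f` on frames comes from a regular function on the level. -/
def Level.Reg (L : Level D) (f : MvPolynomial D.σ k) : Prop :=
  ∃ (d : L.S.P.ι →₀ ℕ) (F G : MvPolynomial (Vars L.S.P.n) k), IsForm d F ∧ IsForm d G ∧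
    (∀ i ∈ L.S.J, d i = 0) ∧
    ∀ (Ω : Type u) [Field Ω] [Algebra k Ω] (h : D.σ → Ω), D.Fr h →
      aeval (evs h L.pt) G ≠ 0 ∧ aeval (evs h L.pt) F = aeval h f * aeval (evs h L.pt) G

/-- Every level with equivalence relation `e` on which the members of `V` are regular has the
property `Dec`. -/
def Weil.Good (D : FrD k Γ) (e : FRel k D.σ) (V : Set (MvPolynomial D.σ k)) : Prop :=
  ∀ L : Level D, (∀ (Ω : Type u) [Field Ω] [Algebra k Ω] [IsAlgClosed Ω] (h h' : D.σ → Ω),
    D.Fr h → D.Fr h' → (L.Eqv h h' ↔ e Ω h h')) → (∀ f ∈ V, L.Reg f) → W.Dec L.S L.R L.bd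

end Pool.Agent.MP_0c8446_ag
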