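import Pool.Agent.MP_0c8446_ag.DL.GLDefs

namespace Pool.Agent.MP_0c8446_ag

open MvPolynomial Set

universe u v w

variable {k : Type u} [Field k] {n c : ℕ} {R : Type u} [CommRing R]

lemma PlB_eq (x : Fin c → Fin n → R) (α : Fin c → Fin n) :
    pl x α = ∑ σ : Equiv.Perm (Fin c), ((Equiv.Perm.sign σ : ℤ) : R) * ∏ l, x (σ l) (α l) := by
  rw [pl, ← Matrix.det_transpose, Matrix.det_apply']
  rfl

lemma PlB_lap (u : Fin c → Fin n → R) (x : Fin n → R) (α : Fin (c + 1) → Fin n) :
    pl (Fin.snoc u x : Fin (c + 1) → Fin n → R) α =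
      ∑ l : Fin (c + 1), (-1) ^ (l + c : ℕ) * x (α l) * pl u fun i => α (l.succAbove i) := by
  rw [pl, Matrix.det_succ_column _ (Fin.last c)]
  refine Finset.sum_congr rfl fun l _ => ?_
  have e : (Matrix.of fun l m => (Fin.snoc u x : Fin (c + 1) → Fin n → R) m (α l)).submatrix
      l.succAbove (Fin.last c).succAbove = Matrix.of fun i m => u m (α (l.succAbove i)) := by
    ext i m
    simp
  rw [e, Matrix.of_apply, Fin.snoc_last, Fin.val_last, pl]

theorem pl_map {R' F : Type*} [CommRing R'] [FunLike F R R'] [RingHomClass F R R'] (φ : F)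
    (x : Fin c → Fin n → R) (α : Fin c → Fin n) :
    φ (pl x α) = pl (fun m i => φ (x m i)) α := by
  simp only [PlB_eq, map_sum, map_mul, map_prod, map_intCast]

theorem aeval_pl {σ : Type} [Algebra k R] (h : σ → R) (x : Fin c → Fin n → MvPolynomial σ k)
    (α : Fin c → Fin n) : aeval h (pl x α) = pl (fun m => evs h (x m)) α :=
  pl_map (aeval (R := k) h) x α

/-- The Plücker coordinates are equivariant. -/
theorem pl_smul [Algebra k R] (g : Matrix (Fin n) (Fin n) k) (x : Fin c → Fin n → R)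
    (α : Fin c → Fin n) :
    pl (fun m i => ∑ j, g i j • x m j) α = ∑ β, tpH k n c g α β • pl x β := by
  simp only [PlB_eq, Finset.prod_univ_sum, Fintype.piFinset_univ, Finset.prod_smul,
    Finset.mul_sum, Finset.smul_sum, tpH_apply, mul_smul_comm]
  exact Finset.sum_comm

theorem pl_mul (x : Fin c → Fin n → R) (u : Matrix (Fin c) (Fin c) R) (α : Fin c → Fin n) :
    pl (fun m i => ∑ l, x l i * u l m) α = pl x α * u.det := by
  rw [pl, pl, ← Matrix.det_mul]
  rfl

theorem pl_snoc_add (u : Fin c → Fin n → R) (x y : Fin n → R) (α : Fin (c + 1) → Fin n) :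
    pl (Fin.snoc u (x + y) : Fin (c + 1) → Fin n → R) α =
      pl (Fin.snoc u x : Fin (c + 1) → Fin n → R) α +
        pl (Fin.snoc u y : Fin (c + 1) → Fin n → R) α := by
  simp only [PlB_lap, Pi.add_apply, mul_add, add_mul, Finset.sum_add_distrib]

theorem pl_snoc_smul (u : Fin c → Fin n → R) (t : R) (x : Fin n → R) (α : Fin (c + 1) → Fin n) :
    pl (Fin.snoc u (t • x) : Fin (c + 1) → Fin n → R) α =
      t * pl (Fin.snoc u x : Fin (c + 1) → Fin n → R) α := by
  simp only [PlB_lap, Pi.smul_apply, smul_eq_mul, Finset.mul_sum]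
  exact Finset.sum_congr rfl fun l _ => by ring

theorem pl_snoc_of_mem {u : Fin c → Fin n → R} {x : Fin n → R}
    (h : x ∈ Submodule.span R (range u)) (α : Fin (c + 1) → Fin n) :
    pl (Fin.snoc u x : Fin (c + 1) → Fin n → R) α = 0 := by
  induction h using Submodule.span_induction with
  | mem x hx =>
    obtain ⟨m, rfl⟩ := hx
    exact Matrix.det_zero_of_column_eq (Fin.castSucc_ne_last m) fun l => by simp
  | zero => simp [PlB_lap]
  | add x y _ _ h1 h2 => rw [pl_snoc_add, h1, h2, add_zero]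
  | smul t x _ h1 => rw [pl_snoc_smul, h1, mul_zero]

theorem pl_one (x : Fin 1 → Fin n → R) (α : Fin 1 → Fin n) : pl x α = x 0 (α 0) :=
  Matrix.det_fin_one _

theorem pl_ne_zero_iff {x : Fin c → Fin n → k} : (∃ α, pl x α ≠ 0) ↔ LinearIndependent k x := by
  constructor
  · rintro ⟨α, h⟩
    exact LinearIndependent.of_comp (LinearMap.funLeft k k α)
      (Matrix.linearIndependent_cols_of_det_ne_zero h)
  · intro h
    have h1 : Submodule.span k (range (Matrix.of x).col) = ⊤ := by
      apply Submodule.eq_top_of_finrank_eq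
      rw [← Matrix.rank_eq_finrank_span_cols, LinearIndependent.rank_matrix (M := Matrix.of x) h,
        Module.finrank_fintype_fun_eq_card]
    obtain ⟨κ, a, -, h2, h3⟩ := exists_linearIndependent' k (Matrix.of x).col
    let e := (Pi.basisFun k (Fin c)).indexEquiv (Module.Basis.mk h3 (h2.trans h1).ge)
    refine ⟨fun l => a (e l), ?_⟩
    have h4 : IsUnit (Matrix.of fun l m => x m (a (e l))) :=
      Matrix.linearIndependent_rows_iff_isUnit.1 (h3.comp e e.injective)
    exact ((Matrix.isUnit_iff_isUnit_det _).1 h4).ne_zero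

theorem mem_span_of_pl {u : Fin c → Fin n → k} {x : Fin n → k} (hu : LinearIndependent k u)
    (h : ∀ α, pl (Fin.snoc u x : Fin (c + 1) → Fin n → k) α = 0) :
    x ∈ Submodule.span k (range u) := by
  by_contra hx
  obtain ⟨α, h1⟩ := pl_ne_zero_iff.2 (linearIndependent_finSnoc.2 ⟨hu, hx⟩)
  exact h1 (h α)

/-- Proportional Plücker coordinates define the same subspace. -/
theorem span_eq_of_pl {x x' : Fin c → Fin n → k} (hx : LinearIndependent k x) {t : k} (ht : t ≠ 0)
    (h : ∀ α, pl x' α = t * pl x α) :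
    Submodule.span k (range x') = Submodule.span k (range x) := by
  have hx' : LinearIndependent k x' := by
    obtain ⟨α, h1⟩ := pl_ne_zero_iff.2 hx
    exact pl_ne_zero_iff.1 ⟨α, by rw [h]; exact mul_ne_zero ht h1⟩
  have key : ∀ y α, pl (Fin.snoc x' y : Fin (c + 1) → Fin n → k) α =
      t * pl (Fin.snoc x y : Fin (c + 1) → Fin n → k) α := fun y α => by
    simp only [PlB_lap, h, Finset.mul_sum]
    exact Finset.sum_congr rfl fun l _ => by ring
  ext y
  refine ⟨fun hy => mem_span_of_pl hx fun α => ?_, fun hy => mem_span_of_pl hx' fun α => ?_⟩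
  · exact (mul_eq_zero.1 ((key y α).symm.trans (pl_snoc_of_mem hy α))).resolve_left ht
  · rw [key, pl_snoc_of_mem hy, mul_zero]

theorem exists_pl_of_span {x x' : Fin c → Fin n → k} (hx : LinearIndependent k x')
    (h : ∀ m, x' m ∈ Submodule.span k (range x)) :
    ∃ t : k, t ≠ 0 ∧ ∀ α, pl x' α = t * pl x α := by
  choose u hu using fun m => (Submodule.mem_span_range_iff_exists_fun k).1 (h m)
  have e : x' = fun m i => ∑ l, x l i * (Matrix.of fun l m => u m l) l m := by
    funext m i
    rw [← hu m]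
    simp [mul_comm]
  have key : ∀ α, pl x' α = (Matrix.of fun l m => u m l).det * pl x α := fun α => by
    rw [mul_comm, ← pl_mul, ← e]
  obtain ⟨α, h1⟩ := pl_ne_zero_iff.2 hx
  exact ⟨_, fun h0 => h1 (by rw [key, h0, zero_mul]), key⟩

theorem FrD.Equi.wedge {Γ : Type u} [Group Γ] {D : FrD k Γ} {ρ : Γ →* Matrix (Fin n) (Fin n) k}
    {x : Fin c → Fin n → MvPolynomial D.σ k} (h : ∀ m, D.Equi ρ (x m)) :
    D.Equi ((tpH k n c).comp ρ) (pl x) := by
  intro γ Ω _ _ hh hF α
  have e : (fun m => evs (evs hh (D.act γ)) (x m)) =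
      fun m i => ∑ j, ρ γ i j • evs hh (x m) j := funext fun m => funext fun i => h m γ Ω hh hF i
  simp only [aeval_pl]
  rw [e, pl_smul]
  rfl

theorem cols_mul [Algebra k R] (γ : Matrix (Fin n) (Fin n) k) (g : Matrix (Fin n) (Fin n) R)
    (a : Fin n) :
    cols (γ.map (algebraMap k R) * g) a = fun m i => ∑ j, γ i j • cols g a m j := by
  funext m i
  simp [cols, Matrix.mul_apply, Algebra.smul_def]

variable {r : ℕ} {N : Fin n → ℕ} (cc : ∀ a : Fin n, Fin (N a + 1) ≃ (Fin (a + 1) → Fin n))

theorem plV_map {R' F : Type*} [CommRing R'] [FunLike F R R'] [RingHomClass F R R'] (φ : F)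
    (g : Fin (r + 1) → Matrix (Fin n) (Fin n) R) :
    (fun s => φ (plV cc g s)) = plV cc fun j => (g j).map φ :=
  funext fun _ => pl_map φ _ _

theorem plV_mul [Algebra k R] (γ : Matrix (Fin n) (Fin n) k)
    (g : Fin (r + 1) → Matrix (Fin n) (Fin n) R) :
    plV cc (fun j => γ.map (algebraMap k R) * g j) =
      blin (fun i : Fin (r + 1) × Fin n => plR k cc i.2 γ) (plV cc g) := by
  funext s
  rw [plV, cols_mul, pl_smul]
  exact (Equiv.sum_comp (cc s.1.2)
    fun β => tpH k n _ γ (cc s.1.2 s.2) β • pl (cols (g s.1.1) s.1.2) β).symm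

theorem evs_plV_mM [Algebra k R] (h : GS r n → R) :
    evs h (plV cc (mM (X : GS r n → MvPolynomial (GS r n) k))) = plV cc (mM h) :=
  (plV_map cc (aeval (R := k) h) _).trans (congrArg (plV cc) (funext fun j => by
    ext a b
    simp [mM]))

theorem evs_ptY [Algebra k R] (y : Fin (r + 1) → Equiv.Perm (Fin n)) (h : GS r n → R) :
    evs h (ptY cc y (X : GS r n → MvPolynomial (GS r n) k)) = ptY cc y h := by
  have e : evs h (plV cc (secM y (X : GS r n → MvPolynomial (GS r n) k))) = plV cc (secM y h) :=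
    (plV_map cc (aeval (R := k) h) _).trans (congrArg (plV cc) (funext fun j => by
      ext a b
      simp [secM, mI]))
  funext ⟨i, s⟩
  cases i with
  | inl i => exact congrFun (evs_plV_mM cc h) ⟨i, s⟩
  | inr i => exact congrFun e ⟨i, s⟩

end Pool.Agent.MP_0c8446_ag
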