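import Pool.Agent.MP_0c8446_ag.DL.Plc

namespace Pool.Agent.MP_0c8446_ag

open MvPolynomial Set

universe u v w

variable {k : Type u} [Field k] {Ω Ω' : Type u} [Field Ω] [Algebra k Ω] [Field Ω'] [Algebra k Ω']

/-- graphs of homomorphisms defined on subalgebras -/
def Plc2AFn (G : Subalgebra k (Ω × Ω')) : Prop := ∀ z ∈ G, z.1 = 0 → z.2 = 0

theorem Plc2A_max {G₀ : Subalgebra k (Ω × Ω')} (h : Plc2AFn G₀) :
    ∃ G, G₀ ≤ G ∧ Maximal Plc2AFn G := by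
  refine zorn_le_nonempty₀ {G | Plc2AFn G} (fun c hc hc' y hy => ?_) G₀ h
  have : Nonempty c := ⟨⟨y, hy⟩⟩
  refine ⟨⨆ i : c, i.1, fun z hz => ?_, fun z hz => le_iSup (fun i : c => i.1) ⟨z, hz⟩⟩
  rw [← SetLike.mem_coe, Subalgebra.coe_iSup_of_directed hc'.directed] at hz
  obtain ⟨i, hi⟩ := mem_iUnion.1 hz
  exact hc i.2 z hi

theorem Plc2A_inv {G : Subalgebra k (Ω × Ω')} (h : Maximal Plc2AFn G) {z : Ω × Ω'} (hz : z ∈ G)
    (h0 : z.2 ≠ 0) : z⁻¹ ∈ G := by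
  let G' : Subalgebra k (Ω × Ω') :=
    { carrier := {w | ∃ n : ℕ, w * z ^ n ∈ G}
      mul_mem' := by
        rintro a b ⟨m, ha⟩ ⟨n, hb⟩
        exact ⟨m + n, by convert mul_mem ha hb using 1; ring⟩
      add_mem' := by
        rintro a b ⟨m, ha⟩ ⟨n, hb⟩
        exact ⟨m + n, by
          convert add_mem (mul_mem ha (pow_mem hz n)) (mul_mem hb (pow_mem hz m)) using 1; ring⟩
      algebraMap_mem' := fun c => ⟨0, by rw [pow_zero, mul_one]; exact G.algebraMap_mem c⟩ }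
  have h1 : Plc2AFn G' := by
    rintro w ⟨n, hw⟩ hw0
    have h2 := h.1 _ hw (by simp [hw0])
    simpa [h0] using h2
  refine h.2 h1 (fun w hw => ⟨0, by simpa using hw⟩) ⟨1, ?_⟩
  have h3 : z.1 ≠ 0 := fun h3 => h0 (h.1 z hz h3)
  have h4 : z⁻¹ * z ^ 1 = 1 := Prod.ext (by simp [h3]) (by simp [h0])
  rw [h4]
  exact one_mem G

theorem Plc2A_ext {G : Subalgebra k (Ω × Ω')} (h : Maximal Plc2AFn G) {z : Ω × Ω'}
    (hz : ∀ p : Polynomial G, (p.aeval z).1 = 0 → (p.aeval z).2 = 0) : z ∈ G := by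
  refine h.2 (y := ((Polynomial.aeval z : Polynomial G →ₐ[G] Ω × Ω').restrictScalars k).range)
    ?_ (fun w hw => ⟨Polynomial.C ⟨w, hw⟩, by simp⟩) ⟨Polynomial.X, by simp⟩
  rintro _ ⟨p, rfl⟩
  exact hz p

theorem Plc2A_val [IsAlgClosed Ω'] {G : Subalgebra k (Ω × Ω')} (h : Maximal Plc2AFn G)
    (V : ValuationSubring Ω) (h1 : ∀ z ∈ G, z.2 = 0 → V.valuation z.1 < 1) {x : Ω} (hx : x ∈ V) :
    ∃ y, (x, y) ∈ G := by
  let κ : Subfield Ω' :=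
    { (G.map (AlgHom.snd k Ω Ω')).toSubring with
      inv_mem' := by
        rintro _ ⟨z, hz, rfl⟩
        by_cases h0 : z.2 = 0
        · exact ⟨z, hz, by simp [h0]⟩
        · exact ⟨z⁻¹, Plc2A_inv h hz h0, rfl⟩ }
  let f : G →+* Ω := (RingHom.fst Ω Ω').comp (algebraMap G (Ω × Ω'))
  let ψ : G →+* κ := ((RingHom.snd Ω Ω').comp (algebraMap G (Ω × Ω'))).codRestrict κ
    fun z => ⟨z, z.2, rfl⟩
  have hψ : Function.Surjective ψ := by
    rintro ⟨_, z, hz, rfl⟩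
    exact ⟨⟨z, hz⟩, rfl⟩
  have hψ' : Function.Surjective (Polynomial.mapRingHom ψ) := Polynomial.map_surjective ψ hψ
  let J := (RingHom.ker (Polynomial.eval₂RingHom f x)).map (Polynomial.mapRingHom ψ)
  have hJ : J ≠ ⊤ := by
    intro hJ
    obtain ⟨p, hp, hp1⟩ := (Ideal.mem_map_iff_of_surjective _ hψ').1 ((Ideal.eq_top_iff_one J).1 hJ)
    have h2 : (1 - p).map ψ = 0 := by
      rw [Polynomial.map_sub, Polynomial.map_one]
      exact sub_eq_zero.2 hp1.symm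
    have h3 : (1 - p).eval₂ f x = 1 := by
      rw [Polynomial.eval₂_sub, Polynomial.eval₂_one]
      exact sub_eq_self.2 hp
    have h4 : V.valuation ((1 - p).eval₂ f x) < 1 := by
      rw [Polynomial.eval₂_eq_sum_range]
      refine V.valuation.map_sum_lt one_ne_zero fun i _ => ?_
      have h5 := congrArg (fun q => (q.coeff i : Ω')) h2
      simp only [Polynomial.coeff_map, Polynomial.coeff_zero] at h5
      rw [map_mul, map_pow]
      exact (mul_le_of_le_one_right' (pow_le_one' ((V.valuation_le_one_iff x).2 hx) i)).trans_lt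
        (h1 _ ((1 - p).coeff i).2 h5)
    rw [h3, map_one] at h4
    exact h4.false
  obtain ⟨g, hg⟩ := (IsPrincipalIdealRing.principal J).principal
  obtain ⟨y, hy⟩ := IsAlgClosed.exists_aeval_eq_zero Ω' g fun h0 =>
    hJ (hg.trans (Ideal.span_singleton_eq_top.2 (Polynomial.isUnit_iff_degree_eq_zero.2 h0)))
  refine ⟨y, Plc2A_ext h fun p hp => ?_⟩
  have h2 : (p.aeval (x, y)).1 = p.eval₂ f x :=
    Polynomial.hom_eval₂ p _ (RingHom.fst Ω Ω') (x, y)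
  have h3 : (p.aeval (x, y)).2 = (p.map ψ).aeval y :=
    (Polynomial.hom_eval₂ p _ (RingHom.snd Ω Ω') (x, y)).trans
      (Polynomial.eval₂_map ψ (algebraMap κ Ω') y).symm
  have h4 : p.map ψ ∈ J := Ideal.mem_map_of_mem _ (h2.symm.trans hp)
  obtain ⟨q, hq⟩ := Ideal.mem_span_singleton'.1 (hg ▸ h4)
  rw [h3, ← hq, map_mul, hy, mul_zero]

theorem Plc2A_main [IsAlgClosed Ω'] {G₀ : Subalgebra k (Ω × Ω')} (h₀ : Plc2AFn G₀) :
    ∃ Pl : Place k Ω Ω', ∀ z ∈ G₀, z.1 ∈ Pl.O ∧ Pl.red z.1 = z.2 := by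
  obtain ⟨G, hG, h⟩ := Plc2A_max h₀
  let f : G →ₐ[k] Ω := (AlgHom.fst k Ω Ω').comp G.val
  have hf : Function.Injective f := (injective_iff_map_eq_zero f).2 fun z hz =>
    Subtype.ext (Prod.ext hz (h.1 z z.2 hz))
  let π : f.range →ₐ[k] Ω' :=
    ((AlgHom.snd k Ω Ω').comp G.val).comp (AlgEquiv.ofInjective f hf).symm
  have hπ : ∀ z : G, π ⟨z.1.1, z, rfl⟩ = z.1.2 := fun z =>
    congrArg (fun w : G => w.1.2) ((AlgEquiv.ofInjective f hf).symm_apply_apply z)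
  obtain ⟨V, -, hV⟩ := Ideal.image_subset_nonunits_valuationSubring (A := f.range.toSubring)
    (RingHom.ker π.toRingHom) (RingHom.ker_ne_top _)
  have h1 : ∀ x ∈ V, x ∈ f.range := fun x hx => by
    obtain ⟨y, hy⟩ := Plc2A_val h V (fun z hz h0 =>
      V.mem_nonunits_iff.1 (hV ⟨⟨z.1, ⟨z, hz⟩, rfl⟩, (hπ ⟨z, hz⟩).trans h0, rfl⟩)) hx
    exact ⟨⟨_, hy⟩, rfl⟩
  refine ⟨⟨f.range, fun x => (V.mem_or_inv_mem x).imp (h1 _) (h1 _), π, ?_⟩, fun z hz =>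
    ⟨⟨⟨z, hG hz⟩, rfl⟩,
      (dif_pos (show z.1 ∈ f.range from ⟨⟨z, hG hz⟩, rfl⟩)).trans (hπ ⟨z, hG hz⟩)⟩⟩
  rintro ⟨_, z, rfl⟩ h0
  exact ⟨⟨z.1⁻¹, Plc2A_inv h z.2 fun h2 => h0 ((hπ z).trans h2)⟩, rfl⟩

/-- Extension of homomorphisms to places. -/
theorem exists_place' [IsAlgClosed Ω'] (B : Subalgebra k Ω) (φ : B →ₐ[k] Ω') :
    ∃ Pl : Place k Ω Ω', ∀ b : B, (b : Ω) ∈ Pl.O ∧ Pl.red b = φ b := by
  obtain ⟨Pl, h⟩ := Plc2A_main (G₀ := (B.val.prod φ).range) (by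
    rintro _ ⟨b, rfl⟩ hb
    obtain rfl : b = 0 := Subtype.ext hb
    exact map_zero φ)
  exact ⟨Pl, fun b => h _ ⟨b, rfl⟩⟩

theorem exists_place [IsAlgClosed Ω'] {σ : Type} {x : σ → Ω} {y : σ → Ω'} (h : kr k x ≤ kr k y) :
    ∃ Pl : Place k Ω Ω', ∀ s, x s ∈ Pl.O ∧ Pl.red (x s) = y s := by
  obtain ⟨Pl, h⟩ := Plc2A_main (G₀ := ((aeval (R := k) x).prod (aeval y)).range) (by
    rintro _ ⟨p, rfl⟩ hp
    exact h hp)
  exact ⟨Pl, fun s => h (x s, y s) ⟨X s, by simp⟩⟩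

theorem exists_place_pI [IsAlgClosed Ω'] {ι : Type} [Finite ι] {n : ι → ℕ} {v : Vars n → Ω}
    {u : Vars n → Ω'} (hu : NZb u) (h : pI k v ≤ pI k u) :
    ∃ (Pl : Place k Ω Ω') (v' : Vars n → Ω), ParOn univ v v' ∧ (∀ a, v' a ∈ Pl.O) ∧
      ParOn univ u fun a => Pl.red (v' a) := by
  choose s hs using hu
  have := Fintype.ofFinite (Vars n)
  have hv : ∀ i, v ⟨i, s i⟩ ≠ 0 := fun i h0 => hs i (by
    simpa using pI_le_iff.1 h _ _ (isForm_X ⟨i, s i⟩) (by simpa using h0))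
  have h1 := kr_frac_le (d := fun a : Vars n => Finsupp.single a.1 1) (F := fun a => X a)
    (G := fun a => X ⟨a.1, s a.1⟩) isForm_X (fun a => isForm_X ⟨a.1, s a.1⟩) h
    fun a => by simpa using hs a.1
  simp only [aeval_X] at h1
  obtain ⟨Pl, h2⟩ := exists_place h1
  refine ⟨Pl, _, fun i _ => ⟨_, inv_ne_zero (hv i), fun t => div_eq_inv_mul _ _⟩,
    fun a => (h2 a).1, fun i _ => ⟨_, inv_ne_zero (hs i), fun t => ?_⟩⟩
  exact (h2 ⟨i, t⟩).2.trans (div_eq_inv_mul _ _)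

end Pool.Agent.MP_0c8446_ag
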