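import Pool.Agent.MP_0c8446_ag.DL.Locus

namespace Pool.Agent.MP_0c8446_ag

open MvPolynomial Set

universe u v w

variable {k : Type u} [Field k] [IsAlgClosed k] {Ω : Type u} [Field Ω] [Algebra k Ω]
  {X Y : Var k} {Γ : Type u} [Group Γ]

theorem PolyA_vI {f : Mor X Y} {F : Vars Y.n → MvPolynomial (Vars X.n) k} (h : f.Poly F)
    {v : Vars X.n → Ω} (hv : X.On v) :
    vI (Subtype.val '' (f.1 '' X.loc v)) = pI k (evs v F) := by
  choose d hd using h.form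
  have key : ∀ c H, IsForm c H →
      (H ∈ vI (Subtype.val '' (f.1 '' X.loc v)) ↔ aeval (evs v F) H = 0) := fun c H hH => by
    have h1 := hH.comp hd
    rw [mem_vI, forall_mem_image, forall_mem_image, show aeval (evs v F) H = aeval v (aeval F H)
      from (comp_aeval_apply _ _ _).symm, ← hv.vanish_iff h1]
    refine forall₂_congr fun x _ => ?_
    rw [hH.vanish_iff (h.rep x _ (isRep_rep x.1)), h1.vanish_iff (isRep_rep x.1), eval_comp_aeval]
  ext g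
  rw [mem_pI_iff]
  refine ⟨fun hg c => (key c _ (isForm_cmp c g)).1 (cmp_mem_vI hg c), fun hg => ?_⟩
  rw [← sum_cmp g]
  exact Ideal.sum_mem _ fun c _ => (key c _ (isForm_cmp c g)).2 (hg c)

theorem PolyA_polyF : (pvF X Y).Poly fun s =>
    (MvPolynomial.X (pvL Y.n s) : MvPolynomial (Vars (pvVar X Y).n) k) := by
  refine ⟨fun j => ⟨Finsupp.single (Sum.inl j) 1, fun s => ?_⟩, fun x v hv => ?_⟩
  · exact isForm_X (n := (pvVar X Y).n) ⟨Sum.inl j, s⟩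
  · simp only [eval_X]
    exact pv_rep_fst hv

theorem PolyA_polyS : (pvS X Y).Poly fun s =>
    (MvPolynomial.X (pvR X.n s) : MvPolynomial (Vars (pvVar X Y).n) k) := by
  refine ⟨fun j => ⟨Finsupp.single (Sum.inr j) 1, fun s => ?_⟩, fun x v hv => ?_⟩
  · exact isForm_X (n := (pvVar X Y).n) ⟨Sum.inr j, s⟩
  · simp only [eval_X]
    exact pv_rep_snd hv

omit [IsAlgClosed k] in
theorem PolyA_evs {σ α : Type} (v : σ → Ω) (e : α → σ) :
    evs v (fun s => (MvPolynomial.X (e s) : MvPolynomial σ k)) = fun s => v (e s) := by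
  funext s
  simp only [evs, aeval_X]

theorem PolyA_mem {ι : Type} [Finite ι] {n : ι → ℕ} (e : Vars X.n → Vars n)
    (he : ∀ d F, IsForm d F → ∃ d', IsForm d' (rename e F : MvPolynomial (Vars n) k))
    {v : Vars n → Ω} (hv : X.On fun s => v (e s)) {x : MP k n} (hx : x ∈ loc k v) {y : MP k X.n}
    (hy : IsRep (fun s => x.rep (e s)) y) : y ∈ X.pts := by
  rw [← X.sub.2.closure_eq, mem_closure_vI]
  refine fun g hg => (vanish_iff_mem_pI hy).2 (pI_le_iff.2 (fun d F hF h0 => ?_) (hv.2 hg))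
  obtain ⟨d', h1⟩ := he d F hF
  have h2 := (h1.vanish_iff (isRep_rep x)).1 (hx _ (h1.mem_pI.2 ((aeval_rename _ _ _).trans h0)))
  rw [eval_rename] at h2
  exact h2

theorem Mor.Poly.loc {f : Mor X Y} {F : Vars Y.n → MvPolynomial (Vars X.n) k} (h : f.Poly F)
    {v : Vars X.n → Ω} (hv : X.On v) :
    Y.On (evs v F) ∧ Y.loc (evs v F) = closure (f.1 '' X.loc v) := by
  refine ⟨⟨fun j => ?_, PolyA_vI h hv ▸ vI_anti (Subtype.coe_image_subset _ _)⟩, ?_⟩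
  · obtain ⟨x, hx⟩ := hv.isSub.1.nonempty
    obtain ⟨s, hs⟩ := (h.rep x _ (isRep_rep x.1)).nzb j
    obtain ⟨d, hd⟩ := h.form j
    exact ⟨s, fun h0 => hs ((hv.vanish_iff (hd s)).2 h0 x hx _ (isRep_rep x.1))⟩
  · rw [Topology.IsInducing.subtypeVal.closure_eq_preimage_closure_image]
    ext y
    rw [mem_preimage, mem_closure_vI, PolyA_vI h hv]
    rfl

theorem on_pv_iff {v : Vars (pvVar X Y).n → Ω} :
    (pvVar X Y).On v ↔ X.On (fun s => v (pvL Y.n s)) ∧ Y.On fun s => v (pvR X.n s) := by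
  refine ⟨fun h => ⟨PolyA_evs (k := k) v _ ▸ (PolyA_polyF.loc h).1,
    PolyA_evs (k := k) v _ ▸ (PolyA_polyS.loc h).1⟩, fun h => ?_⟩
  have h0 : NZb v := fun i => match i with
    | Sum.inl i => h.1.1 i
    | Sum.inr i => h.2.1 i
  refine ⟨h0, vI_loc (k := k) h0 ▸ vI_anti fun x hx => ⟨?_, ?_⟩⟩
  · exact PolyA_mem _ (fun _ _ hF => ⟨_, hF.rename_L _⟩) h.1 hx (pv_rep_fst (isRep_rep x))
  · exact PolyA_mem _ (fun _ _ hF => ⟨_, hF.rename_R _⟩) h.2 hx (pv_rep_snd (isRep_rep x))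

theorem on_pvJoin {v : Vars X.n → Ω} {u : Vars Y.n → Ω} (hv : X.On v) (hu : Y.On u) :
    (pvVar X Y).On (pvJoin v u) := on_pv_iff.2 ⟨hv, hu⟩

theorem on_jn {N : ℕ} {v : Vars X.n → Ω} {z : Fin (N + 1) → Ω} (hv : X.On v) (hz : ∃ s, z s ≠ 0) :
    (pvVar X (PN k N)).On (jn v z) := on_pvJoin hv (on_amb fun _ => hz)

theorem loc_pvF {v : Vars (pvVar X Y).n → Ω} (hv : (pvVar X Y).On v) :
    closure ((pvF X Y).1 '' (pvVar X Y).loc v) = X.loc fun s => v (pvL Y.n s) := by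
  rw [← (PolyA_polyF.loc hv).2, PolyA_evs]

theorem loc_pvS {v : Vars (pvVar X Y).n → Ω} (hv : (pvVar X Y).On v) :
    closure ((pvS X Y).1 '' (pvVar X Y).loc v) = Y.loc fun s => v (pvR X.n s) := by
  rw [← (PolyA_polyS.loc hv).2, PolyA_evs]

omit [IsAlgClosed k] in
theorem jn_eta {ι : Type} {n : ι → ℕ} {N : ℕ} {R : Type*}
    (v : Vars (Sum.elim n fun _ : Unit => N) → R) :
    jn (fun s => v (pvL _ s)) (fun s => v ⟨Sum.inr (), s⟩) = v := by
  funext a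
  rcases a with ⟨i | i, s⟩ <;> rfl

omit [IsAlgClosed k] in
theorem parOn_jn {ι : Type} {n : ι → ℕ} {N : ℕ} {I : Set (ι ⊕ Unit)} (hI : Sum.inr () ∈ I)
    {v v' : Vars n → Ω} {z z' : Fin (N + 1) → Ω} :
    ParOn I (jn v z) (jn v' z') ↔
      ParOn (Sum.inl ⁻¹' I) v v' ∧ ∃ t : Ω, t ≠ 0 ∧ ∀ s, z' s = t * z s :=
  ⟨fun h => ⟨fun i hi => h (Sum.inl i) hi, h (Sum.inr ()) hI⟩, fun h i hi => match i, hi with
    | Sum.inl i, hi => h.1 i hi
    | Sum.inr _, _ => h.2⟩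

end Pool.Agent.MP_0c8446_ag
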