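import Pool.Agent.MP_0c8446_ag.DL.PolyA

namespace Pool.Agent.MP_0c8446_ag

open MvPolynomial Set

universe u v w

variable {k : Type u} [Field k] [IsAlgClosed k] {Ω : Type u} [Field Ω] [Algebra k Ω]
  {X Y : Var k} {Γ : Type u} [Group Γ]

omit [IsAlgClosed k] in
theorem PolyM_one {ι : Type} {n : ι → ℕ} (v : Vars n → k) : blin (k := k) (fun _ => 1) v = v := by
  funext a
  simp [blin, Matrix.one_apply]

omit [IsAlgClosed k] in
theorem PolyM_mul {ι : Type} {n : ι → ℕ} (M N : ∀ i, Matrix (Fin (n i + 1)) (Fin (n i + 1)) k)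
    (v : Vars n → k) : blin (fun i => M i * N i) v = blin M (blin N v) := by
  funext a
  simp only [blin, Matrix.mul_apply, smul_eq_mul, Finset.sum_mul, Finset.mul_sum, mul_assoc]
  exact Finset.sum_comm

omit [IsAlgClosed k] in
theorem PolyM_van {ι : Type} {n : ι → ℕ} {a : Vars n} {v : Vars n → k} {x : MP k n}
    (hv : IsRep v x) : Vanish (MvPolynomial.X a) x ↔ v a = 0 :=
  ((isForm_X a).vanish_iff hv).trans (by rw [eval_X])

theorem PolyM_infS (i : X.ι) {x : X.pts} {v : Vars X.n → k} (hv : IsRep v x.1) :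
    IsRep (fun a => Fin.cons (α := fun _ => k) 0 (fun s => v ⟨i, s⟩) a.2) ((X.infS i).1 x).1 := by
  obtain ⟨t, ht, rfl⟩ := (isRep_rep x.1).exists_smul hv
  have := (amb_isRep (n := fun _ : Unit => X.n i + 1)
    (fun a => Fin.cons (α := fun _ => k) 0 (x.1 i).rep a.2) fun _ h =>
      (x.1 i).rep_nonzero (funext fun s => congrFun h s.succ)).smul (fun _ => t i) (fun _ => ht i)
  have e : (fun a : Vars fun _ : Unit => X.n i + 1 => Fin.cons (α := fun _ => k) 0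
      (fun s => t i * x.1.rep ⟨i, s⟩) a.2) =
      fun a => t i * Fin.cons (α := fun _ => k) 0 (x.1 i).rep a.2 := by
    funext ⟨_, s⟩
    refine Fin.cases ?_ (fun s => ?_) s <;> simp [MP.rep]
  exact e ▸ this

theorem PolyM_inf (i : X.ι) {x : X.pts} {v : Vars X.n → k} (hv : IsRep v x.1) :
    IsRep (jn v (Fin.cons 0 fun s => v ⟨i, s⟩)) ((X.inf i).1 x).1
  | Sum.inl j => hv j
  | Sum.inr j => PolyM_infS i hv j

omit [IsAlgClosed k] in
theorem PolyM_evs (i : X.ι) {R : Type*} [CommRing R] [Algebra k R] (v : Vars X.n → R) :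
    evs v (jn (MvPolynomial.X : _ → MvPolynomial (Vars X.n) k)
      (Fin.cons 0 fun s => MvPolynomial.X ⟨i, s⟩)) = jn v (Fin.cons 0 fun s => v ⟨i, s⟩) := by
  funext ⟨j, s⟩
  cases j with
  | inl j => exact aeval_X _ _
  | inr j => exact Fin.cases (map_zero _) (fun s => aeval_X _ _) s

omit [IsAlgClosed k] in
theorem PolyM_plus {N : ℕ} (r : Γ →* Matrix (Fin N) (Fin N) k) (γ : Γ) (w : Fin N → k)
    (s : Fin (N + 1)) : ∑ t, plus r γ s t • Fin.cons (α := fun _ => k) 0 w t =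
      Fin.cons (α := fun _ => k) 0 (fun s => ∑ t, r γ s t • w t) s := by
  refine Fin.cases ?_ (fun s => ?_) s <;> simp [plus, Fin.sum_univ_succ]

omit [IsAlgClosed k] in
theorem Stage.act_one (S : Stage k Γ) (x : S.P.pts) : (S.act 1).1 x = x :=
  Subtype.ext ((S.act_rep 1 x (isRep_rep x.1)).unique (by
    simpa only [map_one, PolyM_one] using isRep_rep x.1))

omit [IsAlgClosed k] in
theorem Stage.act_mul (S : Stage k Γ) (γ δ : Γ) (x : S.P.pts) :
    (S.act (γ * δ)).1 x = (S.act γ).1 ((S.act δ).1 x) :=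
  Subtype.ext ((S.act_rep (γ * δ) x (isRep_rep x.1)).unique (by
    simpa only [map_mul, PolyM_mul] using S.act_rep γ _ (S.act_rep δ x (isRep_rep x.1))))

theorem Stage.loc_act (S : Stage k Γ) (γ : Γ) {v : Vars S.P.n → Ω} (hv : S.P.On v) :
    S.P.On (blin (fun i => S.ρ i γ) v) ∧
      S.P.loc (blin (fun i => S.ρ i γ) v) = (S.act γ).1 '' S.P.loc v := by
  have h := Mor.Poly.loc (f := S.act γ) (F := blin (fun i => S.ρ i γ) MvPolynomial.X)
    ⟨fun j => ⟨Finsupp.single j 1, fun s => isForm_blin _ ⟨j, s⟩⟩, fun x v hv => by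
      simpa only [eval_blin] using S.act_rep γ x hv⟩ hv
  rwa [show evs v _ = _ from funext (aeval_blin _ v), (((S.act γ).retr (S.act γ⁻¹) fun x => by
    rw [← S.act_mul, inv_mul_cancel, S.act_one]).isClosed_image hv.isSub.2).closure_eq] at h

theorem Stage.pvF_act (S S' : Stage k Γ) (γ : Γ) (x : (S.prod S').P.pts) :
    (pvF S.P S'.P).1 (((S.prod S').act γ).1 x) = (S.act γ).1 ((pvF S.P S'.P).1 x) :=
  Subtype.ext ((pv_rep_fst ((S.prod S').act_rep γ x (isRep_rep x.1))).unique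
    (S.act_rep γ (pvP x) (pv_rep_fst (isRep_rep x.1)) :))

theorem Stage.pvS_act (S S' : Stage k Γ) (γ : Γ) (x : (S.prod S').P.pts) :
    (pvS S.P S'.P).1 (((S.prod S').act γ).1 x) = (S'.act γ).1 ((pvS S.P S'.P).1 x) :=
  Subtype.ext ((pv_rep_snd ((S.prod S').act_rep γ x (isRep_rep x.1))).unique
    (S'.act_rep γ (pvQ x) (pv_rep_snd (isRep_rep x.1)) :))

omit [IsAlgClosed k] in
theorem trivStage_act (T : Var k) (γ : Γ) (x : T.pts) : ((trivStage Γ T).act γ).1 x = x :=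
  Subtype.ext (((trivStage Γ T).act_rep γ x (isRep_rep x.1)).unique
    ((congrArg (IsRep · x.1) (PolyM_one _)).mpr (isRep_rep x.1)))

omit [IsAlgClosed k] in
theorem Stage.comap_act {Γ' : Type u} [Group Γ'] (S : Stage k Γ) (θ : Γ' →* Γ) (γ : Γ') :
    (S.comap θ).act γ = S.act (θ γ) := rfl

theorem Stage.inf_act (S : Stage k Γ) (i : S.P.ι) (γ : Γ) (x : S.P.pts) :
    ((S.lb i).act γ).1 ((S.P.inf i).1 x) = (S.P.inf i).1 ((S.act γ).1 x) := by
  refine pv_ext' (S.pvF_act _ γ _) ((S.pvS_act _ γ _).trans (Subtype.ext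
    (((projStage (plus (S.ρ i))).act_rep γ _ (PolyM_infS i (isRep_rep x.1))).unique ?_)))
  refine (congrArg (IsRep · _) (funext fun a => ?_)).mpr
    (PolyM_infS i (S.act_rep γ x (isRep_rep x.1)))
  exact PolyM_plus (S.ρ i) γ (fun s => x.1.rep ⟨i, s⟩) a.2

theorem pvF_inf (i : X.ι) (x : X.pts) : (pvF _ _).1 ((X.inf i).1 x) = x := rfl

theorem Var.loc_inf (i : X.ι) {v : Vars X.n → Ω} (hv : X.On v) :
    (pvVar X (PN k (X.n i + 1))).loc (jn v (Fin.cons 0 fun s => v ⟨i, s⟩)) =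
      (X.inf i).1 '' X.loc v := by
  have h := (Mor.Poly.loc (f := X.inf i)
    (F := jn MvPolynomial.X (Fin.cons 0 fun s => MvPolynomial.X ⟨i, s⟩))
    ⟨fun j => match j with
      | Sum.inl j => ⟨Finsupp.single j 1, fun s => isForm_X ⟨j, s⟩⟩
      | Sum.inr _ => ⟨Finsupp.single i 1, fun s =>
          Fin.cases (isForm_zero _) (fun s => isForm_X ⟨i, s⟩) s⟩,
      fun x v hv => (congrArg (IsRep · _) (PolyM_evs i v)).mpr (PolyM_inf i hv)⟩ hv).2
  exact (congrArg (pvVar X _).loc (PolyM_evs i v)).symm.trans (h.trans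
    (((X.inf i).retr (pvF _ _) fun _ => rfl).isClosed_image hv.isSub.2).closure_eq)

theorem Var.range_inf_subset (i : X.ι) : range (X.inf i).1 ⊆ hInf X (X.n i) := by
  rintro _ ⟨x, rfl⟩
  exact (PolyM_van (PolyM_inf i (isRep_rep x.1))).2 rfl

theorem hInf_inter_zSec (X : Var k) (N : ℕ) : hInf X N ∩ zSec X N = ∅ :=
  eq_empty_of_forall_notMem fun x hx => (x.1 (Sum.inr ())).rep_nonzero (funext fun s =>
    Fin.cases ((PolyM_van (isRep_rep x.1)).1 hx.1)
      (fun s => (PolyM_van (isRep_rep x.1)).1 (hx.2 s)) s)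

theorem hInf_eq (X : Var k) (N : ℕ) :
    hInf X N = (pvS X (PN k (N + 1))).1 ⁻¹' (Subtype.val ⁻¹' hyp () (Pi.single 0 1)) := by
  ext x
  refine (PolyM_van (isRep_rep x.1)).trans ?_
  change _ ↔ ∑ s : Fin (N + 1 + 1), (Pi.single 0 1 : _ → k) s * x.1.rep ⟨Sum.inr (), s⟩ = 0
  rw [Fin.sum_univ_succ]
  simp only [Pi.single_eq_same, one_mul, Pi.single_eq_of_ne (Fin.succ_ne_zero _), zero_mul,
    Finset.sum_const_zero, add_zero]
  rfl

theorem pvS_preimage_hyp (X : Var k) (N : ℕ) (c : Fin (N + 1) → k) :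
    (pvS X (PN k N)).1 ⁻¹' (Subtype.val ⁻¹' hyp () c) =
      Subtype.val ⁻¹' hyp (n := (pvVar X (PN k N)).n) (Sum.inr ()) c := rfl

theorem infS_preimage_hyp (i : X.ι) (c : Fin (X.n i + 1) → k) :
    (X.infS i).1 ⁻¹' (Subtype.val ⁻¹' hyp () (Fin.cons 0 c)) = Subtype.val ⁻¹' hyp i c := by
  ext x
  obtain ⟨t, ht, e⟩ := (PolyM_infS i (isRep_rep x.1)).exists_smul (isRep_rep _)
  change ∑ s, Fin.cons (α := fun _ => k) 0 c s * ((X.infS i).1 x).1.rep ⟨(), s⟩ = 0 ↔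
    ∑ s, c s * x.1.rep ⟨i, s⟩ = 0
  rw [e, Fin.sum_univ_succ]
  simp only [Fin.cons_zero, Fin.cons_succ, mul_zero, zero_add, mul_left_comm _ (t ()),
    ← Finset.mul_sum]
  exact mul_eq_zero_iff_left (ht ())

theorem exists_not_subset_hyp (i : X.ι) {V : Set X.pts} (hV : V.Nonempty) :
    ∃ c, ¬ V ⊆ Subtype.val ⁻¹' hyp i c := by
  obtain ⟨x, hx⟩ := hV
  obtain ⟨c, hc⟩ := exists_hyp_avoid i (finite_singleton x.1)
  exact ⟨c, fun h => hc _ rfl (h hx)⟩

end Pool.Agent.MP_0c8446_ag
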