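import Pool.Agent.MP_0c8446_ag.DL.DimRk
import Pool.Agent.MP_0c8446_ag.DL.Plc2
import Pool.Agent.MP_0c8446_ag.DL.PolyM

namespace Pool.Agent.MP_0c8446_ag

open MvPolynomial Set

universe u v w

variable {k : Type u} [Field k] {Γ : Type u} [Group Γ]

/-- The values of a family of ratios of forms. -/
noncomputable def tv {σ τ : Type} {Ω : Type u} [Field Ω] [Algebra k Ω]
    (F G : τ → MvPolynomial σ k) (v : σ → Ω) : τ → Ω := fun s => aeval v (F s) / aeval v (G s)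

/-- A family of points whose quotient by `Γ` is an open subset of an affine space over the
parameter blocks. -/
structure AffQ (S : Stage k Γ) (R : Fam k (Vars S.P.n)) (𝓓 : Set (Set S.P.pts)) {N : ℕ}
    (d : Fin N → S.P.ι →₀ ℕ) (F G : Fin N → MvPolynomial (Vars S.P.n) k)
    (Dp : MvPolynomial (Fin N) k) : Prop where
  hF : ∀ s, IsForm (d s) (F s)
  hG : ∀ s, IsForm (d s) (G s)
  on : ∀ (Ω : Type u) [Field Ω] [Algebra k Ω] [IsAlgClosed Ω] (v : Vars S.P.n → Ω), R Ω v →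
    S.P.On v ∧ (∀ s, aeval v (G s) ≠ 0) ∧ aeval (tv F G v) Dp ≠ 0
  emb : ∀ (Ω Ω' : Type u) [Field Ω] [Algebra k Ω] [IsAlgClosed Ω] [Field Ω'] [Algebra k Ω']
    [IsAlgClosed Ω'] (φ : Ω →ₐ[k] Ω') (v : Vars S.P.n → Ω), R Ω v → R Ω' fun a => φ (v a)
  sp : ∀ (Ω Ω' : Type u) [Field Ω] [Algebra k Ω] [IsAlgClosed Ω] [Field Ω'] [Algebra k Ω']
    [IsAlgClosed Ω'] (v : Vars S.P.n → Ω) (u : Vars S.P.n → Ω'), R Ω v → NZb u →
    pI k v ≤ pI k u → R Ω' u ∨ S.P.loc u ∈ 𝓓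
  alg : ∀ (Ω : Type u) [Field Ω] [Algebra k Ω] [IsAlgClosed Ω] (v : Vars S.P.n → Ω), R Ω v →
    rat S.Jᶜ v ⊆ acl k (range (tv F G v))
  fib : ∀ (Ω : Type u) [Field Ω] [Algebra k Ω] [IsAlgClosed Ω] (v v' : Vars S.P.n → Ω), R Ω v →
    R Ω v' → tv F G v = tv F G v' → ParOn S.J v v' →
    ∃ γ, ParOn univ (blin (fun i => S.ρ i γ) v) v'
  surj : ∀ (Ω : Type u) [Field Ω] [Algebra k Ω] [IsAlgClosed Ω] (v : Vars S.P.n → Ω)
    (x : Fin N → Ω), R Ω v → aeval x Dp ≠ 0 →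
    ∃ v', R Ω v' ∧ tv F G v' = x ∧ ∀ a, a.1 ∈ S.J → v' a = v a
  val : ∀ (Ω Ω' : Type u) [Field Ω] [Algebra k Ω] [IsAlgClosed Ω] [Field Ω'] [Algebra k Ω']
    [IsAlgClosed Ω'] (Pl : Place k Ω Ω') (v : Vars S.P.n → Ω), R Ω v →
    (∀ s, tv F G v s ∈ Pl.O) → aeval (fun s => Pl.red (tv F G v s)) Dp ≠ 0 →
    ∀ t : S.P.ι → Ω, (∀ i, t i ≠ 0) → (∀ a, sc t v a ∈ Pl.O) →
    NZb (fun a => Pl.red (sc t v a)) → R Ω' fun a => Pl.red (sc t v a)

/-- The coordinates with index `≥ i` are independent over the parameters and the coordinates with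
index `< i`. -/
def Stage.Cyl (S : Stage k Γ) {N : ℕ} (F G : Fin N → MvPolynomial (Vars S.P.n) k) (i : ℕ)
    {Ω : Type u} [Field Ω] [Algebra k Ω] (v : Vars S.P.n → Ω) : Prop :=
  rk k (rat S.J v ∪ tv F G v '' {s | (s : ℕ) < i}) + (N - i) ≤ rk k (rat univ v)

variable {S : Stage k Γ} {R : Fam k (Vars S.P.n)} {𝓓 : Set (Set S.P.pts)} {N : ℕ}
  {d : Fin N → S.P.ι →₀ ℕ} {F G : Fin N → MvPolynomial (Vars S.P.n) k}
  {Dp : MvPolynomial (Fin N) k} {Ω : Type u} [Field Ω] [Algebra k Ω] [IsAlgClosed Ω]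
  {v : Vars S.P.n → Ω}

theorem AffQ.rk_eq (h : AffQ S R 𝓓 d F G Dp) (hv : R Ω v) :
    rk k (rat univ v) = rk k (rat S.J v ∪ range (tv F G v)) := by
  refine le_antisymm (rk_le_of_acl ((finite_rat _ _).union (finite_range _)) ?_)
    (rk_le_of_acl (finite_rat _ _) (union_subset ((rat_mono (subset_univ _) v).trans
      (subset_acl _)) ?_))
  · rw [← union_compl_self S.J, rat_union]
    exact union_subset (subset_union_left.trans (subset_acl _))
      ((h.alg Ω v hv).trans (acl_mono subset_union_right))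
  · rintro _ ⟨s, rfl⟩
    exact form_div_mem_acl (h.hF s) (h.hG s) (fun i hi => absurd (mem_univ i) hi)
      (h.on Ω v hv).1.1

theorem AffQ.cyl_top (h : AffQ S R 𝓓 d F G Dp) (hv : R Ω v) : S.Cyl F G N v := by
  have e : {s : Fin N | (s : ℕ) < N} = univ := eq_univ_of_forall fun s => s.2
  unfold Stage.Cyl
  rw [e, image_univ, h.rk_eq hv]
  omega

theorem AffQ.free (h : AffQ S R 𝓓 d F G Dp) (hv : R Ω v) (hc : S.Cyl F G 0 v) : S.Free v := by
  have e : {s : Fin N | (s : ℕ) < 0} = ∅ := eq_empty_of_forall_notMem fun s => Nat.not_lt_zero _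
  unfold Stage.Cyl at hc
  rw [e, image_empty, union_empty] at hc
  have h1 := rk_le_of_acl (finite_range _) (h.alg Ω v hv)
  have h2 := rk_range_le (k := k) (tv F G v)
  have h3 := rk_union_le (k := k) (finite_rat S.J v) (finite_rat S.Jᶜ v)
  rw [← rat_union, union_compl_self] at h3
  rw [Fintype.card_fin] at h2
  unfold Stage.Free
  omega

theorem AffQ.mem_acl (h : AffQ S R 𝓓 d F G Dp) (hv : R Ω v) {i : Fin N} (h1 : S.Cyl F G (i + 1) v)
    (h2 : ¬ S.Cyl F G i v) :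
    tv F G v i ∈ acl k (rat S.J v ∪ tv F G v '' {s | (s : ℕ) < i}) ∧
      rk k (rat S.J v ∪ tv F G v '' {s | (s : ℕ) < i}) + (N - i) = rk k (rat univ v) + 1 := by
  have e : {s : Fin N | (s : ℕ) < i + 1} = insert i {s : Fin N | (s : ℕ) < i} := by
    ext s
    simp only [mem_ofPred_eq, mem_insert_iff, Fin.ext_iff]
    omega
  have hi := i.2
  unfold Stage.Cyl at h1 h2
  rw [e, image_insert_eq, union_insert] at h1
  have hm : tv F G v i ∈ acl k (rat S.J v ∪ tv F G v '' {s | (s : ℕ) < i}) := by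
    by_contra hm
    rw [rk_insert_of_notMem ((finite_rat _ _).union ((toFinite _).image _)) hm] at h1
    omega
  rw [rk_insert_of_mem hm] at h1
  exact ⟨hm, by omega⟩

/-- Freeing the coordinate `i`. -/
theorem AffQ.exists_gen (h : AffQ S R 𝓓 d F G Dp) (hv : R Ω v) {i : Fin N}
    (h1 : S.Cyl F G (i + 1) v) (h2 : ¬ S.Cyl F G i v) :
    ∃ (Ω' : Type u) (_ : Field Ω') (_ : Algebra k Ω') (_ : IsAlgClosed Ω') (φ : Ω →ₐ[k] Ω')
      (v' : Vars S.P.n → Ω') (w : Vars S.P.n → Ω), R Ω' v' ∧ (∀ a, a.1 ∈ S.J → v' a = φ (v a)) ∧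
      (∀ s, s ≠ i → tv F G v' s = φ (tv F G v s)) ∧ tv F G v' i ∉ acl k (range φ) ∧
      rk k (rat univ v') = rk k (rat univ v) + 1 ∧ R Ω w ∧ pI k v' ≤ pI k w ∧
      tv F G w = tv F G v ∧ ParOn S.J v w ∧
      ∃ γ, ParOn univ (blin (fun i => S.ρ i γ) v) w := by
  obtain ⟨Ω', i1, i2, i3, φ, s, Pl, hs, hsO, hsr, hφ⟩ := exists_generic_place (k := k) (tv F G v i)
  obtain ⟨hon, -, hD⟩ := h.on Ω v hv
  set x : Fin N → Ω' := Function.update (fun j => φ (tv F G v j)) i s with hx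
  have hxi : x i = s := Function.update_self ..
  have hxj : ∀ j, j ≠ i → x j = φ (tv F G v j) := fun j hj => Function.update_of_ne hj ..
  have hxO : ∀ j, x j ∈ Pl.O ∧ Pl.red (x j) = tv F G v j := fun j => by
    by_cases hj : j = i
    · rw [hj, hxi]
      exact ⟨hsO, hsr⟩
    · rw [hxj j hj]
      exact hφ _
  have hxr : (fun j => Pl.red (x j)) = tv F G v := funext fun j => (hxO j).2
  have hxD : aeval x Dp ≠ 0 := fun h0 => hD (by
    rw [← hxr, ← Pl.red_aeval (fun j => (hxO j).1), h0, Pl.red_zero])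
  obtain ⟨v', hv', ht, hJ⟩ := h.surj Ω' (fun a => φ (v a)) x (h.emb Ω Ω' φ v hv) hxD
  have hpar : ParOn S.J (fun a => φ (v a)) v' := fun j hj =>
    ⟨1, one_ne_zero, fun a => by rw [one_mul]; exact hJ ⟨j, a⟩ hj⟩
  obtain ⟨t, ht0, htO, htN⟩ := Pl.exists_sc (h.on Ω' v' hv').1.1
  have hw : R Ω fun a => Pl.red (sc t v' a) :=
    h.val Ω' Ω Pl v' hv' (fun j => ht ▸ (hxO j).1) (by rw [ht, hxr]; exact hD) t ht0 htO htN
  have htv : tv F G (fun a => Pl.red (sc t v' a)) = tv F G v := by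
    funext j
    have hG := (h.on Ω _ hw).2.1 j
    obtain ⟨c, hc, e⟩ := (parOn_sc univ ht0 v').exists_aeval (k := k) (d := d j)
      fun i hi => absurd (mem_univ i) hi
    rw [← (hxO j).2, ← ht]
    unfold tv
    rw [← Pl.red_aeval htO] at hG
    rw [← Pl.red_aeval htO, ← Pl.red_aeval htO,
      ← (Pl.red_div (Pl.aeval_mem htO _) (Pl.aeval_mem htO _) hG).2, e _ (h.hF j), e _ (h.hG j),
      mul_div_mul_left _ _ hc]
  have hp : ParOn S.J v fun a => Pl.red (sc t v' a) := by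
    have := Pl.par_red (hpar.trans (parOn_sc S.J ht0 v')) (fun a _ => (hφ _).1) (fun a _ => htO a)
      (fun j _ => by simpa only [(hφ _).2] using hon.1 j) fun j _ => htN j
    simpa only [(hφ _).2] using this
  refine ⟨Ω', i1, i2, i3, φ, v', fun a => Pl.red (sc t v' a), hv', hJ, fun j hj => ?_, ?_, ?_, hw,
    ?_, htv, hp, h.fib Ω v _ hv hw htv.symm hp⟩
  · rw [ht, hxj j hj]
  · rwa [ht, hxi]
  · have hf : (rat S.J v ∪ tv F G v '' {j | j ≠ i}).Finite :=
      (finite_rat _ _).union ((toFinite _).image _)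
    have e1 : range x = insert s (φ '' (tv F G v '' {j | j ≠ i})) := by
      ext z
      constructor
      · rintro ⟨j, rfl⟩
        by_cases hj : j = i
        · exact Or.inl (by rw [hj, hxi])
        · exact Or.inr ⟨_, ⟨j, hj, rfl⟩, (hxj j hj).symm⟩
      · rintro (rfl | ⟨_, ⟨j, hj, rfl⟩, rfl⟩)
        · exact ⟨i, hxi⟩
        · exact ⟨j, hxj j hj⟩
    have e2 : range (tv F G v) = insert (tv F G v i) (tv F G v '' {j | j ≠ i}) := by
      ext z
      constructor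
      · rintro ⟨j, rfl⟩
        by_cases hj : j = i
        · exact Or.inl (by rw [hj])
        · exact Or.inr ⟨j, hj, rfl⟩
      · rintro (rfl | ⟨j, -, rfl⟩) <;> exact mem_range_self _
    have hm : tv F G v i ∈ acl k (rat S.J v ∪ tv F G v '' {j | j ≠ i}) :=
      acl_mono (union_subset_union_right _ (image_mono fun j hj => by
        rintro rfl
        exact lt_irrefl (j : ℕ) hj)) (h.mem_acl hv h1 h2).1
    rw [h.rk_eq hv', h.rk_eq hv, ht, hpar.rat_eq, rat_map, e1, e2, union_insert, union_insert,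
      ← image_union, rk_insert_of_mem hm,
      rk_insert_of_notMem (hf.image _) fun h0 => hs (acl_mono (image_subset_range _ _) h0),
      rk_image]
  · rw [← (parOn_sc univ ht0 v').pI_eq (k := k)]
    exact Pl.pI_le htO

end Pool.Agent.MP_0c8446_ag
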