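import Pool.Agent.MP_0c8446_ag.DL.PDefs

namespace Pool.Agent.MP_0c8446_ag

open TensorProduct

universe u v w

/-- Burnside: the operators of an irreducible representation span the endomorphism algebra. -/
theorem RepT_burnside {K : Type v} [Field K] [IsAlgClosed K] {Γ : Type u} [Group Γ]
    {V : Type w} [AddCommGroup V] [Module K V] [Module.Finite K V]
    (ρ : Representation K Γ V) [ρ.IsIrreducible] (a : Module.End K V) :
    a ∈ Submodule.span K (Set.range ρ) := by
  have hb : Function.Bijective
      (algebraMap K (Module.End (MonoidAlgebra K Γ) ρ.asModule)) :=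
    IsSimpleModule.algebraMap_end_bijective_of_isAlgClosed K
  have hfin : Module.Finite (Module.End (MonoidAlgebra K Γ) ρ.asModule) ρ.asModule :=
    Module.Finite.of_restrictScalars_finite K _ _
  let a' : Module.End (Module.End (MonoidAlgebra K Γ) ρ.asModule) ρ.asModule :=
    { toFun := fun x => ρ.asModuleEquiv.symm (a (ρ.asModuleEquiv x))
      map_add' := fun x y => by simp
      map_smul' := fun φ x => by
        obtain ⟨c, rfl⟩ := hb.2 φ
        simp }
  obtain ⟨r, hr⟩ := Module.Finite.toModuleEnd_moduleEnd_surjective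
    (R := MonoidAlgebra K Γ) (M := ρ.asModule) a'
  have ha : a = ρ.asAlgebraHom r := by
    ext x
    have h1 : r • ρ.asModuleEquiv.symm x = a' (ρ.asModuleEquiv.symm x) := by
      rw [← hr]; rfl
    have h2 := congrArg ρ.asModuleEquiv h1
    rw [Representation.asModuleEquiv_map_smul] at h2
    simpa [a'] using h2.symm
  rw [ha]
  clear ha hr
  induction r using MonoidAlgebra.induction_on with
  | of g => exact Submodule.subset_span ⟨g, by simp⟩
  | add x y hx hy => rw [map_add]; exact Submodule.add_mem _ hx hy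
  | smul c x hx => rw [map_smul]; exact Submodule.smul_mem _ _ hx

theorem RepT_irr {K : Type v} [Field K] [IsAlgClosed K] [CharZero K] {Γ : Type u} [Group Γ]
    [Finite Γ] {V : Type w} [AddCommGroup V] [Module K V] [Module.Finite K V]
    (ρ : Representation K Γ V) [ρ.IsIrreducible] (θ : Γ →* Γ) (hθ : ∀ g, IsConj (θ g) g⁻¹)
    (M : Submodule K (V ⊗[K] V))
    (h1 : ∀ g g', ∀ z ∈ M, TensorProduct.map (ρ g) (ρ g') z ∈ M)
    (h2 : ∀ z, (∀ g, TensorProduct.map (ρ g) (ρ (θ g)) z = z) → z ∈ M) (z : V) :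
    z ⊗ₜ[K] z ∈ M := by
  classical
  have := Fintype.ofFinite Γ
  have hc : (Nat.card Γ : K) ≠ 0 := Nat.cast_ne_zero.2 Nat.card_pos.ne'
  have : Invertible (Nat.card Γ : K) := invertibleOfNonzero hc
  let ρ' : Representation K Γ V := ρ.comp θ
  have hch : ∀ g, ρ'.character g = ρ.character g⁻¹ := by
    intro g
    obtain ⟨c, hc⟩ := isConj_iff.1 (hθ g)
    rw [← hc, Representation.char_conj]
    rfl
  have e1 := Representation.card_inv_mul_sum_char_eq_finrank (ρ.tprod ρ')
  have e2 := Representation.card_inv_mul_sum_char_mul_char_eq_finrank ρ ρ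
  rw [Representation.IsIrreducible.finrank_intertwiningMap_self] at e2
  simp only [Representation.char_tensor, Pi.mul_apply, hch] at e1
  have e3 : Module.finrank K (ρ.tprod ρ').invariants = 1 := by
    have : ((Module.finrank K (ρ.tprod ρ').invariants : ℕ) : K) = ((1 : ℕ) : K) := by
      rw [← e1, ← e2]
    exact_mod_cast this
  have hne : (ρ.tprod ρ').invariants ≠ ⊥ := by
    intro h
    rw [h] at e3
    simp at e3
  obtain ⟨ξ, hξ, hξ0⟩ := Submodule.exists_mem_ne_zero_of_ne_bot hne
  have hM : ξ ∈ M := h2 ξ fun g => hξ g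
  have s1 : ∀ (a : Module.End K V) g', ∀ z ∈ M, TensorProduct.map a (ρ g') z ∈ M := by
    intro a g' z hz
    have ha := RepT_burnside ρ a
    induction ha using Submodule.span_induction with
    | mem x hx => obtain ⟨g, rfl⟩ := hx; exact h1 g g' z hz
    | zero => simp
    | add x y _ _ hx hy => rw [TensorProduct.map_add_left]; exact M.add_mem hx hy
    | smul c x _ hx => rw [TensorProduct.map_smul_left]; exact M.smul_mem c hx
  have s2 : ∀ (a a' : Module.End K V), ∀ z ∈ M, TensorProduct.map a a' z ∈ M := by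
    intro a a' z hz
    have ha := RepT_burnside ρ a'
    induction ha using Submodule.span_induction with
    | mem x hx => obtain ⟨g, rfl⟩ := hx; exact s1 a g z hz
    | zero => simp
    | add x y _ _ hx hy => rw [TensorProduct.map_add_right]; exact M.add_mem hx hy
    | smul c x _ hx => rw [TensorProduct.map_smul_right]; exact M.smul_mem c hx
  let b := Module.finBasis K V
  have hrep : ∃ ij, (b.tensorProduct b).repr ξ ij ≠ 0 := by
    by_contra h
    push Not at h
    apply hξ0
    exact (b.tensorProduct b).repr.map_eq_zero_iff.1 (Finsupp.ext h)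
  obtain ⟨⟨i, j⟩, hij⟩ := hrep
  have key : ∀ ζ : V ⊗[K] V,
      TensorProduct.map ((b.coord i).smulRight z) ((b.coord j).smulRight z) ζ =
        (b.tensorProduct b).repr ζ (i, j) • z ⊗ₜ[K] z := by
    intro ζ
    induction ζ using TensorProduct.induction_on with
    | zero => simp
    | tmul x y =>
      simp [Module.Basis.tensorProduct_repr_tmul_apply, ← TensorProduct.smul_tmul', smul_smul,
        mul_comm]
    | add x y hx hy => simp [hx, hy, add_smul]
  have := s2 ((b.coord i).smulRight z) ((b.coord j).smulRight z) ξ hM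
  rw [key] at this
  exact (M.smul_mem_iff hij).1 this

theorem RepT_ind {K : Type v} [Field K] [IsAlgClosed K] [CharZero K] {Γ : Type u} [Group Γ]
    [Finite Γ] (θ : Γ →* Γ) (hθ : ∀ g, IsConj (θ g) g⁻¹) (n : ℕ) :
    ∀ {V : Type w} [AddCommGroup V] [Module K V] [Module.Finite K V]
    (ρ : Representation K Γ V) (M : Submodule K (V ⊗[K] V)), Module.finrank K V = n →
    (∀ g g', ∀ z ∈ M, TensorProduct.map (ρ g) (ρ g') z ∈ M) →
    (∀ z, (∀ g, TensorProduct.map (ρ g) (ρ (θ g)) z = z) → z ∈ M) →
    Submodule.span K {z | z ⊗ₜ[K] z ∈ M} = ⊤ := by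
  induction n using Nat.strong_induction_on with
  | _ n ih =>
  intro V _ _ _ ρ M hn h1 h2
  have hc : NeZero (Nat.card Γ : K) := ⟨Nat.cast_ne_zero.2 Nat.card_pos.ne'⟩
  have sub : ∀ σ : Subrepresentation ρ, σ ≠ ⊤ →
      σ.toSubmodule ≤ Submodule.span K {z | z ⊗ₜ[K] z ∈ M} := by
    intro σ hσ
    have hσ' : σ.toSubmodule ≠ ⊤ := fun h => hσ (Subrepresentation.toSubmodule_injective h)
    have hlt : Module.finrank K σ.toSubmodule < n := hn ▸ Submodule.finrank_lt hσ'
    have hcomm : ∀ g g' (ζ : σ.toSubmodule ⊗[K] σ.toSubmodule),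
        TensorProduct.map σ.toSubmodule.subtype σ.toSubmodule.subtype
          (TensorProduct.map (σ.toRepresentation g) (σ.toRepresentation g') ζ) =
        TensorProduct.map (ρ g) (ρ g')
          (TensorProduct.map σ.toSubmodule.subtype σ.toSubmodule.subtype ζ) := by
      intro g g' ζ
      induction ζ using TensorProduct.induction_on with
      | zero => simp
      | tmul x y => rfl
      | add x y hx hy => simp only [map_add, hx, hy]
    have := ih _ hlt σ.toRepresentation
      (M.comap (TensorProduct.map σ.toSubmodule.subtype σ.toSubmodule.subtype)) rfl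
      (fun g g' z hz => by
        rw [Submodule.mem_comap, hcomm]
        exact h1 g g' _ hz)
      (fun z hz => h2 _ fun g => by rw [← hcomm, hz])
    intro x hx
    have hx' : (⟨x, hx⟩ : σ.toSubmodule) ∈ Submodule.span K {z : σ.toSubmodule | z ⊗ₜ[K] z ∈
        M.comap (TensorProduct.map σ.toSubmodule.subtype σ.toSubmodule.subtype)} := by
      rw [this]; trivial
    have h3 := Submodule.mem_map_of_mem (f := σ.toSubmodule.subtype) hx'
    rw [Submodule.map_span] at h3
    refine Submodule.span_mono ?_ h3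
    rintro _ ⟨y, hy, rfl⟩
    exact hy
  by_cases hirr : ρ.IsIrreducible
  · rw [eq_top_iff]
    intro z _
    exact Submodule.subset_span (RepT_irr ρ θ hθ M h1 h2 z)
  by_cases htriv : (⊥ : Subrepresentation ρ) = ⊤
  · have h0 : (⊥ : Submodule K V) = ⊤ := congrArg Subrepresentation.toSubmodule htriv
    rw [eq_top_iff, ← h0]
    exact bot_le
  have hex : ∃ σ : Subrepresentation ρ, σ ≠ ⊥ ∧ σ ≠ ⊤ := by
    by_contra h
    push Not at h
    apply hirr
    have : Nontrivial (Subrepresentation ρ) := ⟨⟨⊥, ⊤, htriv⟩⟩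
    exact ⟨fun σ => or_iff_not_imp_left.2 (h σ)⟩
  obtain ⟨σ, h0, ht⟩ := hex
  obtain ⟨τ, hτ⟩ := exists_isCompl σ
  have hτt : τ ≠ ⊤ := by
    rintro rfl
    exact h0 (by simpa using hτ.inf_eq_bot)
  have hsup : σ.toSubmodule ⊔ τ.toSubmodule = ⊤ := by
    rw [← Subrepresentation.toSubmodule_sup, hτ.sup_eq_top]
    rfl
  rw [eq_top_iff, ← hsup]
  exact sup_le (sub σ ht) (sub τ hτt)

/-- If an invariant subspace of `V ⊗ V` contains the twisted invariants, it contains the squares
of a spanning set. -/
theorem span_sq_eq_top {K : Type v} [Field K] [IsAlgClosed K] [CharZero K] {Γ : Type u} [Group Γ]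
    [Finite Γ] {V : Type w} [AddCommGroup V] [Module K V] [Module.Finite K V]
    (T : Γ →* Module.End K V) (θ : Γ →* Γ) (hθ : ∀ g, IsConj (θ g) g⁻¹)
    (M : Submodule K (V ⊗[K] V))
    (h1 : ∀ g g', ∀ z ∈ M, TensorProduct.map (T g) (T g') z ∈ M)
    (h2 : ∀ z, (∀ g, TensorProduct.map (T g) (T (θ g)) z = z) → z ∈ M) :
    Submodule.span K {z | z ⊗ₜ[K] z ∈ M} = ⊤ :=
  RepT_ind θ hθ _ T M rfl h1 h2

end Pool.Agent.MP_0c8446_ag
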