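import Pool.Agent.MP_0c8446_ag.DL.RkA

namespace Pool.Agent.MP_0c8446_ag

open MvPolynomial Set

universe u v w

variable {k : Type u} [Field k] {Ω Ω' : Type u} [Field Ω] [Algebra k Ω] [Field Ω'] [Algebra k Ω']
  {S T : Set Ω} {x y : Ω}

variable {ι : Type} {n : ι → ℕ} {I J : Set ι} {v v' : Vars n → Ω}

theorem finite_rat [Finite ι] (I : Set ι) (v : Vars n → Ω) : (rat I v).Finite :=
  (finite_range fun a : Σ i, Fin (n i + 1) × Fin (n i + 1) =>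
    v ⟨a.1, a.2.1⟩ / v ⟨a.1, a.2.2⟩).subset fun _ ⟨i, _, s, s', h⟩ => ⟨⟨i, s, s'⟩, h.symm⟩

theorem rat_mono (h : I ⊆ J) (v : Vars n → Ω) : rat I v ⊆ rat J v :=
  fun _ ⟨i, hi, h'⟩ => ⟨i, h hi, h'⟩

theorem rat_union (I J : Set ι) (v : Vars n → Ω) : rat (I ∪ J) v = rat I v ∪ rat J v :=
  Subset.antisymm (fun _ ⟨i, hi, h⟩ => hi.imp (⟨i, ·, h⟩) (⟨i, ·, h⟩))
    (union_subset (rat_mono subset_union_left v) (rat_mono subset_union_right v))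

theorem ParOn.rat_eq (h : ParOn I v v') : rat I v' = rat I v := by
  ext x
  refine exists_congr fun i => and_congr_right fun hi => ?_
  obtain ⟨t, ht, h⟩ := h i hi
  simp only [h, mul_div_mul_left _ _ ht]

theorem rat_map (φ : Ω →ₐ[k] Ω') (I : Set ι) (v : Vars n → Ω) :
    rat I (fun a => φ (v a)) = φ '' rat I v := by
  ext x
  constructor
  · rintro ⟨i, hi, s, s', rfl⟩
    exact ⟨_, ⟨i, hi, s, s', rfl⟩, map_div₀ φ _ _⟩
  · rintro ⟨_, ⟨i, hi, s, s', rfl⟩, rfl⟩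
    exact ⟨i, hi, s, s', map_div₀ φ _ _⟩

theorem rat_pv {κ : Type} {m : κ → ℕ} (I : Set (ι ⊕ κ)) (v : Vars (Sum.elim n m) → Ω) :
    rat I v = rat (Sum.inl ⁻¹' I) (fun s => v (pvL m s)) ∪
      rat (Sum.inr ⁻¹' I) fun s => v (pvR n s) :=
  Set.ext fun _ => Sum.exists

theorem rat_jn {N : ℕ} (v : Vars n → Ω) (z : Fin (N + 1) → Ω) :
    rat univ (jn v z) = rat univ v ∪ {x | ∃ s s', x = z s / z s'} := by
  rw [rat_pv]
  exact congrArg _ (Set.ext fun _ => ⟨fun ⟨_, _, h⟩ => h, fun h => ⟨(), trivial, h⟩⟩)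

/-- Normalising one coordinate in each block to `1`. -/
theorem NZb.exists_norm (hv : NZb v) :
    ∃ t : ι → Ω, (∀ i, t i ≠ 0) ∧ (∀ a, sc t v a ∈ rat {a.1} v) ∧ ∀ i, ∃ s, sc t v ⟨i, s⟩ = 1 := by
  choose s hs using hv
  exact ⟨fun i => (v ⟨i, s i⟩)⁻¹, fun i => inv_ne_zero (hs i),
    fun a => ⟨a.1, rfl, a.2, s a.1, inv_mul_eq_div _ _⟩, fun i => ⟨s i, inv_mul_cancel₀ (hs i)⟩⟩

theorem form_div_mem_acl {d : ι →₀ ℕ} {F G : MvPolynomial (Vars n) k} (hF : IsForm d F)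
    (hG : IsForm d G) (hd : ∀ i ∉ I, d i = 0) (hv : NZb v) :
    aeval v F / aeval v G ∈ acl k (rat I v) := by
  obtain ⟨t, ht, h1, -⟩ := hv.exists_norm
  have h2 : ParOn I v (mix I (sc t v) 0) := fun i hi => ⟨t i, ht i, fun _ => if_pos hi⟩
  obtain ⟨c, hc, h3⟩ := h2.exists_aeval (k := k) hd
  have h4 : ∀ a, mix I (sc t v) 0 a ∈ acl k (rat I v) := fun a => by
    unfold mix
    split_ifs with h
    · exact subset_acl _ (rat_mono (singleton_subset_iff.2 h) v (h1 a))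
    · simpa using algebraMap_mem_acl (S := rat I v) (0 : k)
  rw [← mul_div_mul_left _ _ hc, ← h3 F hF, ← h3 G hG]
  exact div_mem_acl (aeval_mem_acl h4 F) (aeval_mem_acl h4 G)

/-- The ratios with fixed nonzero denominators generate the same field as all ratios. -/
theorem rat_subset_acl_norm (s₀ : ∀ i, Fin (n i + 1)) (h : ∀ i ∈ I, v ⟨i, s₀ i⟩ ≠ 0) :
    rat I v ⊆ acl k (range fun a : {a : Vars n // a.1 ∈ I} => v a.1 / v ⟨a.1.1, s₀ a.1.1⟩) := by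
  rintro _ ⟨i, hi, s, s', rfl⟩
  rw [← div_div_div_cancel_right₀ (h i hi)]
  exact div_mem_acl (subset_acl _ ⟨⟨⟨i, s⟩, hi⟩, rfl⟩) (subset_acl _ ⟨⟨⟨i, s'⟩, hi⟩, rfl⟩)

end Pool.Agent.MP_0c8446_ag
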