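import Pool.Agent.MP_0c8446_ag.DL.Rk

namespace Pool.Agent.MP_0c8446_ag

open MvPolynomial Set

universe u v w

variable {k : Type u} [Field k] {Ω Ω' : Type u} [Field Ω] [Algebra k Ω] [Field Ω'] [Algebra k Ω']
  {σ τ : Type} {x : σ → Ω} {y : σ → Ω'}

theorem mem_kr {f : MvPolynomial σ k} : f ∈ kr k x ↔ aeval x f = 0 := Iff.rfl

theorem Rk2A_comp_le (h : kr k x ≤ kr k y) (e : τ → σ) : kr k (x ∘ e) ≤ kr k (y ∘ e) := by
  intro f hf
  rw [mem_kr, ← aeval_rename] at hf ⊢
  exact h hf

/-- A set of indices on which the tuple is a transcendence basis of its range. -/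
theorem Rk2A_basis [Finite σ] (y : σ → Ω') : ∃ s : Set σ,
    AlgebraicIndependent k (y ∘ ((↑) : s → σ)) ∧ range y ⊆ acl k (range (y ∘ ((↑) : s → σ))) := by
  obtain ⟨s, hs, hmax⟩ := Set.Finite.exists_maximal
    (s := {s : Set σ | AlgebraicIndepOn k y s}) (Set.toFinite _)
    ⟨∅, by
      show AlgebraicIndependent k (fun i : (∅ : Set σ) => y i)
      exact algebraicIndependent_empty_type⟩
  refine ⟨s, hs, ?_⟩
  have hr : range (y ∘ ((↑) : s → σ)) = y '' s := by
    rw [range_comp, Subtype.range_coe]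
  rw [hr]
  rintro _ ⟨i, rfl⟩
  by_contra hi
  have hi' : Transcendental (Algebra.adjoin k (y '' s)) (y i) := fun h => hi (mem_acl.2 h)
  have h1 : AlgebraicIndepOn k y (insert i s) := AlgebraicIndepOn.insert hs hi'
  have h2 : insert i s ⊆ s := hmax h1 (subset_insert i s)
  exact hi (subset_acl _ ⟨i, h2 (mem_insert i s), rfl⟩)

theorem Rk2A_rk_basis [Finite σ] [Fintype τ] {e : τ → σ} (h1 : AlgebraicIndependent k (y ∘ e))
    (h2 : range y ⊆ acl k (range (y ∘ e))) : rk k (range y) = Fintype.card τ := by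
  rw [← (rk_range_eq_iff _).2 h1]
  exact le_antisymm (rk_le_of_acl (finite_range _) h2)
    (rk_mono (finite_range _) (range_comp_subset_range _ _))

theorem Rk2A_indep (h : kr k x ≤ kr k y) (hy : AlgebraicIndependent k y) :
    AlgebraicIndependent k x :=
  algebraicIndependent_iff.2 fun p hp => algebraicIndependent_iff.1 hy p (h hp)

/-- The evaluation map onto the ring generated by a tuple. -/
noncomputable def Rk2A_ev (x : σ → Ω) : MvPolynomial σ k →ₐ[k] Algebra.adjoin k (range x) :=
  aeval fun i => ⟨x i, Algebra.subset_adjoin ⟨i, rfl⟩⟩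

theorem Rk2A_ev_coe (x : σ → Ω) (f : MvPolynomial σ k) :
    algebraMap _ Ω (Rk2A_ev x f) = aeval x f := by
  have : (Algebra.adjoin k (range x)).val.comp (Rk2A_ev x) = aeval x := by
    refine algHom_ext fun i => ?_
    simp [Rk2A_ev]
  exact DFunLike.congr_fun this f

theorem Rk2A_ev_surj (x : σ → Ω) : Function.Surjective (Rk2A_ev (k := k) x) := by
  rintro ⟨a, ha⟩
  have ha' := ha
  rw [Algebra.adjoin_range_eq_range_aeval] at ha'
  obtain ⟨f, hf⟩ := ha'
  exact ⟨f, Subtype.ext ((Rk2A_ev_coe x f).trans hf)⟩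

/-- A specialisation of an algebraic extension that is generic on the base is generic. -/
theorem Rk2A_key (h : kr k x ≤ kr k y) (e : τ → σ) (he : kr k (y ∘ e) ≤ kr k (x ∘ e))
    (hx : range x ⊆ acl k (range (x ∘ e))) : kr k y ≤ kr k x := by
  intro f hf
  rw [mem_kr] at hf ⊢
  by_contra hne
  have ha : IsAlgebraic (Algebra.adjoin k (range (x ∘ e))) (aeval x f) :=
    mem_acl.1 (aeval_mem_acl (fun s => hx ⟨s, rfl⟩) f)
  obtain ⟨t, ht, r, hr, heq⟩ :=
    ha.exists_nonzero_eq_adjoin_mul (mem_nonZeroDivisors_of_ne_zero hne)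
  have ht' : ∃ g : MvPolynomial σ k, aeval x g = t := by
    clear heq
    induction ht using Algebra.adjoin_induction with
    | mem a ha => exact ⟨f, (mem_singleton_iff.1 ha).symm⟩
    | algebraMap c =>
      obtain ⟨c', rfl⟩ := Rk2A_ev_surj (k := k) (x ∘ e) c
      exact ⟨rename e c', by rw [aeval_rename, Rk2A_ev_coe]⟩
    | add a b _ _ iha ihb =>
      obtain ⟨g, rfl⟩ := iha
      obtain ⟨g', rfl⟩ := ihb
      exact ⟨g + g', map_add _ _ _⟩
    | mul a b _ _ iha ihb =>
      obtain ⟨g, rfl⟩ := iha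
      obtain ⟨g', rfl⟩ := ihb
      exact ⟨g * g', map_mul _ _ _⟩
  obtain ⟨g, rfl⟩ := ht'
  obtain ⟨c, rfl⟩ := Rk2A_ev_surj (k := k) (x ∘ e) r
  rw [Rk2A_ev_coe] at heq
  have h1 : f * g - rename e c ∈ kr k x := by
    rw [mem_kr, map_sub, map_mul, aeval_rename, heq, sub_self]
  have h2 := h h1
  rw [mem_kr, map_sub, map_mul, aeval_rename, hf, zero_mul, zero_sub, neg_eq_zero] at h2
  have h3 : aeval (x ∘ e) c = 0 := he h2
  apply hr
  apply Subtype.ext
  exact (Rk2A_ev_coe _ c).trans h3

/-- A polynomial in two groups of variables as a polynomial in the second group. -/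
noncomputable def Rk2A_sp (k : Type u) [Field k] (σ τ : Type) :
    MvPolynomial (σ ⊕ τ) k →ₐ[k] MvPolynomial τ (MvPolynomial σ k) :=
  aeval (Sum.elim (fun s => C (X s)) X)

theorem Rk2A_mem_elim [Finite σ] [Fintype τ] {z : τ → Ω}
    (hz : rk k (range x) + Fintype.card τ ≤ rk k (range x ∪ range z))
    (P : MvPolynomial (σ ⊕ τ) k) :
    P ∈ kr k (Sum.elim x z) ↔ ∀ m, coeff m (Rk2A_sp k σ τ P) ∈ kr k x := by
  classical
  obtain ⟨s, h1, h2⟩ := Rk2A_basis (k := k) x
  let _ := Fintype.ofFinite s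
  have h3 := Rk2A_rk_basis h1 h2
  have h4 : range x ∪ range z ⊆ acl k (range (Sum.elim z (x ∘ ((↑) : s → σ)))) := by
    rw [Sum.elim_range]
    exact union_subset (h2.trans (acl_mono subset_union_right))
      (subset_union_left.trans (subset_acl _))
  have h5 : AlgebraicIndependent k (Sum.elim z (x ∘ ((↑) : s → σ))) := by
    rw [← rk_range_eq_iff]
    refine le_antisymm (rk_range_le _) ?_
    have := rk_le_of_acl (finite_range _) h4
    rw [Fintype.card_sum]
    omega
  have h6 := (AlgebraicIndependent.sumElim_iff.1 h5).2.subalgebraAlgebraicClosure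
  set B := Subalgebra.algebraicClosure (Algebra.adjoin k (range (x ∘ ((↑) : s → σ)))) Ω with hB
  have hxB : ∀ f : MvPolynomial σ k, aeval x f ∈ B := fun f =>
    mem_acl.1 (aeval_mem_acl (fun i => h2 ⟨i, rfl⟩) f)
  let ψ : MvPolynomial σ k →+* B := (aeval x : MvPolynomial σ k →ₐ[k] Ω).toRingHom.codRestrict B hxB
  have hψ : ∀ f, algebraMap B Ω (ψ f) = aeval x f := fun f => rfl
  have h7 : aeval (Sum.elim x z) P = aeval z (map ψ (Rk2A_sp k σ τ P)) := by
    induction P using MvPolynomial.induction_on with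
    | C c =>
      have : Rk2A_sp k σ τ (C c) = C (C c) := by simp [Rk2A_sp]
      rw [this, map_C, aeval_C, aeval_C, hψ, aeval_C]
    | add p q hp hq => simp only [map_add, hp, hq]
    | mul_X p i hp =>
      simp only [map_mul, hp]
      congr 1
      rcases i with i | i
      · have : Rk2A_sp k σ τ (X (Sum.inl i)) = C (X i) := by simp [Rk2A_sp]
        rw [this, map_C, aeval_C, hψ, aeval_X, aeval_X, Sum.elim_inl]
      · have : Rk2A_sp k σ τ (X (Sum.inr i)) = X i := by simp [Rk2A_sp]
        rw [this, map_X, aeval_X, aeval_X, Sum.elim_inr]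
  rw [mem_kr, h7]
  constructor
  · intro h m
    have := algebraicIndependent_iff.1 h6 _ h
    rw [mem_kr, ← hψ, ← coeff_map, this, coeff_zero, map_zero]
  · intro h
    have : map ψ (Rk2A_sp k σ τ P) = 0 := by
      ext m
      rw [coeff_map, coeff_zero]
      exact h m
    rw [this, map_zero]

theorem Rk2A_aeval_option (x : σ → Ω) (a : Ω) (P : MvPolynomial (Option σ) k) :
    aeval (fun o : Option σ => o.elim a x) P =
      ((optionEquivLeft k σ P).map (aeval x : MvPolynomial σ k →ₐ[k] Ω).toRingHom).eval a := by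
  induction P using MvPolynomial.induction_on with
  | C c => simp
  | add p q hp hq => simp only [map_add, hp, hq, Polynomial.map_add, Polynomial.eval_add]
  | mul_X p i hp =>
    simp only [map_mul, hp, Polynomial.map_mul, Polynomial.eval_mul]
    congr 1
    rcases i with _ | i <;> simp

theorem Rk2A_map_eq_zero (h : kr k x ≤ kr k y) {q : Polynomial (MvPolynomial σ k)}
    (hq : q.map (aeval x : MvPolynomial σ k →ₐ[k] Ω).toRingHom = 0) :
    q.map (aeval y : MvPolynomial σ k →ₐ[k] Ω').toRingHom = 0 := by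
  ext n
  have := congrArg (fun p => Polynomial.coeff p n) hq
  simp only [Polynomial.coeff_map, Polynomial.coeff_zero] at this ⊢
  exact h this

/-- A relation of minimal degree. -/
theorem Rk2A_min (x : σ → Ω) {a : Ω} (ha : a ∈ acl k (range x)) :
    ∃ q : Polynomial (MvPolynomial σ k),
      (q.map (aeval x : MvPolynomial σ k →ₐ[k] Ω).toRingHom).eval a = 0 ∧
      q.leadingCoeff ∉ kr k x ∧ 0 < q.natDegree ∧
      ∀ p : Polynomial (MvPolynomial σ k), p.natDegree < q.natDegree →
        (p.map (aeval x : MvPolynomial σ k →ₐ[k] Ω).toRingHom).eval a = 0 →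
        p.map (aeval x : MvPolynomial σ k →ₐ[k] Ω).toRingHom = 0 := by
  classical
  set φ := (aeval x : MvPolynomial σ k →ₐ[k] Ω).toRingHom with hφ
  have hex : ∃ n, ∃ q : Polynomial (MvPolynomial σ k), q.natDegree = n ∧ (q.map φ).eval a = 0 ∧
      q.map φ ≠ 0 := by
    obtain ⟨p, hp0, hp⟩ := mem_acl.1 ha
    obtain ⟨q, rfl⟩ := Polynomial.map_surjective (Rk2A_ev (k := k) x).toRingHom
      (Rk2A_ev_surj x) p
    have hc : φ = (algebraMap _ Ω).comp (Rk2A_ev (k := k) x).toRingHom :=
      RingHom.ext fun f => (Rk2A_ev_coe x f).symm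
    refine ⟨_, q, rfl, ?_, ?_⟩
    · rw [hc, ← Polynomial.map_map, Polynomial.eval_map_algebraMap]
      exact hp
    · rw [hc, ← Polynomial.map_map]
      exact (Polynomial.map_ne_zero_iff Subtype.val_injective).2 hp0
  obtain ⟨q, hqn, hq, hq0⟩ := Nat.find_spec hex
  have hmin : ∀ p : Polynomial (MvPolynomial σ k), p.natDegree < q.natDegree →
      (p.map φ).eval a = 0 → p.map φ = 0 := by
    intro p hp hpa
    by_contra hp0
    exact Nat.find_min hex (hqn ▸ hp) ⟨p, rfl, hpa, hp0⟩
  have hlc : q.leadingCoeff ∉ kr k x := by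
    intro hc
    have hc' : φ q.leadingCoeff = 0 := hc
    have h1 : q.eraseLead.map φ = q.map φ := by
      conv_rhs => rw [← q.eraseLead_add_C_mul_X_pow]
      rw [Polynomial.map_add, Polynomial.map_mul, Polynomial.map_C, hc', map_zero, zero_mul,
        add_zero]
    rcases q.eraseLead_natDegree_lt_or_eraseLead_eq_zero with h | h
    · exact hq0 (h1 ▸ hmin _ h (h1 ▸ hq))
    · rw [h, Polynomial.map_zero] at h1
      exact hq0 h1.symm
  refine ⟨q, hq, hlc, ?_, hmin⟩
  by_contra h0
  have h0' : q.natDegree = 0 := by omega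
  have h1 := Polynomial.eq_C_of_natDegree_eq_zero h0'
  rw [h1, Polynomial.map_C, Polynomial.eval_C] at hq
  apply hlc
  rw [Polynomial.leadingCoeff, h0']
  exact hq

theorem kr_map (φ : Ω →ₐ[k] Ω') (x : σ → Ω) : kr k (fun s => φ (x s)) = kr k x := by
  ext f
  rw [mem_kr, mem_kr, ← comp_aeval, AlgHom.comp_apply]
  exact map_eq_zero_iff φ φ.toRingHom.injective

theorem kr_comp_le (h : kr k x ≤ kr k y) (e : τ → σ) : kr k (x ∘ e) ≤ kr k (y ∘ e) :=
  Rk2A_comp_le h e

theorem rk_le_of_kr [Finite σ] (h : kr k x ≤ kr k y) : rk k (range y) ≤ rk k (range x) := by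
  obtain ⟨s, h1, h2⟩ := Rk2A_basis (k := k) y
  let _ := Fintype.ofFinite s
  rw [Rk2A_rk_basis h1 h2, ← (rk_range_eq_iff _).2 (Rk2A_indep (kr_comp_le h _) h1)]
  exact rk_mono (finite_range _) (range_comp_subset_range _ _)

theorem kr_eq_of_rk [Finite σ] (h : kr k x ≤ kr k y) (h' : rk k (range x) ≤ rk k (range y)) :
    kr k x = kr k y := by
  obtain ⟨s, h1, h2⟩ := Rk2A_basis (k := k) y
  let _ := Fintype.ofFinite s
  refine le_antisymm h (Rk2A_key h ((↑) : s → σ) ?_ ?_)
  · intro p hp
    rw [algebraicIndependent_iff.1 h1 p hp]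
    exact zero_mem _
  · intro a ha
    by_contra hna
    have h3 := rk_insert_of_notMem (finite_range _) hna
    rw [(rk_range_eq_iff _).2 (Rk2A_indep (kr_comp_le h _) h1)] at h3
    have h4 : rk k (insert a (range (x ∘ ((↑) : s → σ)))) ≤ rk k (range x) :=
      rk_mono (finite_range _) (insert_subset ha (range_comp_subset_range _ _))
    rw [Rk2A_rk_basis h1 h2] at h'
    omega

theorem kr_elim_eq [Finite σ] [Fintype τ] (h : kr k x = kr k y) {z : τ → Ω} {z' : τ → Ω'}
    (hz : rk k (range x) + Fintype.card τ ≤ rk k (range x ∪ range z))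
    (hz' : rk k (range y) + Fintype.card τ ≤ rk k (range y ∪ range z')) :
    kr k (Sum.elim x z) = kr k (Sum.elim y z') := by
  ext P
  rw [Rk2A_mem_elim hz, Rk2A_mem_elim hz', h]

/-- A minimal polynomial with denominators cleared. -/
theorem exists_minpoly (x : σ → Ω) {a : Ω} (ha : a ∈ acl k (range x)) :
    ∃ f : MvPolynomial (Option σ) k, aeval (fun o => o.elim a x) f = 0 ∧
      ∀ (Ω' : Type u) [Field Ω'] [Algebra k Ω'] (y : σ → Ω') (b : Ω'), kr k x = kr k y →
        (aeval (fun o => o.elim b y) f = 0 →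
          kr k (fun o : Option σ => o.elim a x) = kr k fun o : Option σ => o.elim b y) ∧
        (b ∉ acl k (range y) → aeval (fun o => o.elim b y) f ≠ 0) := by
  obtain ⟨q, hq, hlc, hpos, hmin⟩ := Rk2A_min x ha
  refine ⟨(optionEquivLeft k σ).symm q, ?_, fun Ω' _ _ y b hxy => ⟨fun hb => ?_, fun hb hq' => ?_⟩⟩
  · rw [Rk2A_aeval_option, AlgEquiv.apply_symm_apply, hq]
  · rw [Rk2A_aeval_option, AlgEquiv.apply_symm_apply] at hb
    have hc : (aeval y : MvPolynomial σ k →ₐ[k] Ω').toRingHom q.leadingCoeff ≠ 0 :=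
      fun h => hlc (hxy ▸ h)
    have hall : ∀ (n : ℕ) (p : Polynomial (MvPolynomial σ k)), p.natDegree = n →
        (p.map (aeval x : MvPolynomial σ k →ₐ[k] Ω).toRingHom).eval a = 0 →
        (p.map (aeval y : MvPolynomial σ k →ₐ[k] Ω').toRingHom).eval b = 0 := by
      intro n
      induction n using Nat.strong_induction_on with
      | _ n ih =>
        intro p hn hp
        by_cases hlt : p.natDegree < q.natDegree
        · rw [Rk2A_map_eq_zero hxy.le (hmin p hlt hp), Polynomial.eval_zero]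
        · have hle : q.natDegree ≤ p.natDegree := not_lt.1 hlt
          have h1 := Polynomial.natDegree_cancelLeads_lt_of_natDegree_le_natDegree hle
            (hpos.trans_le hle)
          have h2 := ih _ (hn ▸ h1) (q.cancelLeads p) rfl (by
            simp only [Polynomial.cancelLeads, Polynomial.map_sub, Polynomial.map_mul,
              Polynomial.eval_sub, Polynomial.eval_mul, hp, hq, mul_zero, sub_zero])
          simp only [Polynomial.cancelLeads, Polynomial.map_sub, Polynomial.map_mul,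
            Polynomial.eval_sub, Polynomial.eval_mul, hb, mul_zero, sub_zero,
            Nat.sub_eq_zero_of_le hle, pow_zero, mul_one, Polynomial.map_C,
            Polynomial.eval_C] at h2
          exact (mul_eq_zero.1 h2).resolve_left hc
    have hle : kr k (fun o : Option σ => o.elim a x) ≤ kr k fun o : Option σ => o.elim b y := by
      intro P hP
      rw [mem_kr, Rk2A_aeval_option] at hP ⊢
      exact hall _ _ rfl hP
    refine le_antisymm hle (Rk2A_key hle some hxy.ge ?_)
    rintro _ ⟨o, rfl⟩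
    rcases o with _ | i
    · exact ha
    · exact subset_acl _ ⟨i, rfl⟩
  · rw [Rk2A_aeval_option, AlgEquiv.apply_symm_apply] at hq'
    have hc : (aeval y : MvPolynomial σ k →ₐ[k] Ω').toRingHom =
        (algebraMap _ Ω').comp (Rk2A_ev (k := k) y).toRingHom :=
      RingHom.ext fun f => (Rk2A_ev_coe y f).symm
    rw [hc, ← Polynomial.map_map, Polynomial.eval_map_algebraMap] at hq'
    refine hb (mem_acl.2 ⟨_, fun h0 => hlc ?_, hq'⟩)
    have h1 := congrArg (fun p => Polynomial.coeff p q.natDegree) h0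
    simp only [Polynomial.coeff_map, Polynomial.coeff_zero] at h1
    rw [hxy, mem_kr, ← Rk2A_ev_coe]
    exact (congrArg (algebraMap _ Ω') h1).trans (map_zero _)

end Pool.Agent.MP_0c8446_ag
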