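import Pool.Agent.MP_0c8446_ag.DL.Rk2A

namespace Pool.Agent.MP_0c8446_ag

open MvPolynomial Set

universe u v w

variable {k : Type u} [Field k] {Ω Ω' : Type u} [Field Ω] [Algebra k Ω] [Field Ω'] [Algebra k Ω']
  {σ τ : Type} {x : σ → Ω} {y : σ → Ω'}

theorem Rk2B_amalg {F : Type u} [Field F] [Algebra k F] (f : F →ₐ[k] Ω) (g : F →ₐ[k] Ω') :
    ∃ (Ω'' : Type u) (_ : Field Ω'') (_ : Algebra k Ω'') (_ : IsAlgClosed Ω'') (φ : Ω →ₐ[k] Ω'')
      (ψ : Ω' →ₐ[k] Ω''), ∀ z, φ (f z) = ψ (g z) := by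
  let _ : Algebra F Ω := f.toRingHom.toAlgebra
  let _ : Algebra F Ω' := g.toRingHom.toAlgebra
  have _ : Nontrivial (TensorProduct F Ω Ω') :=
    Algebra.TensorProduct.nontrivial_of_algebraMap_injective_of_flat_left F Ω Ω'
      (algebraMap F Ω').injective
  obtain ⟨m, hm⟩ := Ideal.exists_maximal (TensorProduct F Ω Ω')
  let _ : Field (TensorProduct F Ω Ω' ⧸ m) := Ideal.Quotient.field m
  let π : TensorProduct F Ω Ω' →+* AlgebraicClosure (TensorProduct F Ω Ω' ⧸ m) :=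
    (algebraMap (TensorProduct F Ω Ω' ⧸ m) _).comp (Ideal.Quotient.mk m)
  let φ₀ := π.comp (Algebra.TensorProduct.includeLeftRingHom (R := F) (A := Ω) (B := Ω'))
  let ψ₀ := π.comp (Algebra.TensorProduct.includeRight (R := F) (A := Ω) (B := Ω')).toRingHom
  have h : ∀ z, φ₀ (f z) = ψ₀ (g z) := fun z => congrArg π
    (((Algebra.TensorProduct.includeLeft (R := F) (S := F) (A := Ω) (B := Ω')).commutes z).trans
      ((Algebra.TensorProduct.includeRight (R := F) (A := Ω) (B := Ω')).commutes z).symm)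
  let a := (φ₀.comp (algebraMap k Ω)).toAlgebra
  refine ⟨_, inferInstance, a, inferInstance, { φ₀ with commutes' := fun _ => rfl },
    { ψ₀ with commutes' := fun c => ?_ }, h⟩
  have h1 := h (algebraMap k F c)
  rw [f.commutes, g.commutes] at h1
  exact h1.symm

theorem exists_amalgam (h : kr k x = kr k y) :
    ∃ (Ω'' : Type u) (_ : Field Ω'') (_ : Algebra k Ω'') (_ : IsAlgClosed Ω'') (φ : Ω →ₐ[k] Ω'')
      (ψ : Ω' →ₐ[k] Ω''), ∀ s, φ (x s) = ψ (y s) := by
  have _ : (kr k x).IsPrime := RingHom.ker_isPrime _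
  let f : (MvPolynomial σ k ⧸ kr k x) →ₐ[k] Ω := Ideal.Quotient.liftₐ _ (aeval x) fun _ hp => hp
  let g : (MvPolynomial σ k ⧸ kr k x) →ₐ[k] Ω' :=
    Ideal.Quotient.liftₐ _ (aeval y) fun _ hp => mem_kr.1 (h ▸ hp)
  have hf : Function.Injective f := (injective_iff_map_eq_zero f).2 fun p hp => by
    obtain ⟨p, rfl⟩ := Ideal.Quotient.mk_surjective p
    exact Ideal.Quotient.eq_zero_iff_mem.2 hp
  have hg : Function.Injective g := (injective_iff_map_eq_zero g).2 fun p hp => by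
    obtain ⟨p, rfl⟩ := Ideal.Quotient.mk_surjective p
    exact Ideal.Quotient.eq_zero_iff_mem.2 (h ▸ mem_kr.2 hp)
  obtain ⟨Ω'', _, _, _, φ, ψ, e⟩ := Rk2B_amalg
    (IsFractionRing.liftAlgHom (K := FractionRing (MvPolynomial σ k ⧸ kr k x)) hf)
    (IsFractionRing.liftAlgHom (K := FractionRing (MvPolynomial σ k ⧸ kr k x)) hg)
  refine ⟨Ω'', inferInstance, inferInstance, inferInstance, φ, ψ, fun s => ?_⟩
  have h1 := e (algebraMap (MvPolynomial σ k ⧸ kr k x) _ (Ideal.Quotient.mk _ (X s)))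
  rw [IsFractionRing.liftAlgHom_apply, IsFractionRing.liftAlgHom_apply,
    IsFractionRing.lift_algebraMap, IsFractionRing.lift_algebraMap] at h1
  have h2 : f (Ideal.Quotient.mk _ (X s)) = x s := aeval_X x s
  have h3 : g (Ideal.Quotient.mk _ (X s)) = y s := aeval_X y s
  rw [← h2, ← h3]
  exact h1

/-- A system of equations over an algebraically closed subfield that has a solution has a
solution in the subfield. -/
theorem exists_retract [Finite σ] (F : IntermediateField k Ω) [IsAlgClosed F] (x : σ → Ω)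
    {c : τ → Ω} (hc : ∀ t, c t ∈ F) :
    ∃ x₀ : σ → Ω, (∀ s, x₀ s ∈ F) ∧ kr k (Sum.elim x c) ≤ kr k (Sum.elim x₀ c) := by
  obtain ⟨m, hm, hle⟩ := Ideal.exists_le_maximal
    (RingHom.ker (aeval x : MvPolynomial σ F →ₐ[F] Ω)) (RingHom.ker_ne_top _)
  obtain ⟨x₀, rfl⟩ := isMaximal_iff_eq_vanishingIdeal_singleton.1 hm
  have key : ∀ (z : σ → Ω) (P : MvPolynomial (σ ⊕ τ) k),
      (aeval z : MvPolynomial σ F →ₐ[F] Ω)
        (aeval (Sum.elim X fun t => C ⟨c t, hc t⟩ : σ ⊕ τ → MvPolynomial σ F) P) =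
        aeval (Sum.elim z c) P := fun z P => by
    have h1 := comp_aeval_apply (Sum.elim X fun t => C ⟨c t, hc t⟩ : σ ⊕ τ → MvPolynomial σ F)
      ((aeval z : MvPolynomial σ F →ₐ[F] Ω).restrictScalars k) P
    refine h1.trans (congrArg (fun w => aeval w P) (funext fun s => ?_))
    rcases s with s | s
    · simp
    · simp
  refine ⟨fun s => x₀ s, fun s => (x₀ s).2, fun P hP => mem_kr.2 ?_⟩
  have h1 := (mem_vanishingIdeal_singleton_iff _ _).1 (hle ((key x P).trans (mem_kr.1 hP)))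
  rw [← key]
  have h2 := comp_aeval_apply x₀ (Algebra.ofId F Ω)
    (aeval (Sum.elim X fun t => C ⟨c t, hc t⟩ : σ ⊕ τ → MvPolynomial σ F) P)
  rw [h1, map_zero] at h2
  exact h2.symm

end Pool.Agent.MP_0c8446_ag
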