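import Pool.Agent.MP_0c8446_ag.DL.Form

namespace Pool.Agent.MP_0c8446_ag

open MvPolynomial Set

universe u v w

variable {k : Type u} [Field k] {Ω Ω' : Type u} [Field Ω] [Algebra k Ω] [Field Ω'] [Algebra k Ω']
  {S T : Set Ω} {x y : Ω}

theorem RkA_fin (hT : T.Finite) : (AlgebraicIndependent.matroid k Ω).eRk T ≠ ⊤ :=
  ne_top_of_le_ne_top hT.encard_lt_top.ne ((AlgebraicIndependent.matroid k Ω).eRk_le_encard T)

theorem RkA_coe (hT : T.Finite) :
    ((rk k T : ℕ) : ℕ∞) = (AlgebraicIndependent.matroid k Ω).eRk T :=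
  ENat.natCast_toNat (RkA_fin hT)

theorem RkA_comap (φ : Ω →ₐ[k] Ω') :
    (AlgebraicIndependent.matroid k Ω').comap φ = AlgebraicIndependent.matroid k Ω := by
  have hφ : Function.Injective φ := φ.toRingHom.injective
  refine Matroid.ext_indep (by simp) fun I _ => ?_
  rw [Matroid.comap_indep_iff, AlgebraicIndependent.matroid_indep_iff,
    AlgebraicIndependent.matroid_indep_iff, and_iff_left hφ.injOn]
  exact (algebraicIndependent_image (R := k) (s := I) (f := φ) hφ.injOn).symm.trans
    (φ.algebraicIndependent_iff (x := fun x : I => (x : Ω)) hφ)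

/-- The algebraic closure as a subalgebra over `k`. -/
noncomputable def RkA_alg (S : Set Ω) : Subalgebra k Ω :=
  (Subalgebra.algebraicClosure (Algebra.adjoin k S) Ω).restrictScalars k

theorem RkA_mem_alg : x ∈ RkA_alg (k := k) S ↔ x ∈ acl k S := by
  rw [acl, AlgebraicIndependent.matroid_closure_eq]; rfl

theorem mem_acl : x ∈ acl k S ↔ IsAlgebraic (Algebra.adjoin k S) x := RkA_mem_alg.symm

theorem subset_acl (S : Set Ω) : S ⊆ acl k S := (AlgebraicIndependent.matroid k Ω).subset_closure S (by simp)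

theorem acl_mono (h : S ⊆ T) : acl k S ⊆ acl k T := (AlgebraicIndependent.matroid k Ω).closure_subset_closure h

theorem acl_subset (h : S ⊆ acl k T) : acl k S ⊆ acl k T := 
  (AlgebraicIndependent.matroid k Ω).closure_subset_closure_of_subset_closure h

theorem exists_aclF (S : Set Ω) :
    ∃ F : IntermediateField k Ω, (F : Set Ω) = acl k S ∧ (IsAlgClosed Ω → IsAlgClosed F) := by
  refine ⟨(RkA_alg (k := k) S).toIntermediateField fun x hx =>
    RkA_mem_alg.2 (mem_acl.2 (mem_acl.1 (RkA_mem_alg.1 hx)).inv), ?_, fun _ => ?_⟩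
  · ext x; exact RkA_mem_alg
  · refine IsAlgClosed.of_exists_root _ fun p hp hi => ?_
    obtain ⟨z, hz⟩ := IsAlgClosed.exists_aeval_eq_zero Ω p (Polynomial.degree_pos_of_irreducible hi).ne'
    have h1 : IsAlgebraic (RkA_alg (k := k) S) z := ⟨p, hp.ne_zero, hz⟩
    have h2 : Algebra.adjoin k (acl k S) = RkA_alg (k := k) S := by
      rw [← Algebra.adjoin_eq (RkA_alg (k := k) S)]
      congr 1; ext x; exact RkA_mem_alg.symm
    have h3 : z ∈ acl k S := acl_subset (S := acl k S) subset_rfl (mem_acl.2 (h2 ▸ h1))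
    refine ⟨⟨z, RkA_mem_alg.2 h3⟩, ?_⟩
    apply Subtype.ext
    have := Polynomial.aeval_algebraMap_apply Ω (⟨z, RkA_mem_alg.2 h3⟩ :
      (RkA_alg (k := k) S).toIntermediateField fun x hx =>
        RkA_mem_alg.2 (mem_acl.2 (mem_acl.1 (RkA_mem_alg.1 hx)).inv)) p
    rw [Polynomial.coe_aeval_eq_eval] at this
    exact this.symm.trans hz

theorem algebraMap_mem_acl (c : k) : algebraMap k Ω c ∈ acl k S := 
  RkA_mem_alg.1 ((RkA_alg S).algebraMap_mem c)

theorem add_mem_acl (hx : x ∈ acl k S) (hy : y ∈ acl k S) : x + y ∈ acl k S := 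
  RkA_mem_alg.1 (add_mem (RkA_mem_alg.2 hx) (RkA_mem_alg.2 hy))

theorem sub_mem_acl (hx : x ∈ acl k S) (hy : y ∈ acl k S) : x - y ∈ acl k S := 
  RkA_mem_alg.1 (sub_mem (RkA_mem_alg.2 hx) (RkA_mem_alg.2 hy))

theorem mul_mem_acl (hx : x ∈ acl k S) (hy : y ∈ acl k S) : x * y ∈ acl k S := 
  RkA_mem_alg.1 (mul_mem (RkA_mem_alg.2 hx) (RkA_mem_alg.2 hy))

theorem inv_mem_acl (hx : x ∈ acl k S) : x⁻¹ ∈ acl k S := mem_acl.2 (mem_acl.1 hx).inv

theorem div_mem_acl (hx : x ∈ acl k S) (hy : y ∈ acl k S) : x / y ∈ acl k S := by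
  rw [div_eq_mul_inv]; exact mul_mem_acl hx (inv_mem_acl hy)

theorem aeval_mem_acl {σ : Type*} {z : σ → Ω} (h : ∀ s, z s ∈ acl k S) (f : MvPolynomial σ k) :
    aeval z f ∈ acl k S := by
  induction f using MvPolynomial.induction_on with
  | C a => rw [aeval_C]; exact algebraMap_mem_acl a
  | add p q hp hq => rw [map_add]; exact add_mem_acl hp hq
  | mul_X p s hp => rw [map_mul, aeval_X]; exact mul_mem_acl hp (h s)

theorem map_mem_acl_iff (φ : Ω →ₐ[k] Ω') : φ x ∈ acl k (φ '' S) ↔ x ∈ acl k S := by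
  rw [acl, acl, ← RkA_comap φ, Matroid.comap_closure_eq]; rfl

theorem rk_empty : rk k (∅ : Set Ω) = 0 := by simp [rk]

theorem rk_le_of_acl (hT : T.Finite) (h : S ⊆ acl k T) : rk k S ≤ rk k T := by
  refine ENat.toNat_le_toNat ?_ (RkA_fin hT)
  rw [← (AlgebraicIndependent.matroid k Ω).eRk_closure_eq T]
  exact (AlgebraicIndependent.matroid k Ω).eRk_mono h

theorem rk_mono (hT : T.Finite) (h : S ⊆ T) : rk k S ≤ rk k T := 
  rk_le_of_acl hT (h.trans (subset_acl T))

theorem rk_submod (hS : S.Finite) (hT : T.Finite) :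
    rk k (S ∪ T) + rk k (S ∩ T) ≤ rk k S + rk k T := by
  have := (AlgebraicIndependent.matroid k Ω).eRk_inter_add_eRk_union_le S T
  rw [← RkA_coe hS, ← RkA_coe hT, ← RkA_coe (hS.union hT), ← RkA_coe (hS.inter_of_left T),
    add_comm] at this
  exact_mod_cast this

theorem rk_union_le (hS : S.Finite) (hT : T.Finite) : rk k (S ∪ T) ≤ rk k S + rk k T := 
  (Nat.le_add_right _ _).trans (rk_submod hS hT)

theorem rk_insert_of_mem (hx : x ∈ acl k S) : rk k (insert x S) = rk k S := by
  rw [acl] at hx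
  rw [rk, rk, ← Matroid.eRk_insert_closure_eq, insert_eq_of_mem hx, Matroid.eRk_closure_eq]

theorem rk_insert_of_notMem (hS : S.Finite) (hx : x ∉ acl k S) :
    rk k (insert x S) = rk k S + 1 := by
  have := (AlgebraicIndependent.matroid k Ω).eRk_insert_eq_add_one (e := x) (X := S)
    ⟨by simp, hx⟩
  rw [← RkA_coe hS, ← RkA_coe (hS.insert x)] at this
  exact_mod_cast this

theorem rk_insert_le (hS : S.Finite) (x : Ω) : rk k (insert x S) ≤ rk k S + 1 := by
  have := (AlgebraicIndependent.matroid k Ω).eRk_insert_le_add_one x S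
  rw [← RkA_coe hS, ← RkA_coe (hS.insert x)] at this
  exact_mod_cast this

theorem rk_range_le {τ : Type*} [Fintype τ] (z : τ → Ω) : rk k (range z) ≤ Fintype.card τ := by
  have := ((AlgebraicIndependent.matroid k Ω).eRk_le_encard (range z)).trans
    (by simpa using encard_image_le z univ : (range z).encard ≤ (Fintype.card τ : ℕ∞))
  rw [← RkA_coe (finite_range z)] at this
  exact_mod_cast this

theorem rk_image_le {τ : Type*} (z : τ → Ω) (s : Finset τ) : rk k (z '' s) ≤ s.card := by
  have := ((AlgebraicIndependent.matroid k Ω).eRk_le_encard (z '' s)).trans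
    (by simpa using encard_image_le z s : (z '' s).encard ≤ (s.card : ℕ∞))
  rw [← RkA_coe (s.finite_toSet.image z)] at this
  exact_mod_cast this

theorem rk_range_eq_iff {τ : Type*} [Fintype τ] (z : τ → Ω) :
    rk k (range z) = Fintype.card τ ↔ AlgebraicIndependent k z := by
  have h0 : (range z).encard ≤ (Fintype.card τ : ℕ∞) := by simpa using encard_image_le z univ
  have h1 := (AlgebraicIndependent.matroid k Ω).indep_iff_eRk_eq_encard_of_finite (finite_range z)
  constructor
  · intro h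
    have h2 : (AlgebraicIndependent.matroid k Ω).eRk (range z) = (Fintype.card τ : ℕ∞) := by
      rw [← RkA_coe (finite_range z), h]
    have h3 : (range z).encard = (Fintype.card τ : ℕ∞) :=
      le_antisymm h0 (h2 ▸ (AlgebraicIndependent.matroid k Ω).eRk_le_encard (range z))
    have h4 : Function.Injective z := by
      rw [← injOn_univ]
      refine finite_univ.injOn_of_encard_image_eq ?_
      simpa using h3
    exact (algebraicIndependent_subtype_range h4).1
      (AlgebraicIndependent.matroid_indep_iff.1 (h1.2 (h2.trans h3.symm)))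
  · intro h
    have h2 := h1.1 (AlgebraicIndependent.matroid_indep_iff.2 h.to_subtype_range)
    have h3 : (range z).encard = (Fintype.card τ : ℕ∞) := by
      simpa using h.injective.injOn.encard_image (s := univ)
    rw [← RkA_coe (finite_range z), h3] at h2
    exact_mod_cast h2

theorem rk_image (φ : Ω →ₐ[k] Ω') (S : Set Ω) : rk k (φ '' S) = rk k S := by
  rw [rk, rk, ← RkA_comap φ, Matroid.eRk_comap]

end Pool.Agent.MP_0c8446_ag
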