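import Pool.Agent.MP_0c8446_ag.DL.RlA0

namespace Pool.Agent.MP_0c8446_ag

open MvPolynomial Set Matrix

universe u v w

variable {k : Type u} [Field k] {n : ℕ} {b : Fin n → ℕ} {g g' g'' : Matrix (Fin n) (Fin n) k}

variable {uni : Bool} {q : ℕ}

lemma RlA_inv_mul (hg : IsUnit g) : g⁻¹ * g = 1 :=
  Matrix.nonsing_inv_mul _ ((Matrix.isUnit_iff_isUnit_det g).1 hg)

lemma RlA_mul_inv (hg : IsUnit g) : g * g⁻¹ = 1 :=
  Matrix.mul_nonsing_inv _ ((Matrix.isUnit_iff_isUnit_det g).1 hg)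

lemma RlA_entry (g g' : Matrix (Fin n) (Fin n) k) (a l : Fin n) :
    (g⁻¹ *ᵥ fun i => g' i l) a = (g⁻¹ * g') a l := rfl

theorem flg_mono (g : Matrix (Fin n) (Fin n) k) {a a' : ℕ} (h : a ≤ a') : flg g a ≤ flg g a' :=
  Submodule.span_mono (image_mono fun _ hb => lt_of_lt_of_le hb h)

theorem col_mem_flg (g : Matrix (Fin n) (Fin n) k) {a : ℕ} {l : Fin n} (h : (l : ℕ) < a) :
    (fun i => g i l) ∈ flg g a := Submodule.subset_span ⟨l, h, rfl⟩

theorem mem_flg_iff (hg : IsUnit g) {a : ℕ} {x : Fin n → k} :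
    x ∈ flg g a ↔ ∀ l : Fin n, a ≤ l → (g⁻¹ *ᵥ x) l = 0 := by
  constructor
  · intro hx l hl
    induction hx using Submodule.span_induction with
    | mem x hx =>
      obtain ⟨m, hm, rfl⟩ := hx
      have hm' : (m : ℕ) < a := hm
      rw [RlA_entry, RlA_inv_mul hg, Matrix.one_apply_ne]
      rintro rfl
      omega
    | zero => simp
    | add x y _ _ hx hy => rw [Matrix.mulVec_add, Pi.add_apply, hx, hy, add_zero]
    | smul t x _ hx => rw [Matrix.mulVec_smul, Pi.smul_apply, hx, smul_zero]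
  · intro h
    have e : x = ∑ l, (g⁻¹ *ᵥ x) l • fun i => g i l := by
      have e1 : x = g *ᵥ (g⁻¹ *ᵥ x) := by
        rw [Matrix.mulVec_mulVec, RlA_mul_inv hg, Matrix.one_mulVec]
      generalize g⁻¹ *ᵥ x = y at e1
      rw [e1]
      funext i
      simp [Matrix.mulVec, dotProduct, Finset.sum_apply, mul_comm]
    rw [e]
    refine Submodule.sum_mem _ fun l _ => ?_
    by_cases hl : (l : ℕ) < a
    · exact Submodule.smul_mem _ _ (col_mem_flg g hl)
    · rw [h l (not_lt.1 hl), zero_smul]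
      exact Submodule.zero_mem _

theorem flg_succ (g : Matrix (Fin n) (Fin n) k) (a : Fin n) :
    flg g (a + 1) = Submodule.span k (range (cols g a)) := by
  unfold flg
  congr 1
  ext x
  constructor
  · rintro ⟨l, hl, rfl⟩
    exact ⟨⟨l, hl⟩, rfl⟩
  · rintro ⟨m, rfl⟩
    exact ⟨Fin.castLE a.2 m, m.2, rfl⟩

theorem linearIndependent_cols (hg : IsUnit g) (a : Fin n) : LinearIndependent k (cols g a) :=
  (Matrix.linearIndependent_cols_iff_isUnit.2 hg).comp (Fin.castLE a.2) (Fin.castLE_injective _)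

theorem rl_iff_col (hg : IsUnit g) :
    Rl Fin.val g g' ↔ ∀ l : Fin n, (fun i => g' i l) ∈ flg g (l + 1) := by
  constructor
  · intro h l
    rw [mem_flg_iff hg]
    intro a ha
    rw [RlA_entry]
    exact h ha
  · intro h a l hl
    rw [← RlA_entry]
    exact (mem_flg_iff hg).1 (h l) a hl

lemma RlA_flg_le (h : Rl Fin.val g g') (hg : IsUnit g) (a : ℕ) : flg g' a ≤ flg g a := by
  refine Submodule.span_le.2 ?_
  rintro _ ⟨l, hl, rfl⟩
  exact flg_mono g (Nat.succ_le_of_lt hl) ((rl_iff_col hg).1 h l)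

theorem Rl.flg_eq (h : Rl Fin.val g g') (hg : IsUnit g) (hg' : IsUnit g') (a : ℕ) :
    flg g' a = flg g a :=
  le_antisymm (RlA_flg_le h hg a) (RlA_flg_le (h.symm hg hg') hg' a)

theorem isUnit_of_col (hg : IsUnit g)
    (h : ∀ l : Fin n, (fun i => g' i l) ∈ flg g (l + 1) ∧ (fun i => g' i l) ∉ flg g l) :
    IsUnit g' := by
  have h1 : Rl Fin.val g g' := (rl_iff_col hg).2 fun l => (h l).1
  have h2 : (g⁻¹ * g').BlockTriangular id := fun _ _ hl => h1 hl
  have h3 : ∀ l, (g⁻¹ * g') l l ≠ 0 := by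
    intro l hl
    refine (h l).2 ((mem_flg_iff hg).2 fun a ha => ?_)
    rw [RlA_entry]
    rcases eq_or_lt_of_le ha with e | e
    · obtain rfl : l = a := Fin.ext e
      exact hl
    · exact h1 e
  have h4 : IsUnit (g⁻¹ * g') := by
    rw [Matrix.isUnit_iff_isUnit_det, Matrix.det_of_isUpperTriangular h2, isUnit_iff_ne_zero]
    exact Finset.prod_ne_zero_iff.2 fun l _ => h3 l
  have h5 : g' = g * (g⁻¹ * g') := by rw [← Matrix.mul_assoc, RlA_mul_inv hg, Matrix.one_mul]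
  rw [h5]
  exact hg.mul h4

theorem rl_iff_pl (hg : IsUnit g) (hg' : IsUnit g') : Rl Fin.val g g' ↔
    ∀ a : Fin n, ∃ t : k, t ≠ 0 ∧ ∀ α, pl (cols g' a) α = t * pl (cols g a) α := by
  constructor
  · intro h a
    refine exists_pl_of_span (linearIndependent_cols hg' a) fun m => ?_
    rw [← flg_succ, ← h.flg_eq hg hg', flg_succ]
    exact Submodule.subset_span ⟨m, rfl⟩
  · intro h
    refine (rl_iff_col hg).2 fun l => ?_
    obtain ⟨t, ht, e⟩ := h l
    rw [flg_succ, ← span_eq_of_pl (linearIndependent_cols hg l) ht e, ← flg_succ]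
    exact col_mem_flg g' (Nat.lt_succ_self _)

variable {r : ℕ} {N : Fin n → ℕ} (c : ∀ a : Fin n, Fin (N a + 1) ≃ (Fin (a + 1) → Fin n))
  {G G' : Fin (r + 1) → Matrix (Fin n) (Fin n) k} {w : Fin r → ℕ}

theorem nzb_plV (hG : ∀ j, IsUnit (G j)) : NZb (plV c G) := by
  rintro ⟨j, a⟩
  obtain ⟨α, hα⟩ := pl_ne_zero_iff.2 (linearIndependent_cols (hG j) a)
  refine ⟨(c a).symm α, ?_⟩
  change pl (cols (G j) a) (c a ((c a).symm α)) ≠ 0
  rwa [Equiv.apply_symm_apply]

theorem parOn_plV (hG : ∀ j, IsUnit (G j)) (hG' : ∀ j, IsUnit (G' j)) :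
    ParOn univ (plV c G) (plV c G') ↔ ∀ j, Rl Fin.val (G j) (G' j) := by
  constructor
  · intro h j
    refine (rl_iff_pl (hG j) (hG' j)).2 fun a => ?_
    obtain ⟨t, ht, e⟩ := h (j, a) (mem_univ _)
    refine ⟨t, ht, fun α => ?_⟩
    have e' : pl (cols (G' j) a) (c a ((c a).symm α)) =
        t * pl (cols (G j) a) (c a ((c a).symm α)) := e ((c a).symm α)
    rwa [Equiv.apply_symm_apply] at e'
  · rintro h ⟨j, a⟩ -
    obtain ⟨t, ht, e⟩ := (rl_iff_pl (hG j) (hG' j)).1 (h j) a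
    exact ⟨t, ht, fun s => e (c a s)⟩

theorem IsChain'.congr [PQ k q] (h : IsChain' uni q w G) (hG' : ∀ j, IsUnit (G' j))
    (e : ∀ j, Rl Fin.val (G j) (G' j)) : IsChain' uni q w G' := by
  obtain ⟨h1, h2, h3⟩ := h
  refine ⟨hG', fun j => ?_, ?_⟩
  · exact ((((e _).symm (h1 _) (hG' _)).toBlk _).trans (h2 j) (h1 _)).trans ((e _).toBlk _) (h1 _)
  · exact (((e _).symm (h1 _) (hG' _)).trans h3 (h1 _)).trans ((e 0).frob (h1 0) (hG' 0))
      (isUnit_frobFlag (h1 0))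

theorem IsChain'.mul [PQ k q] (h : IsChain' uni q w G) {γ : Matrix (Fin n) (Fin n) k}
    (hγ : IsUnit γ) (e : frH k n uni q γ = γ) : IsChain' uni q w fun j => γ * G j := by
  obtain ⟨h1, h2, h3⟩ := h
  refine ⟨fun j => hγ.mul (h1 j), fun j => (rl_mul_left hγ).2 (h2 j), ?_⟩
  change Rl Fin.val (γ * G (Fin.last r)) (frobFlag uni q (γ * G 0))
  rw [frobFlag_mul, e]
  exact (rl_mul_left hγ).2 h3

theorem mem_dl {x : MP k fun i : Fin (r + 1) × Fin n => N i.2} :
    x ∈ dl k uni q w c ↔ ∃ G, IsChain' uni q w G ∧ IsRep (plV c G) x := by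
  simp only [IsChain', and_assoc]
  rfl

end Pool.Agent.MP_0c8446_ag
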