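import Pool.Agent.MP_0c8446_ag.DL.StW
import Pool.Agent.MP_0c8446_ag.DL.RepT

namespace Pool.Agent.MP_0c8446_ag

open MvPolynomial Set

universe u v w

variable {k : Type u} [Field k] [IsAlgClosed k] {K : Type v} [Field K] [CharZero K]
  (W : Weil.{u, v, w} k K) {Γ : Type u} [Group Γ]

omit [CharZero K] in
/-- An algebraic exterior square stays algebraic along any pair of morphisms. -/
theorem SqW_pair {X Q : Var k} {z : W.H X}
    (hz : W.pull (pvF X X) z * W.pull (pvS X X) z ∈ W.Alg (pvVar X X)) (f g : Mor Q X) :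
    W.pull f z * W.pull g z ∈ W.Alg Q := by
  have h := W.pull_mem_Alg ((isProd_pv X X).lift f g) hz
  rwa [map_mul, W.pull_pull, W.pull_pull,
    W.pull_congr (f := (pvF X X).comp _) (g := f) (fun x => (isProd_pv X X).fst_lift f g x),
    W.pull_congr (f := (pvS X X).comp _) (g := g) (fun x => (isProd_pv X X).snd_lift f g x)] at h

/-- The exterior product on a subspace. -/
noncomputable def SqW_kap {X : Var k} (V : Submodule K (W.H X)) :
    TensorProduct K V V →ₗ[K] W.H (pvVar X X) :=
  TensorProduct.lift ((LinearMap.mul K (W.H (pvVar X X))).compl₁₂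
    ((W.pull (pvF X X)).toLinearMap ∘ₗ V.subtype) ((W.pull (pvS X X)).toLinearMap ∘ₗ V.subtype))

omit [CharZero K] in
theorem SqW_kap_tmul {X : Var k} (V : Submodule K (W.H X)) (z z' : V) :
    SqW_kap W V (z ⊗ₜ[K] z') = W.pull (pvF X X) z.1 * W.pull (pvS X X) z'.1 := rfl

omit [CharZero K] in
theorem SqW_kap_map {X : Var k} (V : Submodule K (W.H X)) {f g : Mor X X}
    {Φ : Mor (pvVar X X) (pvVar X X)} (h1 : ∀ x, (pvF X X).1 (Φ.1 x) = f.1 ((pvF X X).1 x))
    (h2 : ∀ x, (pvS X X).1 (Φ.1 x) = g.1 ((pvS X X).1 x)) {A B : Module.End K V}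
    (hA : ∀ z, (A z).1 = W.pull f z.1) (hB : ∀ z, (B z).1 = W.pull g z.1)
    (ξ : TensorProduct K V V) :
    SqW_kap W V (TensorProduct.map A B ξ) = W.pull Φ (SqW_kap W V ξ) := by
  induction ξ using TensorProduct.induction_on with
  | zero => simp
  | add s t hs ht => simp only [map_add, hs, ht]
  | tmul z z' =>
    rw [TensorProduct.map_tmul, SqW_kap_tmul, SqW_kap_tmul, hA, hB, map_mul, W.pull_pull,
      W.pull_pull, W.pull_pull, W.pull_pull,
      W.pull_congr (f := (pvF X X).comp Φ) (g := f.comp (pvF X X)) h1,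
      W.pull_congr (f := (pvS X X).comp Φ) (g := g.comp (pvS X X)) h2]

/-- The representation on one graded piece. -/
noncomputable def SqW_rep (S : Stage k Γ) (i : ℕ) : Γ →* Module.End K (W.gr S.P i) where
  toFun g := (W.pull (S.act g⁻¹)).toLinearMap.restrict fun a ha => W.pull_gr _ i a ha
  map_one' := by
    ext z
    exact W.pull_id (S.act 1⁻¹) (funext fun x => by rw [inv_one]; exact S.act_one x) z.1
  map_mul' g g' := by
    ext z
    change W.pull (S.act (g * g')⁻¹) z.1 = W.pull (S.act g⁻¹) (W.pull (S.act g'⁻¹) z.1)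
    rw [W.pull_pull, mul_inv_rev]
    exact W.pull_congr (fun x => S.act_mul _ _ x) _

theorem Weil.sqT_of_inv [IsAlgClosed K] [Finite Γ] (S : Stage k Γ) (θ : Γ →* Γ)
    (hθ : ∀ g, IsConj (θ g) g⁻¹)
    (h : ∀ a, W.Inv (S.prod (S.comap θ)) a → a ∈ W.Alg (S.prod (S.comap θ)).P) : W.SqT S.P := by
  have key : ∀ i, Submodule.span K {z : W.gr S.P i |
      z ⊗ₜ[K] z ∈ (W.Alg (pvVar S.P S.P)).comap (SqW_kap W (W.gr S.P i))} = ⊤ := by
    intro i
    refine span_sq_eq_top (SqW_rep W S i) θ hθ _ (fun g g' ξ hξ => ?_) fun ξ hξ => ?_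
    · rw [Submodule.mem_comap, SqW_kap_map W (W.gr S.P i) (f := S.act g⁻¹) (g := S.act g'⁻¹)
        (Φ := (isProd_pv S.P S.P).lift ((S.act g⁻¹).comp (pvF S.P S.P))
          ((S.act g'⁻¹).comp (pvS S.P S.P)))
        (fun x => (isProd_pv S.P S.P).fst_lift _ _ x) (fun x => (isProd_pv S.P S.P).snd_lift _ _ x)
        (fun _ => rfl) (fun _ => rfl)]
      exact W.pull_mem_Alg _ hξ
    · refine h _ fun γ => ?_
      have e := SqW_kap_map W (W.gr S.P i) (f := S.act γ) (g := S.act (θ γ))
        (Φ := (S.prod (S.comap θ)).act γ) (fun x => S.pvF_act (S.comap θ) γ x)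
        (fun x => by rw [← S.comap_act θ γ]; exact S.pvS_act (S.comap θ) γ x)
        (A := SqW_rep W S i γ⁻¹) (B := SqW_rep W S i (θ γ⁻¹))
        (fun z => by change W.pull (S.act γ⁻¹⁻¹) z.1 = _; rw [inv_inv])
        (fun z => by change W.pull (S.act (θ γ⁻¹)⁻¹) z.1 = _; rw [map_inv, inv_inv]) ξ
      rw [hξ] at e
      exact e.symm
  refine Submodule.eq_top_iff'.2 fun a => ?_
  induction a using DirectSum.Decomposition.inductionOn (W.gr S.P) with
  | zero => exact zero_mem _
  | add b c hb hc => exact add_mem hb hc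
  | @homogeneous i b =>
    have hb : b ∈ Submodule.span K {z : W.gr S.P i |
      z ⊗ₜ[K] z ∈ (W.Alg (pvVar S.P S.P)).comap (SqW_kap W (W.gr S.P i))} := by
      rw [key i]; trivial
    induction hb using Submodule.span_induction with
    | mem z hz => exact Submodule.subset_span ⟨⟨i, z.2⟩, fun P p q _ => SqW_pair W hz p q⟩
    | zero => exact zero_mem _
    | add x y _ _ hx hy => exact add_mem hx hy
    | smul c x _ hx => exact Submodule.smul_mem _ c hx

theorem Weil.sqT_prod {P X Y : Var k} {a : Mor P X} {b : Mor P Y} (h : IsProd a b) (hX : W.SqT X)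
    (hY : W.SqT Y) : W.SqT P := by
  refine W.prod_span h _ fun x y => ?_
  have hx := hX.ge (Submodule.mem_top (x := x))
  have hy := hY.ge (Submodule.mem_top (x := y))
  induction hx using Submodule.span_induction with
  | zero => simp
  | add x x' _ _ h1 h2 => rw [map_add, add_mul]; exact add_mem h1 h2
  | smul c x _ h1 => rw [map_smul, smul_mul_assoc]; exact Submodule.smul_mem _ c h1
  | mem x hx =>
    induction hy using Submodule.span_induction with
    | zero => simp
    | add y y' _ _ h1 h2 => rw [map_add, mul_add]; exact add_mem h1 h2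
    | smul c y _ h1 => rw [map_smul, mul_smul_comm]; exact Submodule.smul_mem _ c h1
    | mem y hy =>
      obtain ⟨⟨i, hi⟩, hx⟩ := hx
      obtain ⟨⟨j, hj⟩, hy⟩ := hy
      refine Submodule.subset_span ⟨⟨i + j, SetLike.mul_mem_graded (W.pull_gr a i x hi)
        (W.pull_gr b j y hj)⟩, fun Q p q _ => ?_⟩
      have h1 := SqW_pair W (hx _ _ _ (isProd_pv X X)) (a.comp p) (a.comp q)
      have h2 := SqW_pair W (hy _ _ _ (isProd_pv Y Y)) (b.comp p) (b.comp q)
      have h3 := W.mul_mem_Alg h1 h2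
      have e := W.comm Q j i _ (W.pull_gr (b.comp p) j y hj) _ (W.pull_gr (a.comp q) i x hi)
      simp only [map_mul, W.pull_pull]
      rw [mul_assoc, ← mul_assoc (W.pull (b.comp p) y), e]
      rcases neg_one_pow_eq_or (W.H Q) (j * i) with e' | e' <;> rw [e']
      · simpa only [one_mul, mul_assoc] using h3
      · simpa only [neg_mul, one_mul, mul_neg, mul_assoc] using neg_mem h3

theorem Weil.eq_zero_of_sqT {X : Var k} (hX : W.SqT X) {a : W.H X} (ha : a ∈ W.Alg X)
    (h : ∀ Z, IsSub Z → W.tr X (W.cl X Z * a) = 0) : a = 0 := by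
  refine W.poincare X a fun b => ?_
  have hb := hX.ge (Submodule.mem_top (x := b))
  induction hb using Submodule.span_induction with
  | zero => simp
  | add x y _ _ h1 h2 => rw [mul_add, map_add, h1, h2, add_zero]
  | smul c x _ h1 => rw [mul_smul_comm, map_smul, h1, smul_zero]
  | mem z hz =>
    by_contra hc
    have h1 := W.mul_mem_Alg (W.pull_mem_Alg (pvF X X) ha) (hz.2 _ _ _ (isProd_pv X X))
    obtain ⟨z', hz', e⟩ := W.exists_push (pvS X X) h1
    have e2 : z' - W.tr X (a * z) • z = 0 := by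
      refine W.poincare X _ fun b => ?_
      rw [sub_mul, map_sub, ← e b, smul_mul_assoc, map_smul, smul_eq_mul,
        ← W.tr_prod (isProd_pv X X), map_mul (W.pull _), map_mul (W.pull _)]
      simp only [mul_assoc, sub_self]
    have h2 : z ∈ W.Alg X := by
      have := Submodule.smul_mem _ (W.tr X (a * z))⁻¹ hz'
      rwa [sub_eq_zero.1 e2, smul_smul, inv_mul_cancel₀ hc, one_smul] at this
    rw [W.Alg_comm ha] at hc
    obtain ⟨Z, hZ, h3⟩ := W.exists_cl_of_Alg h2 hc
    exact h3 (h Z hZ)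

end Pool.Agent.MP_0c8446_ag
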