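import Pool.Agent.MP_0c8446_ag.DL.Lev
import Pool.Agent.MP_0c8446_ag.DL.StW

namespace Pool.Agent.MP_0c8446_ag

open MvPolynomial Set

universe u v w

variable {k : Type u} [Field k] [IsAlgClosed k] {K : Type v} [Field K] [CharZero K]
  (W : Weil.{u, v, w} k K) {Γ : Type u} [Group Γ]

theorem StepD_par {D : FrD k Γ} (L : Level D) {N : ℕ}
    (r : Γ →* Matrix (Fin (N + 1)) (Fin (N + 1)) k) (z : Fin (N + 1) → MvPolynomial D.σ k)
    {Ω : Type u} [Field Ω] [Algebra k Ω] (h : D.σ → Ω) (v : Vars (L.S.ext r).P.n → Ω) :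
    ParOn (L.S.ext r).Jᶜ (evs h (jn L.pt z : Vars (L.S.ext r).P.n → _)) v ↔
      ParOn L.S.Jᶜ (evs h L.pt) (fun s => v (pvL _ s)) ∧
        ∃ t : Ω, t ≠ 0 ∧ ∀ s, v ⟨Sum.inr (), s⟩ = t * aeval h (z s) :=
  (iff_of_eq (congrArg₂ (ParOn (L.S.ext r).Jᶜ) (evs_jn h L.pt z) (jn_eta v).symm)).trans
    (L.parOn_ext r)

/-- Adding a block that is determined by the point of the level. -/
theorem Weil.step_proper {D : FrD k Γ} (L : Level D) {N : ℕ}
    {r : Γ →* Matrix (Fin (N + 1)) (Fin (N + 1)) k} {z : Fin (N + 1) → MvPolynomial D.σ k}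
    (hz : D.NV z) (he : D.Equi r z)
    (par : ∀ (Ω : Type u) [Field Ω] [Algebra k Ω] [IsAlgClosed Ω] (h h' : D.σ → Ω), D.Fr h →
      D.Fr h' → L.Eqv h h' → ∃ t : Ω, t ≠ 0 ∧ ∀ s, aeval h' (z s) = t * aeval h (z s)) :
    ∃ (bd : Set (Set (L.S.ext r).P.pts)) (hc : SubCl bd) (hil : D.IL (L.S.ext r) (jn L.pt z) bd),
      W.Dec (L.S.ext r) (L.ext r z hz he bd hc hil).R bd → W.Dec L.S L.R L.bd := by
  refine ⟨{B | IsSub B ∧ closure ((pvF L.S.P (PN k N)).1 '' B) ∈ L.bd},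
    fun C hC => ⟨hC.1, fun C' h1 h2 => ⟨h1, (L.closed _ hC.2).2 _
      (h1.image_closure (pvF L.S.P (PN k N)).continuous) (closure_mono (image_mono h2))⟩⟩, ?_,
    W.dec_proper r ?_ fun _ h => h⟩
  · intro Ω Ω' _ _ _ _ _ _ Pl v h hv hh hp hO hn
    have hr := hv.of_le hn (Pl.pI_le hO)
    obtain ⟨hp, t, ht, hp'⟩ := (StepD_par L r z h v).1 hp
    rcases L.il Ω Ω' Pl _ h (on_pv_iff.1 hv).1 hh hp (fun a => hO _) (on_pv_iff.1 hr).1.1 with
      h1 | ⟨h', h1, h2, h3⟩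
    · exact Or.inl ⟨hr.isSub, (loc_pvF hr).symm ▸ h1⟩
    · obtain ⟨t', ht', h4⟩ := par Ω h' h h1 hh (h2.trans hp.symm)
      exact Or.inr ⟨h', h1, (StepD_par L r z h' v).2 ⟨h2, t * t', mul_ne_zero ht ht', fun s =>
        by rw [hp' s, h4 s, mul_assoc]⟩, h3⟩
  · rintro _ ⟨Ω, _, _, _, v, hv, rfl⟩
    obtain ⟨h, hh, hp, ha⟩ := FrD.exists_alg hv
    have ho : (pvVar L.S.P (PN k N)).On (jn v (evs h z)) := on_jn hv.1 (hz Ω h hh)
    refine ⟨_, ⟨Ω, _, _, inferInstance, jn v (evs h z), ⟨ho, h, hh, ?_⟩, rfl⟩, ho.isSub, ?_,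
      loc_pvF ho⟩
    · exact (StepD_par L r z h _).2 ⟨hp, 1, one_ne_zero, fun s => (one_mul _).symm⟩
    · refine ho.dim_loc.trans (Eq.trans ?_ hv.1.dim_loc.symm)
      have h1 := finite_rat univ (jn v (evs h z))
      change rk k (rat univ (jn v (evs h z))) = _
      rw [rat_jn] at h1 ⊢
      refine le_antisymm (rk_le_of_acl (finite_rat _ _) (union_subset (subset_acl _) ?_))
        (rk_mono h1 subset_union_left)
      rintro _ ⟨s, s', rfl⟩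
      exact div_mem_acl (aeval_mem_acl ha _) (aeval_mem_acl ha _)

end Pool.Agent.MP_0c8446_ag
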