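import Pool.Agent.MP_0c8446_ag.DL.StepLA

namespace Pool.Agent.MP_0c8446_ag

open MvPolynomial Set

universe u v w

variable {k : Type u} [Field k] [IsAlgClosed k] {Γ : Type u} [Group Γ] {D : FrD k Γ}

omit [IsAlgClosed k] in
theorem StepL_rk {Ω : Type u} [Field Ω] [Algebra k Ω] {S : Set Ω} (hS : S.Finite) {N : ℕ}
    {b c y : Fin N → Ω} {t : Ω} (ht : t ∉ acl k S) (hb : ∀ j, b j ∈ acl k S)
    (hc : ∀ j, c j ∈ acl k S) (h0 : ∃ j, c j ≠ 0) (hy : ∀ j, y j = b j + t * c j) :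
    rk k (S ∪ {x | ∃ s s', x = (Fin.cons 1 y : Fin (N + 1) → Ω) s /
      (Fin.cons 1 y : Fin (N + 1) → Ω) s'}) = rk k S + 1 := by
  rw [← rk_insert_of_notMem hS ht]
  have h1 : ∀ T : Set Ω, (1 : Ω) ∈ acl k T := fun T => by
    simpa using algebraMap_mem_acl (S := T) (1 : k)
  refine le_antisymm (rk_le_of_acl (hS.insert t) (union_subset
    ((subset_insert _ _).trans (subset_acl _)) ?_)) (rk_le_of_acl (hS.union ?_)
    (insert_subset ?_ (subset_union_left.trans (subset_acl _))))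
  · have h2 : ∀ s, (Fin.cons 1 y : Fin (N + 1) → Ω) s ∈ acl k (insert t S) := fun s => by
      refine Fin.cases (h1 _) (fun j => ?_) s
      rw [Fin.cons_succ, hy]
      exact add_mem_acl (acl_mono (subset_insert _ _) (hb j)) (mul_mem_acl
        (subset_acl _ (mem_insert _ _)) (acl_mono (subset_insert _ _) (hc j)))
    rintro _ ⟨s, s', rfl⟩
    exact div_mem_acl (h2 s) (h2 s')
  · refine (finite_range fun p : Fin (N + 1) × Fin (N + 1) =>
      (Fin.cons 1 y : Fin (N + 1) → Ω) p.1 / (Fin.cons 1 y : Fin (N + 1) → Ω) p.2).subset ?_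
    rintro _ ⟨s, s', rfl⟩
    exact ⟨(s, s'), rfl⟩
  · obtain ⟨j, hj⟩ := h0
    rw [show t = (y j - b j) / c j by rw [hy, add_sub_cancel_left, mul_div_cancel_right₀ _ hj]]
    exact div_mem_acl (sub_mem_acl (subset_acl _ (Or.inr ⟨j.succ, 0, by simp⟩))
      (acl_mono subset_union_left (hb j))) (acl_mono subset_union_left (hc j))

omit [IsAlgClosed k] in
theorem StepL_pI {Ω Ω' : Type u} [Field Ω] [Algebra k Ω] [Field Ω'] [Algebra k Ω'] {ι : Type}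
    {n : ι → ℕ} {N : ℕ} (Pl : Place k Ω' Ω) (φ : Ω →ₐ[k] Ω') {s : Ω'} (hs : s ≠ 0) (hO : s ∈ Pl.O)
    (h0 : Pl.red s = 0) (hφ : ∀ x, φ x ∈ Pl.O ∧ Pl.red (φ x) = x) (v : Vars n → Ω)
    {b c c' : Fin N → Ω} {y : Fin N → Ω'} (hy : ∀ j, y j = φ (b j) + s⁻¹ * φ (c j))
    (hc : ∃ t : Ω, t ≠ 0 ∧ ∀ j, c' j = t * c j) :
    pI k (jn (fun a => φ (v a)) (Fin.cons 1 y : Fin (N + 1) → Ω')) ≤
      pI k (jn v (Fin.cons 0 c' : Fin (N + 1) → Ω)) := by
  have p1 : ParOn univ (jn (fun a => φ (v a)) (Fin.cons 1 y : Fin (N + 1) → Ω'))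
      (jn (fun a => φ (v a)) (Fin.cons s fun j => s * φ (b j) + φ (c j) : Fin (N + 1) → Ω')) := by
    rintro (i | _) -
    · exact ⟨1, one_ne_zero, fun _ => (one_mul _).symm⟩
    · refine ⟨s, hs, fun j => Fin.cases (mul_one s).symm (fun j : Fin N => ?_) j⟩
      change s * φ (b j) + φ (c j) = s * y j
      rw [hy, mul_add, mul_inv_cancel_left₀ hs]
  have p2 : ParOn univ (jn v (Fin.cons 0 c : Fin (N + 1) → Ω))
      (jn v (Fin.cons 0 c' : Fin (N + 1) → Ω)) := by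
    obtain ⟨t, ht, hc⟩ := hc
    rintro (i | _) -
    · exact ⟨1, one_ne_zero, fun _ => (one_mul _).symm⟩
    · exact ⟨t, ht, fun j => Fin.cases (mul_zero t).symm hc j⟩
  have key : ∀ a, jn (fun a => φ (v a))
      (Fin.cons s fun j => s * φ (b j) + φ (c j) : Fin (N + 1) → Ω') a ∈ Pl.O ∧
      Pl.red (jn (fun a => φ (v a))
        (Fin.cons s fun j => s * φ (b j) + φ (c j) : Fin (N + 1) → Ω') a) =
        jn v (Fin.cons 0 c : Fin (N + 1) → Ω) a := by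
    rintro ⟨i | _, j⟩
    · exact hφ _
    · refine Fin.cases ⟨hO, h0⟩ (fun j : Fin N => ?_) j
      have h1 := Pl.O.mul_mem hO (hφ (b j)).1
      refine ⟨Pl.O.add_mem h1 (hφ _).1, ?_⟩
      change Pl.red (s * φ (b j) + φ (c j)) = c j
      rw [Pl.red_add h1 (hφ _).1, Pl.red_mul hO (hφ _).1, h0, zero_mul, zero_add, (hφ _).2]
  rw [← p1.pI_eq, p2.pI_eq, ← funext fun a => (key a).2]
  exact Pl.pI_le fun a => (key a).1

theorem StepL_inf {Ω : Type u} [Field Ω] [Algebra k Ω] {X : Var k} {N : ℕ}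
    {u : Vars (pvVar X (PN k (N + 1))).n → Ω} (hu : (pvVar X (PN k (N + 1))).On u)
    (h : (pvVar X (PN k (N + 1))).loc u ⊆ hInf X N) : u ⟨Sum.inr (), (0 : Fin (N + 2))⟩ = 0 :=
  (aeval_X u _).symm.trans ((hu.vanish_iff (isForm_X _)).1 h)

/-- The level obtained by adding a line bundle. -/
noncomputable def Level.line (L : Level D) {i : L.S.P.ι} (hi : i ∉ L.S.J)
    {b : Fin (L.S.P.n i + 1) → MvPolynomial D.σ k} (he : D.Equi (L.S.ρ i) b) {g : Prop}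
    (hl : D.Line (fun _ _ _ _ h h' => L.Eqv h h') b (fun s => L.pt ⟨i, s⟩) g) : Level D :=
  L.ext (plus (L.S.ρ i)) (Fin.cons 1 b) (D.nv_cons b) he.cons (L.bdL i) (L.subCl_bdL i)
    (L.il_bdL hi hl)

theorem Level.line_fibre (L : Level D) {i : L.S.P.ι} (hi : i ∉ L.S.J)
    {b : Fin (L.S.P.n i + 1) → MvPolynomial D.σ k} (he : D.Equi (L.S.ρ i) b) {g : Prop}
    (hl : D.Line (fun _ _ _ _ h h' => L.Eqv h h') b (fun s => L.pt ⟨i, s⟩) g)
    {C : Set L.S.P.pts} (hC : C ∈ L.R) :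
    ∃ C' : Set (L.S.lb i).P.pts, C' ∈ (L.line hi he hl).R ∧ IsSub C' ∧ dim C' = dim C + 1 ∧
      (pvF L.S.P (PN k (L.S.P.n i + 1))).1 '' C' ⊆ C ∧ ¬ C' ⊆ hInf L.S.P (L.S.P.n i) ∧
      (L.S.P.inf i).1 '' C ⊆ C' ∧ ∀ E, IsSub E → E ⊆ C' ∩ hInf L.S.P (L.S.P.n i) →
        closure ((pvF L.S.P (PN k (L.S.P.n i + 1))).1 '' E) ∈ L.bd ∨
          E ⊆ range (L.S.P.inf i).1 := by
  obtain ⟨Ω, _, _, _, v, hv, rfl⟩ := hC
  obtain ⟨h₀, hF, hp, ha⟩ := FrD.exists_alg hv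
  obtain ⟨Ω', _, _, _, φ, s, Pl, hs, hO, h0, hφ⟩ := exists_generic_place (k := k) (0 : Ω)
  have hs' : s⁻¹ ∉ acl k (range φ) := fun h => hs (by simpa using inv_mem_acl h)
  have s0 : s ≠ 0 := fun h => hs (by simpa [h] using algebraMap_mem_acl (S := range φ) (0 : k))
  have s1 : 1 + s⁻¹ ≠ 0 := fun h => hs' (by
    simpa [eq_neg_of_add_eq_zero_right h] using algebraMap_mem_acl (S := range φ) (-1 : k))
  obtain ⟨h', hF', he', hb, -⟩ := hl.mv Ω' (fun s => φ (h₀ s)) s⁻¹ (hF.map φ) fun _ => s1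
  have hy : ∀ j, evs h' b j = φ (evs h₀ b j) + s⁻¹ * φ (evs h₀ L.pt ⟨i, j⟩) := fun j => by
    rw [← congrFun (evs_map φ h₀ b) j, ← congrFun (evs_map φ h₀ L.pt) ⟨i, j⟩]
    exact hb j
  have ho : (pvVar L.S.P (PN k (L.S.P.n i + 1))).On
      (jn (fun a => φ (v a)) (Fin.cons 1 (evs h' b))) := on_jn (hv.1.map φ) ⟨0, one_ne_zero⟩
  have hR : D.famR (L.line hi he hl).S (L.line hi he hl).pt Ω'
      (jn (fun a => φ (v a)) (Fin.cons 1 (evs h' b))) := by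
    refine ⟨ho, h', hF', ?_⟩
    have h1 := (L.parOn_ext (plus (L.S.ρ i)) (z := evs h' (Fin.cons 1 b))
      (z' := Fin.cons 1 (evs h' b))).2 ⟨(ParOn.symm he').trans (evs_map φ h₀ L.pt ▸ hp.map φ), 1,
        one_ne_zero, fun j => Fin.cases (by simp [evs]) (fun j => by simp [evs]) j⟩
    rw [← evs_jn] at h1
    exact h1
  refine ⟨_, ⟨Ω', _, _, _, _, hR, rfl⟩, ho.isSub, ?_, ?_, fun h => ?_, ?_, fun E hE h => ?_⟩
  · refine ho.dim_loc.trans ?_
    rw [hv.1.dim_loc, ← rk_image φ, ← rat_map]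
    refine (congrArg (rk k) (rat_jn _ _)).trans (StepL_rk (finite_rat _ _) (fun h => hs' ?_)
      (fun j => ?_) (fun j => ?_) ?_ hy)
    · rw [rat_map] at h
      exact acl_mono (image_subset_range _ _) h
    · rw [rat_map, map_mem_acl_iff]
      exact aeval_mem_acl ha _
    · rw [rat_map, map_mem_acl_iff]
      exact aeval_mem_acl ha _
    · obtain ⟨j, hj⟩ := L.nz i hi Ω h₀ hF
      exact ⟨j, (_root_.map_ne_zero φ).2 hj⟩
  · exact subset_closure.trans ((loc_pvF ho).trans (Var.loc_map φ v)).le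
  · exact one_ne_zero (α := Ω') (StepL_inf ho h)
  · rw [← Var.loc_inf i hv.1]
    exact Var.loc_subset (StepL_pI Pl φ s0 hO h0 hφ v hy (hp i hi))
  · obtain ⟨Ω'', _, _, _, u, hu, rfl⟩ := Var.exists_generic _ hE
    rcases (L.line hi he hl).sp_pt hR hu.1 (hu.pI_le fun x hx => (h hx).1) with
      ⟨-, h'', -, hp''⟩ | ⟨-, h1 | h1 | h1⟩
    · have h2 := StepL_inf hu fun x hx => (h hx).2
      obtain ⟨t, ht, h3⟩ := hp'' (Sum.inr ()) fun h => h
      have h4 : 0 = t * aeval h'' (1 : MvPolynomial D.σ k) := h2.symm.trans (h3 0)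
      rw [map_one, mul_one] at h4
      exact (ht h4.symm).elim
    · exact Or.inl h1
    · obtain ⟨x, hx⟩ := hE.1.nonempty
      exact ((hInf_inter_zSec _ _).subset ⟨(h hx).2, h1 hx⟩).elim
    · exact Or.inr h1.1

end Pool.Agent.MP_0c8446_ag
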