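import Pool.Agent.MP_0c8446_ag.DL.Lev

namespace Pool.Agent.MP_0c8446_ag

open MvPolynomial Set

universe u v w

variable {k : Type u} [Field k] [IsAlgClosed k] {Γ : Type u} [Group Γ] {D : FrD k Γ}

/-- The frames over a point of a level move the vector `b` along the line with direction `c`
(along the punctured line through `0` if `g` holds). -/
structure FrD.Line (D : FrD k Γ) (e : FRel k D.σ) {ε : Type} (b c : ε → MvPolynomial D.σ k)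
    (g : Prop) : Prop where
  hg : g → b = c
  dir : ∀ (Ω : Type u) [Field Ω] [Algebra k Ω] [IsAlgClosed Ω] (h h' : D.σ → Ω), D.Fr h →
    D.Fr h' → e Ω h h' → ∃ t : Ω, ∀ s, aeval h' (b s) = aeval h (b s) + t * aeval h (c s)
  mv : ∀ (Ω : Type u) [Field Ω] [Algebra k Ω] [IsAlgClosed Ω] (h : D.σ → Ω) (t : Ω), D.Fr h →
    (g → 1 + t ≠ 0) → ∃ h', D.Fr h' ∧ e Ω h h' ∧
      (∀ s, aeval h' (b s) = aeval h (b s) + t * aeval h (c s)) ∧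
      ∀ O : Subalgebra k Ω, (∀ s, h s ∈ O) → t ∈ O → (g → (1 + t)⁻¹ ∈ O) → ∀ s, h' s ∈ O

/-- The boundary after adding a line bundle. -/
def Level.bdL (L : Level D) (i : L.S.P.ι) : Set (Set (L.S.lb i).P.pts) :=
  {C | IsSub C ∧ (closure ((pvF L.S.P (PN k (L.S.P.n i + 1))).1 '' C) ∈ L.bd ∨
    C ⊆ zSec L.S.P (L.S.P.n i) ∨
    (C ⊆ range (L.S.P.inf i).1 ∧ closure ((pvF L.S.P (PN k (L.S.P.n i + 1))).1 '' C) ∈ L.R))}

theorem Level.subCl_bdL (L : Level D) (i : L.S.P.ι) : SubCl (L.bdL i) := by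
  rintro C ⟨hC, h⟩
  refine ⟨hC, fun C' hC' hs => ⟨hC', ?_⟩⟩
  have h1 := hC'.image_closure (pvF L.S.P (PN k (L.S.P.n i + 1))).2.continuous
  have h2 : closure ((pvF L.S.P (PN k (L.S.P.n i + 1))).1 '' C') ⊆
      closure ((pvF L.S.P (PN k (L.S.P.n i + 1))).1 '' C) := closure_mono (image_mono hs)
  rcases h with h | h | h
  · exact Or.inl ((L.closed _ h).2 _ h1 h2)
  · exact Or.inr (Or.inl (hs.trans h))
  · rcases L.sp h.2 h1 h2 with h3 | h3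
    · exact Or.inr (Or.inr ⟨hs.trans h.1, h3⟩)
    · exact Or.inl h3

theorem Level.il_bdL (L : Level D) {i : L.S.P.ι} (hi : i ∉ L.S.J)
    {b : Fin (L.S.P.n i + 1) → MvPolynomial D.σ k} {g : Prop}
    (hl : D.Line (fun _ _ _ _ h h' => L.Eqv h h') b (fun s => L.pt ⟨i, s⟩) g) :
    D.IL (L.S.lb i) (jn L.pt (Fin.cons 1 b)) (L.bdL i) := by
  intro Ω Ω' _ _ _ _ _ _ Pl v h ho hh hp hO hn
  obtain ⟨v1, v2, rfl⟩ : ∃ (v1 : Vars L.S.P.n → Ω) (v2 : Fin (L.S.P.n i + 1 + 1) → Ω),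
      v = jn v1 v2 := ⟨_, _, (jn_eta v).symm⟩
  have hj : ∀ h' : D.σ → Ω, ParOn (n := (L.S.lb i).P.n) (L.S.lb i).Jᶜ
      (evs h' (jn L.pt (Fin.cons 1 b))) (jn v1 v2) ↔ ParOn L.S.Jᶜ (evs h' L.pt) v1 ∧
        ∃ t : Ω, t ≠ 0 ∧ ∀ s, v2 s = t * evs h' (Fin.cons 1 b : Fin (L.S.P.n i + 1 + 1) → _) s :=
    fun h' => (iff_of_eq (congrArg (fun w => ParOn (n := (L.S.lb i).P.n) (L.S.lb i).Jᶜ w
      (jn v1 v2)) (evs_jn h' L.pt (Fin.cons 1 b)))).trans (L.parOn_ext (plus (L.S.ρ i)))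
  obtain ⟨hp1, lam, hlam, hv2⟩ := (hj h).1 hp
  have ho1 : L.S.P.On v1 := (on_pv_iff.1 ho).1
  have hO1 : ∀ a, v1 a ∈ Pl.O := fun a => hO (pvL _ a)
  have hO2 : ∀ s, v2 s ∈ Pl.O := fun s => hO ⟨Sum.inr (), s⟩
  have hn1 : NZb fun a => Pl.red (v1 a) := fun j => hn (Sum.inl j)
  have hn2 : ∃ s, Pl.red (v2 s) ≠ 0 := hn (Sum.inr ())
  have hu := ho.of_le hn (Pl.pI_le hO)
  have hF : closure ((pvF L.S.P (PN k (L.S.P.n i + 1))).1 ''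
      (L.S.lb i).P.loc fun a => Pl.red (jn v1 v2 a)) = L.S.P.loc fun a => Pl.red (v1 a) :=
    loc_pvF hu
  have h20 : v2 0 = lam := by simpa [evs] using hv2 0
  have h2s : ∀ s, v2 s.succ = lam * aeval h (b s) := fun s => by simpa [evs] using hv2 s.succ
  rcases L.il Ω Ω' Pl v1 h ho1 hh hp1 hO1 hn1 with hb | ⟨h1, hh1, hp1', hO'⟩
  · exact Or.inl ⟨hu.isSub, Or.inl (hF ▸ hb)⟩
  obtain ⟨t, ht⟩ := hl.dir Ω h1 h hh1 hh (hp1'.trans hp1.symm)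
  have hc : ∀ s, aeval h1 (L.pt ⟨i, s⟩) ∈ Pl.O := fun s => Pl.aeval_mem hO' _
  have hb : ∀ s, aeval h1 (b s) ∈ Pl.O := fun s => Pl.aeval_mem hO' _
  have hc' : ∃ s, Pl.red (aeval h1 (L.pt ⟨i, s⟩)) ≠ 0 := by
    obtain ⟨s, hs⟩ := L.nz i hi Ω' _ (hh1.red Pl hO')
    exact ⟨s, by rwa [Pl.red_aeval hO']⟩
  have hg0 : g → ∀ s, aeval h (b s) = (1 + t) * aeval h1 (L.pt ⟨i, s⟩) := fun hg s => by
    rw [ht, hl.hg hg, add_mul, one_mul]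
  have hg1 : g → 1 + t ≠ 0 := fun hg h0 => by
    obtain ⟨s, hs⟩ := L.nz i hi Ω h hh
    have h3 := hg0 hg s
    rw [h0, zero_mul, hl.hg hg] at h3
    exact hs h3
  by_cases htO : t ∈ Pl.O
  · by_cases hgi : g → (1 + t)⁻¹ ∈ Pl.O
    · obtain ⟨h', hh', e', hb', hO''⟩ := hl.mv Ω h1 t hh1 hg1
      refine Or.inr ⟨h', hh', (hj h').2 ⟨(ParOn.symm e').trans hp1', lam, hlam, fun s => ?_⟩,
        hO'' Pl.O hO' htO hgi⟩
      refine Fin.cases ?_ (fun s => ?_) s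
      · simpa [evs] using h20
      · rw [h2s, ht, ← hb']
        simp [evs]
    · obtain ⟨hg, hni⟩ := Classical.not_imp.1 hgi
      have h3 : 1 + t ∈ Pl.O := Pl.O.add_mem Pl.O.one_mem htO
      have h4 : Pl.red (1 + t) = 0 := by_contra fun h4 => hni (Pl.inv_mem h3 h4)
      refine Or.inl ⟨hu.isSub, Or.inr (Or.inl fun x hx s =>
        (hu.vanish_iff (isForm_X _)).2 ((aeval_X _ _).trans ?_) x hx)⟩
      change Pl.red (v2 s.succ) = 0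
      rw [h2s, hg0 hg, Pl.red_mul (h20 ▸ hO2 0) (Pl.O.mul_mem h3 (hc s)), Pl.red_mul h3 (hc s), h4,
        zero_mul, mul_zero]
  obtain ⟨t0, ti, tr⟩ := Pl.inv_of_notMem htO
  let z : Fin (L.S.P.n i + 1 + 1) → Ω :=
    Fin.cons t⁻¹ fun s => t⁻¹ * aeval h1 (b s) + aeval h1 (L.pt ⟨i, s⟩)
  have hz : ∀ s, z s ∈ Pl.O := fun s =>
    Fin.cases ti (fun s => Pl.O.add_mem (Pl.O.mul_mem ti (hb s)) (hc s)) s
  have hzs : ∀ s, Pl.red (z (Fin.succ s)) = Pl.red (aeval h1 (L.pt ⟨i, s⟩)) := fun s => by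
    change Pl.red (_ + _) = _
    rw [Pl.red_add (Pl.O.mul_mem ti (hb s)) (hc s), Pl.red_mul ti (hb s), tr, zero_mul, zero_add]
  have hvz : ∀ s, v2 s = lam * t * z s := fun s => by
    refine Fin.cases ?_ (fun s => ?_) s
    · rw [h20]
      change lam = lam * t * t⁻¹
      rw [mul_assoc, mul_inv_cancel₀ t0, mul_one]
    · rw [h2s, ht]
      change _ = lam * t * (t⁻¹ * _ + _)
      rw [mul_assoc, mul_add t, mul_inv_cancel_left₀ t0]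
  obtain ⟨hm, hm'⟩ := Pl.par_unit hz hO2 hvz (hc'.elim fun s hs => ⟨s.succ, hzs s ▸ hs⟩) hn2
  obtain ⟨μ, hμ, hμ'⟩ := L.par_red Pl hh1 hp1' hO' hO1 hn1 i hi
  have hpar : ParOn univ (jn (fun a => Pl.red (v1 a))
      (Fin.cons 0 fun s => Pl.red (v1 ⟨i, s⟩) : Fin (L.S.P.n i + 1 + 1) → Ω'))
      (jn (fun a => Pl.red (v1 a)) fun s => Pl.red (v2 s)) := by
    refine (parOn_jn (mem_univ _)).2 ⟨ParOn.refl _ _, Pl.red (lam * t) * μ⁻¹,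
      mul_ne_zero hm' (inv_ne_zero hμ), fun s => ?_⟩
    rw [hvz, Pl.red_mul hm (hz s)]
    refine Fin.cases ?_ (fun s => ?_) s
    · change _ * Pl.red t⁻¹ = _ * 0
      rw [tr, mul_zero, mul_zero]
    · rw [hzs, Fin.cons_succ, show Pl.red (v1 ⟨i, s⟩) = _ from hμ' s, mul_assoc,
        inv_mul_cancel_left₀ hμ, Pl.red_aeval hO']
      rfl
  have he : (fun a => Pl.red (jn v1 v2 a)) = jn (fun a => Pl.red (v1 a)) fun s => Pl.red (v2 s) :=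
    funext fun | ⟨Sum.inl _, _⟩ => rfl | ⟨Sum.inr _, _⟩ => rfl
  have hR := L.famR_red Pl ho1 hh1 hp1' hO' hO1 hn1
  refine Or.inl ⟨hu.isSub, Or.inr (Or.inr ⟨?_, hF ▸ ⟨Ω', _, _, _, _, hR, rfl⟩⟩)⟩
  exact (Var.loc_par (X := pvVar L.S.P (PN k (L.S.P.n i + 1))) (he ▸ hpar)).subset.trans
    ((Var.loc_inf i hR.1).subset.trans (image_subset_range _ _))

end Pool.Agent.MP_0c8446_ag
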