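import Pool.Agent.MP_0c8446_ag.DL.StepD
import Pool.Agent.MP_0c8446_ag.DL.StepL
import Pool.Agent.MP_0c8446_ag.DL.LineW

namespace Pool.Agent.MP_0c8446_ag

open MvPolynomial Set

universe u v w

variable {k : Type u} [Field k] [IsAlgClosed k] {K : Type v} [Field K] [CharZero K]
  (W : Weil.{u, v, w} k K) {Γ : Type u} [Group Γ]

theorem Weil.step_line [Finite Γ] {D : FrD k Γ} (L : Level D) {i : L.S.P.ι} (hi : i ∉ L.S.J)
    {b : Fin (L.S.P.n i + 1) → MvPolynomial D.σ k} (he : D.Equi (L.S.ρ i) b) {g : Prop}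
    (hl : D.Line (fun _ _ _ _ h h' => L.Eqv h h') b (fun s => L.pt ⟨i, s⟩) g)
    (H : W.Dec (L.line hi he hl).S (L.line hi he hl).R (L.line hi he hl).bd) :
    W.Dec L.S L.R L.bd :=
  W.dec_line hi L.closed (fun _ hC => ⟨L.isSub_R hC, L.line_fibre hi he hl hC⟩)
    (fun _ hD => hD) H

/-- Fixing a vector that moves along a line. -/
theorem Weil.good_line [Finite Γ] {D : FrD k Γ} {e : FRel k D.σ} {V : Set (MvPolynomial D.σ k)}
    {ε : Type} [Fintype ε] [DecidableEq ε] [Nonempty ε] {r : Γ →* Matrix ε ε k}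
    {b c : ε → MvPolynomial D.σ k} (hb : D.Equi r b) (hc : D.Equi r c) (hn : D.NV c) {g : Prop}
    (par : ∀ (Ω : Type u) [Field Ω] [Algebra k Ω] [IsAlgClosed Ω] (h h' : D.σ → Ω), D.Fr h →
      D.Fr h' → e Ω h h' → ∃ t : Ω, t ≠ 0 ∧ ∀ s, aeval h' (c s) = t * aeval h (c s))
    (hl : D.Line e b c g)
    (H : W.Good D (fun Ω _ _ _ h h' => e Ω h h' ∧ evs h b = evs h' b) (V ∪ range b)) :
    W.Good D e V := by
  intro L hL hV
  obtain ⟨N, hN⟩ : ∃ N, Fintype.card ε = N + 1 :=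
    Nat.exists_eq_succ_of_ne_zero Fintype.card_ne_zero
  let e0 : Fin (N + 1) ≃ ε := (Fintype.equivFinOfCardEq hN).symm
  have hb' := hb.reindex e0
  have hc' := hc.reindex e0
  have hn' : D.NV fun s => c (e0 s) := fun Ω _ _ h hh => by
    obtain ⟨s, hs⟩ := hn Ω h hh
    exact ⟨e0.symm s, by simpa using hs⟩
  have par' : ∀ (Ω : Type u) [Field Ω] [Algebra k Ω] [IsAlgClosed Ω] (h h' : D.σ → Ω), D.Fr h →
      D.Fr h' → L.Eqv h h' →
      ∃ t : Ω, t ≠ 0 ∧ ∀ s, aeval h' (c (e0 s)) = t * aeval h (c (e0 s)) := by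
    intro Ω _ _ _ h h' hh hh' hE
    obtain ⟨t, ht, hs⟩ := par Ω h h' hh hh' ((hL Ω h h' hh hh').1 hE)
    exact ⟨t, ht, fun s => hs _⟩
  obtain ⟨bd, hcl, hil, H1⟩ := W.step_proper L hn' hc' par'
  refine H1 ?_
  let L1 : Level D := L.ext _ (fun s => c (e0 s)) hn' hc' bd hcl hil
  have hE1 : ∀ (Ω : Type u) [Field Ω] [Algebra k Ω] [IsAlgClosed Ω] (h h' : D.σ → Ω), D.Fr h →
      D.Fr h' → (L1.Eqv h h' ↔ e Ω h h') := by
    intro Ω _ _ _ h h' hh hh'
    rw [← hL Ω h h' hh hh']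
    exact L.ext_eqv.trans ⟨fun x => x.1, fun x => ⟨x, par' Ω h h' hh hh' x⟩⟩
  have hi : (Sum.inr () : L1.S.P.ι) ∉ L1.S.J := fun h => h
  have he1 : D.Equi (L1.S.ρ (Sum.inr ())) fun s : Fin (N + 1) => b (e0 s) := hb'
  have hl0 : D.Line (fun _ _ _ _ h h' => L1.Eqv h h') (fun s : Fin (N + 1) => b (e0 s))
      (fun s : Fin (N + 1) => c (e0 s)) g :=
    { hg := fun hg => by rw [hl.hg hg]
      dir := fun Ω _ _ _ h h' hh hh' hE => by
        obtain ⟨t, ht⟩ := hl.dir Ω h h' hh hh' ((hE1 Ω h h' hh hh').1 hE)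
        exact ⟨t, fun s => ht _⟩
      mv := fun Ω _ _ _ h t hh ht => by
        obtain ⟨h', hh', hE, h1, h2⟩ := hl.mv Ω h t hh ht
        exact ⟨h', hh', (hE1 Ω h h' hh hh').2 hE, fun s => h1 _, h2⟩ }
  have hl1 : D.Line (fun _ _ _ _ h h' => L1.Eqv h h') (fun s : Fin (N + 1) => b (e0 s))
      (fun s => L1.pt ⟨Sum.inr (), s⟩) g := hl0
  refine W.step_line L1 hi he1 hl1 (H (L1.line hi he1 hl1) ?_ ?_)
  · intro Ω _ _ _ h h' hh hh'
    refine L1.ext_eqv.trans (and_congr (hE1 Ω h h' hh hh') ⟨?_, ?_⟩)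
    · rintro ⟨t, -, ht⟩
      have h0 : (aeval h' (1 : MvPolynomial D.σ k) : Ω) = t * aeval h (1 : MvPolynomial D.σ k) :=
        ht 0
      have ht1 : t = 1 := by simpa using h0.symm
      funext s
      have h1 : (aeval h' (b (e0 (e0.symm s))) : Ω) = t * aeval h (b (e0 (e0.symm s))) :=
        ht (Fin.succ (e0.symm s))
      rw [ht1, one_mul, e0.apply_symm_apply] at h1
      exact h1.symm
    · intro hb
      refine ⟨1, one_ne_zero, fun s => ?_⟩
      refine Fin.cases ?_ (fun s => ?_) s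
      · change (aeval h' (1 : MvPolynomial D.σ k) : Ω) = 1 * aeval h (1 : MvPolynomial D.σ k)
        simp
      · rw [one_mul]
        exact (congrFun hb (e0 s)).symm
  · rintro f (hf | ⟨s, rfl⟩)
    · exact ((hV f hf).ext).ext
    · have h1 := L1.reg_ext (r := plus (L1.S.ρ (Sum.inr ())))
        (z := Fin.cons 1 fun s : Fin (N + 1) => b (e0 s)) (hz := D.nv_cons _) (he := he1.cons)
        (bd := L1.bdL (Sum.inr ())) (hc := L1.subCl_bdL _) (hil := L1.il_bdL hi hl1) rfl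
        (Fin.succ (e0.symm s))
      have h2 : (L1.line hi he1 hl1).Reg (b (e0 (e0.symm s))) := h1
      rwa [e0.apply_symm_apply] at h2

end Pool.Agent.MP_0c8446_ag
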